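import Pool.Agent.MSP.Defs

/-!
# MSP / Abl: partial summation on a block

PROOF. Abel summation: with `S m = ∑_{Ioc M m} g`, `∑_{Ioc M M'} w n g n = w M' S M' + ∑_{n ∈ Ioc M (M'-1)} (w n - w (n+1)) S n` (induction on `M'`, `M ≤ M'`); the norm is at most
`w M' B + ∑ (w n - w(n+1)) B = w(M+1) B` (telescoping), if `M < M'`; if `M' ≤ M` the sum is empty.
(The hypothesis `0 ≤ B` is needed if `M' < M`.)
`block_cpow`: `w n = n^(-σ)`, `g n = n^(-it)`, `n^(-(σ+it)) = n^(-σ) n^(-it)` (`Complex.cpow_add`, `Complex.ofReal_cpow`), `w (M+1) ≤ M^(-σ)`.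
-/

set_option autoImplicit false

open MeasureTheory Filter Topology Set

namespace Pool.MSP

private theorem abl_id (w : ℕ → ℝ) (g : ℕ → ℂ) (M k : ℕ) :
    ∑ n ∈ Finset.Ioc M (M + 1 + k), (w n : ℂ) * g n =
      (w (M + 1 + k) : ℂ) * ∑ n ∈ Finset.Ioc M (M + 1 + k), g n +
      ∑ j ∈ Finset.range k, ((w (M + 1 + j) - w (M + 1 + j + 1) : ℝ) : ℂ) *
        ∑ n ∈ Finset.Ioc M (M + 1 + j), g n := by
  induction k with
  | zero => simp
  | succ k ih =>
    have h1 : Finset.Ioc M (M + 1 + (k + 1)) =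
        insert (M + 1 + (k + 1)) (Finset.Ioc M (M + 1 + k)) := by
      ext n
      simp only [Finset.mem_Ioc, Finset.mem_insert]
      omega
    have h2 : M + 1 + (k + 1) ∉ Finset.Ioc M (M + 1 + k) := by
      simp
    rw [h1, Finset.sum_insert h2, Finset.sum_insert h2, ih, Finset.sum_range_succ]
    push_cast
    have h3 : M + 1 + (k + 1) = M + 1 + k + 1 := by ring
    rw [h3]
    ring

theorem abel_block (w : ℕ → ℝ) (g : ℕ → ℂ) (M M' : ℕ) (B : ℝ) (hw0 : ∀ n, 0 ≤ w n)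
    (hw : ∀ n, M < n → w (n + 1) ≤ w n)
    (hB : ∀ m, M ≤ m → m ≤ M' → ‖∑ n ∈ Finset.Ioc M m, g n‖ ≤ B) (hB0 : 0 ≤ B) :
    ‖∑ n ∈ Finset.Ioc M M', (w n : ℂ) * g n‖ ≤ w (M + 1) * B := by
  rcases le_or_gt M' M with h | h
  · rw [Finset.Ioc_eq_empty_of_le h, Finset.sum_empty, norm_zero]
    exact mul_nonneg (hw0 _) hB0
  · obtain ⟨k, rfl⟩ : ∃ k, M' = M + 1 + k := ⟨M' - (M + 1), by omega⟩
    rw [abl_id]
    have hB1 : ∀ j, j ≤ k → ‖∑ n ∈ Finset.Ioc M (M + 1 + j), g n‖ ≤ B := fun j hj =>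
      hB _ (by omega) (by omega)
    have htel : ∀ k : ℕ, ∑ j ∈ Finset.range k, (w (M + 1 + j) - w (M + 1 + j + 1)) =
        w (M + 1) - w (M + 1 + k) := by
      intro k
      induction k with
      | zero => simp
      | succ k ih =>
        rw [Finset.sum_range_succ, ih]
        have : M + 1 + (k + 1) = M + 1 + k + 1 := by ring
        rw [this]
        ring
    calc ‖(w (M + 1 + k) : ℂ) * ∑ n ∈ Finset.Ioc M (M + 1 + k), g n +
          ∑ j ∈ Finset.range k, ((w (M + 1 + j) - w (M + 1 + j + 1) : ℝ) : ℂ) *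
            ∑ n ∈ Finset.Ioc M (M + 1 + j), g n‖
        ≤ w (M + 1 + k) * B + ∑ j ∈ Finset.range k, (w (M + 1 + j) - w (M + 1 + j + 1)) * B := by
          refine (norm_add_le _ _).trans (add_le_add ?_ ((norm_sum_le _ _).trans
            (Finset.sum_le_sum fun j hj => ?_)))
          · rw [norm_mul, Complex.norm_real, Real.norm_of_nonneg (hw0 _)]
            exact mul_le_mul_of_nonneg_left (hB1 k le_rfl) (hw0 _)
          · have h1 : 0 ≤ w (M + 1 + j) - w (M + 1 + j + 1) :=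
              sub_nonneg.2 (hw _ (by omega))
            rw [norm_mul, Complex.norm_real, Real.norm_of_nonneg h1]
            exact mul_le_mul_of_nonneg_left (hB1 j (Finset.mem_range.1 hj).le) h1
      _ = w (M + 1) * B := by
          rw [← Finset.sum_mul, htel]
          ring

theorem block_cpow {s : ℂ} (hs : 0 ≤ s.re) {M M' : ℕ} (hM : 1 ≤ M) {B : ℝ}
    (hB : ∀ m, M ≤ m → m ≤ M' →
      ‖∑ n ∈ Finset.Ioc M m, (n : ℂ) ^ (-(s.im * Complex.I))‖ ≤ B) (hB0 : 0 ≤ B) :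
    ‖∑ n ∈ Finset.Ioc M M', (n : ℂ) ^ (-s)‖ ≤ (M : ℝ) ^ (-s.re) * B := by
  have h1 : ∑ n ∈ Finset.Ioc M M', (n : ℂ) ^ (-s) =
      ∑ n ∈ Finset.Ioc M M', (((n : ℝ) ^ (-s.re) : ℝ) : ℂ) *
        (n : ℂ) ^ (-(s.im * Complex.I)) := by
    refine Finset.sum_congr rfl fun n hn => ?_
    have hn0 : (n : ℂ) ≠ 0 := by
      have := (Finset.mem_Ioc.1 hn).1
      exact_mod_cast (by omega : n ≠ 0)
    rw [Complex.ofReal_cpow (Nat.cast_nonneg n), Complex.ofReal_natCast, ← Complex.cpow_add _ _ hn0]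
    congr 1
    apply Complex.ext <;> simp
  rw [h1]
  refine (abel_block (fun n => (n : ℝ) ^ (-s.re)) (fun n => (n : ℂ) ^ (-(s.im * Complex.I)))
    M M' B (fun n => Real.rpow_nonneg (Nat.cast_nonneg n) _) (fun n hn => ?_) hB hB0).trans ?_
  · exact Real.rpow_le_rpow_of_nonpos (by exact_mod_cast (by omega : 0 < n)) (by push_cast; linarith)
      (by linarith)
  · refine mul_le_mul_of_nonneg_right ?_ hB0
    exact Real.rpow_le_rpow_of_nonpos (by exact_mod_cast hM) (by push_cast; linarith) (by linarith)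

end Pool.MSP
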