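import Pool.Agent.MSP.Idt

/-!
# MSP / Smo: the effect of smoothing

PROOF. `G = cutF F N`, `δ = 1/N^2`, `l ∈ [1,2]`. `E(v) = ‖G v - sm δ G v‖ ≤ (1/δ) ∫_0^δ ‖G v - G(v e^u)‖ du`. Given `η > 0` let `‖F t - F t'‖ ≤ η` for `|t-t'| ≤ 2/N` (`N` large). Then:
`v ≤ 0`: `E = 0`; `0 < v ≤ N e^(-δ)`: `v e^u ≤ N` and `|v e^u - v| ≤ N (e^δ - 1) ≤ 2 N δ = 2/N`: `E ≤ η`; `N e^(-δ) < v ≤ N`: `E ≤ 2`; `v > N`: `E = 0`.
Sum: `∑_{n ≤ N} lam k n E(l n) ≤ (log N)^k (η ψ(N) + 2 ∑_{n ≤ N, N e^(-δ) < l n ≤ N} Λ(n))`; the last sum has at most one term (the interval `(N e^(-δ)/l, N/l]` has length `≤ N δ ≤ 1/N < 1`), so it is `≤ log N`. `ψ(N) ≤ C N` (`Chebyshev.psi_le_const_mul_self`).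
Integral: `∫_1^∞ (log t)^k E(l t) dt ≤ (log N)^k (η N + 2/N)` (`l t ≤ N` implies `t ≤ N`). Total `≤ (log N)^k (η C N + 2 log N + η N + 2) ≤ ε N (log N)^k` for `η` small and `N` large.
Integrability of `(log t)^k G(l t)` and `(log t)^k sm δ G(l t)` on `(1,∞)`: bounded, measurable, supported in `t ≤ N`.
-/

set_option autoImplicit false

open MeasureTheory Filter Topology Set

namespace Pool.MSP

private lemma sF_zero {F : ℝ → ℂ} {X v : ℝ} (h : v ≤ 0 ∨ X < v) : cutF F X v = 0 := by
  unfold cutF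
  refine indicator_of_notMem ?_ F
  rintro ⟨h1, h2⟩
  rcases h with h | h
  · exact absurd h1 (not_lt.2 h)
  · exact absurd h2 (not_le.2 h)

private lemma sF_eq {F : ℝ → ℂ} {X v : ℝ} (h1 : 0 < v) (h2 : v ≤ X) : cutF F X v = F v :=
  indicator_of_mem (show v ∈ Ioc 0 X from ⟨h1, h2⟩) F

private lemma sF_norm {F : ℝ → ℂ} (hb : ∀ t, ‖F t‖ ≤ 1) (X v : ℝ) : ‖cutF F X v‖ ≤ 1 := by
  by_cases h : v ∈ Ioc (0 : ℝ) X
  · rw [sF_eq h.1 h.2]
    exact hb v
  · unfold cutF
    rw [indicator_of_notMem h, norm_zero]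
    exact zero_le_one

private lemma sF_meas {F : ℝ → ℂ} (hF : Continuous F) (X : ℝ) : Measurable (cutF F X) :=
  hF.measurable.indicator measurableSet_Ioc

/-- the local estimate inside -/
private lemma sF_in {F : ℝ → ℂ} (hF : Continuous F) {X δ η ρ v : ℝ} (hδ : 0 < δ)
    (hρ : ∀ s t : ℝ, |s - t| ≤ ρ → ‖F s - F t‖ ≤ η) (hv : 0 < v) (hv1 : v * Real.exp δ ≤ X)
    (hv2 : v * (Real.exp δ - 1) ≤ ρ) :
    ‖cutF F X v - sm δ (cutF F X) v‖ ≤ η := by
  have hev : ∀ u ∈ Icc (0 : ℝ) δ, 0 < v * Real.exp u ∧ v * Real.exp u ≤ X ∧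
      |v - v * Real.exp u| ≤ ρ := by
    intro u hu
    have h1 : Real.exp u ≤ Real.exp δ := Real.exp_le_exp.2 hu.2
    have h2 : 1 ≤ Real.exp u := Real.one_le_exp hu.1
    refine ⟨by positivity, (mul_le_mul_of_nonneg_left h1 hv.le).trans hv1, ?_⟩
    rw [abs_of_nonpos (by nlinarith)]
    refine le_trans ?_ hv2
    nlinarith
  have hvX : v ≤ X := by
    have := (hev 0 ⟨le_rfl, hδ.le⟩).2.1
    rwa [Real.exp_zero, mul_one] at this
  have hint : ∫ u in (0 : ℝ)..δ, cutF F X (v * Real.exp u) =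
      ∫ u in (0 : ℝ)..δ, F (v * Real.exp u) := by
    refine intervalIntegral.integral_congr fun u hu => ?_
    rw [uIcc_of_le hδ.le] at hu
    exact sF_eq (hev u hu).1 (hev u hu).2.1
  have hc : Continuous fun u : ℝ => F (v * Real.exp u) :=
    hF.comp (continuous_const.mul Real.continuous_exp)
  have hconst : ∫ _ in (0 : ℝ)..δ, F v = (δ : ℂ) * F v := by
    rw [intervalIntegral.integral_const, sub_zero]
    exact Complex.real_smul
  have hδC : ((1 / δ : ℝ) : ℂ) * (δ : ℂ) = 1 := by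
    rw [← Complex.ofReal_mul, one_div, inv_mul_cancel₀ hδ.ne', Complex.ofReal_one]
  have hdiff : cutF F X v - sm δ (cutF F X) v =
      ((1 / δ : ℝ) : ℂ) * ∫ u in (0 : ℝ)..δ, (F v - F (v * Real.exp u)) := by
    rw [intervalIntegral.integral_sub (continuous_const.intervalIntegrable _ _)
      (hc.intervalIntegrable _ _), hconst, mul_sub, ← mul_assoc, hδC, one_mul, sF_eq hv hvX]
    unfold sm
    rw [hint]
  rw [hdiff, norm_mul]
  have h3 : ‖∫ u in (0 : ℝ)..δ, (F v - F (v * Real.exp u))‖ ≤ η * |δ - 0| := by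
    refine intervalIntegral.norm_integral_le_of_norm_le_const fun u hu => ?_
    rw [uIoc_of_le hδ.le] at hu
    exact hρ _ _ (hev u ⟨hu.1.le, hu.2⟩).2.2
  rw [sub_zero, abs_of_pos hδ] at h3
  have h4 : ‖((1 / δ : ℝ) : ℂ)‖ = 1 / δ := by
    rw [Complex.norm_real, Real.norm_eq_abs, abs_of_pos (by positivity)]
  rw [h4]
  calc 1 / δ * ‖∫ u in (0 : ℝ)..δ, (F v - F (v * Real.exp u))‖ ≤ 1 / δ * (η * δ) :=
        mul_le_mul_of_nonneg_left h3 (by positivity)
    _ = η := by field_simp

private lemma sF_ind (x y c : ℝ) : Integrable ((Ioc x y).indicator fun _ => c) :=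
  (integrable_indicator_iff measurableSet_Ioc).2 (integrableOn_const measure_Ioc_lt_top.ne)

/-- integrability of the weighted functions -/
private lemma sF_intg (k N : ℕ) {H : ℝ → ℂ} (hm : Measurable H)
    (hb : ∀ v, ‖H v‖ ≤ 1) (h0 : ∀ v, (N : ℝ) < v → H v = 0) {l : ℝ} (hl : 1 ≤ l) :
    IntegrableOn (fun t => ((Real.log t ^ k : ℝ) : ℂ) * H (l * t)) (Ioi (1 : ℝ)) := by
  have hI : Integrable ((Ioc (1 : ℝ) N).indicator fun _ => Real.log N ^ k)
      (volume.restrict (Ioi (1 : ℝ))) := (sF_ind _ _ _).restrict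
  refine Integrable.mono' hI ?_ ?_
  · refine (Measurable.mul ?_ (hm.comp (measurable_const.mul measurable_id))).aestronglyMeasurable
    exact Complex.measurable_ofReal.comp (Real.measurable_log.pow_const k)
  · refine (ae_restrict_iff' measurableSet_Ioi).2 (Eventually.of_forall fun t ht => ?_)
    have ht1 : (1 : ℝ) < t := ht
    have hN0 : (0 : ℝ) ≤ Real.log N := Real.log_natCast_nonneg N
    by_cases h : t ≤ N
    · rw [indicator_of_mem (show t ∈ Ioc (1 : ℝ) N from ⟨ht1, h⟩), norm_mul, Complex.norm_real,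
        Real.norm_eq_abs, abs_of_nonneg (pow_nonneg (Real.log_nonneg ht1.le) k)]
      calc Real.log t ^ k * ‖H (l * t)‖ ≤ Real.log N ^ k * 1 := by
            refine mul_le_mul (pow_le_pow_left₀ (Real.log_nonneg ht1.le)
              (Real.log_le_log (by linarith) h) k) (hb _) (norm_nonneg _) (pow_nonneg hN0 k)
        _ = Real.log N ^ k := mul_one _
    · rw [h0 (l * t) (by nlinarith), mul_zero, norm_zero]
      exact indicator_nonneg (fun _ _ => pow_nonneg hN0 k) t

private lemma sF_log (ε : ℝ) (hε : 0 < ε) : ∃ N₁ : ℕ, ∀ N : ℕ, N₁ ≤ N →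
    2 * Real.log N + 2 ≤ ε * N := by
  have h1 : Tendsto (fun x : ℝ => (2 * Real.log x + 2) / x) atTop (𝓝 0) := by
    have h2 : Tendsto (fun x : ℝ => 2 * (Real.log x / x) + 2 / x) atTop (𝓝 (2 * 0 + 0)) := by
      refine Tendsto.add (Tendsto.const_mul 2 ?_) ?_
      · have := Real.tendsto_pow_log_div_mul_add_atTop 1 0 1 one_ne_zero
        simpa using this
      · exact tendsto_const_nhds.div_atTop tendsto_id
    have h3 : (2 : ℝ) * 0 + 0 = 0 := by norm_num
    rw [h3] at h2
    refine h2.congr fun x => ?_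
    ring
  have h4 := (h1.comp tendsto_natCast_atTop_atTop).eventually (gt_mem_nhds hε)
  obtain ⟨N₁, hN₁⟩ := (h4.and (eventually_ge_atTop 1)).exists_forall_of_atTop
  refine ⟨N₁, fun N hN => ?_⟩
  obtain ⟨h5, h6⟩ := hN₁ N hN
  have hNpos : (0 : ℝ) < N := by exact_mod_cast h6
  have h7 : (2 * Real.log N + 2) / N < ε := h5
  exact ((div_lt_iff₀ hNpos).1 h7).le

theorem smo (k : ℕ) {F : ℝ → ℂ} (hF : UniformContinuous F) (hb : ∀ t, ‖F t‖ ≤ 1) {ε : ℝ}
    (hε : 0 < ε) : ∃ N₀ : ℕ, ∀ N ≥ N₀, ∀ l ∈ Icc (1 : ℝ) 2,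
    ‖Dk k N (cutF F N) l - Dk k N (sm (1 / (N : ℝ) ^ 2) (cutF F N)) l‖ ≤
      ε * (N * Real.log N ^ k) := by
  set C : ℝ := Real.log 4 + 4 with hC
  have hC0 : 0 < C := by
    have := Real.log_pos (show (1 : ℝ) < 4 by norm_num)
    linarith
  set η : ℝ := ε / (2 * (C + 1)) with hη
  have hη0 : 0 < η := by positivity
  obtain ⟨ρ, hρ0, hρ⟩ := Metric.uniformContinuous_iff.1 hF η hη0
  obtain ⟨N₁, hN₁⟩ := sF_log (ε / 2) (by positivity)
  obtain ⟨N₂, hN₂⟩ := exists_nat_gt (2 / ρ)
  refine ⟨max (max N₁ N₂) 2, fun N hN l hl => ?_⟩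
  have hNN₁ : N₁ ≤ N := (le_max_left _ _).trans ((le_max_left _ _).trans hN)
  have hNN₂ : N₂ ≤ N := (le_max_right _ _).trans ((le_max_left _ _).trans hN)
  have hN2 : 2 ≤ N := (le_max_right _ _).trans hN
  have hN2' : (2 : ℝ) ≤ N := by exact_mod_cast hN2
  have hNpos : (0 : ℝ) < N := by linarith
  have hl1 : 1 ≤ l := hl.1
  have hlog0 : 0 ≤ Real.log N := Real.log_natCast_nonneg N
  have hρ' : ∀ s t : ℝ, |s - t| ≤ 2 / N → ‖F s - F t‖ ≤ η := by
    intro s t hst
    have h1 : 2 / (N : ℝ) < ρ := by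
      have h2 : 2 / ρ < N := hN₂.trans_le (by exact_mod_cast hNN₂)
      rw [div_lt_iff₀ hρ0] at h2
      rw [div_lt_iff₀ hNpos]
      linarith
    have h3 := hρ (a := s) (b := t) (by rw [Real.dist_eq]; exact hst.trans_lt h1)
    rw [dist_eq_norm] at h3
    exact h3.le
  set δ : ℝ := 1 / (N : ℝ) ^ 2 with hδ
  have hδ0 : 0 < δ := by positivity
  have hδN : N * δ = 1 / N := by
    rw [hδ]
    field_simp
  have hδ1 : δ ≤ 1 := by
    rw [hδ, div_le_one (by positivity)]
    nlinarith
  have he1 : 1 - δ ≤ Real.exp (-δ) := by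
    have := Real.add_one_le_exp (-δ)
    linarith
  have he2 : Real.exp δ - 1 ≤ 2 * δ := by
    have h1 := Real.exp_bound_div_one_sub_of_interval' hδ0 (by
      have : δ ≤ 1 / 4 := by
        rw [hδ]
        exact div_le_div_of_nonneg_left (by norm_num) (by norm_num) (by nlinarith)
      linarith)
    have h2 : δ ≤ 1 / 4 := by
      rw [hδ]
      exact div_le_div_of_nonneg_left (by norm_num) (by norm_num) (by nlinarith)
    have h3 : 1 / (1 - δ) ≤ 1 + 2 * δ := by
      rw [div_le_iff₀ (by linarith)]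
      nlinarith
    linarith
  set G : ℝ → ℂ := cutF F N with hG
  have hFc : Continuous F := hF.continuous
  have hGm : Measurable G := sF_meas hFc N
  have hGb : ∀ v, ‖G v‖ ≤ 1 := sF_norm hb N
  have hG0 : ∀ v, v ≤ 0 ∨ (N : ℝ) < v → G v = 0 := fun v hv => sF_zero hv
  have hSm : Measurable (sm δ G) := sm_measurable hGm
  have hSb : ∀ v, ‖sm δ G v‖ ≤ 1 := sm_norm_le hδ0 hGb
  have hS0 : ∀ v, v ≤ 0 ∨ (N : ℝ) < v → sm δ G v = 0 := fun v hv =>
    sm_zero hδ0 hG0 hv hNpos.le
  -- pointwise bounds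
  have e1 : ∀ v, 0 < v → v ≤ N * Real.exp (-δ) → ‖G v - sm δ G v‖ ≤ η := by
    intro v hv hv1
    have h1 : v * Real.exp δ ≤ N := by
      have h2 := mul_le_mul_of_nonneg_right hv1 (Real.exp_pos δ).le
      rwa [mul_assoc, ← Real.exp_add, neg_add_cancel, Real.exp_zero, mul_one] at h2
    have h2 : v ≤ N := by
      have := Real.one_le_exp hδ0.le
      nlinarith
    have hz : 0 ≤ Real.exp δ - 1 := by
      have := Real.one_le_exp hδ0.le
      linarith
    refine sF_in hFc hδ0 hρ' hv h1 ?_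
    calc v * (Real.exp δ - 1) ≤ N * (2 * δ) := mul_le_mul h2 he2 hz hNpos.le
      _ = 2 / N := by
        rw [show (N : ℝ) * (2 * δ) = 2 * (N * δ) by ring, hδN]
        ring
  have e2 : ∀ v, ‖G v - sm δ G v‖ ≤ 2 := by
    intro v
    have h1 := norm_sub_le (G v) (sm δ G v)
    have h2 := hGb v
    have h3 := hSb v
    linarith
  have e3 : ∀ v, (N : ℝ) < v → ‖G v - sm δ G v‖ = 0 := by
    intro v hv
    rw [hG0 v (Or.inr hv), hS0 v (Or.inr hv), sub_zero, norm_zero]
  -- the sum
  have hsum : ‖(∑ n ∈ Finset.Icc 1 N, (lam k n : ℂ) * G (l * n)) -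
      ∑ n ∈ Finset.Icc 1 N, (lam k n : ℂ) * sm δ G (l * n)‖ ≤
      Real.log N ^ k * (η * (C * N) + 2 * Real.log N) := by
    classical
    set S : Finset ℕ := (Finset.Icc 1 N).filter fun n =>
      N * Real.exp (-δ) < l * n ∧ l * n ≤ (N : ℝ) with hS
    have hScard : S.card ≤ 1 := by
      rw [Finset.card_le_one]
      have key : ∀ a ∈ S, ∀ b ∈ S, ¬ a < b := by
        intro a ha b hb' hab
        have ha' := (Finset.mem_filter.1 ha).2
        have hb'' := (Finset.mem_filter.1 hb').2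
        have h1 : (a : ℝ) + 1 ≤ b := by exact_mod_cast hab
        have h2 : l * a + l ≤ l * b := by nlinarith
        have h3 : (N : ℝ) * (1 - δ) ≤ N * Real.exp (-δ) :=
          mul_le_mul_of_nonneg_left he1 hNpos.le
        have h4 : (N : ℝ) * (1 - δ) = N - 1 / N := by
          rw [mul_sub, mul_one, hδN]
        have h5 : 1 / (N : ℝ) ≤ 1 := by
          rw [div_le_one hNpos]
          linarith
        linarith [ha'.1, hb''.2]
      intro a ha b hb'
      rcases lt_trichotomy a b with h | h | h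
      · exact absurd h (key a ha b hb')
      · exact h
      · exact absurd h (key b hb' a ha)
    have hterm : ∀ n ∈ Finset.Icc 1 N, ‖(lam k n : ℂ) * G (l * n) -
        (lam k n : ℂ) * sm δ G (l * n)‖ ≤
        Real.log N ^ k * (η * ArithmeticFunction.vonMangoldt n +
          (if N * Real.exp (-δ) < l * n ∧ l * n ≤ (N : ℝ) then 2 * Real.log N else 0)) := by
      intro n hn
      obtain ⟨hn1, hn2⟩ := Finset.mem_Icc.1 hn
      have hn1' : (1 : ℝ) ≤ n := by exact_mod_cast hn1
      have hnN : (n : ℝ) ≤ N := by exact_mod_cast hn2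
      have hlogn : Real.log n ≤ Real.log N := Real.log_le_log (by linarith) hnN
      have hlogn0 : 0 ≤ Real.log n := Real.log_nonneg hn1'
      have hp : Real.log n ^ k ≤ Real.log N ^ k := pow_le_pow_left₀ hlogn0 hlogn k
      have hp0 : 0 ≤ Real.log n ^ k := pow_nonneg hlogn0 k
      have hpN : 0 ≤ Real.log N ^ k := pow_nonneg hlog0 k
      have hΛ0 : 0 ≤ ArithmeticFunction.vonMangoldt n := ArithmeticFunction.vonMangoldt_nonneg
      have hΛ1 : ArithmeticFunction.vonMangoldt n ≤ Real.log n :=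
        ArithmeticFunction.vonMangoldt_le_log
      rw [← mul_sub, norm_mul, Complex.norm_real, Real.norm_eq_abs, abs_of_nonneg (lam_nonneg k n)]
      unfold lam
      have hln : 0 < l * n := by positivity
      rcases le_or_gt (l * n) (N * Real.exp (-δ)) with h | h
      · rw [if_neg (fun hh => absurd hh.1 (not_lt.2 h)), add_zero]
        have h1 := e1 (l * n) hln h
        calc ArithmeticFunction.vonMangoldt n * Real.log n ^ k * ‖G (l * n) - sm δ G (l * n)‖
            ≤ ArithmeticFunction.vonMangoldt n * Real.log N ^ k * η := by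
              refine mul_le_mul (mul_le_mul_of_nonneg_left hp hΛ0) h1 (norm_nonneg _)
                (mul_nonneg hΛ0 hpN)
          _ = _ := by ring
      · rcases le_or_gt (l * n) (N : ℝ) with h' | h'
        · rw [if_pos ⟨h, h'⟩]
          have h1 := e2 (l * n)
          calc ArithmeticFunction.vonMangoldt n * Real.log n ^ k * ‖G (l * n) - sm δ G (l * n)‖
              ≤ Real.log N * Real.log N ^ k * 2 := by
                refine mul_le_mul (mul_le_mul (hΛ1.trans hlogn) hp hp0 hlog0) h1 (norm_nonneg _)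
                  (mul_nonneg hlog0 hpN)
            _ = Real.log N ^ k * (0 + 2 * Real.log N) := by ring
            _ ≤ _ := by
                refine mul_le_mul_of_nonneg_left ?_ hpN
                have := mul_nonneg hη0.le hΛ0
                linarith
        · rw [e3 (l * n) h', mul_zero, if_neg (fun hh => absurd hh.2 (not_le.2 h')), add_zero]
          positivity
    rw [← Finset.sum_sub_distrib]
    refine (norm_sum_le_of_le _ hterm).trans ?_
    rw [← Finset.mul_sum, Finset.sum_add_distrib, ← Finset.mul_sum, ← Finset.sum_filter,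
      Finset.sum_const, nsmul_eq_mul]
    have hpN : 0 ≤ Real.log N ^ k := pow_nonneg hlog0 k
    refine mul_le_mul_of_nonneg_left (add_le_add ?_ ?_) hpN
    · refine mul_le_mul_of_nonneg_left ?_ hη0.le
      have h1 := Chebyshev.psi_le_const_mul_self hNpos.le
      unfold Chebyshev.psi at h1
      rw [Nat.floor_natCast] at h1
      have h2 : Finset.Ioc 0 N = Finset.Icc 1 N := by
        ext m
        simp only [Finset.mem_Ioc, Finset.mem_Icc]
        omega
      rw [h2] at h1
      exact h1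
    · have h1 : (S.card : ℝ) ≤ 1 := by exact_mod_cast hScard
      have h2 : 0 ≤ 2 * Real.log N := by positivity
      calc (S.card : ℝ) * (2 * Real.log N) ≤ 1 * (2 * Real.log N) :=
            mul_le_mul_of_nonneg_right h1 h2
        _ = 2 * Real.log N := one_mul _
  -- the integral
  have hint : ‖(∫ t in Ioi (1 : ℝ), ((Real.log t ^ k : ℝ) : ℂ) * G (l * t)) -
      ∫ t in Ioi (1 : ℝ), ((Real.log t ^ k : ℝ) : ℂ) * sm δ G (l * t)‖ ≤
      Real.log N ^ k * (η * N + 2) := by
    have hpN : 0 ≤ Real.log N ^ k := pow_nonneg hlog0 k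
    rw [← integral_sub (sF_intg k N hGm hGb (fun v hv => hG0 v (Or.inr hv)) hl1)
      (sF_intg k N hSm hSb (fun v hv => hS0 v (Or.inr hv)) hl1)]
    set b1 : ℝ → ℝ := (Ioc (1 : ℝ) N).indicator fun _ => Real.log N ^ k * η with hb1
    set b2 : ℝ → ℝ := (Ioc (N * Real.exp (-δ) / l) (N / l)).indicator
      fun _ => Real.log N ^ k * 2 with hb2
    have hi1 : Integrable b1 := sF_ind _ _ _
    have hi2 : Integrable b2 := sF_ind _ _ _
    have hb1n : ∀ t, 0 ≤ b1 t := fun t => indicator_nonneg (fun _ _ => by positivity) t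
    have hb2n : ∀ t, 0 ≤ b2 t := fun t => indicator_nonneg (fun _ _ => by positivity) t
    have hl0 : 0 < l := by linarith
    have hle : ‖∫ t in Ioi (1 : ℝ), (((Real.log t ^ k : ℝ) : ℂ) * G (l * t) -
        ((Real.log t ^ k : ℝ) : ℂ) * sm δ G (l * t))‖ ≤ ∫ t in Ioi (1 : ℝ), (b1 t + b2 t) := by
      refine norm_integral_le_of_norm_le (hi1.add hi2).restrict ?_
      refine (ae_restrict_iff' measurableSet_Ioi).2 (Eventually.of_forall fun t ht => ?_)
      have ht1 : (1 : ℝ) < t := ht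
      have hlt0 : 0 ≤ Real.log t := Real.log_nonneg ht1.le
      have hlt : 0 < l * t := by positivity
      rw [← mul_sub, norm_mul, Complex.norm_real, Real.norm_eq_abs,
        abs_of_nonneg (pow_nonneg hlt0 k)]
      rcases le_or_gt (l * t) (N : ℝ) with h' | h'
      · have htN : t ≤ N := by nlinarith
        have hp : Real.log t ^ k ≤ Real.log N ^ k :=
          pow_le_pow_left₀ hlt0 (Real.log_le_log (by linarith) htN) k
        rcases le_or_gt (l * t) (N * Real.exp (-δ)) with h | h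
        · have h1 : Real.log t ^ k * ‖G (l * t) - sm δ G (l * t)‖ ≤ Real.log N ^ k * η :=
            mul_le_mul hp (e1 _ hlt h) (norm_nonneg _) hpN
          have h2 : b1 t = Real.log N ^ k * η :=
            indicator_of_mem (show t ∈ Ioc (1 : ℝ) N from ⟨ht1, htN⟩) _
          have h3 := hb2n t
          linarith
        · have h1 : Real.log t ^ k * ‖G (l * t) - sm δ G (l * t)‖ ≤ Real.log N ^ k * 2 :=
            mul_le_mul hp (e2 _) (norm_nonneg _) hpN
          have h2 : b2 t = Real.log N ^ k * 2 := by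
            refine indicator_of_mem (show t ∈ Ioc (N * Real.exp (-δ) / l) (N / l) from ?_) _
            exact ⟨(div_lt_iff₀ hl0).2 (by linarith), (le_div_iff₀ hl0).2 (by linarith)⟩
          have h3 := hb1n t
          linarith
      · rw [e3 _ h', mul_zero]
        exact add_nonneg (hb1n t) (hb2n t)
    refine hle.trans ?_
    have h1 : ∫ t in Ioi (1 : ℝ), (b1 t + b2 t) ≤ ∫ t, (b1 t + b2 t) :=
      setIntegral_le_integral (hi1.add hi2)
        (Eventually.of_forall fun t => add_nonneg (hb1n t) (hb2n t))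
    refine h1.trans ?_
    rw [integral_add hi1 hi2]
    have h2 : ∫ t, b1 t = (N - 1) * (Real.log N ^ k * η) := by
      rw [hb1, integral_indicator measurableSet_Ioc, setIntegral_const, smul_eq_mul,
        measureReal_def, Real.volume_Ioc, ENNReal.toReal_ofReal (by linarith)]
    have hexp1 : Real.exp (-δ) ≤ 1 := Real.exp_le_one_iff.2 (by linarith)
    have h3 : ∫ t, b2 t = (N / l - N * Real.exp (-δ) / l) * (Real.log N ^ k * 2) := by
      rw [hb2, integral_indicator measurableSet_Ioc, setIntegral_const, smul_eq_mul,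
        measureReal_def, Real.volume_Ioc, ENNReal.toReal_ofReal]
      rw [← sub_div]
      refine div_nonneg ?_ hl0.le
      nlinarith
    rw [h2, h3]
    have h4 : (N : ℝ) / l - N * Real.exp (-δ) / l ≤ 1 := by
      rw [← sub_div, div_le_one hl0]
      have h5 : (N : ℝ) * (1 - δ) ≤ N * Real.exp (-δ) :=
        mul_le_mul_of_nonneg_left he1 hNpos.le
      have h6 : (N : ℝ) * (1 - δ) = N - 1 / N := by
        rw [mul_sub, mul_one, hδN]
      have h7 : 1 / (N : ℝ) ≤ 1 := by
        rw [div_le_one hNpos]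
        linarith
      linarith
    have h5 : ((N : ℝ) - 1) * (Real.log N ^ k * η) ≤ Real.log N ^ k * (η * N) := by
      have : 0 ≤ Real.log N ^ k * η := by positivity
      nlinarith
    have h6 : ((N : ℝ) / l - N * Real.exp (-δ) / l) * (Real.log N ^ k * 2) ≤
        1 * (Real.log N ^ k * 2) := mul_le_mul_of_nonneg_right h4 (by positivity)
    linarith
  -- conclusion
  unfold Dk
  have hfin : Real.log N ^ k * (η * (C * N) + 2 * Real.log N) +
      Real.log N ^ k * (η * N + 2) ≤ ε * (N * Real.log N ^ k) := by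
    have hpN : 0 ≤ Real.log N ^ k := pow_nonneg hlog0 k
    have h1 : η * (C * N) + 2 * Real.log N + (η * N + 2) ≤ ε * N := by
      have h2 := hN₁ N hNN₁
      have h3 : η * (C * N) + η * N = ε / 2 * N := by
        rw [hη]
        field_simp
      linarith
    calc _ = Real.log N ^ k * (η * (C * N) + 2 * Real.log N + (η * N + 2)) := by ring
      _ ≤ Real.log N ^ k * (ε * N) := mul_le_mul_of_nonneg_left h1 hpN
      _ = _ := by ring
  refine le_trans ?_ hfin
  rw [sub_sub_sub_comm]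
  exact (norm_sub_le _ _).trans (add_le_add hsum hint)

end Pool.MSP
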