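import Pool.Agent.MSP.Ltw
import Pool.Agent.MSP.Smo

/-!
# MSP / Bcl: almost everywhere convergence along `N_j = ⌊exp √j⌋`

PROOF. `30 ≤ k`, `G_j = cutF F N_j` (measurable, `‖·‖ ≤ 1`, zero outside `(0,N_j]`). `a_j(l) = ‖Dk k N_j (sm (1/N_j^2) G_j) l‖^2/(N_j (log N_j)^k)^2`. `l2`: `∫⁻_{[1,2]} a_j ≤ C (log N_j)^(2 bk k - 2k)`, and `2 bk k - 2 k = 38/5 - (2/5) k ≤ -22/5`;
`log N_j ≥ √j/2` for `j ≥ 4` (`N_j ≥ exp(√j)/2`, and `√j - log 2 ≥ √j/2`): the bound is `≤ C' j^(-2)` for `j ≥ 16`: summable. So `∫⁻ ∑' a_j < ∞` (drop finitely many `j` with `N_j < 3`), hence `∑ a_j(l) < ∞` for a.e. `l ∈ [1,2]` and `a_j(l) → 0`.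
`smo`: the difference to `Dk k N_j G_j l/(N_j (log N_j)^k)` tends to `0` uniformly on `[1,2]`.
`Nj_ratio`: `N_(j+1)/N_j → 1`: `√(j+1) - √j → 0`, `N_j/exp √j → 1`. `Nj_tendsto`, `Nj_mono` are clear.
-/

set_option autoImplicit false

open MeasureTheory Filter Topology Set

namespace Pool.MSP

/-- the sequence `⌊exp √j⌋` -/
noncomputable def Nj (j : ℕ) : ℕ := ⌊Real.exp (Real.sqrt j)⌋₊

theorem Nj_mono : Monotone Nj := by
  intro i j hij
  unfold Nj
  exact Nat.floor_mono (Real.exp_le_exp.2 (Real.sqrt_le_sqrt (by exact_mod_cast hij)))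

private theorem sqrt_tendsto : Tendsto (fun j : ℕ => Real.sqrt (j : ℝ)) atTop atTop :=
  Real.tendsto_sqrt_atTop.comp tendsto_natCast_atTop_atTop

private theorem exp_tendsto : Tendsto (fun j : ℕ => Real.exp (Real.sqrt (j : ℝ))) atTop atTop :=
  Real.tendsto_exp_atTop.comp sqrt_tendsto

theorem Nj_tendsto : Tendsto Nj atTop atTop :=
  (tendsto_nat_floor_atTop (α := ℝ)).comp exp_tendsto

theorem Nj_ratio : Tendsto (fun j => (Nj (j + 1) : ℝ) / Nj j) atTop (𝓝 1) := by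
  have h1 : Tendsto (fun j : ℕ => (Nj j : ℝ) / Real.exp (Real.sqrt (j : ℝ))) atTop (𝓝 1) :=
    (tendsto_nat_floor_div_atTop (R := ℝ)).comp exp_tendsto
  have h2 : Tendsto (fun j : ℕ => (Nj (j + 1) : ℝ) / Real.exp (Real.sqrt ((j + 1 : ℕ) : ℝ)))
      atTop (𝓝 1) := h1.comp (tendsto_add_atTop_nat 1)
  have h3 : Tendsto (fun j : ℕ => Real.sqrt ((j + 1 : ℕ) : ℝ) - Real.sqrt (j : ℝ)) atTop
      (𝓝 0) := by
    have h4 : Tendsto (fun j : ℕ => (Real.sqrt ((j : ℕ) : ℝ))⁻¹) atTop (𝓝 0) :=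
      tendsto_inv_atTop_zero.comp sqrt_tendsto
    refine tendsto_of_tendsto_of_tendsto_of_le_of_le' tendsto_const_nhds h4 ?_ ?_
    · refine Eventually.of_forall fun j => ?_
      have : Real.sqrt (j : ℝ) ≤ Real.sqrt ((j + 1 : ℕ) : ℝ) :=
        Real.sqrt_le_sqrt (by push_cast; linarith)
      linarith
    · filter_upwards [eventually_gt_atTop 0] with j hj
      have hj0 : (0 : ℝ) < j := by exact_mod_cast hj
      have e1 : 0 < Real.sqrt (j : ℝ) := Real.sqrt_pos.2 hj0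
      have e2 : Real.sqrt (j : ℝ) ^ 2 = j := Real.sq_sqrt hj0.le
      have e3 : Real.sqrt ((j + 1 : ℕ) : ℝ) ^ 2 = j + 1 := by
        rw [Real.sq_sqrt (by positivity)]
        push_cast
        ring
      have e4 : Real.sqrt (j : ℝ) ≤ Real.sqrt ((j + 1 : ℕ) : ℝ) :=
        Real.sqrt_le_sqrt (by push_cast; linarith)
      rw [← one_div, le_div_iff₀ e1]
      nlinarith
  have h5 : Tendsto (fun j : ℕ => Real.exp (Real.sqrt ((j + 1 : ℕ) : ℝ) - Real.sqrt (j : ℝ)))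
      atTop (𝓝 1) := by
    have := (Real.continuous_exp.tendsto 0).comp h3
    rwa [Real.exp_zero] at this
  have h6 := (h2.mul h5).div h1 one_ne_zero
  rw [mul_one, div_one] at h6
  refine h6.congr fun j => ?_
  rw [Pi.div_apply, Real.exp_sub]
  have e1 := (Real.exp_pos (Real.sqrt ((j + 1 : ℕ) : ℝ))).ne'
  have e2 := (Real.exp_pos (Real.sqrt (j : ℝ))).ne'
  rcases eq_or_ne (Nj j : ℝ) 0 with h0 | h0
  · rw [h0]
    simp
  · field_simp

private theorem Nj_log {j : ℕ} (hj : 4 ≤ j) :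
    3 ≤ Nj j ∧ Real.sqrt j / 2 ≤ Real.log (Nj j) ∧ 2 ≤ Real.sqrt j := by
  have h1 : 2 ≤ Real.sqrt j := by
    apply Real.le_sqrt_of_sq_le
    have : (4 : ℝ) ≤ j := by exact_mod_cast hj
    linarith
  have h2 := Real.quadratic_le_exp_of_nonneg (x := Real.sqrt j) (by linarith)
  have h3 : 5 ≤ Real.exp (Real.sqrt j) := by nlinarith
  have h4 : Real.exp (Real.sqrt j) < Nj j + 1 := Nat.lt_floor_add_one _
  have h5 : (4 : ℝ) < Nj j := by linarith
  have h6 : 4 < Nj j := by exact_mod_cast h5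
  refine ⟨by omega, ?_, h1⟩
  have h7 : Real.exp (Real.sqrt j) / 2 ≤ Nj j := by linarith
  have h8 := Real.log_le_log (by positivity) h7
  rw [Real.log_div (by positivity) (by norm_num), Real.log_exp] at h8
  have h9 := Real.log_two_lt_d9
  linarith

private theorem cutF_props {F : ℝ → ℂ} (hF : Continuous F) (hb : ∀ t, ‖F t‖ ≤ 1) (X : ℝ) :
    Measurable (cutF F X) ∧ (∀ v, ‖cutF F X v‖ ≤ 1) ∧
      ∀ v, v ≤ 0 ∨ X < v → cutF F X v = 0 := by
  refine ⟨hF.measurable.indicator measurableSet_Ioc, fun v => ?_, fun v hv => ?_⟩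
  · unfold cutF
    exact (norm_indicator_le_norm_self F v).trans (hb v)
  · unfold cutF
    refine Set.indicator_of_notMem ?_ F
    rintro ⟨h1, h2⟩
    rcases hv with hv | hv <;> linarith

theorem bcl {k : ℕ} (hk : 30 ≤ k) {F : ℝ → ℂ} (hF : UniformContinuous F)
    (hb : ∀ t, ‖F t‖ ≤ 1) :
    ∀ᵐ l ∂(volume.restrict (Icc (1 : ℝ) 2)),
      Tendsto (fun j => Dk k (Nj j) (cutF F (Nj j)) l /
        ((Nj j * Real.log (Nj j) ^ k : ℝ) : ℂ)) atTop (𝓝 0) := by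
  obtain ⟨C, hC, hl2⟩ := l2 k
  set R : ℕ → ℝ := fun j => Nj j * Real.log (Nj j) ^ k with hR
  set D : ℕ → ℝ → ℂ := fun j => Dk k (Nj j) (sm (1 / (Nj j : ℝ) ^ 2) (cutF F (Nj j))) with hD
  have hDm : ∀ j, Measurable (D j) := fun j =>
    Dk_measurable k _ (sm_measurable (cutF_props hF.continuous hb _).1)
  have hRpos : ∀ j, 4 ≤ j → 0 < R j := by
    intro j hj
    obtain ⟨h1, h2, h3⟩ := Nj_log hj
    have h4 : (0 : ℝ) < Nj j := by
      have : 0 < Nj j := by omega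
      exact_mod_cast this
    have h5 : 0 < Real.log (Nj j) := by linarith
    positivity
  -- the bound of the integrals
  have hint : ∀ j, 4 ≤ j → ∫⁻ l in Icc (1 : ℝ) 2, ‖(((R j)⁻¹ : ℝ) : ℂ) * D j l‖ₑ ^ 2 ≤
      ENNReal.ofReal (16 * C * (1 / (j : ℝ) ^ 2)) := by
    intro j hj
    obtain ⟨h1, h2, h3⟩ := Nj_log hj
    obtain ⟨c1, c2, c3⟩ := cutF_props hF.continuous hb (Nj j)
    have h4 := hl2 (Nj j) (cutF F (Nj j)) h1 c1 c2 c3
    have hRj := hRpos j hj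
    have h5 : ∫⁻ l in Icc (1 : ℝ) 2, ‖(((R j)⁻¹ : ℝ) : ℂ) * D j l‖ₑ ^ 2 =
        ENNReal.ofReal ((R j)⁻¹ ^ 2) * ∫⁻ l in Icc (1 : ℝ) 2, ‖D j l‖ₑ ^ 2 := by
      rw [← lintegral_const_mul _ ((hDm j).enorm.pow_const 2)]
      refine lintegral_congr fun l => ?_
      have h6 : ‖(((R j)⁻¹ : ℝ) : ℂ)‖ₑ = ENNReal.ofReal (R j)⁻¹ := by
        rw [← ofReal_norm, Complex.norm_real, Real.norm_of_nonneg (by positivity)]
      rw [enorm_mul, mul_pow, h6, ENNReal.ofReal_pow (by positivity)]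
    rw [h5]
    refine (mul_le_mul_right h4 _).trans ?_
    rw [← ENNReal.ofReal_mul (by positivity)]
    refine ENNReal.ofReal_le_ofReal ?_
    obtain ⟨L, hL⟩ : ∃ L, L = Real.log (Nj j) := ⟨_, rfl⟩
    obtain ⟨M, hM⟩ : ∃ M : ℝ, M = Nj j := ⟨_, rfl⟩
    have hM0 : 0 < M := by
      rw [hM]
      have : 0 < Nj j := by omega
      exact_mod_cast this
    rw [← hL] at h2
    have hL1 : 1 ≤ L := by linarith
    have hL0 : 0 < L := by linarith
    have e1 : L ^ (2 * bk k) ≤ L ^ (2 * k) / L ^ 4 := by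
      have e2 : 2 * bk k ≤ 2 * (k : ℝ) - 4 := by
        have : (30 : ℝ) ≤ k := by exact_mod_cast hk
        unfold bk
        linarith
      have e3 := Real.rpow_le_rpow_of_exponent_le hL1 e2
      rw [Real.rpow_sub hL0] at e3
      have e4 : L ^ (2 * (k : ℝ)) = L ^ (2 * k) := by
        rw [← Real.rpow_natCast]
        push_cast
        rfl
      have e5 : L ^ (4 : ℝ) = L ^ 4 := by
        rw [← Real.rpow_natCast]
        push_cast
        rfl
      rwa [e4, e5] at e3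
    have e6 : 1 / L ^ 4 ≤ 16 * (1 / (j : ℝ) ^ 2) := by
      have hj0 : (0 : ℝ) < j := by
        have : 0 < j := by omega
        exact_mod_cast this
      have e7 : Real.sqrt (j : ℝ) ^ 2 = j := Real.sq_sqrt hj0.le
      have e8 : (Real.sqrt j / 2) ^ 4 ≤ L ^ 4 := pow_le_pow_left₀ (by positivity) h2 4
      have e9 : (Real.sqrt (j : ℝ) / 2) ^ 4 = (j : ℝ) ^ 2 / 16 := by
        calc (Real.sqrt (j : ℝ) / 2) ^ 4 = (Real.sqrt (j : ℝ) ^ 2) ^ 2 / 16 := by ring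
          _ = _ := by rw [e7]
      rw [e9] at e8
      calc 1 / L ^ 4 ≤ 1 / ((j : ℝ) ^ 2 / 16) := one_div_le_one_div_of_le (by positivity) e8
        _ = _ := by field_simp
    have e10 : (R j)⁻¹ ^ 2 = 1 / (M ^ 2 * L ^ (2 * k)) := by
      rw [hR]
      simp only
      rw [← hL, ← hM]
      rw [inv_pow, mul_pow, ← pow_mul, mul_comm k 2, one_div]
    rw [e10, ← hL, ← hM]
    calc 1 / (M ^ 2 * L ^ (2 * k)) * (C * M ^ 2 * L ^ (2 * bk k)) ≤
          1 / (M ^ 2 * L ^ (2 * k)) * (C * M ^ 2 * (L ^ (2 * k) / L ^ 4)) := by gcongr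
      _ = C * (1 / L ^ 4) := by field_simp
      _ ≤ C * (16 * (1 / (j : ℝ) ^ 2)) := mul_le_mul_of_nonneg_left e6 hC.le
      _ = _ := by ring
  have hsum : ∑' j : ℕ, ∫⁻ l in Icc (1 : ℝ) 2, ‖(((R (j + 4))⁻¹ : ℝ) : ℂ) * D (j + 4) l‖ₑ ^ 2 ≠
      ⊤ := by
    have h1 : Summable (fun j : ℕ => 16 * C * (1 / ((j + 4 : ℕ) : ℝ) ^ 2)) := by
      refine Summable.mul_left _ ?_
      exact (summable_nat_add_iff 4 (f := fun j : ℕ => 1 / (j : ℝ) ^ 2)).2
        (Real.summable_one_div_nat_pow.2 (by norm_num))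
    have h2 := h1.tsum_ofReal_ne_top
    refine ne_top_of_le_ne_top h2 (ENNReal.tsum_le_tsum fun j => ?_)
    exact hint (j + 4) (by omega)
  rw [← lintegral_tsum (fun j => (((hDm (j + 4)).const_mul _).enorm.pow_const 2).aemeasurable)]
    at hsum
  have hae := ae_lt_top' (AEMeasurable.tsum (fun j =>
    (((hDm (j + 4)).const_mul _).enorm.pow_const 2).aemeasurable)) hsum
  filter_upwards [hae, ae_restrict_mem measurableSet_Icc] with l hl hlI
  have t1 := ENNReal.tendsto_atTop_zero_of_tsum_ne_top hl.ne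
  have t2 : Tendsto (fun j : ℕ => ‖(((R (j + 4))⁻¹ : ℝ) : ℂ) * D (j + 4) l‖ ^ 2) atTop
      (𝓝 0) := by
    have t3 := (ENNReal.tendsto_toReal ENNReal.zero_ne_top).comp t1
    rw [ENNReal.toReal_zero] at t3
    refine t3.congr fun j => ?_
    simp only [Function.comp_apply]
    rw [ENNReal.toReal_pow, toReal_enorm]
  have t4 : Tendsto (fun j : ℕ => ‖(((R (j + 4))⁻¹ : ℝ) : ℂ) * D (j + 4) l‖) atTop (𝓝 0) := by
    have t5 := (Real.continuous_sqrt.tendsto 0).comp t2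
    rw [Real.sqrt_zero] at t5
    refine t5.congr fun j => ?_
    simp only [Function.comp_apply]
    rw [Real.sqrt_sq (norm_nonneg _)]
  have t6 : Tendsto (fun j : ℕ => (((R j)⁻¹ : ℝ) : ℂ) * D j l) atTop (𝓝 0) :=
    (tendsto_add_atTop_iff_nat 4).1 (tendsto_zero_iff_norm_tendsto_zero.2 t4)
  have t7 : Tendsto (fun j : ℕ => (((R j)⁻¹ : ℝ) : ℂ) *
      (Dk k (Nj j) (cutF F (Nj j)) l - D j l)) atTop (𝓝 0) := by
    rw [tendsto_zero_iff_norm_tendsto_zero]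
    rw [Metric.tendsto_atTop]
    intro ε hε
    obtain ⟨N₀, hN₀⟩ := smo k hF hb (half_pos hε)
    obtain ⟨J, hJ⟩ := (tendsto_atTop.1 Nj_tendsto N₀).exists_forall_of_atTop
    refine ⟨max J 4, fun j hj => ?_⟩
    have hjJ : J ≤ j := (le_max_left _ _).trans hj
    have hj4 : 4 ≤ j := (le_max_right _ _).trans hj
    have h1 := hN₀ (Nj j) (hJ j hjJ) l hlI
    have h2 := hRpos j hj4
    rw [Real.dist_eq, sub_zero, abs_of_nonneg (norm_nonneg _), norm_mul, Complex.norm_real,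
      Real.norm_of_nonneg (by positivity)]
    have h3 : (R j)⁻¹ * ‖Dk k (Nj j) (cutF F (Nj j)) l - D j l‖ ≤ (R j)⁻¹ * (ε / 2 * R j) :=
      mul_le_mul_of_nonneg_left h1 (by positivity)
    have h4 : (R j)⁻¹ * (ε / 2 * R j) = ε / 2 := by field_simp
    rw [h4] at h3
    linarith
  have t8 := t6.add t7
  rw [add_zero] at t8
  refine t8.congr fun j => ?_
  rw [hR]
  simp only
  rw [div_eq_mul_inv]
  push_cast
  ring

end Pool.MSP
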