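import Pool.Agent.MSP.Defs

/-!
# MSP / Cnv: correlation of a function with a finite measure

PROOF. The function `(w, v) ↦ g (w + v)` is measurable and `∫∫ ‖g(w+v)‖ dw dm(v) = m(ℝ) ‖g‖₁ < ∞` (translation invariance), so it is integrable for `volume.prod m` (`integrable_prod_iff'` or `Integrable.prod...`); `conv_integrable`: `Integrable.integral_prod_left`.
`conv_memLp`: Cauchy-Schwarz `‖∫ g(w+v) dm‖^2 ≤ m(ℝ) ∫ ‖g(w+v)‖^2 dm(v)` and Tonelli: `∫⁻ ‖·‖^2 ≤ m(ℝ)^2 ∫⁻ ‖g‖^2 < ∞` (work with `lintegral`: `(∫⁻ ‖g(w+v)‖ₑ dm)^2 ≤ m univ * ∫⁻ ‖g(w+v)‖ₑ^2 dm`, `ENNReal.lintegral_mul_le_Lp_mul_Lq` with `p = q = 2`).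
`conv_fourier`: Fubini (`integral_integral_swap`), then for each `v` the substitution `w → w - v`: `∫ exp(iEw) g(w+v) dw = exp(-iEv) ∫ exp(iEw) g(w) dw`.
-/

set_option autoImplicit false

open MeasureTheory Filter Topology Set

namespace Pool.MSP

private lemma int_prod (m : Measure ℝ) [IsFiniteMeasure m] {E : Type*} [NormedAddCommGroup E]
    {g : ℝ → E} (hm : StronglyMeasurable g) (hg : Integrable g) :
    Integrable (fun p : ℝ × ℝ => g (p.1 + p.2)) (volume.prod m) := by
  have hmeas : StronglyMeasurable (fun p : ℝ × ℝ => g (p.1 + p.2)) :=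
    hm.comp_measurable (measurable_fst.add measurable_snd)
  rw [integrable_prod_iff' hmeas.aestronglyMeasurable]
  refine ⟨Eventually.of_forall fun y => hg.comp_add_right y, ?_⟩
  have h1 : ∀ y, ∫ x, ‖g (x + y)‖ = ∫ x, ‖g x‖ := fun y =>
    integral_add_right_eq_self (fun x => ‖g x‖) y
  simp only [h1]
  exact integrable_const _

theorem conv_measurable (m : Measure ℝ) [IsFiniteMeasure m] {g : ℝ → ℂ} (hg : Measurable g) :
    Measurable (fun w => ∫ v, g (w + v) ∂m) := by
  have h1 : StronglyMeasurable (fun p : ℝ × ℝ => g (p.1 + p.2)) :=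
    (hg.comp (measurable_fst.add measurable_snd)).stronglyMeasurable
  exact h1.integral_prod_right'.measurable

theorem conv_integrable (m : Measure ℝ) [IsFiniteMeasure m] {g : ℝ → ℂ} (hm : Measurable g)
    (hg : Integrable g) : Integrable (fun w => ∫ v, g (w + v) ∂m) :=
  (int_prod m hm.stronglyMeasurable hg).integral_prod_left

private lemma cs (m : Measure ℝ) [IsFiniteMeasure m] {f : ℝ → ℝ} (h1 : Integrable f m)
    (h2 : Integrable (fun x => f x ^ 2) m) :
    (∫ x, f x ∂m) ^ 2 ≤ m.real univ * ∫ x, f x ^ 2 ∂m := by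
  have h : ∀ c : ℝ, 0 ≤ m.real univ * (c * c) + (-2 * ∫ x, f x ∂m) * c + ∫ x, f x ^ 2 ∂m := by
    intro c
    have h3 : 0 ≤ ∫ x, (f x - c) ^ 2 ∂m := integral_nonneg fun x => sq_nonneg _
    have h4 : ∫ x, (f x - c) ^ 2 ∂m =
        (∫ x, f x ^ 2 ∂m) - (2 * c) * (∫ x, f x ∂m) + c ^ 2 * m.real univ := by
      have e1 : (fun x => (f x - c) ^ 2) = fun x => (f x ^ 2 - (2 * c) * f x) + c ^ 2 := by
        funext x
        ring
      have e2 : Integrable (fun x => f x ^ 2 - (2 * c) * f x) m := h2.sub (h1.const_mul _)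
      rw [e1, integral_add e2 (integrable_const _),
        integral_sub h2 (h1.const_mul _), integral_const_mul, integral_const, smul_eq_mul]
      ring
    rw [h4] at h3
    linarith
  have h3 := discrim_le_zero h
  unfold discrim at h3
  nlinarith

theorem conv_memLp (m : Measure ℝ) [IsFiniteMeasure m] {g : ℝ → ℂ} (hm : Measurable g)
    (hg : Integrable g) (h2 : MemLp g 2) : MemLp (fun w => ∫ v, g (w + v) ∂m) 2 := by
  have hmeas := conv_measurable m hm
  rw [memLp_two_iff_integrable_sq_norm hmeas.aestronglyMeasurable]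
  rw [memLp_two_iff_integrable_sq_norm hm.aestronglyMeasurable] at h2
  have hn : StronglyMeasurable (fun x => ‖g x‖ ^ 2) := (hm.norm.pow_const 2).stronglyMeasurable
  have H1 := int_prod m hn h2
  have H2 := int_prod m hm.stronglyMeasurable hg
  have hdom : Integrable (fun w => m.real univ * ∫ v, ‖g (w + v)‖ ^ 2 ∂m) :=
    H1.integral_prod_left.const_mul _
  refine hdom.mono' (hmeas.norm.pow_const 2).aestronglyMeasurable ?_
  filter_upwards [H1.prod_right_ae, H2.prod_right_ae] with w hw1 hw2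
  rw [Real.norm_of_nonneg (sq_nonneg _)]
  have h3 : ‖∫ v, g (w + v) ∂m‖ ≤ ∫ v, ‖g (w + v)‖ ∂m := norm_integral_le_integral_norm _
  calc ‖∫ v, g (w + v) ∂m‖ ^ 2 ≤ (∫ v, ‖g (w + v)‖ ∂m) ^ 2 :=
        pow_le_pow_left₀ (norm_nonneg _) h3 2
    _ ≤ _ := cs m hw2.norm hw1

theorem conv_fourier (m : Measure ℝ) [IsFiniteMeasure m] {g : ℝ → ℂ} (hm : Measurable g)
    (hg : Integrable g) (E : ℝ) :
    ∫ w : ℝ, Complex.exp (Complex.I * E * w) * ∫ v, g (w + v) ∂m =
      (∫ w : ℝ, Complex.exp (Complex.I * E * w) * g w) *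
        ∫ v, Complex.exp (-(Complex.I * E * v)) ∂m := by
  have H := int_prod m hm.stronglyMeasurable hg
  have hn : ∀ w : ℝ, ‖Complex.exp (Complex.I * E * w)‖ = 1 := by
    intro w
    have : Complex.I * E * w = ((E * w : ℝ) : ℂ) * Complex.I := by
      push_cast
      ring
    rw [this, Complex.norm_exp_ofReal_mul_I]
  have H' : Integrable (fun p : ℝ × ℝ => Complex.exp (Complex.I * E * p.1) * g (p.1 + p.2))
      (volume.prod m) := by
    refine H.mono ?_ (Eventually.of_forall fun p => ?_)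
    · apply Measurable.aestronglyMeasurable
      refine Measurable.mul ?_ (hm.comp (measurable_fst.add measurable_snd))
      fun_prop
    · rw [norm_mul, hn, one_mul]
  have h1 : ∀ w : ℝ, Complex.exp (Complex.I * E * w) * ∫ v, g (w + v) ∂m =
      ∫ v, Complex.exp (Complex.I * E * w) * g (w + v) ∂m := by
    intro w
    rw [integral_const_mul]
  simp only [h1]
  rw [integral_integral_swap H', ← integral_const_mul]
  refine integral_congr_ae (Eventually.of_forall fun v => ?_)
  simp only
  have h2 : (fun w : ℝ => Complex.exp (Complex.I * E * w) * g (w + v)) =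
      fun w : ℝ => (fun x : ℝ => Complex.exp (Complex.I * E * x) *
        g x * Complex.exp (-(Complex.I * E * v))) (w + v) := by
    funext w
    have e1 : Complex.exp (Complex.I * E * w) = Complex.exp (Complex.I * E * ((w + v : ℝ) : ℂ)) *
        Complex.exp (-(Complex.I * E * v)) := by
      rw [← Complex.exp_add]
      congr 1
      push_cast
      ring
    rw [e1]
    ring
  rw [h2, integral_add_right_eq_self (fun x : ℝ => Complex.exp (Complex.I * E * x) *
        g x * Complex.exp (-(Complex.I * E * v))) v, integral_mul_const]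

end Pool.MSP
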