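import Pool.Agent.MSP.Tay

/-!
# MSP / Cof: the good coefficients

Here `r ≥ 1/2`, `M` is large, `t = M^r`, `k = ⌈7 r⌉ + 6`, `Y = ⌊M^(3/7)⌋`, `M < n ≤ 2 M`.

PROOF. `L = log M ≥ 300`. `T = {j : Fin k | 14 r ≤ 11 (j+1) ∧ 5 (j+1) ≤ 13 r}`; write `l = j + 1`.
(a) For `j ∈ T` put `A = log |al t n j| = r L - l log n - log l - log (2π)` (`|al t n j| = t/(2π l n^l)`). Taking logarithms (both sides positive; `Y ≥ 1`):
* `Y^(-(3l/2)) ≤ |al|`: `log Y ≥ 3L/7 - log 2` (`⌊x⌋ ≥ x/2` for `x ≥ 1`), `log n ≤ L + log 2`. `A + (3l/2) log Y ≥ r L - l L - l log 2 - log(2π l) + (9/14) l L - (3/2) l log 2 = r L - (5/14) l L - (5/2) l log 2 - log(2π l)`, and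
  `l ≤ 13 r/5`, so `(5/14) l ≤ (13/14) r`; `log(2π l) ≤ 2π l ≤ 6.3 l`; total `≥ r L/14 - (2.5·0.6932 + 6.3)·(13/5) r ≥ r L/14 - 20.9 r ≥ 0` since `L ≥ 300`.
* `|al| ≤ Y^(-(l/2))`: `log n ≥ L`, `log Y ≤ 3L/7`: `A + (l/2) log Y ≤ r L - l L + (3/14) l L = L (r - (11/14) l) ≤ 0`.
(b) the sum `S = ∑_{j ∈ T} (j+1)`. Let `l₁ = ⌈14 r/11⌉₊`, `l₂ = ⌊13 r/5⌋₊`; `1 ≤ l₁ ≤ l₂ ≤ k`: `l₂ ≤ 13r/5 ≤ 7r + 6`; `l₁ ≤ l₂`: if `r ≤ 11/14` then `l₁ = 1 ≤ 13/10 ≤ 13r/5`; otherwise `y = 14r/11 > 1` and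
  `⌈y⌉ < y + 1 ≤ 2 y ≤ 143/70 y = 13 r/5`. `S ≥ (l₂ - l₁ + 1) l₁` (the numbers `l₁,…,l₂`; each `≥ l₁`), `l₂ - l₁ + 1 ≥ 1` and `l₂ - l₁ + 1 ≥ 13r/5 - 14r/11 - 1 = 73r/55 - 1`; so `l₂ - l₁ + 1 ≥ 73r/110`, `S ≥ (73/110)(14/11) r^2 ≥ 4r^2/5`, and `S ≥ 1`.
  `k ≤ 7 r + 7`, `k^2 ≤ 49 (r+1)^2 ≤ 98 (r^2 + 1) ≤ 98 (5/4 + 1) S ≤ 1000 S`.
-/

set_option autoImplicit false

open MeasureTheory Filter Topology Set

namespace Pool.MSP

/-- the degree -/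
noncomputable def kr (r : ℝ) : ℕ := ⌈7 * r⌉₊ + 6

/-- the length of the shifts -/
noncomputable def YM (M : ℕ) : ℕ := ⌊(M : ℝ) ^ (3 / 7 : ℝ)⌋₊

private theorem cof_log {M n j : ℕ} {r t : ℝ} (hM : 0 < (M : ℝ)) (hn : 0 < (n : ℝ))
    (ht : t = (M : ℝ) ^ r) : |al t n j| = Real.exp (r * Real.log M -
      Real.log (2 * Real.pi * ((j : ℝ) + 1)) - ((j : ℝ) + 1) * Real.log n) := by
  have hj : (0 : ℝ) < (j : ℝ) + 1 := by positivity
  have hpi := Real.pi_pos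
  have h1 : |al t n j| = (M : ℝ) ^ r / (2 * Real.pi * ((j : ℝ) + 1)) / (n : ℝ) ^ (j + 1) := by
    unfold al
    rw [abs_mul, abs_neg, abs_div, abs_div, abs_pow, abs_neg, abs_one, one_pow, ht,
      abs_of_pos (Real.rpow_pos_of_pos hM r), abs_of_pos (by positivity : 0 < 2 * Real.pi),
      abs_of_pos (by positivity : 0 < ((j : ℝ) + 1) * (n : ℝ) ^ (j + 1))]
    field_simp
  rw [h1, Real.exp_sub, Real.exp_sub, Real.exp_log (by positivity), Real.rpow_def_of_pos hM]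
  congr 1
  · rw [mul_comm r]
  · have h2 : ((j : ℝ) + 1) * Real.log n = ((j + 1 : ℕ) : ℝ) * Real.log n := by push_cast; ring
    rw [h2, Real.exp_nat_mul, Real.exp_log hn]

private theorem cof_a {M n j : ℕ} {r t : ℝ} (hM : 300 ≤ Real.log M) (hr : 1 / 2 ≤ r)
    (ht : t = (M : ℝ) ^ r) (h1 : M < n) (h2 : n ≤ 2 * M) (hj1 : 14 * r ≤ 11 * ((j : ℝ) + 1))
    (hj2 : 5 * ((j : ℝ) + 1) ≤ 13 * r) :
    (YM M : ℝ) ^ (-(3 * ((j : ℝ) + 1) / 2)) ≤ |al t n j| ∧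
      |al t n j| ≤ (YM M : ℝ) ^ (-(((j : ℝ) + 1) / 2)) := by
  have hM0 : 0 < (M : ℝ) := by
    rcases Nat.eq_zero_or_pos M with h | h
    · rw [h, Nat.cast_zero, Real.log_zero] at hM
      norm_num at hM
    · exact_mod_cast h
  have hMn : (M : ℝ) < n := by exact_mod_cast h1
  have hn2 : (n : ℝ) ≤ 2 * M := by exact_mod_cast h2
  have hn0 : 0 < (n : ℝ) := hM0.trans hMn
  obtain ⟨L, hL⟩ : ∃ L, L = Real.log M := ⟨_, rfl⟩
  obtain ⟨l, hl⟩ : ∃ l : ℝ, l = (j : ℝ) + 1 := ⟨_, rfl⟩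
  have hl1 : 1 ≤ l := by
    rw [hl]
    have : (0 : ℝ) ≤ j := Nat.cast_nonneg j
    linarith
  have hy1 : 1 ≤ (M : ℝ) ^ (3 / 7 : ℝ) := by
    refine Real.one_le_rpow ?_ (by norm_num)
    have : (1 : ℝ) ≤ M := by
      by_contra h
      have := Real.log_nonpos hM0.le (not_le.1 h).le
      linarith
    exact this
  have hY1 : 1 ≤ YM M := by
    unfold YM
    exact Nat.le_floor (by rw [Nat.cast_one]; exact hy1)
  have hY0 : (0 : ℝ) < YM M := by exact_mod_cast hY1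
  have hYle : (YM M : ℝ) ≤ (M : ℝ) ^ (3 / 7 : ℝ) := Nat.floor_le (by linarith)
  have hYge : (M : ℝ) ^ (3 / 7 : ℝ) / 2 ≤ YM M := by
    have h3 := Nat.lt_floor_add_one ((M : ℝ) ^ (3 / 7 : ℝ))
    have h4 : (1 : ℝ) ≤ YM M := by exact_mod_cast hY1
    have h5 : (M : ℝ) ^ (3 / 7 : ℝ) < YM M + 1 := h3
    linarith
  have hlogle : Real.log (YM M) ≤ 3 / 7 * L := by
    have h3 := Real.log_le_log hY0 hYle
    rwa [Real.log_rpow hM0, ← hL] at h3
  have hlogge : 3 / 7 * L - Real.log 2 ≤ Real.log (YM M) := by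
    have h3 := Real.log_le_log (by positivity) hYge
    rwa [Real.log_div (by positivity) (by norm_num), Real.log_rpow hM0, ← hL] at h3
  have hlogn1 : L ≤ Real.log n := by
    rw [hL]
    exact Real.log_le_log hM0 hMn.le
  have hlogn2 : Real.log n ≤ L + Real.log 2 := by
    have h3 := Real.log_le_log hn0 hn2
    rw [Real.log_mul (by norm_num) hM0.ne', ← hL] at h3
    linarith
  have hpi := Real.pi_gt_three
  have hpi2 : Real.pi < 3.15 := Real.pi_lt_d2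
  have hlp1 : 0 ≤ Real.log (2 * Real.pi * l) := Real.log_nonneg (by nlinarith)
  have hlp2 : Real.log (2 * Real.pi * l) ≤ 6.3 * l := by
    have h3 := Real.log_le_sub_one_of_pos (show 0 < 2 * Real.pi * l by positivity)
    nlinarith
  have hlog2 : Real.log 2 < 0.6932 := Real.log_two_lt_d9.trans (by norm_num)
  have hlog20 : 0 ≤ Real.log 2 := Real.log_nonneg (by norm_num)
  have hr0 : 0 < r := by linarith
  rw [← hL] at hM
  rw [cof_log hM0 hn0 ht, ← hl, ← hL, Real.rpow_def_of_pos hY0, Real.rpow_def_of_pos hY0]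
  rw [← hl] at hj1 hj2
  constructor
  · refine Real.exp_le_exp.2 ?_
    have e1 : l * Real.log n ≤ l * (L + Real.log 2) :=
      mul_le_mul_of_nonneg_left hlogn2 (by linarith)
    have e2 : l * (3 / 7 * L - Real.log 2) ≤ l * Real.log (YM M) :=
      mul_le_mul_of_nonneg_left hlogge (by linarith)
    have e3 : l * Real.log 2 ≤ l * 0.6932 := mul_le_mul_of_nonneg_left hlog2.le (by linarith)
    have e4 : 5 * l * L ≤ 13 * r * L := mul_le_mul_of_nonneg_right hj2 (by linarith)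
    have e5 : r * 300 ≤ r * L := mul_le_mul_of_nonneg_left hM hr0.le
    nlinarith
  · refine Real.exp_le_exp.2 ?_
    have e1 : l * L ≤ l * Real.log n := mul_le_mul_of_nonneg_left hlogn1 (by linarith)
    have e2 : l * Real.log (YM M) ≤ l * (3 / 7 * L) :=
      mul_le_mul_of_nonneg_left hlogle (by linarith)
    have e4 : 14 * r * L ≤ 11 * l * L := mul_le_mul_of_nonneg_right hj1 (by linarith)
    nlinarith

theorem cof {M n : ℕ} {r t : ℝ} (hM : 300 ≤ Real.log M) (hr : 1 / 2 ≤ r)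
    (ht : t = (M : ℝ) ^ r) (h1 : M < n) (h2 : n ≤ 2 * M) :
    ∃ T : Finset (Fin (kr r)),
      (∀ j ∈ T, (YM M : ℝ) ^ (-(3 * ((j.1 : ℝ) + 1) / 2)) ≤ |al t n j.1| ∧
        |al t n j.1| ≤ (YM M : ℝ) ^ (-(((j.1 : ℝ) + 1) / 2))) ∧
      ((kr r : ℕ) : ℝ) ^ 2 / 1000 ≤ ∑ j ∈ T, ((j.1 : ℝ) + 1) := by
  classical
  have hr0 : 0 < r := by linarith
  obtain ⟨P, hP⟩ : ∃ P : ℕ → Prop, P = fun (j : ℕ) => 14 * r ≤ 11 * ((j : ℝ) + 1) ∧
      5 * ((j : ℝ) + 1) ≤ 13 * r := ⟨_, rfl⟩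
  refine ⟨Finset.univ.filter fun j => P j.1, fun j hj => ?_, ?_⟩
  · have h3 := (Finset.mem_filter.1 hj).2
    rw [hP] at h3
    exact cof_a hM hr ht h1 h2 h3.1 h3.2
  · obtain ⟨l₁, hl₁⟩ : ∃ l₁ : ℕ, l₁ = ⌈14 * r / 11⌉₊ := ⟨_, rfl⟩
    obtain ⟨l₂, hl₂⟩ : ∃ l₂ : ℕ, l₂ = ⌊13 * r / 5⌋₊ := ⟨_, rfl⟩
    have a1 : 14 * r / 11 ≤ l₁ := by rw [hl₁]; exact Nat.le_ceil _
    have a2 : (l₁ : ℝ) < 14 * r / 11 + 1 := by
      rw [hl₁]
      exact Nat.ceil_lt_add_one (by positivity)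
    have a3 : 1 ≤ l₁ := by
      rw [hl₁]
      exact Nat.ceil_pos.2 (by positivity)
    have a4 : (l₂ : ℝ) ≤ 13 * r / 5 := by rw [hl₂]; exact Nat.floor_le (by positivity)
    have a5 : 13 * r / 5 < l₂ + 1 := by rw [hl₂]; exact Nat.lt_floor_add_one _
    have a6 : l₁ ≤ l₂ := by
      rw [hl₂]
      refine Nat.le_floor ?_
      rcases le_or_gt (14 * r / 11) 1 with h | h
      · have : l₁ ≤ 1 := by
          rw [hl₁]
          exact Nat.ceil_le.2 (by rw [Nat.cast_one]; exact h)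
        have : (l₁ : ℝ) ≤ 1 := by exact_mod_cast this
        linarith
      · linarith
    have a7 : l₂ ≤ kr r := by
      have h3 : (l₂ : ℝ) ≤ kr r := by
        have h4 := Nat.le_ceil (7 * r)
        unfold kr
        push_cast
        linarith
      exact_mod_cast h3
    have a8 : ((kr r : ℕ) : ℝ) ≤ 7 * r + 7 := by
      have h4 := Nat.ceil_lt_add_one (show 0 ≤ 7 * r by positivity)
      unfold kr
      push_cast
      linarith
    have e1 : ∑ j ∈ Finset.univ.filter (fun j : Fin (kr r) => P j.1), ((j.1 : ℝ) + 1) =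
        ∑ j ∈ Finset.range (kr r), if P j then ((j : ℝ) + 1) else 0 := by
      rw [Finset.sum_filter, ← Fin.sum_univ_eq_sum_range (fun j => if P j then ((j : ℝ) + 1) else 0)]
    have e2 : ∑ j ∈ Finset.Ico (l₁ - 1) l₂, (l₁ : ℝ) ≤
        ∑ j ∈ Finset.range (kr r), if P j then ((j : ℝ) + 1) else 0 := by
      refine le_trans (Finset.sum_le_sum fun j hj => ?_) (Finset.sum_le_sum_of_subset_of_nonneg
        (s := Finset.Ico (l₁ - 1) l₂) ?_ fun j _ _ => ?_)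
      · rw [Finset.mem_Ico] at hj
        have b1 : l₁ ≤ j + 1 := by omega
        have b2 : j + 1 ≤ l₂ := by omega
        have b3 : (l₁ : ℝ) ≤ (j : ℝ) + 1 := by exact_mod_cast b1
        have b4 : (j : ℝ) + 1 ≤ l₂ := by exact_mod_cast b2
        have b5 : P j := by
          rw [hP]
          constructor <;> linarith
        rw [if_pos b5]
        exact b3
      · intro j hj
        rw [Finset.mem_Ico] at hj
        rw [Finset.mem_range]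
        omega
      · split_ifs
        · positivity
        · exact le_rfl
    rw [Finset.sum_const, Nat.card_Ico, nsmul_eq_mul] at e2
    have e3 : ((l₂ - (l₁ - 1) : ℕ) : ℝ) = (l₂ : ℝ) - l₁ + 1 := by
      rw [Nat.cast_sub (by omega), Nat.cast_sub a3, Nat.cast_one]
      ring
    rw [e3] at e2
    rw [e1]
    refine le_trans ?_ e2
    obtain ⟨D, hD⟩ : ∃ D : ℝ, D = (l₂ : ℝ) - l₁ + 1 := ⟨_, rfl⟩
    rw [← hD]
    have c1 : 1 ≤ D := by
      have : (l₁ : ℝ) ≤ l₂ := by exact_mod_cast a6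
      linarith
    have c2 : 73 * r / 110 ≤ D := by linarith
    have c3 : (1 : ℝ) ≤ l₁ := by exact_mod_cast a3
    have c4 : 1 ≤ D * l₁ := by nlinarith
    have c5 : 73 * r / 110 * (14 * r / 11) ≤ D * l₁ :=
      mul_le_mul c2 a1 (by positivity) (by linarith)
    have c6 : ((kr r : ℕ) : ℝ) ^ 2 ≤ (7 * r + 7) ^ 2 :=
      pow_le_pow_left₀ (Nat.cast_nonneg _) a8 2
    nlinarith

end Pool.MSP
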