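import Mathlib

/-!
# MSP / Defs: prime times at almost every speed, definitions

The library MSP proves: if `F : ℝ → ℂ` is bounded and uniformly continuous and has the Cesàro mean `m`,
then for almost every `l > 0` the averages of `F (l p)` over the primes `p` tend to `m`
(`Rea.lean`, `ae_speed`). By-products: a bound for `ζ` and a zero free region of Vinogradov type
(`Zbd.lean`, `Zfr.lean`) and the prime number theorem (`Pnt.lean`).
-/

set_option autoImplicit false

open MeasureTheory Filter Topology Set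

namespace Pool.MSP

/-- The coefficients `Λ(n) (log n)^k`. -/
noncomputable def lam (k : ℕ) (n : ℕ) : ℝ := ArithmeticFunction.vonMangoldt n * Real.log n ^ k

/-- `∑ Λ(n) (log n)^k n^(-s)` minus its polar part `k! / (s-1)^(k+1)`. -/
noncomputable def Kk (k : ℕ) (s : ℂ) : ℂ :=
  LSeries (fun n => (lam k n : ℂ)) s - (k.factorial : ℂ) / (s - 1) ^ (k + 1)

/-- The entire function `(s - 1) ζ(s)`. -/
noncomputable def ZZ : ℂ → ℂ := DirichletCharacter.LFunctionTrivChar₁ 1

/-- The discrepancy `∑_{n ≤ N} Λ(n) (log n)^k G(l n) - ∫_1^∞ (log t)^k G(l t) dt`, for `G` supported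
in `(0, N]` and `l ≥ 1`. -/
noncomputable def Dk (k N : ℕ) (G : ℝ → ℂ) (l : ℝ) : ℂ :=
  (∑ n ∈ Finset.Icc 1 N, (lam k n : ℂ) * G (l * n)) -
    ∫ t in Ioi (1 : ℝ), ((Real.log t ^ k : ℝ) : ℂ) * G (l * t)

/-- The multiplicative average of `G` over the window `[v, v e^δ]`. -/
noncomputable def sm (δ : ℝ) (G : ℝ → ℂ) (v : ℝ) : ℂ :=
  ((1 / δ : ℝ) : ℂ) * ∫ u in (0 : ℝ)..δ, G (v * Real.exp u)

/-- `F` restricted to `(0, X]`. -/
noncomputable def cutF (F : ℝ → ℂ) (X : ℝ) : ℝ → ℂ := (Ioc (0 : ℝ) X).indicator F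

/-- The exponent `(4/5) (k+1) + 3` of the bound of `K_k`. -/
noncomputable def bk (k : ℕ) : ℝ := 4 / 5 * (k + 1) + 3

lemma lam_nonneg (k n : ℕ) : 0 ≤ lam k n := by
  unfold lam
  exact mul_nonneg ArithmeticFunction.vonMangoldt_nonneg (pow_nonneg (Real.log_natCast_nonneg n) k)

end Pool.MSP
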