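import Pool.Agent.MSP.Defs

/-!
# MSP / Eul: approximation of `ζ` by a partial sum in `Re s > 0`

PROOF. For `n ≥ 1` put `h_n(s) = (n+1)^(-s) - ∫_n^(n+1) u^(-s) du` ; `h_n(s) = -s ∫_n^(n+1) (u - n) u^(-s-1) du` (integration by parts), so `|h_n(s)| ≤ |s| ∫_n^(n+1) u^(-σ-1) du` for `σ = Re s > 0`
(the identity `∫_n^(n+1) (u-n) s u^(-s-1) du = [-(u-n) u^(-s)] + ∫ u^(-s) du = -(n+1)^(-s) + ∫ u^(-s) du`).
Let `H_N(s) = ∑_{n ≥ N} h_n(s)`; the series converges locally uniformly in `Re s > 0` (bounded by `|s| ∫_N^∞ u^(-σ-1) du = |s| N^(-σ)/σ`), so `H_N` is differentiable on `{Re s > 0}` (`differentiableOn_tsum_of_summable_norm` on the sets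
`{Re s > a, |s| < R}`; each `h_n` is differentiable: `∫_n^(n+1) u^(-s) du = ((n+1)^(1-s) - n^(1-s))/(1-s)` for `s ≠ 1`; away from `s = 1` is enough, i.e. work on the connected open set `U = {Re s > 0} \ {1}`).
For `Re s > 1`: `∑_{n ≥ N} (n+1)^(-s) = ζ(s) - ∑_{n ≤ N} n^(-s)` (`zeta_eq_tsum_one_div_nat_cpow`), `∑_{n ≥ N} ∫_n^(n+1) u^(-s) du = ∫_N^∞ u^(-s) du = N^(1-s)/(s-1)`. Hence `ζ(s) = ∑_{n ≤ N} n^(-s) + N^(1-s)/(s-1) + H_N(s)` for `Re s > 1`,
and by the identity theorem on `U` (`AnalyticOnNhd.eqOn_of_preconnected_of_eventuallyEq`; `ζ` is differentiable off `1`; `U` is preconnected: the complement of a point (countable set) in a convex open set of the plane, `IsOpen.isConnected_compl_..` /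
`Convex...`, `IsConnected ... countable` or write `U` as a union of overlapping convex sets) for all `s ∈ U`. The bound of `H_N` gives the theorem.
-/

set_option autoImplicit false

open MeasureTheory Filter Topology Set

namespace Pool.MSP

/-- derivative of `u ^ r` at `u > 0` -/
private lemma hd_cpow {x : ℝ} (hx : 0 < x) (r : ℂ) :
    HasDerivAt (fun y : ℝ => (y : ℂ) ^ r) (r * (x : ℂ) ^ (r - 1)) x := by
  by_cases hr : r = 0
  · subst hr
    simp only [Complex.cpow_zero, zero_mul]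
    exact hasDerivAt_const x (1 : ℂ)
  · exact hasDerivAt_ofReal_cpow_const hx.ne' hr

/-- the term of the correction, multiplied by `s - 1` -/
private noncomputable def PP (n : ℕ) (s : ℂ) : ℂ :=
  (s - 1) * ((n + 1 : ℕ) : ℂ) ^ (-s) + ((n + 1 : ℕ) : ℂ) ^ (1 - s) - (n : ℂ) ^ (1 - s)

private noncomputable def ps (n : ℕ) (s : ℂ) (u : ℝ) : ℂ :=
  -(s - 1) * ((u : ℂ) - n) * (u : ℂ) ^ (-s) - (u : ℂ) ^ (1 - s)

private lemma ps_deriv (n : ℕ) (s : ℂ) {u : ℝ} (hu : 0 < u) :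
    HasDerivAt (ps n s) ((s - 1) * s * ((u : ℂ) - n) * (u : ℂ) ^ (-s - 1)) u := by
  have h1 := hd_cpow hu (-s)
  have h2 := hd_cpow hu (1 - s)
  have h3 : HasDerivAt (fun y : ℝ => (y : ℂ) - n) 1 u := by
    have := (hasDerivAt_id u).ofReal_comp.sub_const (n : ℂ)
    simpa using this
  have h4 := ((h3.const_mul (-(s - 1))).mul h1).sub h2
  have h5 : (1 - s - 1 : ℂ) = -s := by ring
  rw [h5] at h4
  refine h4.congr_deriv ?_
  have h6 : (u : ℂ) ^ (-s) = (u : ℂ) * (u : ℂ) ^ (-s - 1) := by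
    have hu' : (u : ℂ) ≠ 0 := by exact_mod_cast hu.ne'
    rw [Complex.cpow_sub _ _ hu', Complex.cpow_one]
    field_simp
  ring

private lemma PP_eq (n : ℕ) (s : ℂ) : PP n s = -(ps n s (n + 1 : ℕ) - ps n s n) := by
  unfold PP ps
  push_cast
  ring

private lemma ps_bound (n : ℕ) (hn : 1 ≤ n) {s : ℂ} {u : ℝ}
    (hu : u ∈ Ico (n : ℝ) (n + 1)) :
    ‖(s - 1) * s * ((u : ℂ) - n) * (u : ℂ) ^ (-s - 1)‖ ≤ ‖s - 1‖ * ‖s‖ * u ^ (-s.re - 1) := by
  have hn' : (1 : ℝ) ≤ n := by exact_mod_cast hn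
  have hu0 : 0 < u := by linarith [hu.1]
  rw [norm_mul, norm_mul, norm_mul, Complex.norm_cpow_eq_rpow_re_of_pos hu0]
  have h1 : ‖(u : ℂ) - n‖ ≤ 1 := by
    have h2 : (u : ℂ) - n = ((u - n : ℝ) : ℂ) := by push_cast; rfl
    rw [h2, Complex.norm_real, Real.norm_eq_abs, abs_le]
    constructor <;> linarith [hu.1, hu.2]
  have h2 : (-s - 1 : ℂ).re = -s.re - 1 := by simp
  rw [h2]
  have h3 : 0 ≤ u ^ (-s.re - 1) := (Real.rpow_pos_of_pos hu0 _).le
  refine mul_le_mul_of_nonneg_right ?_ h3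
  calc ‖s - 1‖ * ‖s‖ * ‖(u : ℂ) - n‖ ≤ ‖s - 1‖ * ‖s‖ * 1 :=
        mul_le_mul_of_nonneg_left h1 (by positivity)
    _ = _ := by ring

private lemma ps_cont (n : ℕ) (hn : 1 ≤ n) (s : ℂ) :
    ContinuousOn (fun u => ps n s u - ps n s n) (Icc (n : ℝ) (n + 1)) := by
  have hn' : (1 : ℝ) ≤ n := by exact_mod_cast hn
  intro u hu
  have hu0 : 0 < u := by linarith [hu.1]
  exact ((ps_deriv n s hu0).sub_const _).continuousAt.continuousWithinAt

/-- telescoping bound -/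
private lemma PP_le (n : ℕ) (hn : 1 ≤ n) {s : ℂ} (hs : 0 < s.re) :
    ‖PP n s‖ ≤ ‖s - 1‖ * ‖s‖ / s.re * ((n : ℝ) ^ (-s.re) - ((n : ℝ) + 1) ^ (-s.re)) := by
  have hn' : (1 : ℝ) ≤ n := by exact_mod_cast hn
  have hB : ∀ x : ℝ, 0 < x → HasDerivAt (fun y : ℝ => ‖s - 1‖ * ‖s‖ / s.re *
      ((n : ℝ) ^ (-s.re) - y ^ (-s.re))) (‖s - 1‖ * ‖s‖ * x ^ (-s.re - 1)) x := by
    intro x hx
    have h1 := Real.hasDerivAt_rpow_const (x := x) (p := -s.re) (Or.inl hx.ne')
    have h2 := (h1.const_sub ((n : ℝ) ^ (-s.re))).const_mul (‖s - 1‖ * ‖s‖ / s.re)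
    refine h2.congr_deriv ?_
    field_simp
  have h := image_norm_le_of_norm_deriv_right_le_deriv_boundary'
    (f := fun u => ps n s u - ps n s n) (a := (n : ℝ)) (b := n + 1)
    (f' := fun u => (s - 1) * s * ((u : ℂ) - n) * (u : ℂ) ^ (-s - 1))
    (B := fun y : ℝ => ‖s - 1‖ * ‖s‖ / s.re * ((n : ℝ) ^ (-s.re) - y ^ (-s.re)))
    (B' := fun x => ‖s - 1‖ * ‖s‖ * x ^ (-s.re - 1))
    (ps_cont n hn s)
    (fun x hx => ((ps_deriv n s (by linarith [hx.1])).sub_const _).hasDerivWithinAt)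
    (by simp)
    (fun x hx => (hB x (by linarith [hx.1])).continuousAt.continuousWithinAt)
    (fun x hx => (hB x (by linarith [hx.1])).hasDerivWithinAt)
    (fun x hx => ps_bound n hn hx) (right_mem_Icc.mpr (by linarith))
  rw [PP_eq, norm_neg]
  have e1 : ((n + 1 : ℕ) : ℝ) = (n : ℝ) + 1 := by push_cast; rfl
  rw [e1]
  exact h

/-- termwise bound -/
private lemma PP_le2 (n : ℕ) (hn : 1 ≤ n) {s : ℂ} (hs : 0 < s.re) :
    ‖PP n s‖ ≤ ‖s - 1‖ * ‖s‖ * (n : ℝ) ^ (-s.re - 1) := by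
  have hn' : (1 : ℝ) ≤ n := by exact_mod_cast hn
  have h := norm_image_sub_le_of_norm_deriv_right_le_segment (f := ps n s) (a := (n : ℝ))
    (b := n + 1) (f' := fun u => (s - 1) * s * ((u : ℂ) - n) * (u : ℂ) ^ (-s - 1))
    (C := ‖s - 1‖ * ‖s‖ * (n : ℝ) ^ (-s.re - 1))
    (fun u hu => (ps_deriv n s (by linarith [hu.1])).continuousAt.continuousWithinAt)
    (fun x hx => (ps_deriv n s (by linarith [hx.1])).hasDerivWithinAt)
    (fun x hx => (ps_bound n hn hx).trans (mul_le_mul_of_nonneg_left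
      (Real.rpow_le_rpow_of_nonpos (by linarith) hx.1 (by linarith)) (by positivity)))
    (n + 1) (right_mem_Icc.mpr (by linarith))
  rw [PP_eq, norm_neg]
  have e1 : ((n + 1 : ℕ) : ℝ) = (n : ℝ) + 1 := by push_cast; rfl
  rw [e1]
  refine h.trans (le_of_eq ?_)
  ring

private lemma PP_diff (n : ℕ) (hn : 1 ≤ n) : Differentiable ℂ (PP n) := by
  have h1 : ((n + 1 : ℕ) : ℂ) ≠ 0 := by exact_mod_cast (Nat.succ_ne_zero n)
  have h2 : (n : ℂ) ≠ 0 := by exact_mod_cast (by omega : n ≠ 0)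
  unfold PP
  intro s
  refine ((DifferentiableAt.mul (by fun_prop) ?_).add ?_).sub ?_
  · exact DifferentiableAt.const_cpow (by fun_prop) (Or.inl h1)
  · exact DifferentiableAt.const_cpow (by fun_prop) (Or.inl h1)
  · exact DifferentiableAt.const_cpow (by fun_prop) (Or.inl h2)

private lemma sum_rpow (N : ℕ) {a : ℝ} (ha : 0 < a) :
    Summable fun k : ℕ => (((N + k : ℕ) : ℝ)) ^ (-a - 1) := by
  have h1 : Summable fun k : ℕ => ((k : ℝ)) ^ (-a - 1) := by
    rw [Real.summable_nat_rpow]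
    linarith
  have h2 := (summable_nat_add_iff N).mpr h1
  refine h2.congr fun k => ?_
  rw [add_comm]

private lemma PP_summable (N : ℕ) (hN : 1 ≤ N) {s : ℂ} (hs : 0 < s.re) :
    Summable fun k => PP (N + k) s := by
  refine Summable.of_norm_bounded ((sum_rpow N hs).mul_left (‖s - 1‖ * ‖s‖)) fun k => ?_
  exact PP_le2 (N + k) (by omega) hs

private lemma PP_tsum_le (N : ℕ) (hN : 1 ≤ N) {s : ℂ} (hs : 0 < s.re) :
    ‖∑' k, PP (N + k) s‖ ≤ ‖s - 1‖ * ‖s‖ / s.re * (N : ℝ) ^ (-s.re) := by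
  have h1 := (PP_summable N hN hs).hasSum.tendsto_sum_nat
  refine le_of_tendsto (h1.norm) (Filter.Eventually.of_forall fun K => ?_)
  refine (norm_sum_le _ _).trans ?_
  calc ∑ k ∈ Finset.range K, ‖PP (N + k) s‖
      ≤ ∑ k ∈ Finset.range K, ‖s - 1‖ * ‖s‖ / s.re *
        (((N + k : ℕ) : ℝ) ^ (-s.re) - ((N + (k + 1) : ℕ) : ℝ) ^ (-s.re)) := by
        refine Finset.sum_le_sum fun k _ => ?_
        have h2 := PP_le (N + k) (by omega) hs
        have e1 : ((N + (k + 1) : ℕ) : ℝ) = ((N + k : ℕ) : ℝ) + 1 := by push_cast; ring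
        rw [e1]
        exact h2
    _ = ‖s - 1‖ * ‖s‖ / s.re * (((N : ℕ) : ℝ) ^ (-s.re) - ((N + K : ℕ) : ℝ) ^ (-s.re)) := by
        rw [← Finset.mul_sum, Finset.sum_range_sub' (fun k => ((N + k : ℕ) : ℝ) ^ (-s.re))]
        simp
    _ ≤ ‖s - 1‖ * ‖s‖ / s.re * (N : ℝ) ^ (-s.re) := by
        refine mul_le_mul_of_nonneg_left ?_ (by positivity)
        have h3 : 0 ≤ ((N + K : ℕ) : ℝ) ^ (-s.re) := by positivity
        linarith

private lemma HH_diff (N : ℕ) (hN : 1 ≤ N) :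
    DifferentiableOn ℂ (fun s => ∑' k, PP (N + k) s) {s : ℂ | 0 < s.re} := by
  intro s hs
  have hs' : 0 < s.re := hs
  -- the neighbourhood
  set U : Set ℂ := {z : ℂ | s.re / 2 < z.re} ∩ Metric.ball s 1 with hU
  have hUo : IsOpen U := (isOpen_lt continuous_const Complex.continuous_re).inter Metric.isOpen_ball
  have hsU : s ∈ U := ⟨by show s.re / 2 < s.re; linarith, Metric.mem_ball_self one_pos⟩
  have ha : 0 < s.re / 2 := by linarith
  have hd := Complex.differentiableOn_tsum_of_summable_norm (F := fun k z => PP (N + k) z) (U := U)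
    (u := fun k => (‖s‖ + 2) * (‖s‖ + 1) * (((N + k : ℕ) : ℝ)) ^ (-(s.re / 2) - 1))
    ((sum_rpow N ha).mul_left _) (fun k => (PP_diff (N + k) (by omega)).differentiableOn)
    hUo (by
      intro k z hz
      have hz1 : s.re / 2 < z.re := hz.1
      have hz0 : 0 < z.re := by linarith
      have hz2 : ‖z‖ ≤ ‖s‖ + 1 := by
        have h1 := mem_ball_iff_norm.mp hz.2
        have h2 := norm_le_norm_add_norm_sub' z s
        linarith
      have hz3 : ‖z - 1‖ ≤ ‖s‖ + 2 := by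
        have h1 := norm_sub_le z 1
        rw [norm_one] at h1
        linarith
      refine (PP_le2 (N + k) (by omega) hz0).trans ?_
      refine mul_le_mul (mul_le_mul hz3 hz2 (norm_nonneg _) (by positivity)) ?_
        (by positivity) (by positivity)
      refine Real.rpow_le_rpow_of_exponent_le ?_ (by linarith)
      exact_mod_cast (by omega : 1 ≤ N + k))
  exact ((hd s hsU).differentiableAt (hUo.mem_nhds hsU)).differentiableWithinAt

/-- the formula for `Re s > 1` -/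
private lemma big (N : ℕ) (hN : 1 ≤ N) {s : ℂ} (hs : 1 < s.re) :
    (s - 1) * riemannZeta s = (s - 1) * (∑ n ∈ Finset.Icc 1 N, (n : ℂ) ^ (-s)) +
      (N : ℂ) ^ (1 - s) + ∑' k, PP (N + k) s := by
  have hs0 : 0 < s.re := by linarith
  have h1 := (PP_summable N hN hs0).hasSum.tendsto_sum_nat
  -- partial sums
  have h2 : ∀ K, ∑ k ∈ Finset.range K, PP (N + k) s =
      (s - 1) * (∑ n ∈ Finset.range (N + K), 1 / ((n : ℂ) + 1) ^ s -
        ∑ n ∈ Finset.range N, 1 / ((n : ℂ) + 1) ^ s) +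
        (((N + K : ℕ) : ℂ) ^ (1 - s) - (N : ℂ) ^ (1 - s)) := by
    intro K
    induction K with
    | zero => simp
    | succ K ih =>
      rw [Finset.sum_range_succ, ih, ← add_assoc, Finset.sum_range_succ]
      unfold PP
      have e1 : (((N + K : ℕ) : ℂ) + 1) = ((N + K + 1 : ℕ) : ℂ) := by push_cast; ring
      have e2 : ((N + K + 1 : ℕ) : ℂ) ^ (-s) = 1 / ((N + K + 1 : ℕ) : ℂ) ^ s := by
        rw [Complex.cpow_neg, one_div]
      rw [e1, e2]
      ring
  have h3 : Tendsto (fun K : ℕ => ∑ n ∈ Finset.range (N + K), 1 / ((n : ℂ) + 1) ^ s) atTop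
      (𝓝 (riemannZeta s)) := by
    have hsum : Summable fun n : ℕ => 1 / ((n : ℂ) + 1) ^ s := by
      have h4 := (Complex.summable_one_div_nat_cpow (p := s)).mpr hs
      have h5 := (summable_nat_add_iff 1).mpr h4
      refine h5.congr fun n => ?_
      push_cast
      rfl
    have h6 := hsum.hasSum.tendsto_sum_nat
    rw [← zeta_eq_tsum_one_div_nat_add_one_cpow hs] at h6
    have h7 : Tendsto (fun K : ℕ => N + K) atTop atTop := tendsto_atTop_mono (fun K => Nat.le_add_left K N) tendsto_id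
    exact h6.comp h7
  have h4 : Tendsto (fun K : ℕ => ((N + K : ℕ) : ℂ) ^ (1 - s)) atTop (𝓝 0) := by
    rw [tendsto_zero_iff_norm_tendsto_zero]
    have h5 : ∀ K : ℕ, ‖((N + K : ℕ) : ℂ) ^ (1 - s)‖ = ((N + K : ℕ) : ℝ) ^ (-(s.re - 1)) := by
      intro K
      have h6 : (0 : ℝ) < ((N + K : ℕ) : ℝ) := by exact_mod_cast (by omega : 0 < N + K)
      have h7 := Complex.norm_cpow_eq_rpow_re_of_pos h6 (1 - s)
      rw [show ((((N + K : ℕ) : ℝ)) : ℂ) = ((N + K : ℕ) : ℂ) by push_cast; rfl] at h7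
      rw [h7]
      congr 1
      simp
    simp only [h5]
    have h8 := tendsto_rpow_neg_atTop (y := s.re - 1) (by linarith)
    have h9 : Tendsto (fun K : ℕ => ((N + K : ℕ) : ℝ)) atTop atTop :=
      tendsto_natCast_atTop_atTop.comp (tendsto_atTop_mono (fun K => Nat.le_add_left K N) tendsto_id)
    exact h8.comp h9
  have h5 : ∑ n ∈ Finset.range N, 1 / ((n : ℂ) + 1) ^ s =
      ∑ n ∈ Finset.Icc 1 N, (n : ℂ) ^ (-s) := by
    have e0 : Finset.Icc 1 N = Finset.Ico (0 + 1) (N + 1) := by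
      ext n
      simp
    rw [e0, ← Finset.sum_Ico_add' (fun n : ℕ => (n : ℂ) ^ (-s)) 0 N 1, ← Finset.range_eq_Ico]
    refine Finset.sum_congr rfl fun n _ => ?_
    rw [Complex.cpow_neg, one_div]
    push_cast
    rfl
  have h6 := ((h3.sub_const (∑ n ∈ Finset.range N, 1 / ((n : ℂ) + 1) ^ s)).const_mul (s - 1)).add
    (h4.sub_const ((N : ℂ) ^ (1 - s)))
  have h7 := tendsto_nhds_unique h1 (h6.congr fun K => (h2 K).symm)
  rw [h7, h5]
  ring

theorem zeta_approx {s : ℂ} (hs : 0 < s.re) (h1 : s ≠ 1) {N : ℕ} (hN : 1 ≤ N) :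
    ‖riemannZeta s - (∑ n ∈ Finset.Icc 1 N, (n : ℂ) ^ (-s)) - (N : ℂ) ^ (1 - s) / (s - 1)‖ ≤
      ‖s‖ / s.re * (N : ℝ) ^ (-s.re) := by
  set U : Set ℂ := {s : ℂ | 0 < s.re} with hU
  have hUo : IsOpen U := isOpen_lt continuous_const Complex.continuous_re
  have hUc : Convex ℝ U := (convex_halfSpace_re_gt 0)
  set F1 : ℂ → ℂ := DirichletCharacter.LFunctionTrivChar₁ 1 with hF1
  set F2 : ℂ → ℂ := fun s => (s - 1) * (∑ n ∈ Finset.Icc 1 N, (n : ℂ) ^ (-s)) +
      (N : ℂ) ^ (1 - s) + ∑' k, PP (N + k) s with hF2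
  have hN0 : (N : ℂ) ≠ 0 := by exact_mod_cast (by omega : N ≠ 0)
  have hd1 : DifferentiableOn ℂ F1 U :=
    (DirichletCharacter.differentiable_LFunctionTrivChar₁ 1).differentiableOn
  have hd2 : DifferentiableOn ℂ F2 U := by
    refine DifferentiableOn.add (DifferentiableOn.add ?_ ?_) (HH_diff N hN)
    · refine DifferentiableOn.mul (by fun_prop) ?_
      refine DifferentiableOn.fun_sum fun n hn => ?_
      have hn0 : (n : ℂ) ≠ 0 := by
        have := (Finset.mem_Icc.mp hn).1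
        exact_mod_cast (by omega : n ≠ 0)
      exact fun z _ => (DifferentiableAt.const_cpow (by fun_prop) (Or.inl hn0)).differentiableWithinAt
    · exact fun z _ => (DifferentiableAt.const_cpow (by fun_prop) (Or.inl hN0)).differentiableWithinAt
  have hF1z : ∀ z : ℂ, z ≠ 1 → F1 z = (z - 1) * riemannZeta z := by
    intro z hz
    simp only [hF1, DirichletCharacter.LFunctionTrivChar₁]
    rw [Function.update_of_ne hz]
    show (z - 1) * DirichletCharacter.LFunction 1 z = _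
    rw [DirichletCharacter.LFunction_modOne_eq]
  have heq : EqOn F1 F2 U := by
    refine (hd1.analyticOnNhd hUo).eqOn_of_preconnected_of_eventuallyEq
      (hd2.analyticOnNhd hUo) hUc.isPreconnected (z₀ := 2) (by simp [hU]) ?_
    have h2 : {z : ℂ | 1 < z.re} ∈ 𝓝 (2 : ℂ) :=
      (isOpen_lt continuous_const Complex.continuous_re).mem_nhds (by simp)
    filter_upwards [h2] with z hz
    have hz1 : z ≠ 1 := by
      rintro rfl
      simp at hz
    rw [hF1z z hz1, big N hN hz]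
  have h3 := heq hs
  rw [hF1z s h1] at h3
  have h4 : s - 1 ≠ 0 := sub_ne_zero.mpr h1
  have h5 : riemannZeta s - (∑ n ∈ Finset.Icc 1 N, (n : ℂ) ^ (-s)) -
      (N : ℂ) ^ (1 - s) / (s - 1) = (∑' k, PP (N + k) s) / (s - 1) := by
    rw [eq_div_iff h4]
    simp only [hF2] at h3
    field_simp
    linear_combination h3
  have h6 := PP_tsum_le N hN hs
  have h7 : 0 < ‖s - 1‖ := norm_pos_iff.mpr h4
  rw [h5, norm_div, div_le_iff₀ h7]
  refine h6.trans (le_of_eq ?_)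
  ring

end Pool.MSP
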