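import Pool.Agent.MSP.Defs
import Pool.Agent.VMV.Vkey

/-!
# MSP / Sav: the saving `VMV.sav k 11 Y S` for `S ≥ k^2/1000`

PROOF. By definition `sav k 11 Y S = ((64·11·k^4)^(2·121·k^4) (30·121·k^4)^k Y^(4 exp(-11) k^2 - S/4))^(1/(4·121·k^4))`.
(1) `exp(-11) ≤ 1/50000` (`exp 1 ≥ 2.7182818283`, `Real.exp_one_gt_d9`, so `exp 11 ≥ 2.718^11 ≥ 59000`), hence `4 exp(-11) k^2 ≤ 8·10^(-5) k^2 ≤ S/8` (`S/8 ≥ 1.25·10^(-4) k^2`) and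
`4 exp(-11) k^2 - S/4 ≤ -S/8 ≤ -k^2/8000`. As `Y ≥ 1`, `Y^(...) ≤ Y^(-(k^2/8000))`.
(2) monotonicity of `x ↦ x^(1/(484 k^4))` and multiplicativity (`Real.mul_rpow`): the three factors are
`((704 k^4)^(242 k^4))^(1/(484 k^4)) = (704 k^4)^(1/2) = √704 k^2 ≤ 27 k^2`;
`((3630 k^4)^k)^(1/(484 k^4)) = (3630 k^4)^(1/(484 k^3)) ≤ e ≤ 3`: `log(3630 k^4) ≤ 3630^{..}`; simply `3630 k^4 ≤ exp(484 k^3)` since `exp x ≥ 1 + x + x^2/2 ≥ x^2/2` and `(484 k^3)^2/2 ≥ 3630 k^4` (or `x^2/2 ≤ exp x`, `Real.quadratic_le_exp_of_nonneg`);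
`(Y^(-(k^2/8000)))^(1/(484 k^4)) = Y^(-(1/(3872000 k^2)))` `≤ Y^(-(1/(4000000 k^2)))`.
The product is `≤ 81 k^2 Y^(-(1/(4000000 k^2))) ≤ 100 k^2 Y^(...)`.
-/

set_option autoImplicit false

open MeasureTheory Filter Topology Set

open Pool.Agent

namespace Pool.MSP

private theorem sav_num : Real.exp (-11 : ℝ) ≤ 1 / 50000 := by
  have h1 : (2.7182818283 : ℝ) < Real.exp 1 := Real.exp_one_gt_d9
  have h2 : (50000 : ℝ) ≤ Real.exp 11 := by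
    have h3 : Real.exp 11 = Real.exp 1 ^ 11 := by
      rw [← Real.exp_nat_mul]
      norm_num
    rw [h3]
    calc (50000 : ℝ) ≤ 2.7182818283 ^ 11 := by norm_num
      _ ≤ Real.exp 1 ^ 11 := by gcongr
  rw [Real.exp_neg, ← one_div]
  exact one_div_le_one_div_of_le (by norm_num) h2

theorem sav_bd {k Y : ℕ} (hk : 2 ≤ k) (hY : 1 ≤ Y) {S : ℝ} (hS : (k : ℝ) ^ 2 / 1000 ≤ S) :
    VMV.sav k 11 Y S ≤ 100 * (k : ℝ) ^ 2 * (Y : ℝ) ^ (-(1 / (4000000 * (k : ℝ) ^ 2))) := by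
  have hk2 : (2 : ℝ) ≤ k := by exact_mod_cast hk
  have hk0 : (0 : ℝ) < k := by linarith
  have hY1 : (1 : ℝ) ≤ Y := by exact_mod_cast hY
  have hY0 : (0 : ℝ) < Y := by linarith
  unfold VMV.sav
  have e0 : ((11 : ℕ) : ℝ) = 11 := by norm_num
  have hexp : 4 * Real.exp (-((11 : ℕ) : ℝ)) * (k : ℝ) ^ 2 - S / 4 ≤ -((k : ℝ) ^ 2 / 8000) := by
    have h1 : 4 * Real.exp (-((11 : ℕ) : ℝ)) * (k : ℝ) ^ 2 ≤ 4 * (1 / 50000) * (k : ℝ) ^ 2 := by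
      rw [e0]
      gcongr
      exact sav_num
    have h2 : (0 : ℝ) ≤ (k : ℝ) ^ 2 := by positivity
    nlinarith
  have hb : ((64 * ((11 : ℕ) : ℝ) * (k : ℝ) ^ 4) ^ (2 * 11 ^ 2 * k ^ 4) *
      (30 * ((11 : ℕ) : ℝ) ^ 2 * (k : ℝ) ^ 4) ^ k *
      (Y : ℝ) ^ (4 * Real.exp (-((11 : ℕ) : ℝ)) * (k : ℝ) ^ 2 - S / 4)) ≤
      ((704 * (k : ℝ) ^ 4) ^ (2 * 11 ^ 2 * k ^ 4)) * ((3630 * (k : ℝ) ^ 4) ^ k) *
        (Y : ℝ) ^ (-((k : ℝ) ^ 2 / 8000)) := by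
    have e1 : 64 * ((11 : ℕ) : ℝ) * (k : ℝ) ^ 4 = 704 * (k : ℝ) ^ 4 := by norm_num
    have e2 : 30 * ((11 : ℕ) : ℝ) ^ 2 * (k : ℝ) ^ 4 = 3630 * (k : ℝ) ^ 4 := by norm_num
    rw [e1, e2]
    gcongr
  refine (Real.rpow_le_rpow (by positivity) hb (by positivity)).trans ?_
  rw [Real.mul_rpow (by positivity) (by positivity), Real.mul_rpow (by positivity) (by positivity)]
  set E : ℝ := 1 / (4 * ((11 : ℕ) : ℝ) ^ 2 * (k : ℝ) ^ 4) with hE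
  have hE0 : 0 < E := by rw [hE]; positivity
  have hEk : E = 1 / (484 * (k : ℝ) ^ 4) := by rw [hE]; norm_num
  -- first factor
  have f1 : ((704 * (k : ℝ) ^ 4) ^ (2 * 11 ^ 2 * k ^ 4)) ^ E ≤ 27 * (k : ℝ) ^ 2 := by
    rw [← Real.rpow_natCast, ← Real.rpow_mul (by positivity)]
    have e3 : ((2 * 11 ^ 2 * k ^ 4 : ℕ) : ℝ) * E = 1 / 2 := by
      rw [hEk]
      push_cast
      field_simp
      norm_num
    rw [e3, ← Real.sqrt_eq_rpow]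
    rw [Real.sqrt_le_left (by positivity)]
    have : (27 * (k : ℝ) ^ 2) ^ 2 = 729 * (k : ℝ) ^ 4 := by ring
    rw [this]
    have : (0 : ℝ) ≤ (k : ℝ) ^ 4 := by positivity
    linarith
  -- second factor
  have f2 : ((3630 * (k : ℝ) ^ 4) ^ k) ^ E ≤ 3 := by
    have h1 : 3630 * (k : ℝ) ^ 4 ≤ Real.exp (484 * (k : ℝ) ^ 3) := by
      have h2 := Real.quadratic_le_exp_of_nonneg (x := 484 * (k : ℝ) ^ 3) (by positivity)
      have h3 : 3630 * (k : ℝ) ^ 4 ≤ (484 * (k : ℝ) ^ 3) ^ 2 / 2 := by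
        have h4 : (484 * (k : ℝ) ^ 3) ^ 2 / 2 = 117128 * ((k : ℝ) ^ 4 * (k : ℝ) ^ 2) := by ring
        rw [h4]
        have h5 : (1 : ℝ) ≤ (k : ℝ) ^ 2 := by nlinarith
        have h6 : (0 : ℝ) ≤ (k : ℝ) ^ 4 := by positivity
        nlinarith
      have h4 : (0 : ℝ) ≤ 484 * (k : ℝ) ^ 3 := by positivity
      linarith
    calc ((3630 * (k : ℝ) ^ 4) ^ k) ^ E
        ≤ (Real.exp (484 * (k : ℝ) ^ 3) ^ k) ^ E := by
          apply Real.rpow_le_rpow (by positivity) _ hE0.le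
          gcongr
      _ = Real.exp 1 := by
          rw [← Real.exp_nat_mul, ← Real.exp_mul]
          congr 1
          rw [hEk]
          field_simp
      _ ≤ 3 := by linarith [Real.exp_one_lt_d9]
  -- third factor
  have f3 : ((Y : ℝ) ^ (-((k : ℝ) ^ 2 / 8000))) ^ E ≤
      (Y : ℝ) ^ (-(1 / (4000000 * (k : ℝ) ^ 2))) := by
    rw [← Real.rpow_mul hY0.le]
    apply Real.rpow_le_rpow_of_exponent_le hY1
    rw [hEk]
    have e4 : -((k : ℝ) ^ 2 / 8000) * (1 / (484 * (k : ℝ) ^ 4)) = -(1 / (3872000 * (k : ℝ) ^ 2)) := by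
      field_simp
      norm_num
    rw [e4]
    apply neg_le_neg
    apply one_div_le_one_div_of_le (by positivity)
    have : (0 : ℝ) ≤ (k : ℝ) ^ 2 := by positivity
    linarith
  have g3 : (0 : ℝ) ≤ (Y : ℝ) ^ (-(1 / (4000000 * (k : ℝ) ^ 2))) := by positivity
  calc ((704 * (k : ℝ) ^ 4) ^ (2 * 11 ^ 2 * k ^ 4)) ^ E * ((3630 * (k : ℝ) ^ 4) ^ k) ^ E *
        ((Y : ℝ) ^ (-((k : ℝ) ^ 2 / 8000))) ^ E
      ≤ (27 * (k : ℝ) ^ 2) * 3 * (Y : ℝ) ^ (-(1 / (4000000 * (k : ℝ) ^ 2))) := by gcongr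
    _ ≤ 100 * (k : ℝ) ^ 2 * (Y : ℝ) ^ (-(1 / (4000000 * (k : ℝ) ^ 2))) := by
        apply mul_le_mul_of_nonneg_right _ g3
        have : (0 : ℝ) ≤ (k : ℝ) ^ 2 := by positivity
        linarith

end Pool.MSP
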