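import Pool.Agent.MSP.Cof
import Pool.Agent.MSP.Sav

/-!
# MSP / Exs: the exponential sum `∑_{M < n ≤ M'} n^(-it)`

PROOF. `L = log M ≥ 300` (`M₀ = exp 300`), `r = log t / L ≥ 1/2`, `t = M^r`, `k = kr r`, `7 r + 6 ≤ k ≤ 7 r + 7 ≤ 21 r`, `Y = YM M`, `M^(3/7)/2 ≤ Y ≤ M^(3/7)`, `g n = n^(-it)`. `shift_sum`: `Y^2 ‖∑ g‖ ≤ ∑_n ‖∑_{x,y} g(n+xy)‖ + 2 Y^4`.
For `M < n ≤ M' ≤ 2M`, `v = x y ≤ Y^2 ≤ M^(6/7) ≤ n/2`: `tay`: `‖∑_{x,y} g(n+xy)‖ ≤ ‖∑_{x,y} e(∑_l al t n l (xy)^(l+1))‖ + Y^2 · 2 t (Y^2/n)^(k+1)`; the first is `‖Bil α Y‖` with `α l = al t n l` (`(x y : ℝ)` casts), `vkey` (`m = 11`, `T` of `cof`) and `sav_bd`: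
`≤ Y^2 100 k^2 Y^(-(1/(4·10^6 k^2)))`. The second: `Y^2/n ≤ M^(-1/7)`, `t M^(-(k+1)/7) ≤ M^(r - (7r+7)/7) = M^(-1)`. So, dividing by `Y^2`:
`‖∑ g‖ ≤ M (100 k^2 Y^(-(1/(4·10^6 k^2))) + 2/M) + 2 Y^2 ≤ 100 k^2 M Y^(-...) + 2 + 2 M^(6/7)`.
`Y ≥ M^(3/7)/2 ≥ M^(3/8)`, `k^2 ≤ 441 r^2`: `Y^(-(1/(4·10^6 k^2))) ≤ exp(-(3/8) L/(4·10^6·441 r^2)) ≤ exp(-c L/r^2)`, `c = 10^(-10)`; `L/r^2 = L^3/(log t)^2`. `100 k^2 ≤ 44100 r^2`.
`2 + 2M^(6/7) ≤ 4 M exp(-L/7) ≤ 16 r^2 M exp(-c L/r^2)` (`r^2 ≥ 1/4`, `c/r^2 ≤ 4c ≤ 1/7`). Total `≤ 50000 r^2 M exp(-c L^3/(log t)^2)`.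
-/

set_option autoImplicit false

open MeasureTheory Filter Topology Set

open Pool.Agent

namespace Pool.MSP

private theorem exs_kr {r : ℝ} (hr : 1 / 2 ≤ r) :
    7 * r + 6 ≤ ((kr r : ℕ) : ℝ) ∧ ((kr r : ℕ) : ℝ) ≤ 21 * r ∧ 2 ≤ kr r := by
  have h1 : 7 * r ≤ (⌈7 * r⌉₊ : ℝ) := Nat.le_ceil _
  have h2 : (⌈7 * r⌉₊ : ℝ) < 7 * r + 1 := Nat.ceil_lt_add_one (by linarith)
  have h3 : ((kr r : ℕ) : ℝ) = (⌈7 * r⌉₊ : ℝ) + 6 := by
    unfold kr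
    push_cast
    rfl
  have h4 : 2 ≤ kr r := by
    unfold kr
    omega
  exact ⟨by linarith, by linarith, h4⟩

private theorem exs_YM {M : ℕ} (hM : 300 ≤ Real.log M) :
    1 ≤ YM M ∧ ((YM M : ℕ) : ℝ) ≤ (M : ℝ) ^ (3 / 7 : ℝ) ∧
      (3 / 8 : ℝ) * Real.log M ≤ Real.log (YM M) ∧ 2 * ((YM M : ℕ) : ℝ) ^ 2 ≤ M := by
  have hM0 : (0 : ℝ) < M := by
    by_contra h
    have h1 : (M : ℝ) = 0 := le_antisymm (not_lt.1 h) (Nat.cast_nonneg M)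
    rw [h1, Real.log_zero] at hM
    linarith
  have hlog : (M : ℝ) = Real.exp (Real.log M) := (Real.exp_log hM0).symm
  have hM1 : (1 : ℝ) ≤ (M : ℝ) := by
    rw [hlog]
    exact Real.one_le_exp (by linarith)
  have hx1 : (1 : ℝ) ≤ (M : ℝ) ^ (3 / 7 : ℝ) := Real.one_le_rpow hM1 (by norm_num)
  have h1 : 1 ≤ YM M := by
    unfold YM
    exact Nat.le_floor (by exact_mod_cast hx1)
  have h2 : ((YM M : ℕ) : ℝ) ≤ (M : ℝ) ^ (3 / 7 : ℝ) := Nat.floor_le (by positivity)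
  have h3 : (M : ℝ) ^ (3 / 7 : ℝ) < (YM M : ℕ) + 1 := Nat.lt_floor_add_one _
  have h1' : (1 : ℝ) ≤ (YM M : ℕ) := by exact_mod_cast h1
  refine ⟨h1, h2, ?_, ?_⟩
  · have h4 : (M : ℝ) ^ (3 / 7 : ℝ) / 2 ≤ (YM M : ℕ) := by linarith
    have h5 := Real.log_le_log (by positivity) h4
    rw [Real.log_div (by positivity) (by norm_num), Real.log_rpow hM0] at h5
    have h6 : Real.log 2 < 1 := by
      have := Real.log_two_lt_d9
      linarith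
    linarith
  · have h4 : ((YM M : ℕ) : ℝ) ^ 2 ≤ ((M : ℝ) ^ (3 / 7 : ℝ)) ^ 2 := by gcongr
    have h5 : ((M : ℝ) ^ (3 / 7 : ℝ)) ^ 2 = (M : ℝ) ^ (6 / 7 : ℝ) := by
      rw [← Real.rpow_natCast, ← Real.rpow_mul hM0.le]
      norm_num
    have h6 : (2 : ℝ) * (M : ℝ) ^ (6 / 7 : ℝ) ≤ M := by
      have h7 : (M : ℝ) = (M : ℝ) ^ (1 / 7 : ℝ) * (M : ℝ) ^ (6 / 7 : ℝ) := by
        rw [← Real.rpow_add hM0]
        norm_num
      have h8 : (2 : ℝ) ≤ (M : ℝ) ^ (1 / 7 : ℝ) := by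
        rw [hlog, ← Real.exp_mul]
        calc (2 : ℝ) ≤ Real.exp 1 := by linarith [Real.exp_one_gt_d9]
          _ ≤ _ := Real.exp_le_exp.2 (by linarith)
      calc (2 : ℝ) * (M : ℝ) ^ (6 / 7 : ℝ) ≤ (M : ℝ) ^ (1 / 7 : ℝ) * (M : ℝ) ^ (6 / 7 : ℝ) := by
            gcongr
        _ = M := h7.symm
    linarith

/-- the inner sum -/
private theorem exs_inner {M n : ℕ} {r t : ℝ} (hM : 300 ≤ Real.log M) (hr : 1 / 2 ≤ r)
    (ht : t = (M : ℝ) ^ r) (h1 : M < n) (h2 : n ≤ 2 * M) :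
    ‖∑ x ∈ Finset.Icc 1 (YM M), ∑ y ∈ Finset.Icc 1 (YM M),
      ((n + x * y : ℕ) : ℂ) ^ (-(t * Complex.I))‖ ≤
      (YM M : ℝ) ^ 2 * (100 * ((kr r : ℕ) : ℝ) ^ 2 *
        (YM M : ℝ) ^ (-(1 / (4000000 * ((kr r : ℕ) : ℝ) ^ 2))) + 2 / M) := by
  obtain ⟨hk1, hk2, hk3⟩ := exs_kr hr
  obtain ⟨hY1, hY2, hY3, hY4⟩ := exs_YM hM
  have hM0 : (0 : ℝ) < M := by
    by_contra h
    have h1 : (M : ℝ) = 0 := le_antisymm (not_lt.1 h) (Nat.cast_nonneg M)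
    rw [h1, Real.log_zero] at hM
    linarith
  have hlog : (M : ℝ) = Real.exp (Real.log M) := (Real.exp_log hM0).symm
  have hM1 : (1 : ℝ) ≤ (M : ℝ) := by
    rw [hlog]
    exact Real.one_le_exp (by linarith)
  have ht0 : 0 ≤ t := by rw [ht]; positivity
  have hnM : (M : ℝ) ≤ n := by exact_mod_cast h1.le
  have hn0 : (0 : ℝ) < n := by linarith
  set k := kr r with hk
  set Y := YM M with hYdef
  obtain ⟨T, hT, hS⟩ := cof hM hr ht h1 h2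
  have hbil := VMV.vkey hk3 (by norm_num : 1 ≤ 11) hY1 (fun j : Fin k => al t n j.1) T hT
  have hsav := sav_bd hk3 hY1 hS
  -- termwise
  have hterm : ∀ x ∈ Finset.Icc 1 Y, ∀ y ∈ Finset.Icc 1 Y,
      ‖((n + x * y : ℕ) : ℂ) ^ (-(t * Complex.I)) - (n : ℂ) ^ (-(t * Complex.I)) *
        VMV.e (∑ l : Fin k, al t n l.1 * ((x : ℝ) * y) ^ (l.1 + 1))‖ ≤ 2 / M := by
    intro x hx y hy
    rw [Finset.mem_Icc] at hx hy
    have hxy : x * y ≤ Y ^ 2 := by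
      rw [pow_two]
      exact Nat.mul_le_mul hx.2 hy.2
    have hxyR : ((x * y : ℕ) : ℝ) ≤ (Y : ℝ) ^ 2 := by exact_mod_cast hxy
    have h2v : 2 * (x * y) ≤ n := by
      have : (2 * (x * y : ℕ) : ℝ) ≤ n := by linarith
      exact_mod_cast this
    have h := tay (k := k) ht0 (n := n) (v := x * y) (by omega) h2v
    have e1 : ∀ l : Fin k, al t n l.1 * ((x * y : ℕ) : ℝ) ^ (l.1 + 1) =
        al t n l.1 * ((x : ℝ) * y) ^ (l.1 + 1) := fun l => by push_cast; rfl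
    simp only [e1] at h
    refine h.trans ?_
    -- the size of the remainder
    have hv : ((x * y : ℕ) : ℝ) / n ≤ (M : ℝ) ^ (-(1 / 7) : ℝ) := by
      have h3 : ((x * y : ℕ) : ℝ) / n ≤ (M : ℝ) ^ (6 / 7 : ℝ) / M := by
        apply div_le_div₀ (by positivity) _ hM0 hnM
        refine hxyR.trans ?_
        calc (Y : ℝ) ^ 2 ≤ ((M : ℝ) ^ (3 / 7 : ℝ)) ^ 2 := by gcongr
          _ = (M : ℝ) ^ (6 / 7 : ℝ) := by
            rw [← Real.rpow_natCast, ← Real.rpow_mul hM0.le]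
            norm_num
      refine h3.trans (le_of_eq ?_)
      rw [← Real.rpow_sub_one hM0.ne']
      norm_num
    have hv0 : 0 ≤ ((x * y : ℕ) : ℝ) / n := by positivity
    calc 2 * t * (((x * y : ℕ) : ℝ) / n) ^ (k + 1)
        ≤ 2 * t * ((M : ℝ) ^ (-(1 / 7) : ℝ)) ^ (k + 1) := by gcongr
      _ = 2 * ((M : ℝ) ^ r * (M : ℝ) ^ (-(1 / 7) * ((k : ℝ) + 1))) := by
          rw [ht, ← Real.rpow_natCast ((M : ℝ) ^ (-(1 / 7) : ℝ)), ← Real.rpow_mul hM0.le]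
          push_cast
          ring
      _ = 2 * (M : ℝ) ^ (r + -(1 / 7) * ((k : ℝ) + 1)) := by rw [← Real.rpow_add hM0]
      _ ≤ 2 * (M : ℝ) ^ (-1 : ℝ) := by
          gcongr
          linarith
      _ = 2 / M := by
          rw [Real.rpow_neg_one]
          rfl
  have hsum : ‖(∑ x ∈ Finset.Icc 1 Y, ∑ y ∈ Finset.Icc 1 Y,
      ((n + x * y : ℕ) : ℂ) ^ (-(t * Complex.I))) - (n : ℂ) ^ (-(t * Complex.I)) *
        VMV.Bil (fun j : Fin k => al t n j.1) Y‖ ≤ (Y : ℝ) ^ 2 * (2 / M) := by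
    unfold VMV.Bil
    rw [Finset.mul_sum, ← Finset.sum_sub_distrib]
    refine (norm_sum_le _ _).trans ?_
    calc ∑ x ∈ Finset.Icc 1 Y, ‖(∑ y ∈ Finset.Icc 1 Y,
          ((n + x * y : ℕ) : ℂ) ^ (-(t * Complex.I))) - (n : ℂ) ^ (-(t * Complex.I)) *
            ∑ y ∈ Finset.Icc 1 Y, VMV.e (∑ l : Fin k, al t n l.1 * ((x : ℝ) * y) ^ (l.1 + 1))‖
        ≤ ∑ x ∈ Finset.Icc 1 Y, ((Y : ℝ) * (2 / M)) := by
          refine Finset.sum_le_sum fun x hx => ?_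
          rw [Finset.mul_sum, ← Finset.sum_sub_distrib]
          refine (norm_sum_le _ _).trans ?_
          refine (Finset.sum_le_sum fun y hy => hterm x hx y hy).trans ?_
          rw [Finset.sum_const, Nat.card_Icc, nsmul_eq_mul]
          simp
      _ = (Y : ℝ) ^ 2 * (2 / M) := by
          rw [Finset.sum_const, Nat.card_Icc, nsmul_eq_mul]
          simp only [add_tsub_cancel_right]
          ring
  have hg := norm_cpow_it t n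
  have hBl : ‖(n : ℂ) ^ (-(t * Complex.I)) * VMV.Bil (fun j : Fin k => al t n j.1) Y‖ ≤
      (Y : ℝ) ^ 2 * (100 * (k : ℝ) ^ 2 * (Y : ℝ) ^ (-(1 / (4000000 * (k : ℝ) ^ 2)))) := by
    rw [norm_mul]
    calc ‖(n : ℂ) ^ (-(t * Complex.I))‖ * ‖VMV.Bil (fun j : Fin k => al t n j.1) Y‖
        ≤ 1 * ((Y : ℝ) ^ 2 * VMV.sav k 11 Y (∑ j ∈ T, ((j.1 : ℝ) + 1))) := by
          gcongr
      _ ≤ _ := by
          rw [one_mul]
          gcongr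
  calc _ = ‖((∑ x ∈ Finset.Icc 1 Y, ∑ y ∈ Finset.Icc 1 Y,
      ((n + x * y : ℕ) : ℂ) ^ (-(t * Complex.I))) - (n : ℂ) ^ (-(t * Complex.I)) *
        VMV.Bil (fun j : Fin k => al t n j.1) Y) + (n : ℂ) ^ (-(t * Complex.I)) *
        VMV.Bil (fun j : Fin k => al t n j.1) Y‖ := by rw [sub_add_cancel]
    _ ≤ _ := norm_add_le _ _
    _ ≤ (Y : ℝ) ^ 2 * (2 / M) + (Y : ℝ) ^ 2 * (100 * (k : ℝ) ^ 2 *
        (Y : ℝ) ^ (-(1 / (4000000 * (k : ℝ) ^ 2)))) := add_le_add hsum hBl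
    _ = _ := by ring

theorem exs : ∃ C c M₀ : ℝ, 0 < C ∧ 0 < c ∧ 2 ≤ M₀ ∧ ∀ (M M' : ℕ) (t : ℝ), M₀ ≤ M → M ≤ M' →
    M' ≤ 2 * M → 1 ≤ t → Real.log M ≤ 2 * Real.log t →
    ‖∑ n ∈ Finset.Ioc M M', (n : ℂ) ^ (-(t * Complex.I))‖ ≤
      C * M * (Real.log t / Real.log M) ^ 2 *
        Real.exp (-(c * Real.log M ^ 3 / Real.log t ^ 2)) := by
  refine ⟨60000, 1 / 10000000000, Real.exp 300, by norm_num, by norm_num, ?_, ?_⟩
  · have := Real.add_one_le_exp (300 : ℝ)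
    linarith
  intro M M' t hM h1 h2 ht hlt
  have hM0 : (0 : ℝ) < M := (Real.exp_pos _).trans_le hM
  have hL : 300 ≤ Real.log M := (Real.le_log_iff_exp_le hM0).2 hM
  have hlog : (M : ℝ) = Real.exp (Real.log M) := (Real.exp_log hM0).symm
  set L := Real.log M with hLdef
  have hL0 : 0 < L := by linarith
  set r := Real.log t / L with hr
  have hr2 : 1 / 2 ≤ r := by
    rw [hr, le_div_iff₀ hL0]
    linarith
  have hr0 : 0 < r := by linarith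
  have htr : t = (M : ℝ) ^ r := by
    rw [hlog, ← Real.exp_mul, hr, mul_div_cancel₀ _ hL0.ne', Real.exp_log (by linarith)]
  obtain ⟨hk1, hk2, hk3⟩ := exs_kr hr2
  obtain ⟨hY1, hY2, hY3, hY4⟩ := exs_YM hL
  have hY1' : (1 : ℝ) ≤ (YM M : ℕ) := by exact_mod_cast hY1
  have hY0 : (0 : ℝ) < (YM M : ℕ) := by linarith
  set k := kr r with hk
  set Y := YM M with hYdef
  have hk0 : (0 : ℝ) < k := by
    have : (2 : ℝ) ≤ k := by exact_mod_cast hk3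
    linarith
  have hsh := shift_sum (fun n : ℕ => (n : ℂ) ^ (-(t * Complex.I))) (norm_cpow_it t) M M' Y
  set A : ℝ := 100 * (k : ℝ) ^ 2 * (Y : ℝ) ^ (-(1 / (4000000 * (k : ℝ) ^ 2))) with hA
  have hA0 : 0 ≤ A := by rw [hA]; positivity
  have hin : ∑ n ∈ Finset.Ioc M M', ‖∑ x ∈ Finset.Icc 1 Y, ∑ y ∈ Finset.Icc 1 Y,
      ((n + x * y : ℕ) : ℂ) ^ (-(t * Complex.I))‖ ≤ M * ((Y : ℝ) ^ 2 * (A + 2 / M)) := by
    calc _ ≤ ∑ n ∈ Finset.Ioc M M', ((Y : ℝ) ^ 2 * (A + 2 / M)) := by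
          refine Finset.sum_le_sum fun n hn => ?_
          rw [Finset.mem_Ioc] at hn
          exact exs_inner hL hr2 htr hn.1 (by omega)
      _ = ((M' - M : ℕ) : ℝ) * ((Y : ℝ) ^ 2 * (A + 2 / M)) := by
          rw [Finset.sum_const, Nat.card_Ioc, nsmul_eq_mul]
      _ ≤ M * ((Y : ℝ) ^ 2 * (A + 2 / M)) := by
          gcongr
          exact_mod_cast (by omega : M' - M ≤ M)
  have hmain : ‖∑ n ∈ Finset.Ioc M M', (n : ℂ) ^ (-(t * Complex.I))‖ ≤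
      M * A + 2 + 2 * (Y : ℝ) ^ 2 := by
    have hY2p : (0 : ℝ) < (Y : ℝ) ^ 2 := by positivity
    have h3 : (Y : ℝ) ^ 2 * ‖∑ n ∈ Finset.Ioc M M', (n : ℂ) ^ (-(t * Complex.I))‖ ≤
        (Y : ℝ) ^ 2 * (M * A + 2 + 2 * (Y : ℝ) ^ 2) := by
      refine hsh.trans ((add_le_add_left hin _).trans (le_of_eq ?_))
      field_simp
    exact le_of_mul_le_mul_left h3 hY2p
  refine hmain.trans ?_
  -- the exponential factors
  have hr20 : 0 < r ^ 2 := by positivity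
  have hq : 1 / 10000000000 * L ^ 3 / Real.log t ^ 2 = 1 / 10000000000 * (L / r ^ 2) := by
    have hT : Real.log t = r * L := by rw [hr, div_mul_cancel₀ _ hL0.ne']
    rw [hT]
    field_simp
  rw [hq]
  have hkr : (k : ℝ) ^ 2 ≤ 441 * r ^ 2 := by
    have : (k : ℝ) ^ 2 ≤ (21 * r) ^ 2 := by gcongr
    linarith [this, (by ring : (21 * r) ^ 2 = 441 * r ^ 2)]
  have hYexp : (Y : ℝ) ^ (-(1 / (4000000 * (k : ℝ) ^ 2))) ≤
      Real.exp (-(1 / 10000000000 * (L / r ^ 2))) := by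
    rw [Real.rpow_def_of_pos hY0]
    apply Real.exp_le_exp.2
    have h3 : 1 / (4000000 * (441 * r ^ 2)) ≤ 1 / (4000000 * (k : ℝ) ^ 2) := by
      apply one_div_le_one_div_of_le (by positivity)
      gcongr
    have h4 : (3 / 8 : ℝ) * L * (1 / (4000000 * (441 * r ^ 2))) ≤
        Real.log Y * (1 / (4000000 * (k : ℝ) ^ 2)) := by gcongr
    have h5 : 1 / 10000000000 * (L / r ^ 2) ≤ (3 / 8 : ℝ) * L * (1 / (4000000 * (441 * r ^ 2))) := by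
      have e1 : (3 / 8 : ℝ) * L * (1 / (4000000 * (441 * r ^ 2))) =
          (3 / 8 / (4000000 * 441)) * (L / r ^ 2) := by
        field_simp
      rw [e1]
      exact mul_le_mul_of_nonneg_right (by norm_num) (by positivity)
    linarith
  have hYM67 : (Y : ℝ) ^ 2 ≤ M * Real.exp (-(L / 7)) := by
    calc (Y : ℝ) ^ 2 ≤ ((M : ℝ) ^ (3 / 7 : ℝ)) ^ 2 := by gcongr
      _ = M * Real.exp (-(L / 7)) := by
        rw [← Real.rpow_natCast, ← Real.rpow_mul hM0.le]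
        conv_lhs => rw [hlog]
        conv_rhs => rw [hlog]
        rw [← Real.exp_mul, ← Real.exp_add]
        congr 1
        push_cast
        ring
  have h17 : Real.exp (-(L / 7)) ≤ Real.exp (-(1 / 10000000000 * (L / r ^ 2))) := by
    apply Real.exp_le_exp.2
    apply neg_le_neg
    have h3 : L / r ^ 2 ≤ 4 * L := by
      rw [div_le_iff₀ hr20]
      have h4 : (1 / 4 : ℝ) ≤ r ^ 2 := by nlinarith
      have h5 := mul_le_mul_of_nonneg_left h4 hL0.le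
      linarith
    linarith
  have hone : (1 : ℝ) ≤ (Y : ℝ) ^ 2 := one_le_pow₀ hY1'
  set E := Real.exp (-(1 / 10000000000 * (L / r ^ 2))) with hE
  have hE0 : 0 < E := Real.exp_pos _
  have hpart1 : M * A ≤ 44100 * (M * r ^ 2 * E) := by
    rw [hA]
    calc (M : ℝ) * (100 * (k : ℝ) ^ 2 * (Y : ℝ) ^ (-(1 / (4000000 * (k : ℝ) ^ 2))))
        ≤ M * (100 * (441 * r ^ 2) * E) := by gcongr
      _ = 44100 * (M * r ^ 2 * E) := by ring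
  have hpart2 : 2 + 2 * (Y : ℝ) ^ 2 ≤ 16 * (M * r ^ 2 * E) := by
    calc 2 + 2 * (Y : ℝ) ^ 2 ≤ 4 * (Y : ℝ) ^ 2 := by linarith
      _ ≤ 4 * (M * E) := by
        have := mul_le_mul_of_nonneg_left h17 hM0.le
        linarith
      _ ≤ 16 * (M * r ^ 2 * E) := by
        have h3 : 0 ≤ M * E := by positivity
        have h4 : (1 / 4 : ℝ) ≤ r ^ 2 := by nlinarith
        nlinarith
  have hfin : 0 ≤ M * r ^ 2 * E := by positivity
  calc M * A + 2 + 2 * (Y : ℝ) ^ 2 ≤ 44116 * (M * r ^ 2 * E) := by linarith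
    _ ≤ 60000 * (M * r ^ 2 * E) := by linarith
    _ = 60000 * M * r ^ 2 * E := by ring

end Pool.MSP
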