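import Pool.Agent.MSP.Pnt

/-!
# MSP / Ful: from the sequence `N_j` to all `x`, and removal of the weight `(log n)^k`

PROOF. `k = 30`. Let `l ∈ [1,2]` be good for `bcl`. `mnt` along `N_j`: `A_j := ∑_{n ∈ Icc 1 N_j} lam k n cutF F N_j (l n) = ∑_{1 ≤ n ≤ N_j/l} lam k n F(l n)` satisfies `A_j/(N_j (log N_j)^k) → 0`.
For real `x` large let `j` be the largest index with `N_j ≤ l x` (`N_j → ∞`, monotone; e.g. `Nat.findGreatest` or `exists j, N_j ≤ l x < N_(j+1)`, `j → ∞`). `S_k(x) := ∑_{n ≤ x} lam k n F(l n)`: `‖S_k(x) - A_j‖ ≤ (log x)^k (ψ(x) - ψ(N_j/l))`, `1 ≤ l x/N_j ≤ N_(j+1)/N_j → 1`, `psi_short`: `o(x (log x)^k)`.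
`N_j ≤ 2 x`. So `S_k(x)/(x (log x)^k) → 0`.
Weight: `‖∑_{n ≤ x} Λ(n) F(l n) - S_k(x)/(log x)^k‖ ≤ ∑_{n ≤ x} Λ(n) (1 - (log n/log x)^k) ≤ ψ(εx) + (1 - (log(εx)/log x)^k) ψ(x) ≤ C ε x + o(x)` for every `ε ∈ (0,1)`.
-/

set_option autoImplicit false

open MeasureTheory Filter Topology Set

namespace Pool.MSP

private noncomputable def jx (l x : ℝ) : ℕ := ⌊(Real.log (l * x)) ^ 2⌋₊

private lemma log_lx {l : ℝ} (hl : 0 < l) : Tendsto (fun x => Real.log (l * x)) atTop atTop :=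
  Real.tendsto_log_atTop.comp (tendsto_id.const_mul_atTop hl)

private lemma jx_tendsto {l : ℝ} (hl : 0 < l) : Tendsto (jx l) atTop atTop := by
  unfold jx
  exact tendsto_nat_floor_atTop.comp ((tendsto_pow_atTop two_ne_zero).comp (log_lx hl))

private lemma Nj_le {l x : ℝ} (hx : 1 ≤ l * x) : (Nj (jx l x) : ℝ) ≤ l * x := by
  unfold Nj jx
  have h0 : 0 ≤ Real.log (l * x) := Real.log_nonneg hx
  have h1 : Real.sqrt (⌊(Real.log (l * x)) ^ 2⌋₊ : ℝ) ≤ Real.log (l * x) := by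
    rw [Real.sqrt_le_left h0]
    exact Nat.floor_le (sq_nonneg _)
  have h2 := (Real.exp_le_exp.2 h1).trans (Real.exp_log (by linarith)).le
  exact (Nat.floor_le (Real.exp_pos _).le).trans h2

private lemma lt_Nj {l x : ℝ} (hx : 1 ≤ l * x) : l * x < Nj (jx l x + 1) + 1 := by
  have h0 : 0 ≤ Real.log (l * x) := Real.log_nonneg hx
  have h1 : Real.log (l * x) ≤ Real.sqrt ((jx l x + 1 : ℕ) : ℝ) := by
    rw [Real.le_sqrt h0]
    · push_cast
      exact (Nat.lt_floor_add_one _).le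
    · positivity
  have h2 : l * x ≤ Real.exp (Real.sqrt ((jx l x + 1 : ℕ) : ℝ)) := by
    rw [← Real.exp_log (show 0 < l * x by linarith)]
    exact Real.exp_le_exp.2 h1
  exact h2.trans_lt (Nat.lt_floor_add_one _)

private noncomputable def Sk (F : ℝ → ℂ) (l : ℝ) (y : ℝ) : ℂ :=
  ∑ n ∈ Finset.Ioc 0 ⌊y⌋₊, (lam 30 n : ℂ) * F (l * n)

private lemma Icc_eq (m : ℕ) : Finset.Icc 1 m = Finset.Ioc 0 m := by
  ext n
  simp only [Finset.mem_Icc, Finset.mem_Ioc]
  omega

private lemma Sk_eq (F : ℝ → ℂ) {l : ℝ} (hl : 1 ≤ l) (N : ℕ) :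
    ∑ n ∈ Finset.Icc 1 N, (lam 30 n : ℂ) * cutF F N (l * n) = Sk F l (N / l) := by
  unfold Sk
  have hl0 : 0 < l := by linarith
  have hN : (0 : ℝ) ≤ (N : ℝ) / l := by positivity
  have h1 : ∑ n ∈ Finset.Ioc 0 ⌊(N : ℝ) / l⌋₊, (lam 30 n : ℂ) * F (l * n) =
      ∑ n ∈ Finset.Ioc 0 ⌊(N : ℝ) / l⌋₊, (lam 30 n : ℂ) * cutF F N (l * n) := by
    refine Finset.sum_congr rfl fun n hn => ?_
    rw [Finset.mem_Ioc, Nat.le_floor_iff hN, le_div_iff₀ hl0] at hn
    have hn0 : (0 : ℝ) < n := by exact_mod_cast hn.1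
    unfold cutF
    rw [indicator_of_mem]
    exact ⟨by positivity, by linarith [hn.2]⟩
  rw [h1]
  symm
  refine Finset.sum_subset ?_ fun n hn hn' => ?_
  · intro n hn
    rw [Finset.mem_Ioc, Nat.le_floor_iff hN, le_div_iff₀ hl0] at hn
    rw [Finset.mem_Icc]
    refine ⟨hn.1, ?_⟩
    have hn0 : (0 : ℝ) < n := by exact_mod_cast hn.1
    have : (n : ℝ) ≤ N := by nlinarith [hn.2]
    exact_mod_cast this
  · rw [Finset.mem_Icc] at hn
    rw [Finset.mem_Ioc, Nat.le_floor_iff hN, le_div_iff₀ hl0] at hn'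
    unfold cutF
    rw [indicator_of_notMem, mul_zero]
    rintro ⟨h2, h3⟩
    exact hn' ⟨hn.1, by linarith⟩

private lemma psi_sub {y x : ℝ} (h : y ≤ x) : Chebyshev.psi x - Chebyshev.psi y =
    ∑ n ∈ Finset.Ioc ⌊y⌋₊ ⌊x⌋₊, ArithmeticFunction.vonMangoldt n := by
  unfold Chebyshev.psi
  rw [← Finset.sum_Ioc_consecutive _ (Nat.zero_le _) (Nat.floor_le_floor h)]
  ring

private lemma log_le_of_mem {x : ℝ} {n : ℕ} (h0 : 0 < n) (hn : n ≤ ⌊x⌋₊) :
    Real.log n ≤ Real.log x := by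
  have h1 : (0 : ℝ) < n := by exact_mod_cast h0
  have hx : 0 ≤ x := by
    by_contra hneg
    push Not at hneg
    rw [Nat.floor_of_nonpos hneg.le] at hn
    omega
  exact Real.log_le_log h1 ((Nat.le_floor_iff hx).1 hn)

private lemma Sk_sub {F : ℝ → ℂ} (hb : ∀ t, ‖F t‖ ≤ 1) (l : ℝ) {y x : ℝ} (h : y ≤ x) :
    ‖Sk F l x - Sk F l y‖ ≤ Real.log x ^ 30 * (Chebyshev.psi x - Chebyshev.psi y) := by
  have h1 : Sk F l x - Sk F l y = ∑ n ∈ Finset.Ioc ⌊y⌋₊ ⌊x⌋₊, (lam 30 n : ℂ) * F (l * n) := by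
    unfold Sk
    rw [← Finset.sum_Ioc_consecutive _ (Nat.zero_le _) (Nat.floor_le_floor h)]
    ring
  rw [h1, psi_sub h, Finset.mul_sum]
  refine (norm_sum_le _ _).trans (Finset.sum_le_sum fun n hn => ?_)
  rw [Finset.mem_Ioc] at hn
  rw [norm_mul, Complex.norm_real, Real.norm_of_nonneg (lam_nonneg 30 n)]
  have h2 : lam 30 n * ‖F (l * n)‖ ≤ lam 30 n * 1 :=
    mul_le_mul_of_nonneg_left (hb _) (lam_nonneg 30 n)
  refine h2.trans ?_
  rw [mul_one, lam, mul_comm]
  refine mul_le_mul_of_nonneg_right ?_ ArithmeticFunction.vonMangoldt_nonneg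
  exact pow_le_pow_left₀ (Real.log_natCast_nonneg n)
    (log_le_of_mem (lt_of_le_of_lt (Nat.zero_le _) hn.1) hn.2) 30

private lemma Sk_lim {F : ℝ → ℂ} (hF : UniformContinuous F) (hb : ∀ t, ‖F t‖ ≤ 1)
    (hm : Tendsto (fun T : ℝ => ((1 / T : ℝ) : ℂ) * ∫ t in (0 : ℝ)..T, F t) atTop (𝓝 0)) {l : ℝ}
    (hl : l ∈ Icc (1 : ℝ) 2)
    (hgood : Tendsto (fun j => Dk 30 (Nj j) (cutF F (Nj j)) l /
        ((Nj j * Real.log (Nj j) ^ 30 : ℝ) : ℂ)) atTop (𝓝 0)) :
    Tendsto (fun x : ℝ => ‖Sk F l x‖ / (x * Real.log x ^ 30)) atTop (𝓝 0) := by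
  have hl0 : 0 < l := by linarith [hl.1]
  -- along `N_j`
  have hA : Tendsto (fun j => ‖Sk F l (Nj j / l)‖ / (Nj j * Real.log (Nj j) ^ 30)) atTop
      (𝓝 0) := by
    have h1 := (mnt 30 hF.continuous hb hm hl).comp Nj_tendsto
    have h2 := hgood.add h1
    rw [add_zero] at h2
    have h3 := h2.norm
    rw [norm_zero] at h3
    refine h3.congr fun j => ?_
    simp only [Function.comp_apply]
    rw [← add_div, Dk, sub_add_cancel, Sk_eq F hl.1, norm_div, Complex.norm_real,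
      Real.norm_of_nonneg]
    have := Real.log_natCast_nonneg (Nj j)
    positivity
  have hA' := hA.comp (jx_tendsto hl0)
  -- the short interval
  have hNj : Tendsto (fun j => (Nj j : ℝ)) atTop atTop := tendsto_natCast_atTop_atTop.comp Nj_tendsto
  have hy : Tendsto (fun x => (Nj (jx l x) : ℝ) / l) atTop atTop :=
    (hNj.comp (jx_tendsto hl0)).atTop_div_const hl0
  have hev : ∀ᶠ x : ℝ in atTop, 4 ≤ x := eventually_ge_atTop 4
  have hev2 : ∀ᶠ x : ℝ in atTop, (2 : ℝ) ≤ Nj (jx l x) :=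
    (hNj.comp (jx_tendsto hl0)).eventually_ge_atTop 2
  have hratio : Tendsto (fun x : ℝ => x / ((Nj (jx l x) : ℝ) / l)) atTop (𝓝 1) := by
    have h1 : Tendsto (fun j => ((Nj (j + 1) : ℝ) + 1) / Nj j) atTop (𝓝 1) := by
      have h2 := Nj_ratio.add (tendsto_inv_atTop_zero.comp hNj)
      rw [add_zero] at h2
      refine h2.congr fun j => ?_
      simp only [Function.comp_apply]
      rw [add_div, one_div]
    refine tendsto_of_tendsto_of_tendsto_of_le_of_le' tendsto_const_nhds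
      (h1.comp (jx_tendsto hl0)) ?_ ?_
    · filter_upwards [hev, hev2] with x hx hx2
      have h3 : 1 ≤ l * x := by nlinarith [hl.1]
      have h4 := Nj_le h3
      rw [div_div_eq_mul_div, le_div_iff₀ (by linarith)]
      linarith
    · filter_upwards [hev, hev2] with x hx hx2
      have h3 : 1 ≤ l * x := by nlinarith [hl.1]
      have h4 := lt_Nj h3
      simp only [Function.comp_apply]
      rw [div_div_eq_mul_div]
      exact div_le_div_of_nonneg_right (by linarith) (by linarith)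
  have hB := psi_short hy hratio
  have hg := (hA'.mul_const (2 ^ 31)).add hB
  rw [zero_mul, add_zero] at hg
  refine squeeze_zero' ?_ ?_ hg
  · filter_upwards [hev] with x hx
    have := Real.log_nonneg (show (1 : ℝ) ≤ x by linarith)
    positivity
  · filter_upwards [hev, hev2] with x hx hx2
    simp only [Function.comp_apply]
    have h3 : 1 ≤ l * x := by nlinarith [hl.1]
    have h4 := Nj_le h3
    obtain ⟨N, hN⟩ : ∃ N : ℝ, N = Nj (jx l x) := ⟨_, rfl⟩
    rw [← hN] at hx2 h4 ⊢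
    have hL : 0 < Real.log x := Real.log_pos (by linarith)
    have hLN : 0 < Real.log N := Real.log_pos (by linarith)
    have h5 : N ≤ 2 * x := by nlinarith [hl.2]
    have h6 : Real.log N ≤ 2 * Real.log x := by
      have h7 : Real.log N ≤ Real.log (x ^ 2) := Real.log_le_log (by linarith) (by nlinarith)
      rwa [Real.log_pow] at h7
    have h7 : N * Real.log N ^ 30 ≤ 2 ^ 31 * (x * Real.log x ^ 30) := by
      calc N * Real.log N ^ 30 ≤ (2 * x) * (2 * Real.log x) ^ 30 :=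
            mul_le_mul h5 (pow_le_pow_left₀ hLN.le h6 30) (by positivity) (by linarith)
        _ = _ := by ring
    have h8 : N / l ≤ x := by
      rw [div_le_iff₀ hl0]
      linarith
    have h9 := Sk_sub hb l h8
    have h10 : ‖Sk F l x‖ ≤ ‖Sk F l (N / l)‖ + Real.log x ^ 30 *
        (Chebyshev.psi x - Chebyshev.psi (N / l)) := by
      have h11 : Sk F l x = Sk F l (N / l) + (Sk F l x - Sk F l (N / l)) := by ring
      rw [h11]
      exact (norm_add_le _ _).trans (by linarith)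
    have hxL : 0 < x * Real.log x ^ 30 := by positivity
    have hNL : 0 < N * Real.log N ^ 30 := by positivity
    have e1 : ‖Sk F l (N / l)‖ / (x * Real.log x ^ 30) ≤
        ‖Sk F l (N / l)‖ / (N * Real.log N ^ 30) * 2 ^ 31 := by
      rw [div_mul_eq_mul_div, div_le_div_iff₀ hxL hNL, mul_assoc]
      exact mul_le_mul_of_nonneg_left h7 (norm_nonneg _)
    have hψ : 0 ≤ Chebyshev.psi x - Chebyshev.psi (N / l) :=
      sub_nonneg.2 (Chebyshev.psi_mono h8)
    have e2 : Real.log x ^ 30 * (Chebyshev.psi x - Chebyshev.psi (N / l)) /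
        (x * Real.log x ^ 30) ≤ (Chebyshev.psi x - Chebyshev.psi (N / l)) / (N / l) := by
      rw [mul_comm x, mul_div_mul_left _ _ (by positivity)]
      exact div_le_div_of_nonneg_left hψ (by positivity) h8
    calc ‖Sk F l x‖ / (x * Real.log x ^ 30)
        ≤ (‖Sk F l (N / l)‖ + Real.log x ^ 30 * (Chebyshev.psi x - Chebyshev.psi (N / l))) /
          (x * Real.log x ^ 30) := div_le_div_of_nonneg_right h10 hxL.le
      _ = ‖Sk F l (N / l)‖ / (x * Real.log x ^ 30) + Real.log x ^ 30 *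
          (Chebyshev.psi x - Chebyshev.psi (N / l)) / (x * Real.log x ^ 30) := add_div _ _ _
      _ ≤ _ := add_le_add e1 e2

private lemma weight {F : ℝ → ℂ} (hb : ∀ t, ‖F t‖ ≤ 1) (l : ℝ) {x : ℝ} (hx : 3 ≤ x) :
    ‖∑ n ∈ Finset.Ioc 0 ⌊x⌋₊, ((ArithmeticFunction.vonMangoldt n : ℝ) : ℂ) * F (l * n)‖ ≤
      ‖Sk F l x‖ / Real.log x ^ 30 + Chebyshev.psi (x / Real.log x) +
        (1 - (Real.log (x / Real.log x) / Real.log x) ^ 30) * Chebyshev.psi x := by
  have hL1 : 1 ≤ Real.log x := by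
    rw [Real.le_log_iff_exp_le (by linarith)]
    linarith [Real.exp_one_lt_d9]
  obtain ⟨L, hL⟩ : ∃ L, L = Real.log x := ⟨_, rfl⟩
  rw [← hL] at hL1 ⊢
  have hL0 : 0 < L := by linarith
  have hLx : L ≤ x := by
    rw [hL]
    linarith [Real.log_le_sub_one_of_pos (show 0 < x by linarith)]
  obtain ⟨z, hz⟩ : ∃ z, z = x / L := ⟨_, rfl⟩
  rw [← hz]
  have hz1 : 1 ≤ z := by
    rw [hz, le_div_iff₀ hL0]
    linarith
  have hzx : z ≤ x := by
    rw [hz, div_le_iff₀ hL0]
    nlinarith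
  have hlz : 0 ≤ Real.log z := Real.log_nonneg hz1
  have hlzL : Real.log z ≤ L := by
    rw [hL]
    exact Real.log_le_log (by linarith) hzx
  have hu0 : 0 ≤ Real.log z / L := by positivity
  have hu1 : Real.log z / L ≤ 1 := by
    rw [div_le_one hL0]
    exact hlzL
  have hu : (Real.log z / L) ^ 30 ≤ 1 := pow_le_one₀ hu0 hu1
  have h1 : ∑ n ∈ Finset.Ioc 0 ⌊x⌋₊, ((ArithmeticFunction.vonMangoldt n : ℝ) : ℂ) * F (l * n) =
      Sk F l x / ((L ^ 30 : ℝ) : ℂ) + ∑ n ∈ Finset.Ioc 0 ⌊x⌋₊,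
        ((ArithmeticFunction.vonMangoldt n * (1 - (Real.log n / L) ^ 30) : ℝ) : ℂ) * F (l * n) := by
    unfold Sk
    rw [Finset.sum_div, ← Finset.sum_add_distrib]
    refine Finset.sum_congr rfl fun n _ => ?_
    unfold lam
    have hL30 : ((L : ℂ)) ^ 30 ≠ 0 := pow_ne_zero _ (by exact_mod_cast hL0.ne')
    push_cast
    rw [div_pow]
    field_simp
    ring
  have h2 : ‖∑ n ∈ Finset.Ioc 0 ⌊x⌋₊,
      ((ArithmeticFunction.vonMangoldt n * (1 - (Real.log n / L) ^ 30) : ℝ) : ℂ) * F (l * n)‖ ≤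
      Chebyshev.psi z + (1 - (Real.log z / L) ^ 30) * Chebyshev.psi x := by
    have h3 : ∀ n ∈ Finset.Ioc 0 ⌊x⌋₊,
        ‖((ArithmeticFunction.vonMangoldt n * (1 - (Real.log n / L) ^ 30) : ℝ) : ℂ) * F (l * n)‖ ≤
        (if n ≤ ⌊z⌋₊ then ArithmeticFunction.vonMangoldt n else 0) +
          (1 - (Real.log z / L) ^ 30) * ArithmeticFunction.vonMangoldt n := by
      intro n hn
      rw [Finset.mem_Ioc] at hn
      have hΛ : 0 ≤ ArithmeticFunction.vonMangoldt n := ArithmeticFunction.vonMangoldt_nonneg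
      have hn0 : 0 ≤ Real.log n := Real.log_natCast_nonneg n
      have hnL : Real.log n ≤ L := by
        rw [hL]
        exact log_le_of_mem hn.1 hn.2
      have hv0 : 0 ≤ Real.log n / L := by positivity
      have hv1 : (Real.log n / L) ^ 30 ≤ 1 := pow_le_one₀ hv0 (by
        rw [div_le_one hL0]
        exact hnL)
      have hv2 : 0 ≤ (Real.log n / L) ^ 30 := by positivity
      have h4 : 0 ≤ ArithmeticFunction.vonMangoldt n * (1 - (Real.log n / L) ^ 30) :=
        mul_nonneg hΛ (by linarith)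
      rw [norm_mul, Complex.norm_real, Real.norm_of_nonneg h4]
      refine (mul_le_mul_of_nonneg_left (hb _) h4).trans ?_
      rw [mul_one]
      have h5 : 0 ≤ (1 - (Real.log z / L) ^ 30) * ArithmeticFunction.vonMangoldt n :=
        mul_nonneg (by linarith) hΛ
      split_ifs with h6
      · have h7 : ArithmeticFunction.vonMangoldt n * (1 - (Real.log n / L) ^ 30) ≤
            ArithmeticFunction.vonMangoldt n * 1 := mul_le_mul_of_nonneg_left (by linarith) hΛ
        linarith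
      · push Not at h6
        have h7 : z < n := (Nat.floor_lt (by linarith)).1 h6
        have h8 : Real.log z / L ≤ Real.log n / L :=
          div_le_div_of_nonneg_right (Real.log_le_log (by linarith) h7.le) hL0.le
        have h9 := pow_le_pow_left₀ hu0 h8 30
        rw [zero_add, mul_comm]
        exact mul_le_mul_of_nonneg_right (by linarith) hΛ
    refine (norm_sum_le _ _).trans ((Finset.sum_le_sum h3).trans ?_)
    rw [Finset.sum_add_distrib, ← Finset.mul_sum]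
    have h4 : ∑ n ∈ Finset.Ioc 0 ⌊x⌋₊, (if n ≤ ⌊z⌋₊ then ArithmeticFunction.vonMangoldt n else 0) =
        Chebyshev.psi z := by
      unfold Chebyshev.psi
      rw [← Finset.sum_filter]
      congr 1
      ext n
      rw [Finset.mem_filter, Finset.mem_Ioc, Finset.mem_Ioc]
      have := Nat.floor_le_floor hzx
      constructor
      · rintro ⟨h5, h6⟩
        exact ⟨h5.1, h6⟩
      · rintro ⟨h5, h6⟩
        exact ⟨⟨h5, h6.trans this⟩, h6⟩
    rw [h4]
    rfl
  rw [h1]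
  refine (norm_add_le _ _).trans ?_
  rw [norm_div, Complex.norm_real, Real.norm_of_nonneg (by positivity)]
  linarith

theorem ful {F : ℝ → ℂ} (hF : UniformContinuous F) (hb : ∀ t, ‖F t‖ ≤ 1)
    (hm : Tendsto (fun T : ℝ => ((1 / T : ℝ) : ℂ) * ∫ t in (0 : ℝ)..T, F t) atTop (𝓝 0)) :
    ∀ᵐ l ∂(volume.restrict (Icc (1 : ℝ) 2)),
      Tendsto (fun x : ℝ => (∑ n ∈ Finset.Icc 1 ⌊x⌋₊,
        ((ArithmeticFunction.vonMangoldt n : ℝ) : ℂ) * F (l * n)) / (x : ℂ)) atTop (𝓝 0) := by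
  filter_upwards [bcl le_rfl hF hb, ae_restrict_mem measurableSet_Icc] with l hgood hl
  have hS := Sk_lim hF hb hm hl hgood
  have hlog := Real.tendsto_log_atTop
  have h1 : Tendsto (fun x : ℝ => Real.log (Real.log x) / Real.log x) atTop (𝓝 0) :=
    Real.isLittleO_log_id_atTop.tendsto_div_nhds_zero.comp hlog
  have h2 : Tendsto (fun x : ℝ => 1 - (1 - Real.log (Real.log x) / Real.log x) ^ 30) atTop
      (𝓝 0) := by
    have h3 := ((tendsto_const_nhds (x := (1 : ℝ))).sub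
      (((tendsto_const_nhds (x := (1 : ℝ))).sub h1).pow 30))
    simpa using h3
  have h3 : Tendsto (fun x : ℝ => (Real.log 4 + 4) * (Real.log x)⁻¹) atTop (𝓝 0) := by
    have := (tendsto_inv_atTop_zero.comp hlog).const_mul (Real.log 4 + 4)
    simpa using this
  have hg := (hS.add h3).add (h2.mul pnt)
  rw [zero_mul, add_zero, add_zero] at hg
  refine squeeze_zero_norm' ?_ hg
  filter_upwards [eventually_ge_atTop (3 : ℝ)] with x hx
  have hx0 : 0 < x := by linarith
  have hL1 : 1 ≤ Real.log x := by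
    rw [Real.le_log_iff_exp_le (by linarith)]
    linarith [Real.exp_one_lt_d9]
  have hL0 : 0 < Real.log x := by linarith
  have hw := weight hb l hx
  rw [Icc_eq, norm_div, Complex.norm_real, Real.norm_of_nonneg hx0.le]
  have e1 : Real.log (x / Real.log x) / Real.log x = 1 - Real.log (Real.log x) / Real.log x := by
    rw [Real.log_div hx0.ne' hL0.ne', sub_div, div_self hL0.ne']
  rw [e1] at hw
  have e2 : Chebyshev.psi (x / Real.log x) ≤ (Real.log 4 + 4) * (x / Real.log x) :=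
    Chebyshev.psi_le_const_mul_self (by positivity)
  rw [div_le_iff₀ hx0]
  refine hw.trans ?_
  have e3 : (‖Sk F l x‖ / (x * Real.log x ^ 30) + (Real.log 4 + 4) * (Real.log x)⁻¹ +
      (1 - (1 - Real.log (Real.log x) / Real.log x) ^ 30) * (Chebyshev.psi x / x)) * x =
      ‖Sk F l x‖ / Real.log x ^ 30 + (Real.log 4 + 4) * (x / Real.log x) +
      (1 - (1 - Real.log (Real.log x) / Real.log x) ^ 30) * Chebyshev.psi x := by
    field_simp
  rw [e3]
  linarith

end Pool.MSP
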