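import Mathlib

/-!
# MSP / Grp: uniform continuity along orbits, countable families of test functions

PROOF. `unif_smul`: let `K` be the compact support of `f`. For `x ∈ K`, by continuity of `(g, y) ↦ f(g • y) - f(y)` at `(1, x)` there are neighbourhoods `V_x ∋ 1`, `W_x ∋ x` with `|f(g y) - f(y)| ≤ ε` on `V_x × W_x`. Cover `K` by finitely many `W_x`, `V' = ⋂ V_x`, `V = V' ∩ V'⁻¹`. If `y ∈ K` fine.
If `y ∉ K` and `g y ∈ K`: `|f(g y) - f(y)| = |f(z) - f(g⁻¹ z)|` with `z = g y ∈ K`, `g⁻¹ ∈ V'`. If both are outside `K` the difference is `0`.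
`orbit_uc`: `u(t+h) • x = u(h) • (u(t) • x)`; `u` is continuous at `0`, `u 0 = 1`; so `|f(u(t+h)x) - f(u(t)x)| ≤ ε` for `|h| < η` uniformly in `t`.
`exists_countable`: `X` is second countable, locally compact, Hausdorff, so σ-compact: `CompactExhaustion K_n` (interior covers; every compact set lies in some `K_n`). `A_n = {f ∈ C(X,ℝ) : f = 0 outside K_n}`; the restriction map to `C(K_n, ℝ)` (`K_n` compact, second countable, so `C(K_n,ℝ)` with the sup metric is second
countable / separable) is injective and isometric for the sup distance; a subset of a separable metric space is separable: choose a countable `D_n ⊆ A_n` whose restrictions are dense in the restrictions of `A_n`. `D = ⋃ D_n`.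
-/

set_option autoImplicit false

open MeasureTheory Filter Topology Set

namespace Pool.MSP

theorem unif_smul {G X : Type*} [Group G] [TopologicalSpace G] [IsTopologicalGroup G]
    [TopologicalSpace X] [MulAction G X] [ContinuousSMul G X] {f : X → ℝ} (hf : Continuous f)
    (hc : HasCompactSupport f) {ε : ℝ} (hε : 0 < ε) :
    ∃ V ∈ 𝓝 (1 : G), ∀ g ∈ V, ∀ x : X, |f (g • x) - f x| ≤ ε := by
  have hopen : IsOpen {q : G × X | |f (q.1 • q.2) - f q.2| < ε} := by
    refine isOpen_lt ?_ continuous_const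
    exact ((hf.comp continuous_smul).sub (hf.comp continuous_snd)).abs
  obtain ⟨u, v, hu, -, h1u, hKv, huv⟩ := generalized_tube_lemma (isCompact_singleton (x := (1 : G)))
    hc.isCompact hopen (by
      rintro ⟨g, x⟩ ⟨hg, -⟩
      have hg' : g = 1 := hg
      change |f (g • x) - f x| < ε
      rw [hg', one_smul, sub_self, abs_zero]
      exact hε)
  have h1 : u ∈ 𝓝 (1 : G) := hu.mem_nhds (h1u rfl)
  have h2 : {g : G | g⁻¹ ∈ u} ∈ 𝓝 (1 : G) := by
    have h3 : Tendsto (fun g : G => g⁻¹) (𝓝 1) (𝓝 1) := by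
      have := (continuous_inv (G := G)).tendsto 1
      rwa [inv_one] at this
    exact h3 h1
  have key : ∀ g ∈ u, ∀ x ∈ tsupport f, |f (g • x) - f x| ≤ ε := by
    intro g hg x hx
    have h4 : (g, x) ∈ {q : G × X | |f (q.1 • q.2) - f q.2| < ε} := huv ⟨hg, hKv hx⟩
    exact le_of_lt h4
  refine ⟨u ∩ {g : G | g⁻¹ ∈ u}, inter_mem h1 h2, ?_⟩
  rintro g ⟨hg1, hg2⟩ x
  by_cases hx : x ∈ tsupport f
  · exact key g hg1 x hx
  · by_cases hgx : g • x ∈ tsupport f
    · have h5 := key g⁻¹ hg2 (g • x) hgx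
      rw [inv_smul_smul, abs_sub_comm] at h5
      exact h5
    · rw [image_eq_zero_of_notMem_tsupport hx, image_eq_zero_of_notMem_tsupport hgx, sub_self,
        abs_zero]
      exact hε.le

theorem orbit_uc {G X : Type*} [Group G] [TopologicalSpace G] [IsTopologicalGroup G]
    [TopologicalSpace X] [MulAction G X] [ContinuousSMul G X] {u : ℝ → G} (hu : Continuous u)
    (hadd : ∀ s t, u (s + t) = u s * u t) (x : X) {f : X → ℝ} (hf : Continuous f)
    (hc : HasCompactSupport f) : UniformContinuous (fun t => f (u t • x)) := by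
  have h0 : u 0 = 1 := by
    have h1 := hadd 0 0
    rw [add_zero] at h1
    exact (left_eq_mul.1 h1)
  rw [Metric.uniformContinuous_iff]
  intro ε hε
  obtain ⟨V, hV, h1⟩ := unif_smul (G := G) hf hc (half_pos hε)
  have h2 : ∀ᶠ h in 𝓝 (0 : ℝ), u h ∈ V := by
    have h3 := hu.tendsto 0
    rw [h0] at h3
    exact h3 hV
  obtain ⟨η, hη, h3⟩ := Metric.eventually_nhds_iff.1 h2
  refine ⟨η, hη, fun {a b} hab => ?_⟩
  have h4 : u (a - b) ∈ V := h3 (by
    rw [Real.dist_eq, sub_zero]
    exact hab)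
  have h5 := h1 _ h4 (u b • x)
  rw [smul_smul, ← hadd, sub_add_cancel] at h5
  rw [Real.dist_eq]
  exact lt_of_le_of_lt h5 (half_lt_self hε)

theorem exists_countable (X : Type*) [TopologicalSpace X] [LocallyCompactSpace X] [T2Space X]
    [SecondCountableTopology X] :
    ∃ D : Set (X → ℝ), D.Countable ∧ (∀ f ∈ D, Continuous f ∧ HasCompactSupport f) ∧
      ∀ f : X → ℝ, Continuous f → HasCompactSupport f → ∀ ε > 0, ∃ g ∈ D, ∀ x, |f x - g x| ≤ ε := by
  let Kc := CompactExhaustion.choice X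
  let A : ℕ → Set C(X, ℝ) := fun n => {f | ∀ x, x ∉ Kc n → f x = 0}
  have hs : ∀ n, ∃ s : Set (A n), s.Countable ∧ Dense s := fun n =>
    TopologicalSpace.exists_countable_dense (A n)
  choose s hsc hsd using hs
  refine ⟨⋃ n, (fun g : A n => ((g : C(X, ℝ)) : X → ℝ)) '' s n,
    countable_iUnion fun n => (hsc n).image _, ?_, ?_⟩
  · intro f hf
    obtain ⟨n, g, -, rfl⟩ := mem_iUnion.1 hf
    exact ⟨(g : C(X, ℝ)).continuous, HasCompactSupport.intro (Kc.isCompact n) g.2⟩
  · intro f hf hc ε hε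
    obtain ⟨n, hn⟩ := Kc.exists_superset_of_isCompact hc.isCompact
    obtain ⟨F, hF⟩ : ∃ F : A n, ∀ x, (F : C(X, ℝ)) x = f x :=
      ⟨⟨⟨f, hf⟩, fun x hx => image_eq_zero_of_notMem_tsupport fun h => hx (hn h)⟩, fun x => rfl⟩
    have hO : IsOpen {g : A n | MapsTo ((g : C(X, ℝ)) - (F : C(X, ℝ)) : C(X, ℝ)) (Kc n)
        (Metric.ball 0 ε)} := by
      have h1 : IsOpen {g : C(X, ℝ) | MapsTo g (Kc n) (Metric.ball 0 ε)} :=
        ContinuousMap.isOpen_setOfPred_mapsTo (Kc.isCompact n) Metric.isOpen_ball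
      exact h1.preimage (continuous_subtype_val.sub continuous_const)
    obtain ⟨g, hg, hgO⟩ := (hsd n).exists_mem_open hO ⟨F, fun x _ => by simp [hε]⟩
    refine ⟨_, mem_iUnion.2 ⟨n, g, hg, rfl⟩, fun x => ?_⟩
    by_cases hx : x ∈ Kc n
    · have h1 := hgO hx
      rw [mem_ball_zero_iff, ContinuousMap.sub_apply, hF, Real.norm_eq_abs] at h1
      rw [abs_sub_comm]
      exact h1.le
    · have h2 : f x = 0 := by
        rw [← hF]
        exact F.2 x hx
      have h3 : (g : C(X, ℝ)) x = 0 := g.2 x hx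
      simp only [h2, h3, sub_self, abs_zero]
      exact hε.le

end Pool.MSP
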