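import Pool.Agent.MSP.Mes

/-!
# MSP / Idt: the discrepancy as a correlation

Notation: `gg c G w = G(e^w) e^(cw)`, `g3 w = ∫ gg(w+v) dm3(v)`, `dd w = ∫ g3(w+v) dm1(v) - ∫ g3(w+v) dm2(v)`.

PROOF. `g3_eq`: `m3_integral`: `g3 w = (1/δ) ∫_0^δ e^(-cu) G(e^(w+u)) e^(c(w+u)) du = e^(cw) sm δ G (e^w)`.
`g3` is measurable (`sm δ G` is a parameter integral of a measurable function, or `conv_measurable`-like; here only boundedness is needed: `‖sm‖ ≤ 1` and `sm δ G (e^w) = 0` for `e^w > N`, so `‖g3 w‖ ≤ N^c`).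
`dd_eq`: for `w ≥ 0`: `m1_integral`: `∫ g3(w+v) dm1 = ∑' n, lam k n n^(-c) e^(c(w + log n)) sm δ G (e^w n) = e^(cw) ∑' n, lam k n sm δ G(e^w n)`; the terms with `n > N` vanish (`e^w n > N` and then `G (e^w n e^u) = 0`, `u ≥ 0`), the term `n = 0` vanishes (`lam k 0 = 0`): `∑_{n ∈ Icc 1 N}`.
`m2_integral`: `∫ g3(w+v) dm2 = ∫_0^∞ v^k e^(-(c-1)v) e^(c(w+v)) sm δ G(e^(w+v)) dv = e^(cw) ∫_0^∞ v^k sm δ G(e^w e^v) e^v dv = e^(cw) ∫_1^∞ (log t)^k sm δ G (e^w t) dt` (substitution `t = e^v`: `integral_comp_mul_deriv_Ioi`-type lemma, or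
`MeasureTheory.integral_image_eq_integral_abs_deriv_smul` for the injective `exp` on `Ioi 0` with image `Ioi 1`).
-/

set_option autoImplicit false

open MeasureTheory Filter Topology Set

namespace Pool.MSP

/-- `G(e^w) e^(cw)` -/
noncomputable def gg (c : ℝ) (G : ℝ → ℂ) (w : ℝ) : ℂ := G (Real.exp w) * Real.exp (c * w)

/-- the smoothed function -/
noncomputable def g3 (c δ : ℝ) (G : ℝ → ℂ) (w : ℝ) : ℂ := ∫ v, gg c G (w + v) ∂(m3 c δ)

/-- the discrepancy on the logarithmic scale -/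
noncomputable def dd (k : ℕ) (c δ : ℝ) (G : ℝ → ℂ) (w : ℝ) : ℂ :=
  (∫ v, g3 c δ G (w + v) ∂(m1 k c)) - ∫ v, g3 c δ G (w + v) ∂(m2 k c)

theorem sm_measurable {δ : ℝ} {G : ℝ → ℂ} (hG : Measurable G) : Measurable (sm δ G) := by
  have h1 : StronglyMeasurable (Function.uncurry fun (v u : ℝ) => G (v * Real.exp u)) := by
    apply Measurable.stronglyMeasurable
    exact hG.comp (measurable_fst.mul (Real.measurable_exp.comp measurable_snd))
  unfold sm intervalIntegral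
  refine Measurable.const_mul (Measurable.sub ?_ ?_) _
  · exact (h1.integral_prod_right (ν := volume.restrict (Ioc (0 : ℝ) δ))).measurable
  · exact (h1.integral_prod_right (ν := volume.restrict (Ioc δ (0 : ℝ)))).measurable

theorem sm_norm_le {δ : ℝ} (hδ : 0 < δ) {G : ℝ → ℂ} (hb : ∀ v, ‖G v‖ ≤ 1) (v : ℝ) :
    ‖sm δ G v‖ ≤ 1 := by
  unfold sm
  rw [norm_mul, Complex.norm_real, Real.norm_eq_abs, abs_of_pos (by positivity)]
  have h1 : ‖∫ u in (0 : ℝ)..δ, G (v * Real.exp u)‖ ≤ 1 * |δ - 0| :=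
    intervalIntegral.norm_integral_le_of_norm_le_const fun u _ => hb _
  rw [sub_zero, abs_of_pos hδ, one_mul] at h1
  calc 1 / δ * ‖∫ u in (0 : ℝ)..δ, G (v * Real.exp u)‖ ≤ 1 / δ * δ :=
        mul_le_mul_of_nonneg_left h1 (by positivity)
    _ = 1 := by field_simp

theorem sm_zero {δ X : ℝ} (hδ : 0 < δ) {G : ℝ → ℂ} (h0 : ∀ v, v ≤ 0 ∨ X < v → G v = 0) {v : ℝ}
    (hv : v ≤ 0 ∨ X < v) (hX : 0 ≤ X) : sm δ G v = 0 := by
  unfold sm
  have h1 : ∫ u in (0 : ℝ)..δ, G (v * Real.exp u) = ∫ _u in (0 : ℝ)..δ, (0 : ℂ) := by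
    refine intervalIntegral.integral_congr fun u hu => ?_
    rw [uIcc_of_le hδ.le] at hu
    apply h0
    rcases hv with hv | hv
    · left
      exact mul_nonpos_of_nonpos_of_nonneg hv (Real.exp_pos u).le
    · right
      have h2 : 1 ≤ Real.exp u := Real.one_le_exp hu.1
      have h3 : v * 1 ≤ v * Real.exp u := mul_le_mul_of_nonneg_left h2 (by linarith)
      linarith
  rw [h1, intervalIntegral.integral_zero, mul_zero]

theorem g3_eq {c δ : ℝ} (hδ : 0 < δ) (G : ℝ → ℂ) (w : ℝ) :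
    g3 c δ G w = Real.exp (c * w) * sm δ G (Real.exp w) := by
  have h : ∫ u in (0 : ℝ)..δ, ((Real.exp (-(c * u)) : ℝ) : ℂ) * gg c G (w + u) =
      ((Real.exp (c * w) : ℝ) : ℂ) * ∫ u in (0 : ℝ)..δ, G (Real.exp w * Real.exp u) := by
    rw [← intervalIntegral.integral_const_mul]
    refine intervalIntegral.integral_congr fun u _ => ?_
    change ((Real.exp (-(c * u)) : ℝ) : ℂ) * gg c G (w + u) =
      ((Real.exp (c * w) : ℝ) : ℂ) * G (Real.exp w * Real.exp u)
    unfold gg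
    rw [← Real.exp_add w u, mul_left_comm, mul_comm ((Real.exp (c * w) : ℝ) : ℂ)]
    congr 1
    rw [← Complex.ofReal_mul, ← Real.exp_add]
    congr 2
    ring
  unfold g3 sm
  rw [m3_integral hδ, h]
  ring

private theorem g3_bdd {c δ : ℝ} (hc : 1 < c) (hδ : 0 < δ) {G : ℝ → ℂ} (hb : ∀ v, ‖G v‖ ≤ 1)
    {N : ℕ} (h0 : ∀ v, v ≤ 0 ∨ (N : ℝ) < v → G v = 0) (w : ℝ) :
    ‖g3 c δ G w‖ ≤ Real.exp (c * Real.log N) := by
  rw [g3_eq hδ]
  rcases lt_or_ge (N : ℝ) (Real.exp w) with h | h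
  · rw [sm_zero hδ h0 (Or.inr h) (Nat.cast_nonneg N), mul_zero, norm_zero]
    exact (Real.exp_pos _).le
  · have hN : (0 : ℝ) < N := lt_of_lt_of_le (Real.exp_pos w) h
    have h1 : w ≤ Real.log N := (Real.le_log_iff_exp_le hN).2 h
    rw [norm_mul, Complex.norm_real, Real.norm_eq_abs, abs_of_pos (Real.exp_pos _)]
    calc Real.exp (c * w) * ‖sm δ G (Real.exp w)‖ ≤ Real.exp (c * w) * 1 :=
          mul_le_mul_of_nonneg_left (sm_norm_le hδ hb _) (Real.exp_pos _).le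
      _ = Real.exp (c * w) := mul_one _
      _ ≤ _ := by
          rw [Real.exp_le_exp]
          exact mul_le_mul_of_nonneg_left h1 (by linarith)

private theorem g3_meas {c δ : ℝ} (hδ : 0 < δ) {G : ℝ → ℂ} (hG : Measurable G) :
    Measurable (g3 c δ G) := by
  have h1 : g3 c δ G = fun w => ((Real.exp (c * w) : ℝ) : ℂ) * sm δ G (Real.exp w) :=
    funext fun w => g3_eq hδ G w
  rw [h1]
  have h2 : Measurable fun w : ℝ => ((Real.exp (c * w) : ℝ) : ℂ) := by fun_prop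
  exact h2.mul ((sm_measurable hG).comp Real.measurable_exp)

private theorem image_exp : Real.exp '' Ioi (0 : ℝ) = Ioi 1 := by
  ext t
  constructor
  · rintro ⟨v, hv, rfl⟩
    exact Real.one_lt_exp_iff.2 hv
  · intro ht
    exact ⟨Real.log t, Real.log_pos ht, Real.exp_log (by
      have : (1 : ℝ) < t := ht
      linarith)⟩

private theorem subst_exp (g : ℝ → ℂ) :
    ∫ t in Ioi (1 : ℝ), g t = ∫ v in Ioi (0 : ℝ), ((Real.exp v : ℝ) : ℂ) * g (Real.exp v) := by
  rw [← image_exp, integral_image_eq_integral_abs_deriv_smul measurableSet_Ioi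
    (fun x _ => (Real.hasDerivAt_exp x).hasDerivWithinAt) Real.exp_injective.injOn]
  refine setIntegral_congr_fun measurableSet_Ioi fun v _ => ?_
  change |Real.exp v| • g (Real.exp v) = _
  rw [abs_of_pos (Real.exp_pos v), Complex.real_smul]

theorem dd_eq (k N : ℕ) {c δ : ℝ} (hc : 1 < c) (hδ : 0 < δ) {G : ℝ → ℂ} (hG : Measurable G)
    (hb : ∀ v, ‖G v‖ ≤ 1) (h0 : ∀ v, v ≤ 0 ∨ (N : ℝ) < v → G v = 0) {w : ℝ} (hw : 0 ≤ w) :
    dd k c δ G w = Real.exp (c * w) * Dk k N (sm δ G) (Real.exp w) := by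
  unfold dd Dk
  have hmeas : Measurable fun v => g3 c δ G (w + v) :=
    (g3_meas hδ hG).comp (measurable_const_add w)
  have hbd : ∃ C, ∀ v, ‖g3 c δ G (w + v)‖ ≤ C := ⟨_, fun v => g3_bdd hc hδ hb h0 _⟩
  have h1 := (m1_integral k hc hmeas hbd).2
  have hterm : ∀ n : ℕ, n ≠ 0 → ((lam k n * (n : ℝ) ^ (-c) : ℝ) : ℂ) * g3 c δ G (w + Real.log n) =
      (Real.exp (c * w) : ℂ) * ((lam k n : ℂ) * sm δ G (Real.exp w * n)) := by
    intro n hn
    have hn0 : (0 : ℝ) < n := by exact_mod_cast Nat.pos_of_ne_zero hn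
    rw [g3_eq hδ, Real.exp_add, Real.exp_log hn0]
    have e1 : Real.exp (c * (w + Real.log n)) = Real.exp (c * w) * (n : ℝ) ^ c := by
      rw [mul_add, Real.exp_add, Real.rpow_def_of_pos hn0, mul_comm c (Real.log n)]
    have e2 : (n : ℝ) ^ (-c) * (n : ℝ) ^ c = 1 := by
      rw [← Real.rpow_add hn0, neg_add_cancel, Real.rpow_zero]
    rw [e1]
    have e3 : ((lam k n * (n : ℝ) ^ (-c) : ℝ) : ℂ) *
        (((Real.exp (c * w) * (n : ℝ) ^ c : ℝ) : ℂ) * sm δ G (Real.exp w * n)) =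
        (((n : ℝ) ^ (-c) * (n : ℝ) ^ c : ℝ) : ℂ) *
          ((Real.exp (c * w) : ℂ) * ((lam k n : ℂ) * sm δ G (Real.exp w * n))) := by
      push_cast
      ring
    rw [e3, e2, Complex.ofReal_one, one_mul]
  have h2 : ∫ v, g3 c δ G (w + v) ∂(m1 k c) =
      (Real.exp (c * w) : ℂ) * ∑ n ∈ Finset.Icc 1 N, (lam k n : ℂ) * sm δ G (Real.exp w * n) := by
    rw [h1, tsum_eq_sum (s := Finset.Icc 1 N)]
    · rw [Finset.mul_sum]
      refine Finset.sum_congr rfl fun n hn => ?_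
      rw [Finset.mem_Icc] at hn
      exact hterm n (by omega)
    · intro n hn
      rcases Nat.eq_zero_or_pos n with rfl | hn0
      · have : lam k 0 = 0 := by
          unfold lam
          rw [ArithmeticFunction.map_zero, zero_mul]
        rw [this, zero_mul, Complex.ofReal_zero, zero_mul]
      · rw [hterm n (by omega)]
        have hnN : N < n := by
          by_contra hcon
          exact hn (Finset.mem_Icc.2 ⟨hn0, not_lt.1 hcon⟩)
        have h3 : (N : ℝ) < Real.exp w * n := by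
          have h4 : (N : ℝ) < n := by exact_mod_cast hnN
          have h5 : 1 ≤ Real.exp w := Real.one_le_exp hw
          have h6 : 1 * (n : ℝ) ≤ Real.exp w * n :=
            mul_le_mul_of_nonneg_right h5 (Nat.cast_nonneg n)
          linarith
        rw [sm_zero hδ h0 (Or.inr h3) (Nat.cast_nonneg N), mul_zero, mul_zero]
  have h3 : ∫ v, g3 c δ G (w + v) ∂(m2 k c) =
      (Real.exp (c * w) : ℂ) * ∫ t in Ioi (1 : ℝ), ((Real.log t ^ k : ℝ) : ℂ) *
        sm δ G (Real.exp w * t) := by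
    rw [m2_integral, subst_exp, ← integral_const_mul]
    refine setIntegral_congr_fun measurableSet_Ioi fun v _ => ?_
    change ((v ^ k * Real.exp (-((c - 1) * v)) : ℝ) : ℂ) * g3 c δ G (w + v) =
      (Real.exp (c * w) : ℂ) * (((Real.exp v : ℝ) : ℂ) *
        (((Real.log (Real.exp v) ^ k : ℝ) : ℂ) * sm δ G (Real.exp w * Real.exp v)))
    rw [g3_eq hδ, Real.log_exp, Real.exp_add w v]
    have e1 : Real.exp (-((c - 1) * v)) * Real.exp (c * (w + v)) =
        Real.exp (c * w) * Real.exp v := by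
      rw [← Real.exp_add, ← Real.exp_add]
      congr 1
      ring
    have e2 : ((v ^ k * Real.exp (-((c - 1) * v)) : ℝ) : ℂ) *
        (((Real.exp (c * (w + v)) : ℝ) : ℂ) * sm δ G (Real.exp w * Real.exp v)) =
        ((Real.exp (-((c - 1) * v)) * Real.exp (c * (w + v)) : ℝ) : ℂ) *
          (((v ^ k : ℝ) : ℂ) * sm δ G (Real.exp w * Real.exp v)) := by
      push_cast
      ring
    rw [e2, e1]
    push_cast
    ring
  rw [h2, h3, mul_sub]

end Pool.MSP
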