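import Pool.Agent.MSP.Tfo

/-!
# MSP / Kdr: `K_k` as an iterated derivative

PROOF. `lam k n = Λ(n) (log n)^k` is `logMul^[k] Λ`: `LSeries_iteratedDeriv` gives, for `Re s > 1`, `LSeries (lam k) s = (-1)^k iteratedDeriv k (LSeries Λ) s` (`LSeries.logMul`, induction on `k`: `logMul^[k] f n = (log n)^k f n`; `Complex.natCast_log`; abscissa of absolute convergence of `Λ` is `≤ 1`,
`LSeriesSummable_vonMangoldt`, `LSeries.abscissaOfAbsConv_le_of_forall_lt_LSeriesSummable`). On the open set `Re s > 1`: `LSeries Λ = -ζ'/ζ`. So `LSeries (lam k) s = (-1)^(k+1) iteratedDeriv k (ζ'/ζ) s`: `Kk_zeta`.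
`ζ'/ζ = ZZ'/ZZ - 1/(s-1)` there, `iteratedDeriv k (1/(s-1)) = (-1)^k k!/(s-1)^(k+1)`: `Kk_ZZ`: `Kk k s = (-1)^(k+1) iteratedDeriv k (ZZ'/ZZ) s`.
`Kk_conj`: coefficients are real: `LSeries` at `conj s` is the conjugate.
-/

set_option autoImplicit false

open MeasureTheory Filter Topology Set

namespace Pool.MSP

/-- The coefficients `lam k` as iterated multiplication by the logarithm. -/
private lemma kdr_lam (k : ℕ) : (fun n => (lam k n : ℂ)) =
    LSeries.logMul^[k] (fun n => (ArithmeticFunction.vonMangoldt n : ℂ)) := by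
  induction k with
  | zero =>
    funext n
    simp [lam]
  | succ k ih =>
    rw [Function.iterate_succ', Function.comp_apply, ← ih]
    funext n
    change _ = Complex.log n * (lam k n : ℂ)
    rw [lam, lam, ← Complex.natCast_log]
    push_cast
    ring

private lemma kdr_absc {s : ℂ} (hs : 1 < s.re) :
    LSeries.abscissaOfAbsConv (fun n => (ArithmeticFunction.vonMangoldt n : ℂ)) < s.re := by
  have h1 : LSeries.abscissaOfAbsConv (fun n => (ArithmeticFunction.vonMangoldt n : ℂ)) ≤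
      ((1 : ℝ) : EReal) := by
    refine LSeries.abscissaOfAbsConv_le_of_forall_lt_LSeriesSummable fun y hy => ?_
    exact ArithmeticFunction.LSeriesSummable_vonMangoldt (by simpa using hy)
  exact lt_of_le_of_lt h1 (by exact_mod_cast hs)

theorem Kk_summable (k : ℕ) {s : ℂ} (hs : 1 < s.re) :
    LSeriesSummable (fun n => (lam k n : ℂ)) s := by
  rw [kdr_lam]
  refine LSeriesSummable_of_abscissaOfAbsConv_lt_re ?_
  rw [LSeries.absicssaOfAbsConv_logPowMul]
  exact kdr_absc hs

private lemma kdr_nhds {s : ℂ} (hs : 1 < s.re) : ∀ᶠ z : ℂ in 𝓝 s, 1 < z.re :=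
  (isOpen_lt continuous_const Complex.continuous_re).mem_nhds hs

theorem Kk_zeta (k : ℕ) {s : ℂ} (hs : 1 < s.re) :
    Kk k s = (-1) ^ (k + 1) * iteratedDeriv k (fun z => deriv riemannZeta z / riemannZeta z) s -
      (k.factorial : ℂ) / (s - 1) ^ (k + 1) := by
  have h1 := LSeries_iteratedDeriv k (kdr_absc hs)
  rw [← kdr_lam] at h1
  have h2 : LSeries (fun n => (ArithmeticFunction.vonMangoldt n : ℂ)) =ᶠ[𝓝 s]
      -(fun z => deriv riemannZeta z / riemannZeta z) := by
    filter_upwards [kdr_nhds hs] with z hz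
    rw [ArithmeticFunction.LSeries_vonMangoldt_eq_deriv_riemannZeta_div hz, Pi.neg_apply, neg_div]
  rw [h2.iteratedDeriv_eq k, iteratedDeriv_neg] at h1
  rw [Kk]
  congr 1
  have h3 : ((-1 : ℂ) ^ k) * (-1) ^ k = 1 := by
    rw [← mul_pow]; simp
  rw [pow_succ]
  linear_combination (-((-1 : ℂ) ^ k)) * h1 - (LSeries (fun n => (lam k n : ℂ)) s) * h3

private lemma kdr_pole (k : ℕ) (s : ℂ) : iteratedDeriv k (fun z : ℂ => 1 / (z - 1)) s =
    (-1) ^ k * (k.factorial : ℂ) / (s - 1) ^ (k + 1) := by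
  have h1 := congrFun (iter_deriv_inv_linear_sub k (1 : ℂ) (1 : ℂ)) s
  rw [iteratedDeriv_eq_iterate]
  have h2 : (fun z : ℂ => 1 / (z - 1)) = fun z => (1 * z - 1)⁻¹ := by
    funext z
    rw [one_mul, one_div]
  rw [h2, h1, one_pow, mul_one, one_mul]
  have h3 : (-1 - (k : ℤ)) = -((k + 1 : ℕ) : ℤ) := by push_cast; ring
  rw [h3, zpow_neg, zpow_natCast, div_eq_mul_inv]

theorem Kk_ZZ (k : ℕ) {s : ℂ} (hs : 1 < s.re) :
    Kk k s = (-1) ^ (k + 1) * iteratedDeriv k (fun z => deriv ZZ z / ZZ z) s := by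
  have hZd' : Differentiable ℂ (deriv ZZ) := fun z =>
    (ZZ_differentiable.analyticAt z).deriv.differentiableAt
  have hs1 : s - 1 ≠ 0 := by
    intro h
    rw [sub_eq_zero] at h
    rw [h] at hs
    simp at hs
  have h1 : (fun z => deriv riemannZeta z / riemannZeta z) =ᶠ[𝓝 s]
      ((fun z => deriv ZZ z / ZZ z) - fun z => 1 / (z - 1)) := by
    filter_upwards [kdr_nhds hs] with z hz
    have h1 : z ≠ 1 := by
      rintro rfl
      simp at hz
    have h2 : deriv ZZ z = (z - 1) * deriv riemannZeta z + riemannZeta z := by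
      rw [ZZ, DirichletCharacter.deriv_LFunctionTrivChar₁_apply_of_ne_one 1 h1]
      have : DirichletCharacter.LFunctionTrivChar 1 = riemannZeta := by
        rw [DirichletCharacter.LFunctionTrivChar, DirichletCharacter.LFunction_modOne_eq]
      rw [this]
    have hz : riemannZeta z ≠ 0 := riemannZeta_ne_zero_of_one_le_re hz.le
    have h3 : z - 1 ≠ 0 := sub_ne_zero_of_ne h1
    rw [Pi.sub_apply, h2, ZZ_eq h1]
    field_simp
    ring
  have h2 : ContDiffAt ℂ k (fun z => deriv ZZ z / ZZ z) s := by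
    have ha : AnalyticAt ℂ (fun z => deriv ZZ z / ZZ z) s :=
      (hZd'.analyticAt s).div (ZZ_differentiable.analyticAt s) (ZZ_ne_zero hs.le)
    exact ha.contDiffAt
  have h3 : ContDiffAt ℂ k (fun z : ℂ => 1 / (z - 1)) s := by
    have ha : AnalyticAt ℂ (fun z : ℂ => 1 / (z - 1)) s :=
      analyticAt_const.div (analyticAt_id.sub analyticAt_const) hs1
    exact ha.contDiffAt
  rw [Kk_zeta k hs, h1.iteratedDeriv_eq k, iteratedDeriv_sub h2 h3, kdr_pole]
  have h4 : ((-1 : ℂ) ^ k) * (-1) ^ k = 1 := by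
    rw [← mul_pow]; simp
  have h5 : ((-1 : ℂ) ^ k) ^ 2 = 1 := by rw [sq, h4]
  rw [pow_succ (-1 : ℂ) k]
  field_simp
  linear_combination ((k.factorial : ℂ)) * h5

theorem Kk_conj (k : ℕ) (s : ℂ) : Kk k ((starRingEnd ℂ) s) = (starRingEnd ℂ) (Kk k s) := by
  have h1 : LSeries (fun n => (lam k n : ℂ)) ((starRingEnd ℂ) s) =
      (starRingEnd ℂ) (LSeries (fun n => (lam k n : ℂ)) s) := by
    rw [LSeries, LSeries, Complex.conj_tsum]
    refine tsum_congr fun n => ?_
    rcases eq_or_ne n 0 with rfl | hn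
    · simp
    · rw [LSeries.term_of_ne_zero hn, LSeries.term_of_ne_zero hn, map_div₀, Complex.conj_ofReal,
        Complex.cpow_conj _ _ (by rw [Complex.natCast_arg]; positivity), Complex.conj_natCast]
  rw [Kk, Kk, h1, map_sub, map_div₀, map_pow, map_sub, map_one, Complex.conj_natCast]

end Pool.MSP
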