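import Pool.Agent.MSP.Zfr
import Pool.Agent.MSP.Kdr

/-!
# MSP / Kbd: the bound of `K_k` on `1 < Re s ≤ 2`

PROOF. By `Kk_conj` we may assume `τ = Im s ≥ 0`. (a) `0 ≤ τ ≤ t₁`: `Kk_ZZ` and continuity of `iteratedDeriv k (ZZ'/ZZ)` on the compact rectangle `[1,2] × [0,t₁]` (`ZZ'/ZZ` is analytic on the open set `{ZZ ≠ 0}`, which contains `Re s ≥ 1`, `ZZ_ne_zero`; iterated derivatives of analytic functions are analytic).
`log(3+τ)^bk ≥ 1`.
(b) `τ ≥ t₁` large. `w = (log(2τ))^(-4/5)`, `s₁ = s = σ + iτ`, `s₀ = max(σ, 1 + w/4) + iτ`, `R = Re s₀ - 1 + w/2 ≤ 2`, `η = w/2`: `dist s₁ s₀ + η ≤ R` (if `σ ≥ 1 + w/4`: `dist = 0`, `R ≥ 3w/4`; otherwise `dist ≤ w/4`, `R = 3w/4`).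
On `ball s₀ R`: `Re s ≥ 1 - w/2`, `τ - 2 ≤ Im s ≤ τ + 2 ≤ 2τ`, so `Re s ≥ 1 - (log Im s)^(-4/5) ≥ 1 - (log Im s)^(-3/4)`, `Re s ≤ 4`?: `Re s < Re s₀ + R ≤ 2·2 - 1 + w/2`; for `Re s > 3` use `‖ζ(s)‖ ≤ 1 + 1/(Re s - 1) ≤ 2`; otherwise `zeta_bound`: `‖ζ(s)‖ ≤ C (log 2τ)^2`.
`zero_free`: `ζ ≠ 0`. `‖ζ(s₀)‖⁻¹ ≤ 1 + 4/w ≤ 5/w`. So `‖ζ(s)‖ ≤ e^M ‖ζ(s₀)‖` with `M = log(5 C (log 2τ)^3)` (`> 0`, `≤ C' log(3+τ)`). `logderiv_iter`: `‖iteratedDeriv k (ζ'/ζ) s‖ ≤ (k+1)! (4·M·2/(w/2)) (4/w)^(k+1) ≤ C_k log(3+τ) w^(-(k+2))`, and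
`w^(-1) = (log 2τ)^(4/5) ≤ (2 log(3+τ))^(4/5)`; the exponent is `1 + (4/5)(k+2) ≤ bk k`. `Kk_zeta`; the polar term is `≤ k!/τ^(k+1) ≤ k!`.
-/

set_option autoImplicit false

open MeasureTheory Filter Topology Set Metric

namespace Pool.MSP

/-- boundedness for bounded imaginary part -/
private theorem low (k : ℕ) (t₁ : ℝ) : ∃ C₁ : ℝ, 0 ≤ C₁ ∧ ∀ s : ℂ, 1 < s.re → s.re ≤ 2 →
    0 ≤ s.im → s.im ≤ t₁ → ‖Kk k s‖ ≤ C₁ := by
  have hU : AnalyticOnNhd ℂ (fun z => deriv ZZ z / ZZ z) {z | ZZ z ≠ 0} := by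
    intro z hz
    have hZ : AnalyticAt ℂ ZZ z := ZZ_differentiable.analyticAt z
    exact hZ.deriv.div hZ hz
  have h2 : ContinuousOn (iteratedDeriv k (fun z => deriv ZZ z / ZZ z)) {z | ZZ z ≠ 0} := by
    rw [iteratedDeriv_eq_iterate]
    exact (hU.iterated_deriv k).continuousOn
  have hK : IsCompact (Icc (1 : ℝ) 2 ×ℂ Icc (0 : ℝ) t₁) := isCompact_Icc.reProdIm isCompact_Icc
  obtain ⟨C, hC⟩ := hK.exists_bound_of_continuousOn
    (h2.mono (fun z hz => ZZ_ne_zero hz.1.1))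
  refine ⟨max C 0, le_max_right _ _, fun s h1 h2 h3 h4 => ?_⟩
  rw [Kk_ZZ k h1, norm_mul, norm_pow, norm_neg, norm_one, one_pow, one_mul]
  exact (hC s ⟨⟨h1.le, h2⟩, ⟨h3, h4⟩⟩).trans (le_max_left _ _)

private theorem one_le_log {x : ℝ} (hx : 3 ≤ x) : 1 ≤ Real.log x := by
  rw [Real.le_log_iff_exp_le (by linarith)]
  have := Real.exp_one_lt_d9
  linarith

private theorem high (k : ℕ) : ∃ C₂ t₁ : ℝ, 0 ≤ C₂ ∧ 1 ≤ t₁ ∧ ∀ s : ℂ, 1 < s.re → s.re ≤ 2 →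
    t₁ ≤ s.im → ‖Kk k s‖ ≤ C₂ * Real.log (2 * s.im) ^ (bk k) := by
  obtain ⟨C, t₀, hC, ht₀, hz⟩ := zeta_bound
  obtain ⟨t₀', ht₀', hf⟩ := zero_free
  have hm1 := le_max_left t₀ t₀'
  have hm2 := le_max_right t₀ t₀'
  refine ⟨(k + 1).factorial * 30 * C * 4 ^ (k + 1) + k.factorial, max t₀ t₀' + 2, by positivity,
    by linarith, ?_⟩
  intro s h1 h2 h3
  obtain ⟨σ, hσ⟩ : ∃ σ, σ = s.re := ⟨_, rfl⟩
  obtain ⟨τ, hτ⟩ : ∃ τ, τ = s.im := ⟨_, rfl⟩
  rw [← hσ] at h1 h2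
  rw [← hτ] at h3 ⊢
  have hτ5 : 5 ≤ τ := by linarith
  obtain ⟨l, hl⟩ : ∃ l, l = Real.log (2 * τ) := ⟨_, rfl⟩
  rw [← hl]
  have hl1 : 1 ≤ l := by rw [hl]; exact one_le_log (by linarith)
  have hl0 : 0 < l := by linarith
  obtain ⟨w, hw⟩ : ∃ w, w = l ^ (-(4 / 5 : ℝ)) := ⟨_, rfl⟩
  have hw0 : 0 < w := by rw [hw]; exact Real.rpow_pos_of_pos hl0 _
  have hw1 : w ≤ 1 := by
    rw [hw]; exact Real.rpow_le_one_of_one_le_of_nonpos hl1 (by norm_num)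
  obtain ⟨x₀, hx₀⟩ : ∃ x₀, x₀ = max σ (1 + w / 4) := ⟨_, rfl⟩
  have hxσ : σ ≤ x₀ := by rw [hx₀]; exact le_max_left _ _
  have hxw : 1 + w / 4 ≤ x₀ := by rw [hx₀]; exact le_max_right _ _
  have hxd : x₀ - σ ≤ w / 4 := by
    rcases le_total σ (1 + w / 4) with h | h
    · rw [hx₀, max_eq_right h]; linarith
    · rw [hx₀, max_eq_left h]; linarith
  have hx2 : x₀ ≤ 2 := by rw [hx₀]; exact max_le h2 (by linarith)
  obtain ⟨s₀, hs₀⟩ : ∃ s₀ : ℂ, s₀ = ⟨x₀, τ⟩ := ⟨_, rfl⟩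
  have hs₀re : s₀.re = x₀ := by rw [hs₀]
  have hs₀im : s₀.im = τ := by rw [hs₀]
  obtain ⟨R, hR⟩ : ∃ R, R = x₀ - σ + w / 2 := ⟨_, rfl⟩
  have hball : ∀ z ∈ ball s₀ R, 1 - w / 2 ≤ z.re ∧ z.re ≤ 3 ∧ max t₀ t₀' ≤ z.im ∧
      z.im ≤ 2 * τ := by
    intro z hz
    rw [mem_ball, dist_eq_norm] at hz
    have e1 := (Complex.abs_re_le_norm (z - s₀)).trans_lt hz
    have e2 := (Complex.abs_im_le_norm (z - s₀)).trans_lt hz
    rw [Complex.sub_re, hs₀re, abs_lt] at e1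
    rw [Complex.sub_im, hs₀im, abs_lt] at e2
    refine ⟨by linarith, by linarith, by linarith, by linarith⟩
  have hreg : ∀ z ∈ ball s₀ R, riemannZeta z ≠ 0 ∧ ‖riemannZeta z‖ ≤ C * l ^ 2 := by
    intro z hzb
    obtain ⟨e1, e2, e3, e4⟩ := hball z hzb
    have e5 : 1 ≤ Real.log z.im := one_le_log (by linarith)
    have e6 : Real.log z.im ≤ l := by
      rw [hl]; exact Real.log_le_log (by linarith) e4
    have e7 : w ≤ Real.log z.im ^ (-(4 / 5 : ℝ)) := by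
      rw [hw]
      exact Real.rpow_le_rpow_of_nonpos (by linarith) e6 (by norm_num)
    have e8 : Real.log z.im ^ (-(4 / 5 : ℝ)) ≤ Real.log z.im ^ (-(3 / 4 : ℝ)) :=
      Real.rpow_le_rpow_of_exponent_le e5 (by norm_num)
    refine ⟨hf z (by linarith) (by linarith), ?_⟩
    refine (hz z (by linarith) (by linarith) e2).trans ?_
    exact mul_le_mul_of_nonneg_left (pow_le_pow_left₀ (by linarith) e6 2) (by linarith)
  have hR0 : 0 < R := by rw [hR]; linarith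
  have hinv : ‖(riemannZeta s₀)⁻¹‖ ≤ 5 * l := by
    have e1 := zeta_inv (s := s₀) (by rw [hs₀re]; linarith)
    rw [hs₀re] at e1
    have e2 : 1 / (x₀ - 1) ≤ 4 / w := by
      rw [div_le_div_iff₀ (by linarith) hw0]; linarith
    have e3 : 1 + 4 / w ≤ 5 / w := by
      rw [← sub_nonneg]
      have : 5 / w - (1 + 4 / w) = (1 - w) / w := by field_simp; ring
      rw [this]
      exact div_nonneg (by linarith) hw0.le
    have e4 : 5 / w ≤ 5 * l := by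
      have e5 : 1 / w = l ^ (4 / 5 : ℝ) := by
        rw [hw, Real.rpow_neg hl0.le, one_div, inv_inv]
      have e6 : l ^ (4 / 5 : ℝ) ≤ l := by
        calc l ^ (4 / 5 : ℝ) ≤ l ^ (1 : ℝ) :=
              Real.rpow_le_rpow_of_exponent_le hl1 (by norm_num)
          _ = l := Real.rpow_one l
      calc 5 / w = 5 * (1 / w) := by ring
        _ ≤ 5 * l := by rw [e5]; linarith
    linarith
  have hne : riemannZeta s₀ ≠ 0 := (hreg s₀ (mem_ball_self hR0)).1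
  obtain ⟨B, hB⟩ : ∃ B, B = 5 * C * l ^ 3 := ⟨_, rfl⟩
  have hB1 : 1 < B := by
    rw [hB]
    have : 1 ≤ l ^ 3 := one_le_pow₀ hl1
    nlinarith
  have hM0 : 0 < Real.log B := Real.log_pos hB1
  have hMB : Real.log B ≤ B := Real.log_le_self (by linarith)
  have hb : ∀ z ∈ ball s₀ R, ‖riemannZeta z‖ ≤ Real.exp (Real.log B) * ‖riemannZeta s₀‖ := by
    intro z hzb
    rw [Real.exp_log (by linarith)]
    refine (hreg z hzb).2.trans ?_
    have e1 : 1 ≤ 5 * l * ‖riemannZeta s₀‖ := by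
      have e2 : ‖(riemannZeta s₀)⁻¹‖ * ‖riemannZeta s₀‖ = 1 := by
        rw [← norm_mul, inv_mul_cancel₀ hne, norm_one]
      rw [← e2]
      exact mul_le_mul_of_nonneg_right hinv (norm_nonneg _)
    calc C * l ^ 2 = C * l ^ 2 * 1 := by ring
      _ ≤ C * l ^ 2 * (5 * l * ‖riemannZeta s₀‖) :=
          mul_le_mul_of_nonneg_left e1 (by positivity)
      _ = B * ‖riemannZeta s₀‖ := by rw [hB]; ring
  have hdiff : DifferentiableOn ℂ riemannZeta (ball s₀ R) := by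
    intro z hzb
    refine (differentiableAt_riemannZeta ?_).differentiableWithinAt
    rintro rfl
    have := (hball 1 hzb).2.2.1
    rw [Complex.one_im] at this
    linarith
  have hdist : dist s s₀ + w / 2 ≤ R := by
    have e1 : dist s s₀ = x₀ - σ := by
      rw [dist_eq_norm]
      have e2 : s - s₀ = (((σ - x₀ : ℝ)) : ℂ) := by
        refine Complex.ext ?_ ?_
        · rw [Complex.sub_re, hs₀re, ← hσ, Complex.ofReal_re]
        · rw [Complex.sub_im, hs₀im, ← hτ, Complex.ofReal_im, sub_self]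
      rw [e2, Complex.norm_real, Real.norm_eq_abs, abs_of_nonpos (by linarith)]
      ring
    rw [e1, hR]
  have hit := logderiv_iter (f := riemannZeta) (s₀ := s₀) (s₁ := s) (η := w / 2) (by linarith)
    hM0 hdiff (fun z hzb => (hreg z hzb).1) hb hdist k
  have hit2 : ‖iteratedDeriv k (fun z => deriv riemannZeta z / riemannZeta z) s‖ ≤
      (k + 1).factorial * 30 * C * 4 ^ (k + 1) * l ^ (bk k) := by
    refine hit.trans ?_
    have e1 : 4 * Real.log B * R / (w / 2) ≤ 6 * B := by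
      rw [div_le_iff₀ (by linarith)]
      have e2 : R ≤ 3 / 4 * w := by rw [hR]; linarith
      have e3 : Real.log B * R ≤ B * (3 / 4 * w) := mul_le_mul hMB e2 hR0.le (by linarith)
      nlinarith
    have e4 : (2 / (w / 2)) ^ (k + 1) = 4 ^ (k + 1) * l ^ ((4 / 5 : ℝ) * (k + 1)) := by
      have e5 : 2 / (w / 2) = 4 * l ^ (4 / 5 : ℝ) := by
        rw [hw, Real.rpow_neg hl0.le]
        have : l ^ (4 / 5 : ℝ) ≠ 0 := (Real.rpow_pos_of_pos hl0 _).ne'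
        field_simp
        norm_num
      rw [e5, mul_pow, Real.rpow_mul hl0.le]
      congr 1
      rw [← Real.rpow_natCast]
      push_cast
      rfl
    have e6 : l ^ (bk k) = l ^ 3 * l ^ ((4 / 5 : ℝ) * (k + 1)) := by
      rw [bk, Real.rpow_add hl0, mul_comm]
      congr 1
      exact_mod_cast Real.rpow_natCast l 3
    rw [e4, e6]
    have e7 : 0 ≤ l ^ ((4 / 5 : ℝ) * (k + 1)) := Real.rpow_nonneg hl0.le _
    calc ((k + 1).factorial : ℝ) * (4 * Real.log B * R / (w / 2)) *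
          (4 ^ (k + 1) * l ^ ((4 / 5 : ℝ) * (k + 1))) ≤
        ((k + 1).factorial : ℝ) * (6 * B) * (4 ^ (k + 1) * l ^ ((4 / 5 : ℝ) * (k + 1))) := by
          refine mul_le_mul_of_nonneg_right ?_ (by positivity)
          exact mul_le_mul_of_nonneg_left e1 (by positivity)
      _ = _ := by rw [hB]; ring
  have hpol : ‖(k.factorial : ℂ) / (s - 1) ^ (k + 1)‖ ≤ k.factorial := by
    rw [norm_div, norm_pow, Complex.norm_natCast]
    have e1 : 1 ≤ ‖s - 1‖ := by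
      have e2 := Complex.abs_im_le_norm (s - 1)
      rw [Complex.sub_im, Complex.one_im, sub_zero, ← hτ, abs_of_nonneg (by linarith)] at e2
      linarith
    exact div_le_self (Nat.cast_nonneg _) (one_le_pow₀ e1)
  rw [Kk_zeta k (by rw [← hσ]; exact h1)]
  refine (norm_sub_le _ _).trans ?_
  rw [norm_mul, norm_pow, norm_neg, norm_one, one_pow, one_mul, add_mul]
  have hlb : 1 ≤ l ^ (bk k) := Real.one_le_rpow hl1 (by unfold bk; positivity)
  have hk0 : (0 : ℝ) ≤ k.factorial := Nat.cast_nonneg _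
  have e1 : (k.factorial : ℝ) ≤ k.factorial * l ^ (bk k) := le_mul_of_one_le_right hk0 hlb
  linarith

theorem Kk_bound (k : ℕ) : ∃ C : ℝ, 0 < C ∧ ∀ s : ℂ, 1 < s.re → s.re ≤ 2 →
    ‖Kk k s‖ ≤ C * Real.log (3 + |s.im|) ^ (bk k) := by
  obtain ⟨C₂, t₁, hC₂, ht₁, hh⟩ := high k
  obtain ⟨C₁, hC₁, hlow⟩ := low k t₁
  have hbk : 0 ≤ bk k := by unfold bk; positivity
  have h2b : (0 : ℝ) ≤ 2 ^ (bk k) := Real.rpow_nonneg (by norm_num) _
  refine ⟨C₁ + C₂ * 2 ^ (bk k) + 1, by positivity, ?_⟩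
  have key : ∀ s : ℂ, 1 < s.re → s.re ≤ 2 → 0 ≤ s.im →
      ‖Kk k s‖ ≤ (C₁ + C₂ * 2 ^ (bk k) + 1) * Real.log (3 + s.im) ^ (bk k) := by
    intro s h1 h2 h3
    have hL : 1 ≤ Real.log (3 + s.im) := one_le_log (by linarith)
    have hLb : 1 ≤ Real.log (3 + s.im) ^ (bk k) := Real.one_le_rpow hL hbk
    rcases le_total s.im t₁ with h4 | h4
    · have e1 := hlow s h1 h2 h3 h4
      have e2 : 0 ≤ C₂ * 2 ^ (bk k) := by positivity
      nlinarith
    · have e1 := hh s h1 h2 h4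
      have hp : 0 < s.im := by linarith
      have e2 : Real.log (2 * s.im) ≤ 2 * Real.log (3 + s.im) := by
        have e3 : 2 * Real.log (3 + s.im) = Real.log ((3 + s.im) ^ 2) := by
          rw [Real.log_pow]; norm_num
        rw [e3]
        exact Real.log_le_log (by linarith) (by nlinarith)
      have e4 : 0 ≤ Real.log (2 * s.im) := Real.log_nonneg (by linarith)
      have e5 : Real.log (2 * s.im) ^ (bk k) ≤ 2 ^ (bk k) * Real.log (3 + s.im) ^ (bk k) := by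
        rw [← Real.mul_rpow (by norm_num) (by linarith)]
        exact Real.rpow_le_rpow e4 e2 hbk
      have e6 : C₂ * Real.log (2 * s.im) ^ (bk k) ≤
          C₂ * (2 ^ (bk k) * Real.log (3 + s.im) ^ (bk k)) :=
        mul_le_mul_of_nonneg_left e5 hC₂
      nlinarith
  intro s h1 h2
  rcases le_total 0 s.im with h3 | h3
  · rw [abs_of_nonneg h3]
    exact key s h1 h2 h3
  · rw [abs_of_nonpos h3]
    have e1 := key ((starRingEnd ℂ) s) (by rw [Complex.conj_re]; exact h1)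
      (by rw [Complex.conj_re]; exact h2) (by rw [Complex.conj_im]; linarith)
    rw [Kk_conj, Complex.conj_im, RCLike.norm_conj] at e1
    exact e1

end Pool.MSP
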