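import Pool.Agent.MSP.Nzl

/-!
# MSP / Lan: Landau's lemma at the centre

PROOF. Peeling. Let `f` be analytic on a neighbourhood of `closedBall s₀ r`, `f s₀ ≠ 0`, `‖f‖ ≤ e^M ‖f s₀‖` there, `f ρ = 0` with `|ρ - s₀| ≤ r/2`. Put `B(s) = r (s - ρ)/(r^2 - (s - s₀) conj(ρ - s₀))` (analytic near the closed ball: the denominator vanishes only if `|s - s₀| ≥ 2r`).
`|B(s)| = 1` for `|s - s₀| = r`, `|B(s₀)| = |ρ - s₀|/r ≤ 1/2`. There is `f₁` analytic on a neighbourhood of the closed ball with `f = B f₁` there (`f/(s-ρ)` has a removable singularity: `dslope f ρ`; so `f₁ = dslope f ρ · (r^2 - (s-s₀) conj(ρ-s₀))/r`).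
By the maximum principle (`Complex.norm_le_of_forall_mem_frontier_norm_le` on the ball) `‖f₁ s‖ ≤ e^M ‖f s₀‖ = e^M |B(s₀)| ‖f₁ s₀‖ ≤ e^(M - log 2) ‖f₁ s₀‖` on the closed ball; at `s = s₀`: `M - log 2 ≥ 0`. The zeros of `f₁` in the closed ball are zeros of `f`.
`f'/f (s₀) = B'/B (s₀) + f₁'/f₁ (s₀)`, `B'/B (s₀) = 1/(s₀ - ρ) + conj(ρ - s₀)/r^2`, real part `(s₀ - ρ).re (1/|s₀-ρ|^2 - 1/r^2) ≥ 0`.
CLAIM (induction on `n : ℕ`, for all `f`, `M` with `0 ≤ M < n log 2`): `-Re f'/f (s₀) ≤ 4 (M+1)/r`. If `f` has no zero in `closedBall s₀ (r/2)`: `logderiv_nz` on the ball of radius `r/2` with `M + 1` in place of `M` (it must be positive). If it has a zero, peel it; `M - log 2 < (n-1) log 2`.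
(for `n = 0` there is nothing to prove.) `landau`: first part is the claim; second part: peel `ρ`, then the claim for `f₁` with `M - log 2 ≤ M`.
-/

set_option autoImplicit false

open MeasureTheory Filter Topology Set Metric

namespace Pool.MSP

private lemma lan_peel {f : ℂ → ℂ} {s₀ ρ : ℂ} {r M : ℝ} (hr : 0 < r)
    (hf : AnalyticOnNhd ℂ f (closedBall s₀ r)) (h0 : f s₀ ≠ 0)
    (hb : ∀ s ∈ closedBall s₀ r, ‖f s‖ ≤ Real.exp M * ‖f s₀‖)
    (hρ : ρ ∈ closedBall s₀ (r / 2)) (hfρ : f ρ = 0) :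
    ∃ f₁ : ℂ → ℂ, AnalyticOnNhd ℂ f₁ (closedBall s₀ r) ∧ f₁ s₀ ≠ 0 ∧
      (∀ s ∈ closedBall s₀ r, ‖f₁ s‖ ≤ Real.exp (M - Real.log 2) * ‖f₁ s₀‖) ∧
      (∀ s ∈ closedBall s₀ r, f₁ s = 0 → f s = 0) ∧
      (deriv f s₀ / f s₀).re = (1 / ‖s₀ - ρ‖ ^ 2 - 1 / r ^ 2) * (s₀ - ρ).re +
        (deriv f₁ s₀ / f₁ s₀).re := by
  obtain ⟨a, ha⟩ : ∃ a, a = ρ - s₀ := ⟨_, rfl⟩
  obtain ⟨D, hD⟩ : ∃ D : ℂ → ℂ, D = fun s => (r : ℂ) ^ 2 - (s - s₀) * (starRingEnd ℂ) a :=
    ⟨_, rfl⟩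
  have hrc : (r : ℂ) ≠ 0 := Complex.ofReal_ne_zero.2 hr.ne'
  have hna : ‖a‖ ≤ r / 2 := by
    rw [ha, ← dist_eq_norm]
    exact mem_closedBall.1 hρ
  have hDd : ∀ s, HasDerivAt D (-(starRingEnd ℂ) a) s := by
    intro s
    rw [hD]
    have h1 : HasDerivAt (fun s : ℂ => (s - s₀) * (starRingEnd ℂ) a) (1 * (starRingEnd ℂ) a) s :=
      ((hasDerivAt_id s).sub_const s₀).mul_const _
    have h2 := h1.const_sub ((r : ℂ) ^ 2)
    rwa [one_mul] at h2
  have hDa : ∀ s, AnalyticAt ℂ D s := fun s =>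
    (show Differentiable ℂ D from fun z => (hDd z).differentiableAt).analyticAt s
  have hg : ∀ s ∈ closedBall s₀ r, AnalyticAt ℂ (dslope f ρ) s := by
    have hU : IsOpen {s | AnalyticAt ℂ f s} := isOpen_analyticAt ℂ f
    have hρU : ρ ∈ {s | AnalyticAt ℂ f s} :=
      hf ρ (closedBall_subset_closedBall (by linarith) hρ)
    have h1 : DifferentiableOn ℂ (dslope f ρ) {s | AnalyticAt ℂ f s} := by
      rw [Complex.differentiableOn_dslope (hU.mem_nhds hρU)]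
      intro s hs
      have hs' : AnalyticAt ℂ f s := hs
      exact hs'.differentiableAt.differentiableWithinAt
    exact fun s hs => h1.analyticAt (hU.mem_nhds (hf s hs))
  obtain ⟨f₁, hf₁⟩ : ∃ f₁ : ℂ → ℂ, f₁ = fun s => dslope f ρ s * D s * (r : ℂ)⁻¹ := ⟨_, rfl⟩
  have hf₁a : AnalyticOnNhd ℂ f₁ (closedBall s₀ r) := by
    intro s hs
    rw [hf₁]
    exact ((hg s hs).mul (hDa s)).mul analyticAt_const
  have hid : ∀ s, f s * D s = r * (s - ρ) * f₁ s := by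
    intro s
    have h1 : (s - ρ) * dslope f ρ s = f s := by
      have := sub_smul_dslope f ρ s
      rwa [smul_eq_mul, hfρ, sub_zero] at this
    calc f s * D s = (s - ρ) * dslope f ρ s * D s := by rw [h1]
      _ = (r * (r : ℂ)⁻¹) * ((s - ρ) * dslope f ρ s * D s) := by
          rw [mul_inv_cancel₀ hrc, one_mul]
      _ = r * (s - ρ) * f₁ s := by
          rw [hf₁]
          ring
  have hDs : D s₀ = (r : ℂ) ^ 2 := by rw [hD]; simp
  have hD0 : ∀ s ∈ closedBall s₀ r, D s ≠ 0 := by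
    intro s hs h
    rw [mem_closedBall, dist_eq_norm] at hs
    rw [hD] at h
    have h1 : (r : ℂ) ^ 2 = (s - s₀) * (starRingEnd ℂ) a := sub_eq_zero.1 h
    have h2 := congrArg norm h1
    rw [norm_pow, Complex.norm_real, Real.norm_eq_abs, abs_of_pos hr, norm_mul,
      Complex.norm_conj] at h2
    have h3 : ‖s - s₀‖ * ‖a‖ ≤ r * (r / 2) :=
      mul_le_mul hs hna (norm_nonneg _) hr.le
    nlinarith
  have hρs : s₀ - ρ ≠ 0 := by
    intro h
    rw [sub_eq_zero] at h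
    rw [h] at h0
    exact h0 hfρ
  have hs₀ : s₀ ∈ closedBall s₀ r := mem_closedBall_self hr.le
  have hf₁0 : f₁ s₀ ≠ 0 := by
    intro h
    have h1 := hid s₀
    rw [h, mul_zero] at h1
    exact mul_ne_zero h0 (hD0 s₀ hs₀) h1
  have hf₁n : ‖f s₀‖ ≤ ‖f₁ s₀‖ / 2 := by
    have h1 := congrArg norm (hid s₀)
    rw [hDs, norm_mul, norm_mul, norm_mul, norm_pow, Complex.norm_real, Real.norm_eq_abs,
      abs_of_pos hr] at h1
    have h2 : ‖s₀ - ρ‖ ≤ r / 2 := by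
      rw [norm_sub_rev, ← ha]
      exact hna
    have h3 : ‖f s₀‖ * r = ‖s₀ - ρ‖ * ‖f₁ s₀‖ := by
      have h4 : r * (‖f s₀‖ * r) = r * (‖s₀ - ρ‖ * ‖f₁ s₀‖) := by linarith
      exact mul_left_cancel₀ hr.ne' h4
    have h5 : ‖s₀ - ρ‖ * ‖f₁ s₀‖ ≤ r / 2 * ‖f₁ s₀‖ :=
      mul_le_mul_of_nonneg_right h2 (norm_nonneg _)
    rw [← h3] at h5
    have h6 : r * ‖f s₀‖ ≤ r * (‖f₁ s₀‖ / 2) := by linarith
    exact le_of_mul_le_mul_left h6 hr
  have hmax : ∀ s ∈ closedBall s₀ r, ‖f₁ s‖ ≤ Real.exp M * ‖f s₀‖ := by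
    intro s hs
    have hd : DiffContOnCl ℂ f₁ (ball s₀ r) := by
      refine ⟨fun z hz =>
        (hf₁a z (ball_subset_closedBall hz)).differentiableAt.differentiableWithinAt, ?_⟩
      rw [closure_ball s₀ hr.ne']
      exact fun z hz => (hf₁a z hz).continuousAt.continuousWithinAt
    refine Complex.norm_le_of_forall_mem_frontier_norm_le isBounded_ball hd ?_
      (by rwa [closure_ball s₀ hr.ne'])
    intro z hz
    rw [frontier_ball s₀ hr.ne'] at hz
    have hz' : ‖z - s₀‖ = r := by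
      rw [← dist_eq_norm]
      exact mem_sphere.1 hz
    have hzc : z ∈ closedBall s₀ r := sphere_subset_closedBall hz
    have hzρ : 0 < ‖z - ρ‖ := by
      rw [norm_pos_iff, sub_ne_zero]
      intro h
      rw [h, ← ha] at hz'
      linarith
    have hDz : ‖D z‖ = r * ‖z - ρ‖ := by
      have h1 : D z = (z - s₀) * (starRingEnd ℂ) (z - ρ) := by
        have h2 : (r : ℂ) ^ 2 = (z - s₀) * (starRingEnd ℂ) (z - s₀) := by
          rw [Complex.mul_conj, Complex.normSq_eq_norm_sq, hz']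
          push_cast
          ring
        have h3 : z - ρ = (z - s₀) - a := by rw [ha]; ring
        rw [hD]
        simp only
        rw [h2, h3, map_sub (starRingEnd ℂ) (z - s₀) a]
        ring
      rw [h1, norm_mul, Complex.norm_conj, hz']
    have h1 := congrArg norm (hid z)
    rw [norm_mul, norm_mul, norm_mul, hDz, Complex.norm_real, Real.norm_eq_abs,
      abs_of_pos hr] at h1
    have h2 : (r * ‖z - ρ‖) * ‖f₁ z‖ = (r * ‖z - ρ‖) * ‖f z‖ := by linarith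
    rw [mul_left_cancel₀ (by positivity) h2]
    exact hb z hzc
  refine ⟨f₁, hf₁a, hf₁0, ?_, ?_, ?_⟩
  · intro s hs
    rw [Real.exp_sub, Real.exp_log (by norm_num)]
    calc ‖f₁ s‖ ≤ Real.exp M * ‖f s₀‖ := hmax s hs
      _ ≤ Real.exp M * (‖f₁ s₀‖ / 2) := mul_le_mul_of_nonneg_left hf₁n (Real.exp_pos M).le
      _ = Real.exp M / 2 * ‖f₁ s₀‖ := by ring
  · intro s hs h
    have h1 := hid s
    rw [h, mul_zero] at h1
    exact (mul_eq_zero.1 h1).resolve_right (hD0 s hs)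
  · have hfd : HasDerivAt f (deriv f s₀) s₀ := (hf s₀ hs₀).differentiableAt.hasDerivAt
    have hf₁d : HasDerivAt f₁ (deriv f₁ s₀) s₀ := (hf₁a s₀ hs₀).differentiableAt.hasDerivAt
    have h1 : HasDerivAt (fun s => f s * D s)
        (deriv f s₀ * D s₀ + f s₀ * -(starRingEnd ℂ) a) s₀ := hfd.mul (hDd s₀)
    have h2 : HasDerivAt (fun s => r * (s - ρ) * f₁ s)
        ((r : ℂ) * 1 * f₁ s₀ + r * (s₀ - ρ) * deriv f₁ s₀) s₀ :=
      (((hasDerivAt_id s₀).sub_const ρ).const_mul (r : ℂ)).mul hf₁d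
    have h3 : (fun s => f s * D s) = fun s => r * (s - ρ) * f₁ s := funext hid
    rw [h3] at h1
    have h4 := h1.unique h2
    have h5 := hid s₀
    rw [hDs] at h4 h5
    have h6 : deriv f s₀ / f s₀ = 1 / (s₀ - ρ) + (starRingEnd ℂ) a / (r : ℂ) ^ 2 +
        deriv f₁ s₀ / f₁ s₀ := by
      field_simp
      linear_combination (s₀ - ρ) * f₁ s₀ * h4 - ((s₀ - ρ) * deriv f₁ s₀ + f₁ s₀) * h5
    rw [h6, Complex.add_re, Complex.add_re]
    congr 1
    have h7 : ((starRingEnd ℂ) a / (r : ℂ) ^ 2).re = -((s₀ - ρ).re / r ^ 2) := by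
      have h8 : (r : ℂ) ^ 2 = ((r ^ 2 : ℝ) : ℂ) := by push_cast; ring
      rw [h8, Complex.div_ofReal_re, Complex.conj_re, ha, Complex.sub_re, Complex.sub_re]
      ring
    have h9 : (1 / (s₀ - ρ)).re = (s₀ - ρ).re / ‖s₀ - ρ‖ ^ 2 := by
      rw [one_div, Complex.inv_re, Complex.normSq_eq_norm_sq]
    rw [h7, h9]
    ring

private lemma lan_claim {s₀ : ℂ} {r : ℝ} (hr : 0 < r) (n : ℕ) :
    ∀ (f : ℂ → ℂ) (M : ℝ), 0 ≤ M → M < n * Real.log 2 →
      AnalyticOnNhd ℂ f (closedBall s₀ r) → f s₀ ≠ 0 →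
      (∀ s ∈ closedBall s₀ r, ‖f s‖ ≤ Real.exp M * ‖f s₀‖) →
      (∀ s ∈ closedBall s₀ r, f s = 0 → s.re ≤ s₀.re) →
      -(deriv f s₀ / f s₀).re ≤ 4 * (M + 1) / r := by
  induction n with
  | zero =>
    intro f M hM hMn
    rw [Nat.cast_zero, zero_mul] at hMn
    linarith
  | succ n ih =>
    intro f M hM hMn hf h0 hb hz
    by_cases hex : ∃ ρ ∈ closedBall s₀ (r / 2), f ρ = 0
    · obtain ⟨ρ, hρ, hfρ⟩ := hex
      obtain ⟨f₁, hf₁, h1, hb₁, hz₁, heq⟩ := lan_peel hr hf h0 hb hρ hfρ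
      have hM1 : 0 ≤ M - Real.log 2 := by
        have h2 := hb₁ s₀ (mem_closedBall_self hr.le)
        have h3 : 0 < ‖f₁ s₀‖ := norm_pos_iff.2 h1
        have h4 : 1 ≤ Real.exp (M - Real.log 2) := by
          by_contra hcon
          push Not at hcon
          nlinarith
        exact Real.one_le_exp_iff.1 h4
      have hlog2 : 0 < Real.log 2 := Real.log_pos (by norm_num)
      have h5 := ih f₁ (M - Real.log 2) hM1 (by push_cast at hMn; linarith) hf₁ h1 hb₁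
        (fun s hs h => hz s hs (hz₁ s hs h))
      have h6 : 4 * (M - Real.log 2 + 1) / r ≤ 4 * (M + 1) / r :=
        div_le_div_of_nonneg_right (by linarith) hr.le
      have h7 : 0 ≤ (1 / ‖s₀ - ρ‖ ^ 2 - 1 / r ^ 2) * (s₀ - ρ).re := by
        have hρ' : ‖s₀ - ρ‖ ≤ r / 2 := by
          rw [norm_sub_rev, ← dist_eq_norm]
          exact mem_closedBall.1 hρ
        have h8 : 0 < ‖s₀ - ρ‖ := by
          rw [norm_pos_iff, sub_ne_zero]
          intro h
          rw [h] at h0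
          exact h0 hfρ
        refine mul_nonneg (sub_nonneg.2 ?_) ?_
        · exact one_div_le_one_div_of_le (by positivity)
            (pow_le_pow_left₀ h8.le (by linarith) 2)
        · rw [Complex.sub_re]
          have := hz ρ (closedBall_subset_closedBall (by linarith) hρ) hfρ
          linarith
      linarith
    · push Not at hex
      have hsub : ball s₀ (r / 2) ⊆ closedBall s₀ r :=
        ball_subset_closedBall.trans (closedBall_subset_closedBall (by linarith))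
      have h1 := logderiv_nz (f := f) (s₀ := s₀) (R := r / 2) (M := M + 1) (by linarith)
        (by linarith) (fun s hs => (hf s (hsub hs)).differentiableAt.differentiableWithinAt)
        (fun s hs => hex s (ball_subset_closedBall hs)) (fun s hs => (hb s (hsub hs)).trans
          (mul_le_mul_of_nonneg_right (Real.exp_le_exp.2 (by linarith)) (norm_nonneg _)))
      have h2 : 2 * (M + 1) / (r / 2) = 4 * (M + 1) / r := by
        field_simp
        ring
      rw [h2] at h1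
      exact ((neg_le_abs _).trans (Complex.abs_re_le_norm _)).trans h1

theorem landau {f : ℂ → ℂ} {s₀ : ℂ} {r M : ℝ} (hr : 0 < r) (hM : 0 ≤ M)
    (hf : AnalyticOnNhd ℂ f (closedBall s₀ r)) (h0 : f s₀ ≠ 0)
    (hb : ∀ s ∈ closedBall s₀ r, ‖f s‖ ≤ Real.exp M * ‖f s₀‖)
    (hz : ∀ s ∈ closedBall s₀ r, f s = 0 → s.re ≤ s₀.re) :
    -(deriv f s₀ / f s₀).re ≤ 4 * (M + 1) / r ∧
    ∀ ρ ∈ closedBall s₀ (r / 2), f ρ = 0 →
      -(deriv f s₀ / f s₀).re ≤ 4 * (M + 1) / r -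
        (1 / ‖s₀ - ρ‖ ^ 2 - 1 / r ^ 2) * (s₀ - ρ).re := by
  have hlog2 : 0 < Real.log 2 := Real.log_pos (by norm_num)
  obtain ⟨n, hn⟩ := exists_nat_gt (M / Real.log 2)
  rw [div_lt_iff₀ hlog2] at hn
  refine ⟨lan_claim hr n f M hM hn hf h0 hb hz, fun ρ hρ hfρ => ?_⟩
  obtain ⟨f₁, hf₁, h1, hb₁, hz₁, heq⟩ := lan_peel hr hf h0 hb hρ hfρ
  have h2 := lan_claim hr n f₁ M hM hn hf₁ h1 (fun s hs => (hb₁ s hs).trans
    (mul_le_mul_of_nonneg_right (Real.exp_le_exp.2 (by linarith)) (norm_nonneg _)))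
    (fun s hs h => hz s hs (hz₁ s hs h))
  rw [heq]
  linarith

end Pool.MSP
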