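import Pool.Agent.MSP.Idt
import Pool.Agent.MSP.Cnv
import Pool.Agent.MSP.Kbd
import Pool.Agent.Helper3.TG.Plancherel

/-!
# MSP / Ltw: the mean square of the discrepancy over `l ∈ [1, 2]`

PROOF. `N ≥ 3`, `c = 1 + 1/log N ∈ (1, 2)`, `δ = 1/N^2`.
(1) `gg c G` is measurable, supported in `w ≤ log N`, `‖gg‖ ≤ e^(cw)`: integrable, in `L^2`, `∫⁻ ‖gg‖ₑ^2 ≤ ∫_{-∞}^{log N} e^(2cw) dw = N^(2c)/(2c) ≤ e^2 N^2` (`N^(2/log N) = e^2`).
(2) `g3` and the two terms of `dd` are integrable and in `L^2` (`conv_measurable`, `conv_integrable`, `conv_memLp` twice). `conv_fourier`: the transform of `dd` at `E` is `ĝ(E) (∫ e^(-iEv) dm3) (∫ e^(-iEv) dm1 - ∫ e^(-iEv) dm2) = ĝ(E) m̂3(E) Kk k (c + iE)` (`m12_fourier`).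
(3) `‖m̂3(E)‖ ‖Kk k (c+iE)‖ ≤ B := C (log N)^(bk k)` for all `E`: `Kk_bound` (`(c + I E).re = c`, `.im = E`), `L = log N ≥ 1`. If `|E| ≤ N^3`: `log(3+|E|) ≤ log(N + N^3) ≤ 4 L`, `‖m̂3‖ ≤ 1`. If `|E| > N^3`: `‖m̂3‖ ≤ 2 N^2/|E|` and
`log(3+|E|) ≤ log(2|E|)`; put `|E| = N^3 y`, `y ≥ 1`: `log(2|E|) ≤ 4 L + log y ≤ 4L (1 + log y) `, `2N^2/|E| ≤ 1/y`, and `(1+log y)^b ≤ C_b y`. (general: for every `b` there is `C_b` with `(1 + log y)^b ≤ C_b y` for `y ≥ 1`.)
(4) Plancherel (`Pool.Agent.Helper3.TG.plancherel`) for `dd` and for `gg`: `∫⁻ ‖dd‖ₑ^2 ≤ B^2 ∫⁻ ‖gg‖ₑ^2 ≤ B^2 e^2 N^2`.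
(5) `∫⁻_{l ∈ [1,2]} ‖Dk k N (sm δ G) l‖ₑ^2 = ∫⁻_{w ∈ [0,log 2]} ‖Dk (e^w)‖ₑ^2 e^w dw` (`lintegral_image_eq_lintegral_abs_deriv_mul`) and by `dd_eq` `‖Dk (e^w)‖ = e^(-cw) ‖dd w‖ ≤ ‖dd w‖`, `e^w ≤ 2`: at most `2 ∫⁻ ‖dd‖ₑ^2`.
-/

set_option autoImplicit false

open MeasureTheory Filter Topology Set

namespace Pool.MSP

theorem Dk_measurable (k N : ℕ) {G : ℝ → ℂ} (hG : Measurable G) : Measurable (Dk k N G) := by
  unfold Dk
  refine Measurable.sub ?_ ?_
  · refine Finset.measurable_fun_sum _ fun n _ => ?_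
    exact (hG.comp (measurable_id.mul_const (n : ℝ))).const_mul _
  · have h : Measurable fun p : ℝ × ℝ => ((Real.log p.2 ^ k : ℝ) : ℂ) * G (p.1 * p.2) := by
      refine Measurable.mul ?_ (hG.comp (measurable_fst.mul measurable_snd))
      exact Complex.measurable_ofReal.comp ((Real.measurable_log.comp measurable_snd).pow_const k)
    exact (h.stronglyMeasurable.integral_prod_right'
      (ν := volume.restrict (Ioi (1 : ℝ)))).measurable

private lemma ltw_gg {N : ℕ} (hN : 3 ≤ N) {c : ℝ} (hc : c = 1 + 1 / Real.log N) {G : ℝ → ℂ}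
    (hG : Measurable G) (hb : ∀ v, ‖G v‖ ≤ 1) (h0 : ∀ v, v ≤ 0 ∨ (N : ℝ) < v → G v = 0) :
    Measurable (gg c G) ∧ Integrable (gg c G) ∧ MemLp (gg c G) 2 ∧
      ∫⁻ w, ‖gg c G w‖ₑ ^ 2 ≤ ENNReal.ofReal (Real.exp 2 * (N : ℝ) ^ 2) := by
  have hN' : (3 : ℝ) ≤ N := by exact_mod_cast hN
  have hN0 : (0 : ℝ) < N := by linarith
  have hL : 0 < Real.log N := Real.log_pos (by linarith)
  have hc1 : 1 < c := by
    rw [hc]
    have : 0 < 1 / Real.log N := by positivity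
    linarith
  have hm : Measurable (gg c G) := by
    unfold gg
    refine (hG.comp Real.measurable_exp).mul ?_
    exact Complex.measurable_ofReal.comp (Real.measurable_exp.comp (measurable_id.const_mul c))
  have hle : ∀ w, ‖gg c G w‖ ≤ (Iic (Real.log N)).indicator (fun w => Real.exp (c * w)) w := by
    intro w
    unfold gg
    by_cases hw : w ≤ Real.log N
    · rw [indicator_of_mem (mem_Iic.2 hw), norm_mul, Complex.norm_real, Real.norm_eq_abs,
        abs_of_pos (Real.exp_pos _)]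
      exact mul_le_of_le_one_left (Real.exp_pos _).le (hb _)
    · rw [indicator_of_notMem (by rwa [mem_Iic]), h0 _ (Or.inr ?_), zero_mul, norm_zero]
      push Not at hw
      exact (Real.log_lt_iff_lt_exp hN0).1 hw
  have hle2 : ∀ w, ‖gg c G w‖ ^ 2 ≤
      (Iic (Real.log N)).indicator (fun w => Real.exp (2 * c * w)) w := by
    intro w
    refine (pow_le_pow_left₀ (norm_nonneg _) (hle w) 2).trans (le_of_eq ?_)
    by_cases hw : w ∈ Iic (Real.log N)
    · rw [indicator_of_mem hw, indicator_of_mem hw, ← Real.exp_nat_mul]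
      congr 1
      push_cast
      ring
    · rw [indicator_of_notMem hw, indicator_of_notMem hw]
      norm_num
  have hi1 : Integrable ((Iic (Real.log N)).indicator (fun w => Real.exp (c * w))) :=
    (integrable_indicator_iff measurableSet_Iic).2
      (integrableOn_exp_mul_Iic (by linarith) _)
  have hi2 : Integrable ((Iic (Real.log N)).indicator (fun w => Real.exp (2 * c * w))) :=
    (integrable_indicator_iff measurableSet_Iic).2
      (integrableOn_exp_mul_Iic (by linarith) _)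
  refine ⟨hm, hi1.mono' hm.aestronglyMeasurable (Eventually.of_forall hle), ?_, ?_⟩
  · rw [memLp_two_iff_integrable_sq_norm hm.aestronglyMeasurable]
    refine hi2.mono' (hm.norm.pow_const 2).aestronglyMeasurable (Eventually.of_forall fun w => ?_)
    rw [Real.norm_eq_abs, abs_of_nonneg (by positivity)]
    exact hle2 w
  · calc ∫⁻ w, ‖gg c G w‖ₑ ^ 2 ≤ ∫⁻ w, ENNReal.ofReal
          ((Iic (Real.log N)).indicator (fun w => Real.exp (2 * c * w)) w) := by
          refine lintegral_mono fun w => ?_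
          rw [← ofReal_norm, ← ENNReal.ofReal_pow (norm_nonneg _)]
          exact ENNReal.ofReal_le_ofReal (hle2 w)
      _ = ENNReal.ofReal (∫ w, (Iic (Real.log N)).indicator
            (fun w => Real.exp (2 * c * w)) w) := by
          rw [ofReal_integral_eq_lintegral_ofReal hi2]
          exact Eventually.of_forall fun w =>
            indicator_nonneg (fun w _ => (Real.exp_pos _).le) w
      _ ≤ ENNReal.ofReal (Real.exp 2 * (N : ℝ) ^ 2) := by
          refine ENNReal.ofReal_le_ofReal ?_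
          rw [integral_indicator measurableSet_Iic, integral_exp_mul_Iic (by linarith)]
          have h1 : Real.exp (2 * c * Real.log N) = Real.exp 2 * (N : ℝ) ^ 2 := by
            have h2 : 2 * c * Real.log N = 2 + ((2 : ℕ) : ℝ) * Real.log N := by
              rw [hc]
              field_simp
              push_cast
              ring
            rw [h2, Real.exp_add, Real.exp_nat_mul, Real.exp_log hN0]
          rw [h1]
          exact div_le_self (by positivity) (by linarith)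

private lemma ltw_fourier (k : ℕ) {c δ : ℝ} (hc : 1 < c) (hδ : 0 < δ) {G : ℝ → ℂ}
    (hm : Measurable (gg c G)) (hi : Integrable (gg c G)) (h2 : MemLp (gg c G) 2) :
    Integrable (dd k c δ G) ∧ MemLp (dd k c δ G) 2 ∧ ∀ E : ℝ,
      ∫ w : ℝ, Complex.exp (Complex.I * E * w) * dd k c δ G w =
      (∫ w : ℝ, Complex.exp (Complex.I * E * w) * gg c G w) *
        ((∫ v, Complex.exp (-(Complex.I * E * v)) ∂(m3 c δ)) * Kk k (c + Complex.I * E)) := by
  have := m1_finite k hc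
  have := m2_finite k hc
  have := m3_finite hc hδ
  have a1 : Measurable (g3 c δ G) := conv_measurable (m3 c δ) hm
  have a2 : Integrable (g3 c δ G) := conv_integrable (m3 c δ) hm hi
  have a3 : MemLp (g3 c δ G) 2 := conv_memLp (m3 c δ) hm hi h2
  have b1 := conv_integrable (m1 k c) a1 a2
  have b2 := conv_integrable (m2 k c) a1 a2
  have c1 := conv_memLp (m1 k c) a1 a2 a3
  have c2 := conv_memLp (m2 k c) a1 a2 a3
  refine ⟨b1.sub b2, c1.sub c2, fun E => ?_⟩
  have hbd : ∀ {u : ℝ → ℂ}, Integrable u →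
      Integrable (fun w : ℝ => Complex.exp (Complex.I * E * w) * u w) := by
    intro u hu
    refine hu.bdd_mul (c := 1) ?_ (Eventually.of_forall fun w => ?_)
    · exact (by fun_prop : Continuous fun w : ℝ =>
        Complex.exp (Complex.I * E * w)).aestronglyMeasurable
    · rw [Complex.norm_exp]
      simp
  have d1 := conv_fourier (m1 k c) a1 a2 E
  have d2 := conv_fourier (m2 k c) a1 a2 E
  have d3 : ∫ w : ℝ, Complex.exp (Complex.I * E * w) * g3 c δ G w = _ :=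
    conv_fourier (m3 c δ) hm hi E
  have e1 : ∫ w : ℝ, Complex.exp (Complex.I * E * w) * dd k c δ G w =
      (∫ w : ℝ, Complex.exp (Complex.I * E * w) * ∫ v, g3 c δ G (w + v) ∂(m1 k c)) -
        ∫ w : ℝ, Complex.exp (Complex.I * E * w) * ∫ v, g3 c δ G (w + v) ∂(m2 k c) := by
    rw [← integral_sub (hbd b1) (hbd b2)]
    refine integral_congr_ae (Eventually.of_forall fun w => ?_)
    simp only [dd]
    ring
  rw [e1, d1, d2, ← mul_sub, m12_fourier k hc E, d3]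
  ring

private lemma ltw_log (b : ℝ) : ∃ C : ℝ, 0 < C ∧ ∀ y : ℝ, 1 ≤ y → (1 + Real.log y) ^ b ≤ C * y := by
  obtain ⟨n, hn⟩ := exists_nat_ge b
  refine ⟨n.factorial * Real.exp 1, by positivity, fun y hy => ?_⟩
  have h0 : 0 ≤ Real.log y := Real.log_nonneg hy
  calc (1 + Real.log y) ^ b ≤ (1 + Real.log y) ^ (n : ℝ) :=
        Real.rpow_le_rpow_of_exponent_le (by linarith) hn
    _ = (1 + Real.log y) ^ n := Real.rpow_natCast _ n
    _ ≤ n.factorial * Real.exp (1 + Real.log y) := by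
        have h1 := Real.pow_div_factorial_le_exp (1 + Real.log y) (by linarith) n
        rw [div_le_iff₀ (by positivity)] at h1
        linarith
    _ = n.factorial * Real.exp 1 * y := by
        rw [Real.exp_add, Real.exp_log (by linarith)]
        ring

private lemma ltw_mult (k : ℕ) : ∃ C : ℝ, 0 < C ∧ ∀ (N : ℕ) (c : ℝ), 3 ≤ N → 1 < c → c ≤ 2 →
    ∀ E : ℝ, ‖(∫ v, Complex.exp (-(Complex.I * E * v)) ∂(m3 c (1 / (N : ℝ) ^ 2))) *
      Kk k (c + Complex.I * E)‖ ≤ C * Real.log N ^ (bk k) := by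
  obtain ⟨C, hC, hK⟩ := Kk_bound k
  obtain ⟨C', hC', hl⟩ := ltw_log (bk k)
  have hbk : 0 ≤ bk k := by unfold bk; positivity
  refine ⟨C * 4 ^ (bk k) * C', by positivity, fun N c hN hc1 hc2 E => ?_⟩
  have hN' : (3 : ℝ) ≤ N := by exact_mod_cast hN
  have hN0 : (0 : ℝ) < N := by linarith
  have hL1 : 1 ≤ Real.log N := by
    rw [Real.le_log_iff_exp_le hN0]
    have := Real.exp_one_lt_d9
    linarith
  have hδ : 0 < 1 / (N : ℝ) ^ 2 := by positivity
  obtain ⟨f1, f2⟩ := m3_fourier hc1 hδ E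
  have g1 := hK (c + Complex.I * E) (by simpa using hc1) (by simpa using hc2)
  have him : ((c : ℂ) + Complex.I * E).im = E := by simp
  rw [him] at g1
  obtain ⟨m, hm⟩ : ∃ m, m = ‖∫ v, Complex.exp (-(Complex.I * E * v)) ∂(m3 c (1 / (N : ℝ) ^ 2))‖ :=
    ⟨_, rfl⟩
  rw [← hm] at f1 f2
  rw [norm_mul, ← hm]
  have hm0 : 0 ≤ m := by rw [hm]; exact norm_nonneg _
  obtain ⟨y, hy⟩ : ∃ y, y = max 1 (|E| / (2 * (N : ℝ) ^ 2)) := ⟨_, rfl⟩
  have hy1 : 1 ≤ y := by rw [hy]; exact le_max_left _ _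
  have hy2 : |E| / (2 * (N : ℝ) ^ 2) ≤ y := by rw [hy]; exact le_max_right _ _
  have hmy : m * y ≤ 1 := by
    rw [hy]
    rcases le_total (|E| / (2 * (N : ℝ) ^ 2)) 1 with h | h
    · rw [max_eq_left h, mul_one]
      exact f1
    · rw [max_eq_right h]
      have h1 : 1 / (N : ℝ) ^ 2 * |E| * m = 2 * (m * (|E| / (2 * (N : ℝ) ^ 2))) := by
        field_simp
      linarith
  have h3 : 3 + |E| ≤ (N : ℝ) ^ 4 * y := by
    rw [div_le_iff₀ (by positivity)] at hy2
    have h4 : (9 : ℝ) ≤ (N : ℝ) ^ 2 := by nlinarith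
    nlinarith [mul_nonneg (by positivity : (0 : ℝ) ≤ (N : ℝ) ^ 2) (by linarith : 0 ≤ y - 1),
      mul_le_mul_of_nonneg_right h4 (by positivity : (0 : ℝ) ≤ (N : ℝ) ^ 2 * y)]
  have h5 : Real.log (3 + |E|) ≤ 4 * Real.log N * (1 + Real.log y) := by
    have h6 : Real.log (3 + |E|) ≤ 4 * Real.log N + Real.log y := by
      refine (Real.log_le_log (by positivity) h3).trans (le_of_eq ?_)
      rw [Real.log_mul (by positivity) (by positivity), Real.log_pow]
      norm_num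
    nlinarith [Real.log_nonneg hy1]
  have h7 : Real.log (3 + |E|) ^ (bk k) ≤ 4 ^ (bk k) * Real.log N ^ (bk k) * (C' * y) := by
    have h8 : 0 ≤ Real.log (3 + |E|) := Real.log_nonneg (by linarith [abs_nonneg E])
    refine (Real.rpow_le_rpow h8 h5 hbk).trans ?_
    rw [Real.mul_rpow (by linarith) (by linarith [Real.log_nonneg hy1]),
      Real.mul_rpow (by norm_num) (by linarith)]
    exact mul_le_mul_of_nonneg_left (hl y hy1) (by positivity)
  calc m * ‖Kk k (c + Complex.I * E)‖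
      ≤ m * (C * (4 ^ (bk k) * Real.log N ^ (bk k) * (C' * y))) :=
        mul_le_mul_of_nonneg_left (g1.trans (mul_le_mul_of_nonneg_left h7 hC.le)) hm0
    _ = C * 4 ^ (bk k) * C' * Real.log N ^ (bk k) * (m * y) := by ring
    _ ≤ C * 4 ^ (bk k) * C' * Real.log N ^ (bk k) * 1 :=
        mul_le_mul_of_nonneg_left hmy (by positivity)
    _ = C * 4 ^ (bk k) * C' * Real.log N ^ (bk k) := mul_one _

private lemma ltw_planch {u v : ℝ → ℂ} {B : ℝ} (hu1 : Integrable u) (hu2 : MemLp u 2)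
    (hv1 : Integrable v) (hv2 : MemLp v 2) (T : ℝ → ℂ) (hT : ∀ E, ‖T E‖ ≤ B)
    (h : ∀ E : ℝ, ∫ w : ℝ, Complex.exp (Complex.I * E * w) * v w =
      (∫ w : ℝ, Complex.exp (Complex.I * E * w) * u w) * T E) :
    ∫⁻ w, ‖v w‖ₑ ^ 2 ≤ ENNReal.ofReal (B ^ 2) * ∫⁻ w, ‖u w‖ₑ ^ 2 := by
  have h1 := Pool.Agent.Helper3.TG.plancherel hv1 hv2
  have h2 := Pool.Agent.Helper3.TG.plancherel hu1 hu2
  have h3 : ENNReal.ofReal (2 * Real.pi) * ∫⁻ w, ‖v w‖ₑ ^ 2 ≤
      ENNReal.ofReal (2 * Real.pi) * (ENNReal.ofReal (B ^ 2) * ∫⁻ w, ‖u w‖ₑ ^ 2) := by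
    rw [← h1, ← mul_assoc, mul_comm (ENNReal.ofReal (2 * Real.pi)) (ENNReal.ofReal (B ^ 2)),
      mul_assoc, ← h2, ← lintegral_const_mul' _ _ ENNReal.ofReal_ne_top]
    refine lintegral_mono fun E => ?_
    simp only
    rw [h E, enorm_mul, mul_pow, mul_comm]
    refine mul_le_mul_left ?_ _
    rw [← ofReal_norm, ← ENNReal.ofReal_pow (norm_nonneg _)]
    exact ENNReal.ofReal_le_ofReal (pow_le_pow_left₀ (norm_nonneg _) (hT E) 2)
  have hpi : ENNReal.ofReal (2 * Real.pi) ≠ 0 := by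
    rw [Ne, ENNReal.ofReal_eq_zero, not_le]
    have := Real.pi_pos
    positivity
  exact (ENNReal.mul_le_mul_iff_right hpi ENNReal.ofReal_ne_top).1 h3

theorem l2 (k : ℕ) : ∃ C : ℝ, 0 < C ∧ ∀ (N : ℕ) (G : ℝ → ℂ), 3 ≤ N → Measurable G →
    (∀ v, ‖G v‖ ≤ 1) → (∀ v, v ≤ 0 ∨ (N : ℝ) < v → G v = 0) →
    ∫⁻ l in Icc (1 : ℝ) 2, ‖Dk k N (sm (1 / (N : ℝ) ^ 2) G) l‖ₑ ^ 2 ≤
      ENNReal.ofReal (C * (N : ℝ) ^ 2 * Real.log N ^ (2 * bk k)) := by
  obtain ⟨C, hC, hM⟩ := ltw_mult k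
  refine ⟨2 * C ^ 2 * Real.exp 2, by positivity, fun N G hN hG hb h0 => ?_⟩
  have hN' : (3 : ℝ) ≤ N := by exact_mod_cast hN
  have hN0 : (0 : ℝ) < N := by linarith
  have hL1 : 1 ≤ Real.log N := by
    rw [Real.le_log_iff_exp_le hN0]
    have := Real.exp_one_lt_d9
    linarith
  obtain ⟨c, hc⟩ : ∃ c, c = 1 + 1 / Real.log N := ⟨_, rfl⟩
  obtain ⟨δ, hδ⟩ : ∃ δ, δ = 1 / (N : ℝ) ^ 2 := ⟨_, rfl⟩
  have hc1 : 1 < c := by
    rw [hc]
    have : 0 < 1 / Real.log N := by positivity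
    linarith
  have hc2 : c ≤ 2 := by
    rw [hc]
    have : 1 / Real.log N ≤ 1 := by
      rw [div_le_one (by linarith)]
      exact hL1
    linarith
  have hδ0 : 0 < δ := by rw [hδ]; positivity
  obtain ⟨a1, a2, a3, a4⟩ := ltw_gg hN hc hG hb h0
  obtain ⟨b1, b2, b3⟩ := ltw_fourier k hc1 hδ0 a1 a2 a3
  have hMN := hM N c hN hc1 hc2
  rw [← hδ] at hMN
  have hd := (ltw_planch a2 a3 b1 b2 _ hMN b3).trans (mul_le_mul_right a4 _)
  rw [← ENNReal.ofReal_mul (by positivity)] at hd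
  rw [← hδ]
  have himg : Icc (1 : ℝ) 2 ⊆ Real.exp '' Icc 0 (Real.log 2) := by
    intro x hx
    have hx0 : 0 < x := by linarith [hx.1]
    exact ⟨Real.log x, ⟨Real.log_nonneg hx.1, Real.log_le_log hx0 hx.2⟩, Real.exp_log hx0⟩
  calc ∫⁻ l in Icc (1 : ℝ) 2, ‖Dk k N (sm δ G) l‖ₑ ^ 2
      ≤ ∫⁻ l in Real.exp '' Icc 0 (Real.log 2), ‖Dk k N (sm δ G) l‖ₑ ^ 2 :=
        lintegral_mono_set himg
    _ = ∫⁻ w in Icc 0 (Real.log 2), ENNReal.ofReal |Real.exp w| *
          ‖Dk k N (sm δ G) (Real.exp w)‖ₑ ^ 2 :=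
        lintegral_image_eq_lintegral_abs_deriv_mul measurableSet_Icc
          (fun x _ => (Real.hasDerivAt_exp x).hasDerivWithinAt) Real.exp_injective.injOn _
    _ ≤ ∫⁻ w in Icc 0 (Real.log 2), ENNReal.ofReal 2 * ‖dd k c δ G w‖ₑ ^ 2 := by
        refine setLIntegral_mono' measurableSet_Icc fun w hw => ?_
        refine mul_le_mul' (ENNReal.ofReal_le_ofReal ?_) ?_
        · rw [abs_of_pos (Real.exp_pos w)]
          calc Real.exp w ≤ Real.exp (Real.log 2) := Real.exp_le_exp.2 hw.2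
            _ = 2 := Real.exp_log (by norm_num)
        · refine pow_le_pow_left₀ (by positivity) ?_ 2
          rw [dd_eq k N hc1 hδ0 hG hb h0 hw.1, enorm_mul]
          refine le_mul_of_one_le_left (by positivity) ?_
          rw [← ofReal_norm, Complex.norm_real, Real.norm_eq_abs,
            abs_of_pos (Real.exp_pos _), ← ENNReal.ofReal_one]
          refine ENNReal.ofReal_le_ofReal (Real.one_le_exp ?_)
          exact mul_nonneg (by linarith) hw.1
    _ ≤ ∫⁻ w, ENNReal.ofReal 2 * ‖dd k c δ G w‖ₑ ^ 2 := setLIntegral_le_lintegral _ _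
    _ = ENNReal.ofReal 2 * ∫⁻ w, ‖dd k c δ G w‖ₑ ^ 2 :=
        lintegral_const_mul' _ _ ENNReal.ofReal_ne_top
    _ ≤ ENNReal.ofReal 2 * ENNReal.ofReal
          ((C * Real.log N ^ (bk k)) ^ 2 * (Real.exp 2 * (N : ℝ) ^ 2)) := mul_le_mul_right hd _
    _ = ENNReal.ofReal (2 * C ^ 2 * Real.exp 2 * (N : ℝ) ^ 2 * Real.log N ^ (2 * bk k)) := by
        rw [← ENNReal.ofReal_mul (by norm_num)]
        congr 1
        have h1 : Real.log N ^ (2 * bk k) = (Real.log N ^ (bk k)) ^ 2 := by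
          rw [mul_comm, Real.rpow_mul (by linarith), Real.rpow_two]
        rw [h1]
        ring

end Pool.MSP
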