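import Pool.Agent.MSP.Kdr

/-!
# MSP / Mes: three measures and their Fourier transforms

PROOF. `m1`: `∑ lam k n n^(-c) < ∞` (`Kk_summable` at the real point `c`, nonnegative terms), so finite. `∫ exp(-iEv) dm1 = ∑ lam k n n^(-c) exp(-iE log n) = LSeries (lam k) (c + iE)` (`integral_sum_measure`, `integral_smul_measure`, `integral_dirac`; `n = 0, 1`: `lam k 0 = lam k 1 = 0`;
`LSeries.term`; `n^(-(c+iE)) = n^(-c) exp(-iE log n)`). General form for integrable functions: `m1_integral`.
`m2`: density `v^k exp(-(c-1)v)` on `(0,∞)`: finite (`Real.GammaIntegral`/`integrableOn...`), `∫ exp(-iEv) dm2 = ∫_0^∞ v^k exp(-(c-1+iE)v) dv = k!/(c-1+iE)^(k+1)` (`Complex.integral_cpow_mul_exp_neg_mul_Ioi` with `a = k+1`, `Complex.Gamma_nat_eq_factorial`).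
Difference: `Kk k (c + iE)`.
`m3`: density `exp(-cu)/δ` on `(0,δ]`: mass `≤ 1`; `∫ exp(-iEu) dm3 = (1/δ) ∫_0^δ exp(-(c+iE)u) du = (1 - exp(-(c+iE)δ))/(δ(c+iE))`, norm `≤ 2/(δ|E|)` for `E ≠ 0`.
-/

set_option autoImplicit false

open MeasureTheory Filter Topology Set

namespace Pool.MSP

/-- `∑ Λ(n) (log n)^k n^(-c) δ_(log n)` -/
noncomputable def m1 (k : ℕ) (c : ℝ) : Measure ℝ :=
  Measure.sum fun n : ℕ => ENNReal.ofReal (lam k n * (n : ℝ) ^ (-c)) • Measure.dirac (Real.log n)

/-- `v^k exp(-(c-1) v) dv` on `(0, ∞)` -/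
noncomputable def m2 (k : ℕ) (c : ℝ) : Measure ℝ :=
  (volume.restrict (Ioi (0 : ℝ))).withDensity
    fun v => ENNReal.ofReal (v ^ k * Real.exp (-((c - 1) * v)))

/-- `exp(-cu) du/δ` on `(0, δ]` -/
noncomputable def m3 (c δ : ℝ) : Measure ℝ :=
  (volume.restrict (Ioc (0 : ℝ) δ)).withDensity fun u => ENNReal.ofReal (Real.exp (-(c * u)) / δ)

private lemma me_w0 (k : ℕ) (c : ℝ) (n : ℕ) : 0 ≤ lam k n * (n : ℝ) ^ (-c) :=
  mul_nonneg (lam_nonneg k n) (Real.rpow_nonneg (Nat.cast_nonneg n) _)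

private lemma me_lam0 (k : ℕ) : lam k 0 = 0 := by
  unfold lam
  simp

private lemma me_sum (k : ℕ) {c : ℝ} (hc : 1 < c) :
    Summable fun n : ℕ => lam k n * (n : ℝ) ^ (-c) := by
  have h : LSeriesSummable (fun n => (lam k n : ℂ)) (c : ℂ) :=
    Kk_summable k (by simpa using hc)
  have h1 : Summable fun n => ‖LSeries.term (fun n => (lam k n : ℂ)) (c : ℂ) n‖ := h.norm
  refine h1.congr fun n => ?_
  rw [LSeries.norm_term_eq]
  split_ifs with h0
  · rw [h0, me_lam0, zero_mul]
  · rw [Complex.norm_real, Real.norm_of_nonneg (lam_nonneg k n), Complex.ofReal_re,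
      Real.rpow_neg (Nat.cast_nonneg n), div_eq_mul_inv]

private lemma me_int (k : ℕ) {x : ℝ} (hx : 0 < x) :
    IntegrableOn (fun v : ℝ => v ^ k * Real.exp (-(x * v))) (Ioi 0) := by
  have h := integrableOn_rpow_mul_exp_neg_mul_rpow (p := 1) (s := k) (b := x)
    (by have : (0 : ℝ) ≤ k := Nat.cast_nonneg k
        linarith) one_pos hx
  refine h.congr_fun (fun v _ => ?_) measurableSet_Ioi
  simp only [Real.rpow_natCast, Real.rpow_one, neg_mul]

private lemma me_norm (k : ℕ) (z : ℂ) {v : ℝ} (hv : 0 ≤ v) :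
    ‖(v : ℂ) ^ k * Complex.exp (-(z * v))‖ = v ^ k * Real.exp (-(z.re * v)) := by
  rw [norm_mul, norm_pow, Complex.norm_real, Real.norm_of_nonneg hv, Complex.norm_exp]
  congr 2
  simp

private lemma me_cint (k : ℕ) {z : ℂ} (hz : 0 < z.re) :
    IntegrableOn (fun v : ℝ => (v : ℂ) ^ k * Complex.exp (-(z * v))) (Ioi 0) := by
  refine Integrable.mono' (me_int k hz) ?_ ?_
  · exact Continuous.aestronglyMeasurable (by fun_prop)
  · refine (ae_restrict_iff' measurableSet_Ioi).2 (Eventually.of_forall fun v hv => ?_)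
    exact (me_norm k z (le_of_lt hv)).le

private lemma me_gamma (k : ℕ) {z : ℂ} (hz : 0 < z.re) :
    ∫ v in Ioi (0 : ℝ), (v : ℂ) ^ k * Complex.exp (-(z * v)) =
      (k.factorial : ℂ) / z ^ (k + 1) := by
  have hz0 : z ≠ 0 := by
    rintro rfl
    simp at hz
  induction k with
  | zero =>
    have h := integral_exp_mul_complex_Ioi (a := -z) (by simpa using hz) 0
    have h1 : ∫ v in Ioi (0 : ℝ), (v : ℂ) ^ 0 * Complex.exp (-(z * v)) =
        ∫ v in Ioi (0 : ℝ), Complex.exp (-z * v) := by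
      refine setIntegral_congr_fun measurableSet_Ioi fun v _ => ?_
      simp only [pow_zero, one_mul, neg_mul]
    rw [h1, h]
    simp
  | succ k ih =>
    have hd : ∀ v : ℝ, HasDerivAt (fun v : ℝ => -((v : ℂ) ^ (k + 1) * Complex.exp (-(z * v)) / z))
        ((v : ℂ) ^ (k + 1) * Complex.exp (-(z * v)) -
          ((k + 1 : ℕ) : ℂ) / z * ((v : ℂ) ^ k * Complex.exp (-(z * v)))) v := by
      intro v
      have h0 : HasDerivAt (fun w : ℂ => -(w ^ (k + 1) * Complex.exp (-(z * w)) / z))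
          (-((((k + 1 : ℕ) : ℂ) * (v : ℂ) ^ k * Complex.exp (-(z * v)) +
            (v : ℂ) ^ (k + 1) * (Complex.exp (-(z * v)) * -z)) / z)) (v : ℂ) := by
        have e1 : HasDerivAt (fun w : ℂ => w ^ (k + 1)) (((k + 1 : ℕ) : ℂ) * (v : ℂ) ^ k) (v : ℂ) := by
          simpa using hasDerivAt_pow (k + 1) (v : ℂ)
        have e2 : HasDerivAt (fun w : ℂ => Complex.exp (-(z * w)))
            (Complex.exp (-(z * v)) * -z) (v : ℂ) := by
          have e3 : HasDerivAt (fun w : ℂ => -(z * w)) (-z) (v : ℂ) := by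
            have e4 := ((hasDerivAt_id (v : ℂ)).const_mul z).fun_neg
            rw [mul_one] at e4
            exact e4
          exact e3.cexp
        exact ((e1.mul e2).div_const z).neg
      have h1 := h0.comp_ofReal
      convert h1 using 1
      field_simp
      ring
    have hlim : Tendsto (fun v : ℝ => -((v : ℂ) ^ (k + 1) * Complex.exp (-(z * v)) / z)) atTop
        (𝓝 0) := by
      have h1 : Tendsto (fun v : ℝ => (v : ℂ) ^ (k + 1) * Complex.exp (-(z * v))) atTop (𝓝 0) := by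
        rw [tendsto_zero_iff_norm_tendsto_zero]
        have h2 := tendsto_rpow_mul_exp_neg_mul_atTop_nhds_zero ((k + 1 : ℕ) : ℝ) z.re hz
        refine h2.congr' ?_
        filter_upwards [eventually_ge_atTop 0] with v hv
        rw [me_norm _ z hv, Real.rpow_natCast, neg_mul]
      have h3 := (h1.div_const z).neg
      simpa using h3
    have h1 := integral_Ioi_of_hasDerivAt_of_tendsto' (a := 0) (fun v _ => hd v)
      ((me_cint (k + 1) hz).sub ((me_cint k hz).const_mul _)) hlim
    rw [integral_sub (me_cint (k + 1) hz) ((me_cint k hz).const_mul _), integral_const_mul, ih] at h1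
    simp only [Complex.ofReal_zero, mul_zero, neg_zero, Complex.exp_zero] at h1
    rw [zero_pow (by omega), zero_mul, zero_div, neg_zero, sub_zero, sub_eq_zero] at h1
    rw [h1, Nat.factorial_succ]
    push_cast
    rw [pow_succ z (k + 1)]
    field_simp

theorem m1_finite (k : ℕ) {c : ℝ} (hc : 1 < c) : IsFiniteMeasure (m1 k c) := by
  constructor
  unfold m1
  rw [Measure.sum_apply _ MeasurableSet.univ]
  have h : ∀ n : ℕ, (ENNReal.ofReal (lam k n * (n : ℝ) ^ (-c)) •
      Measure.dirac (Real.log n) : Measure ℝ) univ = ENNReal.ofReal (lam k n * (n : ℝ) ^ (-c)) := by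
    intro n
    rw [Measure.smul_apply, measure_univ, smul_eq_mul, mul_one]
  simp only [h]
  exact (me_sum k hc).tsum_ofReal_lt_top

theorem m2_finite (k : ℕ) {c : ℝ} (hc : 1 < c) : IsFiniteMeasure (m2 k c) :=
  isFiniteMeasure_withDensity_ofReal (me_int k (by linarith)).2

theorem m3_finite {c δ : ℝ} (hc : 1 < c) (hδ : 0 < δ) : IsFiniteMeasure (m3 c δ) := by
  refine isFiniteMeasure_withDensity_ofReal ?_
  have h : IntegrableOn (fun u : ℝ => Real.exp (-(c * u)) / δ) (Ioc 0 δ) :=
    (Continuous.integrableOn_Icc (by fun_prop)).mono_set Ioc_subset_Icc_self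
  exact h.2

theorem m1_integral (k : ℕ) {c : ℝ} (hc : 1 < c) {h : ℝ → ℂ} (hm : Measurable h)
    (hb : ∃ C, ∀ v, ‖h v‖ ≤ C) :
    Summable (fun n : ℕ => ((lam k n * (n : ℝ) ^ (-c) : ℝ) : ℂ) * h (Real.log n)) ∧
    ∫ v, h v ∂(m1 k c) = ∑' n : ℕ, ((lam k n * (n : ℝ) ^ (-c) : ℝ) : ℂ) * h (Real.log n) := by
  have hfin := m1_finite k hc
  obtain ⟨C, hC⟩ := hb
  have hint : Integrable h (m1 k c) :=
    Integrable.of_bound hm.aestronglyMeasurable C (Eventually.of_forall hC)
  have hs := hasSum_integral_measure hint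
  have h1 : ∀ n : ℕ, ∫ v, h v ∂(ENNReal.ofReal (lam k n * (n : ℝ) ^ (-c)) •
      Measure.dirac (Real.log n)) = ((lam k n * (n : ℝ) ^ (-c) : ℝ) : ℂ) * h (Real.log n) := by
    intro n
    rw [integral_smul_measure, integral_dirac, ENNReal.toReal_ofReal (me_w0 k c n),
      Complex.real_smul]
  simp only [h1] at hs
  exact ⟨hs.summable, hs.tsum_eq.symm⟩

theorem m2_integral (k : ℕ) {c : ℝ} (h : ℝ → ℂ) :
    ∫ v, h v ∂(m2 k c) = ∫ v in Ioi (0 : ℝ),
      ((v ^ k * Real.exp (-((c - 1) * v)) : ℝ) : ℂ) * h v := by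
  unfold m2
  rw [integral_withDensity_eq_integral_toReal_smul (by fun_prop)
    (Eventually.of_forall fun v => ENNReal.ofReal_lt_top)]
  refine setIntegral_congr_fun measurableSet_Ioi fun v hv => ?_
  have hv' : 0 < v := hv
  beta_reduce
  rw [ENNReal.toReal_ofReal (by positivity), Complex.real_smul]

theorem m3_integral {c δ : ℝ} (hδ : 0 < δ) (h : ℝ → ℂ) :
    ∫ v, h v ∂(m3 c δ) = ((1 / δ : ℝ) : ℂ) * ∫ u in (0 : ℝ)..δ,
      ((Real.exp (-(c * u)) : ℝ) : ℂ) * h u := by
  unfold m3
  rw [integral_withDensity_eq_integral_toReal_smul (by fun_prop)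
    (Eventually.of_forall fun v => ENNReal.ofReal_lt_top),
    intervalIntegral.integral_of_le hδ.le, ← integral_const_mul]
  refine setIntegral_congr_fun measurableSet_Ioc fun v _ => ?_
  beta_reduce
  rw [ENNReal.toReal_ofReal (by positivity), Complex.real_smul]
  push_cast
  ring

theorem m12_fourier (k : ℕ) {c : ℝ} (hc : 1 < c) (E : ℝ) :
    (∫ v, Complex.exp (-(Complex.I * E * v)) ∂(m1 k c)) -
      (∫ v, Complex.exp (-(Complex.I * E * v)) ∂(m2 k c)) = Kk k (c + Complex.I * E) := by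
  have h1 : ∫ v, Complex.exp (-(Complex.I * E * v)) ∂(m1 k c) =
      LSeries (fun n => (lam k n : ℂ)) (c + Complex.I * E) := by
    rw [(m1_integral k hc (h := fun v : ℝ => Complex.exp (-(Complex.I * E * v)))
      (Continuous.measurable (by fun_prop)) ⟨1, fun v => ?_⟩).2]
    · unfold LSeries
      refine tsum_congr fun n => ?_
      rcases eq_or_ne n 0 with rfl | hn
      · rw [LSeries.term_zero, me_lam0]
        simp
      · rw [LSeries.term_of_ne_zero hn]
        have hn0 : (0 : ℝ) < n := by exact_mod_cast Nat.pos_of_ne_zero hn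
        have hnc : (n : ℂ) ≠ 0 := by exact_mod_cast hn
        have e1 : (n : ℂ) ^ ((c : ℂ) + Complex.I * E) =
            ((((n : ℝ) ^ c : ℝ)) : ℂ) * Complex.exp (Complex.I * E * Real.log n) := by
          rw [Complex.cpow_add _ _ hnc, Complex.ofReal_cpow hn0.le, Complex.ofReal_natCast]
          congr 1
          rw [Complex.cpow_def_of_ne_zero hnc, Complex.natCast_log, mul_comm]
        rw [e1, Real.rpow_neg hn0.le, Complex.exp_neg, Complex.ofReal_mul, Complex.ofReal_inv,
          div_eq_mul_inv, mul_inv, mul_assoc]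
    · rw [Complex.norm_exp]
      simp
  have h2 : ∫ v, Complex.exp (-(Complex.I * E * v)) ∂(m2 k c) =
      (k.factorial : ℂ) / (c + Complex.I * E - 1) ^ (k + 1) := by
    rw [m2_integral, ← me_gamma k (z := c + Complex.I * E - 1) (by
      simp
      linarith)]
    refine setIntegral_congr_fun measurableSet_Ioi fun v _ => ?_
    beta_reduce
    rw [Complex.ofReal_mul, Complex.ofReal_pow, Complex.ofReal_exp, mul_assoc, ← Complex.exp_add]
    congr 2
    push_cast
    ring
  rw [h1, h2]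
  rfl

theorem m3_fourier {c δ : ℝ} (hc : 1 < c) (hδ : 0 < δ) (E : ℝ) :
    ‖∫ v, Complex.exp (-(Complex.I * E * v)) ∂(m3 c δ)‖ ≤ 1 ∧
    δ * |E| * ‖∫ v, Complex.exp (-(Complex.I * E * v)) ∂(m3 c δ)‖ ≤ 2 := by
  rw [m3_integral hδ, norm_mul, Complex.norm_real, Real.norm_of_nonneg (by positivity)]
  have hn : ∀ u : ℝ, ‖Complex.exp (-(Complex.I * E * u))‖ = 1 := fun u => by
    rw [Complex.norm_exp]
    simp
  constructor
  · have h1 := intervalIntegral.norm_integral_le_of_norm_le_const (a := 0) (b := δ)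
      (f := fun u : ℝ => ((Real.exp (-(c * u)) : ℝ) : ℂ) * Complex.exp (-(Complex.I * E * u)))
      (C := 1) (fun u hu => by
        rw [uIoc_of_le hδ.le] at hu
        rw [norm_mul, hn, mul_one, Complex.norm_real, Real.norm_of_nonneg (Real.exp_pos _).le]
        exact Real.exp_le_one_iff.2 (by nlinarith [hu.1]))
    rw [sub_zero, abs_of_pos hδ, one_mul] at h1
    calc _ ≤ 1 / δ * δ := mul_le_mul_of_nonneg_left h1 (by positivity)
      _ = 1 := by field_simp
  · obtain ⟨z, hz⟩ : ∃ z : ℂ, z = c + Complex.I * E := ⟨_, rfl⟩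
    have hz0 : z ≠ 0 := by
      intro h
      have h1 := congrArg Complex.re h
      rw [hz] at h1
      simp at h1
      linarith
    have hzre : z.re = c := by
      rw [hz]
      simp
    have hzim : |E| ≤ ‖z‖ := by
      have h1 := Complex.abs_im_le_norm z
      rw [hz] at h1 ⊢
      simpa using h1
    have h1 : ∫ u in (0 : ℝ)..δ, ((Real.exp (-(c * u)) : ℝ) : ℂ) *
        Complex.exp (-(Complex.I * E * u)) = (1 - Complex.exp (-z * δ)) / z := by
      have h2 := integral_exp_mul_complex (a := 0) (b := δ) (neg_ne_zero.2 hz0)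
      have h3 : ∫ u in (0 : ℝ)..δ, ((Real.exp (-(c * u)) : ℝ) : ℂ) *
          Complex.exp (-(Complex.I * E * u)) = ∫ u in (0 : ℝ)..δ, Complex.exp (-z * u) := by
        refine intervalIntegral.integral_congr fun u _ => ?_
        beta_reduce
        rw [Complex.ofReal_exp, ← Complex.exp_add, hz]
        congr 1
        push_cast
        ring
      rw [h3, h2, Complex.ofReal_zero, mul_zero, Complex.exp_zero]
      rw [← neg_div_neg_eq]
      congr 1
      · ring
      · ring
    rw [h1, norm_div]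
    have h4 : ‖1 - Complex.exp (-z * δ)‖ ≤ 2 := by
      refine (norm_sub_le _ _).trans ?_
      have h5 : ‖Complex.exp (-z * δ)‖ ≤ 1 := by
        rw [Complex.norm_exp]
        refine Real.exp_le_one_iff.2 ?_
        have h6 : (-z * δ).re = -(c * δ) := by
          rw [Complex.re_mul_ofReal, Complex.neg_re, hzre]
          ring
        rw [h6]
        nlinarith
      rw [norm_one]
      linarith
    have hzn : 0 < ‖z‖ := norm_pos_iff.2 hz0
    calc δ * |E| * (1 / δ * (‖1 - Complex.exp (-z * δ)‖ / ‖z‖)) =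
          |E| / ‖z‖ * ‖1 - Complex.exp (-z * δ)‖ := by field_simp
      _ ≤ 1 * 2 := mul_le_mul ((div_le_one hzn).2 hzim) h4 (norm_nonneg _) zero_le_one
      _ = 2 := one_mul 2

end Pool.MSP
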