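import Pool.Agent.MSP.Defs

/-!
# MSP / Mnt: the main term

PROOF. `I(N) = ∫_1^∞ (log t)^k cutF F N (l t) dt = ∫_1^(N/l) (log t)^k F(l t) dt` (`N ≥ 2 ≥ l`; an interval integral). `Φ(T) = ∫_0^T F(l t) dt = (1/l) ∫_0^(lT) F`, `Φ(T)/T → 0`, `|Φ(T)| ≤ T`.
Integration by parts on `[1, N/l]`: `I = (log(N/l))^k Φ(N/l) - 0^k Φ(1) - ∫_1^(N/l) k (log t)^(k-1)/t Φ(t) dt` (for `k = 0` the last term is `0`; `intervalIntegral.integral_mul_deriv_eq_deriv_mul`). The first term is `o(N (log N)^k)`, the second is bounded, the third is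
`≤ k (log N)^(k-1) ∫_1^N |Φ(t)|/t dt ≤ k (log N)^(k-1) N` for `k ≥ 1`, and `(log N)^(k-1) = o((log N)^k)`.
`mnt_one`: `F = 1`: `I = ∫_1^(N/l) (log t)^k dt`; upper bound `(N/l)(log N)^k`; lower bound: for `0 < ε < 1`: `≥ (N/l)(1-ε) (log(εN/l))^k`, and `log(εN/l)/log N → 1`; so `I/(N (log N)^k) → 1/l`. (or integration by parts again with `Φ(T) = T`: `I = (log(N/l))^k N/l + O((log N)^(k-1) N)`.)
-/

set_option autoImplicit false

open MeasureTheory Filter Topology Set

namespace Pool.MSP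

private lemma mn_ii (k : ℕ) {a b : ℝ} (ha : 1 ≤ a) (hb : 1 ≤ b) :
    IntervalIntegrable (fun t : ℝ => Real.log t ^ k) volume a b := by
  refine ContinuousOn.intervalIntegrable ?_
  refine ContinuousOn.pow (ContinuousOn.log continuousOn_id fun x hx => ?_) k
  have : min a b ≤ x := hx.1
  have h1 : 1 ≤ min a b := le_min ha hb
  simp only [id]
  linarith

private lemma mn_upper (k : ℕ) {M : ℝ} (hM : 1 ≤ M) :
    ∫ t in (1 : ℝ)..M, Real.log t ^ k ≤ (M - 1) * Real.log M ^ k := by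
  have h := intervalIntegral.integral_mono_on (μ := volume) hM (mn_ii k le_rfl hM)
    (g := fun _ => Real.log M ^ k) intervalIntegrable_const (fun x hx => by
      have h0 : 0 ≤ Real.log x := Real.log_nonneg hx.1
      have h1 : Real.log x ≤ Real.log M := Real.log_le_log (by linarith [hx.1]) hx.2
      exact pow_le_pow_left₀ h0 h1 k)
  rw [intervalIntegral.integral_const, smul_eq_mul] at h
  exact h

private lemma mn_J (k : ℕ) :
    Tendsto (fun M : ℝ => (∫ t in (1 : ℝ)..M, Real.log t ^ k) / (M * Real.log M ^ k))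
      atTop (𝓝 1) := by
  have hL := Real.tendsto_log_atTop
  have h1 : Tendsto (fun M : ℝ => 1 / Real.log M) atTop (𝓝 0) := by
    simp only [one_div]
    exact tendsto_inv_atTop_zero.comp hL
  have h2 : Tendsto (fun M : ℝ => Real.log (Real.log M) / Real.log M) atTop (𝓝 0) :=
    (Real.isLittleO_log_id_atTop.tendsto_div_nhds_zero).comp hL
  have h3 : Tendsto (fun M : ℝ => (1 - 1 / Real.log M) *
      (1 - Real.log (Real.log M) / Real.log M) ^ k) atTop (𝓝 1) := by
    have := (tendsto_const_nhds (x := (1 : ℝ))).sub h1 |>.mul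
      (((tendsto_const_nhds (x := (1 : ℝ))).sub h2).pow k)
    simpa using this
  refine tendsto_of_tendsto_of_tendsto_of_le_of_le' h3 tendsto_const_nhds ?_ ?_
  · filter_upwards [eventually_ge_atTop (Real.exp 1)] with M hM
    have hM0 : 0 < M := (Real.exp_pos 1).trans_le hM
    have hL1 : 1 ≤ Real.log M := by
      rw [Real.le_log_iff_exp_le hM0]; exact hM
    have hL0 : 0 < Real.log M := by linarith
    have hLM : Real.log M ≤ M := Real.log_le_self hM0.le
    have hM1 : 1 ≤ M := hL1.trans hLM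
    obtain ⟨m, hm⟩ : ∃ m, m = M / Real.log M := ⟨_, rfl⟩
    have hm1 : 1 ≤ m := by rw [hm, le_div_iff₀ hL0]; linarith
    have hmM : m ≤ M := by rw [hm]; exact div_le_self hM0.le hL1
    have hlm : Real.log m = Real.log M - Real.log (Real.log M) := by
      rw [hm, Real.log_div hM0.ne' hL0.ne']
    have e := intervalIntegral.integral_add_adjacent_intervals (mn_ii k le_rfl hm1)
      (mn_ii k hm1 hM1)
    have p1 : 0 ≤ ∫ t in (1 : ℝ)..m, Real.log t ^ k :=
      intervalIntegral.integral_nonneg hm1 fun x hx => pow_nonneg (Real.log_nonneg hx.1) k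
    have hlm0 : 0 ≤ Real.log m := Real.log_nonneg hm1
    have p2 := intervalIntegral.integral_mono_on (μ := volume) hmM
      (f := fun _ => Real.log m ^ k) intervalIntegrable_const (mn_ii k hm1 hM1) (fun x hx => by
        have h1 : Real.log m ≤ Real.log x := Real.log_le_log (by linarith) hx.1
        exact pow_le_pow_left₀ hlm0 h1 k)
    rw [intervalIntegral.integral_const, smul_eq_mul] at p2
    have p3 : (M - m) * Real.log m ^ k ≤ ∫ t in (1 : ℝ)..M, Real.log t ^ k := by linarith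
    have hp : 0 < M * Real.log M ^ k := by positivity
    rw [le_div_iff₀ hp]
    refine le_trans (le_of_eq ?_) p3
    have e1 : M - m = M * (1 - 1 / Real.log M) := by rw [hm]; ring
    have e2 : Real.log m = (1 - Real.log (Real.log M) / Real.log M) * Real.log M := by
      rw [hlm]; field_simp
    rw [e1, e2, mul_pow]
    ring
  · filter_upwards [eventually_ge_atTop (Real.exp 1)] with M hM
    have hM0 : 0 < M := (Real.exp_pos 1).trans_le hM
    have hL1 : 1 ≤ Real.log M := by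
      rw [Real.le_log_iff_exp_le hM0]; exact hM
    have hL0 : 0 < Real.log M := by linarith
    have hLM : Real.log M ≤ M := Real.log_le_self hM0.le
    have hM1 : 1 ≤ M := hL1.trans hLM
    have hp : 0 < M * Real.log M ^ k := by positivity
    rw [div_le_one hp]
    have h4 := mn_upper k hM1
    have h5 : 0 ≤ Real.log M ^ k := by positivity
    linarith

/-- the integral as an interval integral -/
private lemma mn_cut (k : ℕ) (F : ℝ → ℂ) {l : ℝ} (hl : l ∈ Icc (1 : ℝ) 2) {N : ℕ} (hN : 2 ≤ N) :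
    (∫ t in Ioi (1 : ℝ), ((Real.log t ^ k : ℝ) : ℂ) * cutF F N (l * t)) =
      ∫ t in (1 : ℝ)..(N / l), ((Real.log t ^ k : ℝ) : ℂ) * F (l * t) := by
  have hl0 : 0 < l := by linarith [hl.1]
  have hN' : (2 : ℝ) ≤ N := by exact_mod_cast hN
  have h1 : (1 : ℝ) ≤ N / l := by rw [le_div_iff₀ hl0]; linarith [hl.2]
  rw [intervalIntegral.integral_of_le h1, ← Ioi_inter_Iic, ← setIntegral_indicator
    measurableSet_Iic]
  refine setIntegral_congr_fun measurableSet_Ioi fun t ht => ?_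
  have ht' : (1 : ℝ) < t := ht
  have hlt : 0 < l * t := by positivity
  unfold cutF
  by_cases h : t ≤ N / l
  · have h2 : l * t ≤ N := by
      rw [le_div_iff₀ hl0] at h; linarith
    rw [indicator_of_mem (show l * t ∈ Ioc (0 : ℝ) N from ⟨hlt, h2⟩),
      indicator_of_mem (show t ∈ Iic ((N : ℝ) / l) from h)]
  · have h2 : ¬ l * t ≤ N := by
      intro h3; apply h; rw [le_div_iff₀ hl0]; linarith
    rw [indicator_of_notMem (show l * t ∉ Ioc (0 : ℝ) N from fun h3 => h2 h3.2),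
      indicator_of_notMem (show t ∉ Iic ((N : ℝ) / l) from h), mul_zero]

private lemma mn_NL {l : ℝ} (hl : l ∈ Icc (1 : ℝ) 2) :
    Tendsto (fun N : ℕ => (N : ℝ) / l) atTop atTop := by
  have hl0 : 0 < l := by linarith [hl.1]
  exact tendsto_natCast_atTop_atTop.atTop_div_const hl0

private lemma mn_log {l : ℝ} (hl : l ∈ Icc (1 : ℝ) 2) :
    Tendsto (fun N : ℕ => Real.log ((N : ℝ) / l) / Real.log N) atTop (𝓝 1) := by
  have hl0 : 0 < l := by linarith [hl.1]
  have h1 : Tendsto (fun N : ℕ => Real.log l / Real.log (N : ℝ)) atTop (𝓝 0) :=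
    tendsto_const_nhds.div_atTop (Real.tendsto_log_atTop.comp tendsto_natCast_atTop_atTop)
  have h2 := (tendsto_const_nhds (x := (1 : ℝ)) (f := (atTop : Filter ℕ))).sub h1
  rw [sub_zero] at h2
  refine h2.congr' ?_
  filter_upwards [eventually_ge_atTop 2] with N hN
  have hN' : (2 : ℝ) ≤ N := by exact_mod_cast hN
  have hL : 0 < Real.log N := Real.log_pos (by linarith)
  rw [Real.log_div (by linarith) hl0.ne']
  field_simp

theorem mnt (k : ℕ) {F : ℝ → ℂ} (hF : Continuous F) (hb : ∀ t, ‖F t‖ ≤ 1)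
    (hm : Tendsto (fun T : ℝ => ((1 / T : ℝ) : ℂ) * ∫ t in (0 : ℝ)..T, F t) atTop (𝓝 0)) {l : ℝ}
    (hl : l ∈ Icc (1 : ℝ) 2) :
    Tendsto (fun N : ℕ => (∫ t in Ioi (1 : ℝ), ((Real.log t ^ k : ℝ) : ℂ) * cutF F N (l * t)) /
      ((N * Real.log N ^ k : ℝ) : ℂ)) atTop (𝓝 0) := by
  have hl0 : 0 < l := by linarith [hl.1]
  rw [tendsto_zero_iff_norm_tendsto_zero]
  have t1 : Tendsto (fun N : ℕ => ‖((1 / (N : ℝ) : ℝ) : ℂ) * ∫ t in (0 : ℝ)..N, F t‖)
      atTop (𝓝 0) := by
    have := (hm.comp tendsto_natCast_atTop_atTop).norm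
    rw [norm_zero] at this
    exact this
  have t2 : Tendsto (fun N : ℕ => ‖∫ t in (0 : ℝ)..l, F t‖ / (N : ℝ)) atTop (𝓝 0) :=
    tendsto_const_nhds.div_atTop tendsto_natCast_atTop_atTop
  have t3 : Tendsto (fun N : ℕ => 1 - (∫ t in (1 : ℝ)..(N / l), Real.log t ^ k) /
      ((N / l) * Real.log (N / l) ^ k)) atTop (𝓝 0) := by
    have := (tendsto_const_nhds (x := (1 : ℝ))).sub ((mn_J k).comp (mn_NL hl))
    rw [sub_self] at this
    exact this
  have t4 := (t1.add t2).add t3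
  rw [add_zero, add_zero] at t4
  refine squeeze_zero' (Eventually.of_forall fun N => norm_nonneg _) ?_ t4
  filter_upwards [eventually_ge_atTop 6] with N hN
  have hN' : (6 : ℝ) ≤ N := by exact_mod_cast hN
  rw [mn_cut k F hl (by omega)]
  obtain ⟨M, hM⟩ : ∃ M, M = (N : ℝ) / l := ⟨_, rfl⟩
  rw [← hM]
  have hM3 : 3 ≤ M := by rw [hM, le_div_iff₀ hl0]; linarith [hl.2]
  have hM1 : 1 ≤ M := by linarith
  have hM0 : 0 < M := by linarith
  have hMN : M ≤ N := by rw [hM]; exact div_le_self (by linarith) hl.1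
  have hLM : 0 < Real.log M := Real.log_pos (by linarith)
  have hLMN : Real.log M ≤ Real.log N := Real.log_le_log hM0 hMN
  have hp : 0 < M * Real.log M ^ k := by positivity
  have hpN : M * Real.log M ^ k ≤ N * Real.log N ^ k :=
    mul_le_mul hMN (pow_le_pow_left₀ hLM.le hLMN k) (by positivity) (by linarith)
  have hFl : Continuous (fun t : ℝ => F (l * t)) := hF.comp (continuous_const.mul continuous_id)
  have iF : IntervalIntegrable (fun t : ℝ => F (l * t)) volume 1 M := hFl.intervalIntegrable _ _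
  have iLF : IntervalIntegrable (fun t : ℝ => ((Real.log t ^ k : ℝ) : ℂ) * F (l * t))
      volume 1 M := by
    refine ContinuousOn.intervalIntegrable ?_
    refine ContinuousOn.mul ?_ hFl.continuousOn
    refine Complex.continuous_ofReal.comp_continuousOn ?_
    refine ContinuousOn.pow (ContinuousOn.log continuousOn_id fun x hx => ?_) k
    have h5 : min 1 M ≤ x := hx.1
    rw [min_eq_left hM1] at h5
    simp only [id]
    linarith
  have split : ∫ t in (1 : ℝ)..M, ((Real.log t ^ k : ℝ) : ℂ) * F (l * t) =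
      ((Real.log M ^ k : ℝ) : ℂ) * (∫ t in (1 : ℝ)..M, F (l * t)) -
        ∫ t in (1 : ℝ)..M, ((Real.log M ^ k - Real.log t ^ k : ℝ) : ℂ) * F (l * t) := by
    rw [← intervalIntegral.integral_const_mul, ← intervalIntegral.integral_sub]
    · refine intervalIntegral.integral_congr fun t _ => ?_
      push_cast
      ring
    · exact iF.const_mul _
    · have := (iF.const_mul ((Real.log M ^ k : ℝ) : ℂ)).sub iLF
      refine this.congr (fun t _ => ?_)
      push_cast
      ring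
  have b1 : ‖∫ t in (1 : ℝ)..M, ((Real.log M ^ k - Real.log t ^ k : ℝ) : ℂ) * F (l * t)‖ ≤
      M * Real.log M ^ k - ∫ t in (1 : ℝ)..M, Real.log t ^ k := by
    have h6 : ‖∫ t in (1 : ℝ)..M, ((Real.log M ^ k - Real.log t ^ k : ℝ) : ℂ) * F (l * t)‖ ≤
        ∫ t in (1 : ℝ)..M, (Real.log M ^ k - Real.log t ^ k) := by
      refine intervalIntegral.norm_integral_le_of_norm_le hM1 (ae_of_all _ fun t ht => ?_)
        (intervalIntegrable_const.sub (mn_ii k le_rfl hM1))
      have h7 : Real.log t ≤ Real.log M := Real.log_le_log (by linarith [ht.1]) ht.2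
      have h8 : 0 ≤ Real.log t := Real.log_nonneg ht.1.le
      have h9 : 0 ≤ Real.log M ^ k - Real.log t ^ k :=
        sub_nonneg.2 (pow_le_pow_left₀ h8 h7 k)
      rw [norm_mul, Complex.norm_real, Real.norm_eq_abs, abs_of_nonneg h9]
      calc (Real.log M ^ k - Real.log t ^ k) * ‖F (l * t)‖
          ≤ (Real.log M ^ k - Real.log t ^ k) * 1 := mul_le_mul_of_nonneg_left (hb _) h9
        _ = _ := mul_one _
    rw [intervalIntegral.integral_sub intervalIntegrable_const (mn_ii k le_rfl hM1),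
      intervalIntegral.integral_const, smul_eq_mul] at h6
    have h10 : 0 ≤ Real.log M ^ k := by positivity
    linarith
  have b2 : ‖∫ t in (1 : ℝ)..M, F (l * t)‖ ≤
      M * (‖((1 / (N : ℝ) : ℝ) : ℂ) * ∫ t in (0 : ℝ)..N, F t‖ +
        ‖∫ t in (0 : ℝ)..l, F t‖ / (N : ℝ)) := by
    rw [intervalIntegral.integral_comp_mul_left (fun t => F t) hl0.ne']
    have e1 : l * M = N := by rw [hM]; field_simp
    rw [e1, mul_one]
    have e2 := intervalIntegral.integral_add_adjacent_intervals (μ := volume)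
      (hF.intervalIntegrable 0 l) (hF.intervalIntegrable l (N : ℝ))
    have e3 : ∫ t in l..(N : ℝ), F t = (∫ t in (0 : ℝ)..N, F t) - ∫ t in (0 : ℝ)..l, F t := by
      rw [← e2]; ring
    rw [e3, norm_smul, norm_mul, Complex.norm_real]
    have h11 : ‖l⁻¹‖ = l⁻¹ := by rw [Real.norm_eq_abs, abs_of_pos (by positivity)]
    have h12 : ‖(1 / (N : ℝ) : ℝ)‖ = 1 / N := by
      rw [Real.norm_eq_abs, abs_of_pos (by positivity)]
    rw [h11, h12]
    have h13 := norm_sub_le (∫ t in (0 : ℝ)..N, F t) (∫ t in (0 : ℝ)..l, F t)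
    calc l⁻¹ * ‖(∫ t in (0 : ℝ)..N, F t) - ∫ t in (0 : ℝ)..l, F t‖
        ≤ l⁻¹ * (‖∫ t in (0 : ℝ)..N, F t‖ + ‖∫ t in (0 : ℝ)..l, F t‖) :=
          mul_le_mul_of_nonneg_left h13 (by positivity)
      _ = _ := by rw [hM]; field_simp
  have b3 : ‖∫ t in (1 : ℝ)..M, ((Real.log t ^ k : ℝ) : ℂ) * F (l * t)‖ ≤
      Real.log M ^ k * (M * (‖((1 / (N : ℝ) : ℝ) : ℂ) * ∫ t in (0 : ℝ)..N, F t‖ +
        ‖∫ t in (0 : ℝ)..l, F t‖ / (N : ℝ))) +
        (M * Real.log M ^ k - ∫ t in (1 : ℝ)..M, Real.log t ^ k) := by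
    rw [split]
    refine (norm_sub_le _ _).trans (add_le_add ?_ b1)
    rw [norm_mul, Complex.norm_real, Real.norm_eq_abs, abs_of_nonneg (by positivity)]
    exact mul_le_mul_of_nonneg_left b2 (by positivity)
  rw [norm_div, Complex.norm_real, Real.norm_eq_abs, abs_of_pos (hp.trans_le hpN)]
  have b4 : ‖∫ t in (1 : ℝ)..M, ((Real.log t ^ k : ℝ) : ℂ) * F (l * t)‖ /
      (N * Real.log N ^ k) ≤ ‖∫ t in (1 : ℝ)..M, ((Real.log t ^ k : ℝ) : ℂ) * F (l * t)‖ /
      (M * Real.log M ^ k) := div_le_div_of_nonneg_left (norm_nonneg _) hp hpN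
  refine b4.trans ?_
  rw [div_le_iff₀ hp]
  refine b3.trans (le_of_eq ?_)
  field_simp

theorem mnt_one (k : ℕ) {l : ℝ} (hl : l ∈ Icc (1 : ℝ) 2) :
    Tendsto (fun N : ℕ => (∫ t in Ioi (1 : ℝ), ((Real.log t ^ k : ℝ) : ℂ) *
      cutF (fun _ => 1) N (l * t)) / ((N * Real.log N ^ k : ℝ) : ℂ)) atTop (𝓝 (1 / l)) := by
  have hl0 : 0 < l := by linarith [hl.1]
  have h1 := ((mn_J k).comp (mn_NL hl)).mul ((mn_log hl).pow k)
  have h2 := h1.mul_const (1 / l)
  rw [one_pow, mul_one, one_mul] at h2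
  have h3 : Tendsto (fun N : ℕ => ((((fun M : ℝ => (∫ t in (1 : ℝ)..M, Real.log t ^ k) /
      (M * Real.log M ^ k)) ∘ fun N : ℕ => (N : ℝ) / l) N *
      (Real.log ((N : ℝ) / l) / Real.log N) ^ k * (1 / l) : ℝ) : ℂ)) atTop
      (𝓝 ((1 / l : ℝ) : ℂ)) := (Complex.continuous_ofReal.tendsto _).comp h2
  have e0 : ((1 / l : ℝ) : ℂ) = 1 / (l : ℂ) := by push_cast; rfl
  rw [e0] at h3
  refine h3.congr' ?_
  filter_upwards [eventually_ge_atTop 6] with N hN
  have hN' : (6 : ℝ) ≤ N := by exact_mod_cast hN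
  rw [mn_cut k _ hl (by omega)]
  simp only [mul_one, Function.comp_apply]
  rw [intervalIntegral.integral_ofReal, ← Complex.ofReal_div]
  congr 1
  have hM1 : 1 < (N : ℝ) / l := by rw [lt_div_iff₀ hl0]; linarith [hl.2]
  have hLM : 0 < Real.log ((N : ℝ) / l) := Real.log_pos hM1
  have hLN : 0 < Real.log (N : ℝ) := Real.log_pos (by linarith)
  rw [div_pow]
  field_simp

end Pool.MSP
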