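import Pool.Agent.MSP.Defs

/-!
# MSP / Nzl: logarithmic derivatives of functions without zeros

PROOF. Common part. `f` has no zeros on the ball `B = ball s₀ R`, so there is a differentiable `h` on `B` with `h s₀ = 0`, `h' = f'/f` on `B` (`DifferentiableOn.isExactOn_ball` for `deriv f / f`, `IsExactOn.with_val_at`), and `f = f(s₀) exp h` on `B`
(the derivative of `f exp(-h)` is zero on the connected `B`). So `Re h = log(‖f‖/‖f s₀‖) ≤ M` and Borel-Caratheodory (`Complex.borelCaratheodory_zero`, translated to the centre `s₀`): `‖h s‖ ≤ 2 M |s - s₀|/(R - |s - s₀|)`.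
`logderiv_nz`: `f'/f (s₀) = h'(s₀)`; `‖h(s)‖/|s-s₀| ≤ 2M/(R - |s-s₀|)`, let `s → s₀` (slope of `h` at `s₀`).
`logderiv_iter`: let `η > 0`, `|s₁ - s₀| + η ≤ R`. For `|s - s₁| ≤ η/2`: `R - |s - s₀| ≥ η/2`, so `‖h s‖ ≤ 2MR/(η/2) = 4MR/η`. On the neighbourhood `B` of `s₁`: `iteratedDeriv k (f'/f) s₁ = iteratedDeriv (k+1) h s₁` (`iteratedDeriv_succ'` and equality near `s₁`),
Cauchy's estimate (`Complex.norm_iteratedDeriv_le_of_forall_mem_sphere_norm_le`) on the circle of radius `η/2`: `≤ (k+1)! (4MR/η)/(η/2)^(k+1)`.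
-/

set_option autoImplicit false

open MeasureTheory Filter Topology Set Metric

namespace Pool.MSP

private theorem nz_log {f : ℂ → ℂ} {s₀ : ℂ} {R M : ℝ} (hR : 0 < R) (hM : 0 < M)
    (hf : DifferentiableOn ℂ f (ball s₀ R)) (h0 : ∀ s ∈ ball s₀ R, f s ≠ 0)
    (hb : ∀ s ∈ ball s₀ R, ‖f s‖ ≤ Real.exp M * ‖f s₀‖) :
    ∃ h : ℂ → ℂ, h s₀ = 0 ∧ (∀ s ∈ ball s₀ R, HasDerivAt h (deriv f s / f s) s) ∧
      ∀ s ∈ ball s₀ R, ‖h s‖ ≤ 2 * M * dist s s₀ / (R - dist s s₀) := by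
  have hs₀ : s₀ ∈ ball s₀ R := mem_ball_self hR
  have hd : DifferentiableOn ℂ (fun s => deriv f s / f s) (ball s₀ R) :=
    (hf.deriv isOpen_ball).div hf h0
  obtain ⟨h, hh0, hh⟩ := (hd.isExactOn_ball).with_val_at s₀ 0
  have hfd : ∀ s ∈ ball s₀ R, HasDerivAt f (deriv f s) s := fun s hs =>
    (hf.differentiableAt (isOpen_ball.mem_nhds hs)).hasDerivAt
  have hk : ∀ s ∈ ball s₀ R, HasDerivAt (fun s => f s * Complex.exp (-h s)) 0 s := by
    intro s hs
    have h1 := (hfd s hs).mul ((hh s hs).neg.cexp)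
    have h2 : deriv f s * Complex.exp (-h s) + f s * (Complex.exp (-h s) * -(deriv f s / f s)) =
        0 := by
      field_simp [h0 s hs]
      ring
    have h3 : HasDerivAt (fun s => f s * Complex.exp (-h s))
        (deriv f s * Complex.exp (-h s) + f s * (Complex.exp (-h s) * -(deriv f s / f s))) s := h1
    rwa [h2] at h3
  have hconst : ∀ s ∈ ball s₀ R, f s * Complex.exp (-h s) = f s₀ * Complex.exp (-h s₀) := by
    intro s hs
    exact isOpen_ball.is_const_of_deriv_eq_zero (convex_ball s₀ R).isPreconnected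
      (fun t ht => (hk t ht).differentiableAt.differentiableWithinAt)
      (fun t ht => (hk t ht).deriv) hs hs₀
  have hre : ∀ s ∈ ball s₀ R, (h s).re ≤ M := by
    intro s hs
    have h1 := hconst s hs
    rw [hh0, neg_zero, Complex.exp_zero, mul_one] at h1
    have h2 : ‖f s‖ * Real.exp (-(h s).re) = ‖f s₀‖ := by
      rw [← h1, norm_mul, Complex.norm_exp, Complex.neg_re]
    have h3 : ‖f s‖ = ‖f s₀‖ * Real.exp ((h s).re) := by
      rw [← h2, mul_assoc, ← Real.exp_add, neg_add_cancel, Real.exp_zero, mul_one]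
    have h4 := hb s hs
    rw [h3, mul_comm (Real.exp M)] at h4
    have h5 : 0 < ‖f s₀‖ := norm_pos_iff.2 (h0 s₀ hs₀)
    exact Real.exp_le_exp.1 (le_of_mul_le_mul_left h4 h5)
  refine ⟨h, hh0, hh, fun s hs => ?_⟩
  have hmaps : ∀ z ∈ ball (0 : ℂ) R, s₀ + z ∈ ball s₀ R := by
    intro z hz
    rw [mem_ball_iff_norm] at hz ⊢
    simpa using hz
  have h1 : DifferentiableOn ℂ (fun z => h (s₀ + z)) (ball 0 R) := by
    intro z hz
    have h2 := (hh _ (hmaps z hz)).comp_const_add s₀ z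
    exact h2.differentiableAt.differentiableWithinAt
  have hz : s - s₀ ∈ ball (0 : ℂ) R := by
    rw [mem_ball_iff_norm] at hs ⊢
    simpa using hs
  have h3 := Complex.borelCaratheodory_zero (f := fun z => h (s₀ + z)) hM h1
    (fun z hz => hre _ (hmaps z hz)) hR hz (by simpa using hh0)
  have h4 : s₀ + (s - s₀) = s := by ring
  rw [dist_eq_norm]
  simpa only [h4] using h3

theorem logderiv_nz {f : ℂ → ℂ} {s₀ : ℂ} {R M : ℝ} (hR : 0 < R) (hM : 0 < M)
    (hf : DifferentiableOn ℂ f (ball s₀ R)) (h0 : ∀ s ∈ ball s₀ R, f s ≠ 0)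
    (hb : ∀ s ∈ ball s₀ R, ‖f s‖ ≤ Real.exp M * ‖f s₀‖) :
    ‖deriv f s₀ / f s₀‖ ≤ 2 * M / R := by
  obtain ⟨h, hh0, hh, hhb⟩ := nz_log hR hM hf h0 hb
  have hs₀ : s₀ ∈ ball s₀ R := mem_ball_self hR
  have h1 : Tendsto (fun s => ‖slope h s₀ s‖) (𝓝[≠] s₀) (𝓝 ‖deriv f s₀ / f s₀‖) :=
    ((hasDerivAt_iff_tendsto_slope.1 (hh s₀ hs₀))).norm
  have h2 : Tendsto (fun s => 2 * M / (R - dist s s₀)) (𝓝[≠] s₀) (𝓝 (2 * M / (R - 0))) := by
    refine Tendsto.div tendsto_const_nhds (tendsto_const_nhds.sub ?_) (by simpa using hR.ne')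
    have h3 : Tendsto (fun s => dist s s₀) (𝓝 s₀) (𝓝 (dist s₀ s₀)) :=
      (continuous_id.dist continuous_const).tendsto s₀
    rw [dist_self] at h3
    exact h3.mono_left nhdsWithin_le_nhds
  rw [sub_zero] at h2
  refine le_of_tendsto_of_tendsto h1 h2 ?_
  filter_upwards [nhdsWithin_le_nhds (isOpen_ball.mem_nhds hs₀), self_mem_nhdsWithin] with s hs hne
  have hpos : 0 < dist s s₀ := dist_pos.2 hne
  have hlt : dist s s₀ < R := hs
  rw [slope_def_field, hh0, sub_zero, norm_div, ← dist_eq_norm, div_le_iff₀ hpos]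
  calc ‖h s‖ ≤ 2 * M * dist s s₀ / (R - dist s s₀) := hhb s hs
    _ = 2 * M / (R - dist s s₀) * dist s s₀ := by ring

theorem logderiv_iter {f : ℂ → ℂ} {s₀ s₁ : ℂ} {R M η : ℝ} (hη : 0 < η) (hM : 0 < M)
    (hf : DifferentiableOn ℂ f (ball s₀ R)) (h0 : ∀ s ∈ ball s₀ R, f s ≠ 0)
    (hb : ∀ s ∈ ball s₀ R, ‖f s‖ ≤ Real.exp M * ‖f s₀‖) (h1 : dist s₁ s₀ + η ≤ R) (k : ℕ) :
    ‖iteratedDeriv k (fun s => deriv f s / f s) s₁‖ ≤
      (k + 1).factorial * (4 * M * R / η) * (2 / η) ^ (k + 1) := by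
  have hR : 0 < R := by
    have := dist_nonneg (x := s₁) (y := s₀)
    linarith
  obtain ⟨h, hh0, hh, hhb⟩ := nz_log hR hM hf h0 hb
  have hs₁ : s₁ ∈ ball s₀ R := by
    rw [mem_ball]
    linarith
  have hsub : closedBall s₁ (η / 2) ⊆ ball s₀ R := by
    intro s hs
    rw [mem_closedBall] at hs
    rw [mem_ball]
    have := dist_triangle s s₁ s₀
    linarith
  have h2 : iteratedDeriv k (fun s => deriv f s / f s) s₁ = iteratedDeriv (k + 1) h s₁ := by
    rw [iteratedDeriv_succ']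
    have h3 : deriv h =ᶠ[𝓝 s₁] fun s => deriv f s / f s := by
      filter_upwards [isOpen_ball.mem_nhds hs₁] with s hs
      exact (hh s hs).deriv
    exact (h3.iteratedDeriv_eq k).symm
  have h4 : ∀ z ∈ sphere s₁ (η / 2), ‖h z‖ ≤ 4 * M * R / η := by
    intro z hz
    have hz' : dist z s₁ = η / 2 := hz
    have hzb : z ∈ ball s₀ R := hsub (sphere_subset_closedBall hz)
    have h5 : dist z s₀ ≤ R := (mem_ball.1 hzb).le
    have h6 := dist_triangle z s₁ s₀
    have h7 : η / 2 ≤ R - dist z s₀ := by linarith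
    calc ‖h z‖ ≤ 2 * M * dist z s₀ / (R - dist z s₀) := hhb z hzb
      _ ≤ 2 * M * R / (η / 2) := by
          gcongr
      _ = 4 * M * R / η := by
          field_simp
          ring
  have h5 : DiffContOnCl ℂ h (ball s₁ (η / 2)) := by
    have h6 : DifferentiableOn ℂ h (closedBall s₁ (η / 2)) := fun s hs =>
      (hh s (hsub hs)).differentiableAt.differentiableWithinAt
    exact h6.diffContOnCl_ball subset_rfl
  rw [h2]
  refine (Complex.norm_iteratedDeriv_le_of_forall_mem_sphere_norm_le (k + 1) (half_pos hη) h5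
    h4).trans (le_of_eq ?_)
  rw [div_pow, div_pow, div_div_eq_mul_div]
  field_simp

end Pool.MSP
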