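import Pool.Agent.MSP.Bcl
import Pool.Agent.MSP.Mnt
import Pool.Agent.Helper6.PNT

/-!
# MSP / Pnt: the prime number theorem

PROOF. `bcl` with `k = 30`, `F = 1` gives an `l ∈ [1,2]` (the set `[1,2]` has positive measure) with `Dk/(N_j (log N_j)^k) → 0`; with `mnt_one` (along `N_j`): `B_j/(N_j (log N_j)^k) → 1/l`, `B_j = ∑_{n ≤ N_j} lam k n cutF 1 N_j (l n) = ∑_{n ≤ y_j} Λ(n) (log n)^k`, `y_j = N_j/l`. So
`B_j/(y_j (log y_j)^k) → 1` (`log y_j/log N_j → 1`).
Lower bound: `B_j ≤ (log y_j)^k ψ(y_j)`: `liminf ψ(y_j)/y_j ≥ 1`. Upper bound: for `0 < ε < 1`: `B_j ≥ (log(ε y_j))^k (ψ(y_j) - ψ(ε y_j))`, `ψ(ε y_j) ≤ C ε y_j` (`Chebyshev.psi_le_const_mul_self`), so `limsup ψ(y_j)/y_j ≤ 1 + C ε`. Hence `ψ(y_j)/y_j → 1`.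
`y_(j+1)/y_j → 1` (`Nj_ratio`) and monotonicity of `ψ`: for `y_j ≤ x ≤ y_(j+1)`: `ψ(y_j)/y_(j+1) ≤ ψ(x)/x ≤ ψ(y_(j+1))/y_j`.
`psi_short`: if `x_i ≤ x'_i`, `x_i → ∞`, `x'_i/x_i → 1` then `(ψ(x'_i) - ψ(x_i))/x_i → 0`.
-/

set_option autoImplicit false

open MeasureTheory Filter Topology Set

namespace Pool.MSP

private lemma pn_theta : Tendsto (fun x : ℝ => Chebyshev.theta x / x) atTop (𝓝 1) := by
  have h := Pool.Agent.Helper6.theta_ap (q := 1) (a := 1) isUnit_one
  simp only [Nat.totient_one, Nat.cast_one, div_one] at h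
  refine h.congr fun x => ?_
  congr 1
  rw [Chebyshev.theta]
  refine Finset.sum_congr ?_ fun _ _ => rfl
  ext p
  simp only [Finset.mem_filter, Finset.mem_Icc, Finset.mem_Ioc]
  constructor
  · rintro ⟨⟨h1, h2⟩, h3, _⟩
    exact ⟨⟨by omega, h2⟩, h3⟩
  · rintro ⟨⟨h1, h2⟩, h3⟩
    exact ⟨⟨by omega, h2⟩, h3, Subsingleton.elim _ _⟩

/-- The prime number theorem (here from the Wiener-Ikehara theorem of the library). -/
theorem pnt : Tendsto (fun x : ℝ => Chebyshev.psi x / x) atTop (𝓝 1) := by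
  have h3 := Chebyshev.isBigO_psi_sub_theta_sqrt
  have h4 : (fun x : ℝ => Real.sqrt x) =o[atTop] (fun x : ℝ => x) := by
    rw [Asymptotics.isLittleO_iff_tendsto' (by
      filter_upwards [eventually_gt_atTop 0] with x hx h; exact absurd h hx.ne')]
    have h5 : Tendsto (fun x : ℝ => (Real.sqrt x)⁻¹) atTop (𝓝 0) :=
      tendsto_inv_atTop_zero.comp Real.tendsto_sqrt_atTop
    refine h5.congr' ?_
    filter_upwards [eventually_gt_atTop 0] with x hx
    rw [Real.sqrt_div_self']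
    simp
  have h6 := (h3.trans_isLittleO h4).tendsto_div_nhds_zero
  have h7 := h6.add pn_theta
  rw [zero_add] at h7
  refine h7.congr fun x => ?_
  simp only [Pi.sub_apply]
  ring

theorem psi_short {ι : Type*} {L : Filter ι} {x x' : ι → ℝ} (hx : Tendsto x L atTop)
    (h : Tendsto (fun i => x' i / x i) L (𝓝 1)) :
    Tendsto (fun i => (Chebyshev.psi (x' i) - Chebyshev.psi (x i)) / x i) L (𝓝 0) := by
  have h0 : ∀ᶠ i in L, 0 < x i := hx.eventually (eventually_gt_atTop 0)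
  have h1 : ∀ᶠ i in L, 1 / 2 < x' i / x i := h.eventually (lt_mem_nhds (by norm_num))
  have hx' : Tendsto x' L atTop := by
    have h2 : Tendsto (fun i => x i / 2) L atTop := hx.atTop_div_const (by norm_num)
    refine tendsto_atTop_mono' L ?_ h2
    filter_upwards [h0, h1] with i hi hi'
    rw [lt_div_iff₀ hi] at hi'
    linarith
  have e1 : Tendsto (fun i => Chebyshev.psi (x' i) / x' i * (x' i / x i)) L (𝓝 1) := by
    have := (pnt.comp hx').mul h
    rw [one_mul] at this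
    exact this
  have e2 := e1.sub (pnt.comp hx)
  rw [sub_self] at e2
  refine e2.congr' ?_
  filter_upwards [h0, h1] with i hi hi'
  have h3 : 0 < x' i := by
    rw [lt_div_iff₀ hi] at hi'
    linarith
  simp only [Function.comp_apply]
  field_simp

end Pool.MSP
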