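import Pool.Agent.MSP.Pnt

/-!
# MSP / Prm: from the weights `Λ(n)` to the average over the primes

PROOF. `pnt` and `Chebyshev.psi_sub_theta_le`: `θ(x)/x → 1`. For `0 < ε < 1`: `π(x) ≤ x^(1-ε) + θ(x)/((1-ε) log x)` and `π(x) log x ≥ θ(x)`; so `π(x) log x/x → 1` (`Nat.primeCounting ⌊x⌋₊`; the file `Mathlib/NumberTheory/Chebyshev.lean` has related lemmas).
Let `N ≥ 1`, `x = p_(N-1) = Nat.nth Nat.Prime (N-1)`: `∑_{i < N} b(p_i) = ∑_{p ≤ x} b(p)`, `N = π(x)` (`Nat.primeCounting`, `Nat.count_nth`, `Nat.nth_count`; bijection between `range N` and the primes `≤ x`).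
`‖∑_{p ≤ x} b(p) - (1/log x) ∑_{p ≤ x} log p b(p)‖ ≤ π(x) - θ(x)/log x = o(π(x))`, `‖∑_{p ≤ x} log p b(p) - ∑_{n ≤ x} Λ(n) b(n)‖ ≤ ψ(x) - θ(x) = o(x)`, and `∑_{n ≤ x} Λ(n) b(n) = o(x)`; `x/log x ≤ 2 π(x)` for large `x`. `x → ∞` as `N → ∞`.
-/

set_option autoImplicit false

open MeasureTheory Filter Topology Set

namespace Pool.MSP

private theorem theta_div :
    Tendsto (fun x : ℝ => Chebyshev.theta x / x) atTop (𝓝 1) := by
  obtain ⟨C, hC⟩ := Chebyshev.psi_sub_theta_le_mul_sqrt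
  have h2 : Tendsto (fun x : ℝ => (Chebyshev.psi x - Chebyshev.theta x) / x) atTop (𝓝 0) := by
    have h3 : Tendsto (fun x : ℝ => C * (√x)⁻¹) atTop (𝓝 0) := by
      have := (Real.tendsto_sqrt_atTop.inv_tendsto_atTop).const_mul C
      rwa [mul_zero] at this
    refine tendsto_of_tendsto_of_tendsto_of_le_of_le' tendsto_const_nhds h3 ?_ ?_
    · filter_upwards [eventually_gt_atTop 0] with x hx
      have := Chebyshev.theta_le_psi x
      exact div_nonneg (by linarith) hx.le
    · filter_upwards [eventually_gt_atTop 0] with x hx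
      have h4 := hC x
      rw [div_le_iff₀ hx]
      refine h4.trans (le_of_eq ?_)
      have h5 : (√x)⁻¹ * x = √x := by
        have h6 := Real.mul_self_sqrt hx.le
        have h7 : √x ≠ 0 := (Real.sqrt_pos.2 hx).ne'
        rw [← h6]
        rw [Real.sqrt_mul_self (Real.sqrt_nonneg x)]
        field_simp
      rw [mul_assoc, h5]
  have h3 := pnt.sub h2
  rw [sub_zero] at h3
  refine h3.congr fun x => ?_
  ring

private theorem pi_div : Tendsto (fun x : ℝ => (Nat.primeCounting ⌊x⌋₊ : ℝ) * Real.log x / x)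
    atTop (𝓝 1) := by
  have h1 := Chebyshev.primeCounting_sub_theta_div_log_isBigO
  have h2 : (fun x : ℝ => ((Nat.primeCounting ⌊x⌋₊ : ℝ) - Chebyshev.theta x / Real.log x) *
      (Real.log x / x)) =O[atTop] (fun x : ℝ => (x / Real.log x ^ 2) * (Real.log x / x)) :=
    h1.mul (Asymptotics.isBigO_refl _ _)
  have h3 : Tendsto (fun x : ℝ => (x / Real.log x ^ 2) * (Real.log x / x)) atTop (𝓝 0) := by
    refine (Real.tendsto_log_atTop.inv_tendsto_atTop).congr' ?_
    filter_upwards [eventually_gt_atTop 1] with x hx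
    have hl : Real.log x ≠ 0 := (Real.log_pos hx).ne'
    have hx0 : x ≠ 0 := by linarith
    simp only [Pi.inv_apply]
    field_simp
  have h4 := h2.trans_tendsto h3
  have h5 := theta_div.add h4
  rw [add_zero] at h5
  refine h5.congr' ?_
  filter_upwards [eventually_gt_atTop 1] with x hx
  have hl : Real.log x ≠ 0 := (Real.log_pos hx).ne'
  have hx0 : x ≠ 0 := by linarith
  field_simp
  ring

private theorem sum_nth (b : ℕ → ℂ) (N : ℕ) :
    ∑ i ∈ Finset.range N, b (Nat.nth Nat.Prime i) =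
      ∑ p ∈ Nat.primesBelow (Nat.nth Nat.Prime N), b p := by
  induction N with
  | zero =>
    rw [Nat.nth_prime_zero_eq_two, Nat.primesBelow_two]
    simp
  | succ N ih =>
    have h1 : Nat.primesBelow (Nat.nth Nat.Prime (N + 1)) =
        insert (Nat.nth Nat.Prime N) (Nat.primesBelow (Nat.nth Nat.Prime N)) :=
      Nat.filter_range_nth_eq_insert_of_infinite Nat.infinite_setOfPred_prime N
    rw [h1, Finset.sum_insert (Nat.notMem_primesBelow _), Finset.sum_range_succ, ih, add_comm]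

private theorem main_bound {b : ℕ → ℂ} (hb : ∀ n, ‖b n‖ ≤ 1) {m : ℕ} (hm : 2 ≤ m) :
    ‖∑ p ∈ Nat.primesLE m, b p‖ * Real.log m ≤
      ‖∑ n ∈ Finset.Icc 1 m, ((ArithmeticFunction.vonMangoldt n : ℝ) : ℂ) * b n‖ +
        (Chebyshev.psi m - Chebyshev.theta m) +
        ((Nat.primeCounting m : ℝ) * Real.log m - Chebyshev.theta m) := by
  have hm1 : (1 : ℝ) ≤ m := by exact_mod_cast (by omega : 1 ≤ m)
  have hlog : 0 ≤ Real.log m := Real.log_nonneg hm1
  obtain ⟨S, hS⟩ : ∃ S, S = ∑ p ∈ Nat.primesLE m, b p := ⟨_, rfl⟩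
  obtain ⟨T, hT⟩ : ∃ T, T = ∑ p ∈ Nat.primesLE m, ((Real.log p : ℝ) : ℂ) * b p := ⟨_, rfl⟩
  obtain ⟨U, hU⟩ : ∃ U, U = ∑ n ∈ Finset.Icc 1 m,
    ((ArithmeticFunction.vonMangoldt n : ℝ) : ℂ) * b n := ⟨_, rfl⟩
  rw [← hS, ← hU]
  have h1 : ‖((Real.log m : ℝ) : ℂ) * S - T‖ ≤
      (Nat.primeCounting m : ℝ) * Real.log m - Chebyshev.theta m := by
    rw [hS, hT, Finset.mul_sum, ← Finset.sum_sub_distrib, Chebyshev.theta_eq_sum_primesLE_log,
      ← Nat.primesLE_card_eq_primeCounting, ← nsmul_eq_mul, ← Finset.sum_const,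
      ← Finset.sum_sub_distrib]
    refine norm_sum_le_of_le _ fun p hp => ?_
    rw [← sub_mul, ← Complex.ofReal_sub, norm_mul, Complex.norm_real, Real.norm_eq_abs]
    have hp1 : 0 < (p : ℝ) := by exact_mod_cast (Nat.prime_of_mem_primesLE hp).pos
    have hp2 : (p : ℝ) ≤ m := by exact_mod_cast Nat.le_of_mem_primesLE hp
    have h2 : 0 ≤ Real.log m - Real.log p := sub_nonneg.2 (Real.log_le_log hp1 hp2)
    rw [abs_of_nonneg h2]
    exact mul_le_of_le_one_right h2 (hb p)
  have h2 : ‖U - T‖ ≤ Chebyshev.psi m - Chebyshev.theta m := by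
    have h3 : U = T + ∑ n ∈ (Finset.Ioc 0 m).filter (fun n => ¬ n.Prime),
        ((ArithmeticFunction.vonMangoldt n : ℝ) : ℂ) * b n := by
      rw [hU, hT]
      have h4 : Finset.Icc 1 m = Finset.Ioc 0 m := rfl
      rw [h4, ← Finset.sum_filter_add_sum_filter_not (Finset.Ioc 0 m) (fun n => n.Prime),
        ← Nat.primesLE_eq_filter_Ioc_zero]
      congr 1
      refine Finset.sum_congr rfl fun p hp => ?_
      rw [ArithmeticFunction.vonMangoldt_apply_prime (Nat.prime_of_mem_primesLE hp)]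
    rw [h3, add_sub_cancel_left, Chebyshev.psi_sub_theta_eq_sum_not_prime, Nat.floor_natCast]
    refine norm_sum_le_of_le _ fun n _ => ?_
    rw [norm_mul, Complex.norm_real, Real.norm_eq_abs,
      abs_of_nonneg ArithmeticFunction.vonMangoldt_nonneg]
    exact mul_le_of_le_one_right ArithmeticFunction.vonMangoldt_nonneg (hb n)
  have h3 : ‖S‖ * Real.log m = ‖((Real.log m : ℝ) : ℂ) * S‖ := by
    rw [norm_mul, Complex.norm_real, Real.norm_eq_abs, abs_of_nonneg hlog, mul_comm]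
  rw [h3]
  have h4 : ((Real.log m : ℝ) : ℂ) * S = U - (U - T) + (((Real.log m : ℝ) : ℂ) * S - T) := by ring
  rw [h4]
  refine (norm_add_le _ _).trans ?_
  have h5 := norm_sub_le U (U - T)
  linarith

theorem prm {b : ℕ → ℂ} (hb : ∀ n, ‖b n‖ ≤ 1)
    (h : Tendsto (fun x : ℝ => (∑ n ∈ Finset.Icc 1 ⌊x⌋₊,
      ((ArithmeticFunction.vonMangoldt n : ℝ) : ℂ) * b n) / (x : ℂ)) atTop (𝓝 0)) :
    Tendsto (fun N : ℕ => (∑ i ∈ Finset.range N, b (Nat.nth Nat.Prime i)) / (N : ℂ))
      atTop (𝓝 0) := by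
  have hnat : Tendsto (fun m : ℕ => (m : ℝ)) atTop atTop := tendsto_natCast_atTop_atTop
  have hB : Tendsto (fun m : ℕ => (Nat.primeCounting m : ℝ) * Real.log m / m) atTop (𝓝 1) := by
    refine (pi_div.comp hnat).congr fun m => ?_
    simp only [Function.comp_apply, Nat.floor_natCast]
  have hth : Tendsto (fun m : ℕ => Chebyshev.theta m / m) atTop (𝓝 1) := theta_div.comp hnat
  have hps : Tendsto (fun m : ℕ => Chebyshev.psi m / m) atTop (𝓝 1) := pnt.comp hnat
  have hU : Tendsto (fun m : ℕ => ‖∑ n ∈ Finset.Icc 1 m,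
      ((ArithmeticFunction.vonMangoldt n : ℝ) : ℂ) * b n‖ / m) atTop (𝓝 0) := by
    have h1 := (h.comp hnat).norm
    rw [norm_zero] at h1
    refine h1.congr fun m => ?_
    simp only [Function.comp_apply, Nat.floor_natCast, norm_div, Complex.norm_real,
      Complex.ofReal_natCast, Complex.norm_natCast]
  have hA : Tendsto (fun m : ℕ => ‖∑ n ∈ Finset.Icc 1 m,
      ((ArithmeticFunction.vonMangoldt n : ℝ) : ℂ) * b n‖ / m +
        (Chebyshev.psi m / m - Chebyshev.theta m / m) +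
        ((Nat.primeCounting m : ℝ) * Real.log m / m - Chebyshev.theta m / m)) atTop (𝓝 0) := by
    have h1 := (hU.add (hps.sub hth)).add (hB.sub hth)
    simpa using h1
  have hAB := hA.div hB one_ne_zero
  rw [zero_div] at hAB
  have hF : Tendsto (fun m : ℕ => (∑ p ∈ Nat.primesLE m, b p) / (Nat.primeCounting m : ℂ))
      atTop (𝓝 0) := by
    rw [tendsto_zero_iff_norm_tendsto_zero]
    refine tendsto_of_tendsto_of_tendsto_of_le_of_le' tendsto_const_nhds hAB
      (Eventually.of_forall fun m => norm_nonneg _) ?_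
    filter_upwards [eventually_ge_atTop 2] with m hm
    have hm0 : (0 : ℝ) < m := by exact_mod_cast (by omega : 0 < m)
    have hlog : 0 < Real.log m := Real.log_pos (by exact_mod_cast (by omega : 1 < m))
    have hpi : 0 < Nat.primeCounting m := by
      rw [Nat.pos_iff_ne_zero, Ne, Nat.primeCounting_eq_zero_iff]
      omega
    have hpi' : (0 : ℝ) < Nat.primeCounting m := by exact_mod_cast hpi
    have h1 := main_bound hb hm
    rw [norm_div, Complex.norm_natCast]
    simp only [Pi.div_apply]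
    rw [div_le_div_iff₀ hpi' (by positivity)]
    have h2 : ‖∑ n ∈ Finset.Icc 1 m, ((ArithmeticFunction.vonMangoldt n : ℝ) : ℂ) * b n‖ / m +
        (Chebyshev.psi m / m - Chebyshev.theta m / m) +
        ((Nat.primeCounting m : ℝ) * Real.log m / m - Chebyshev.theta m / m) =
        (‖∑ n ∈ Finset.Icc 1 m, ((ArithmeticFunction.vonMangoldt n : ℝ) : ℂ) * b n‖ +
        (Chebyshev.psi m - Chebyshev.theta m) +
        ((Nat.primeCounting m : ℝ) * Real.log m - Chebyshev.theta m)) / m := by ring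
    rw [h2]
    calc ‖∑ p ∈ Nat.primesLE m, b p‖ * ((Nat.primeCounting m : ℝ) * Real.log m / m) =
        (‖∑ p ∈ Nat.primesLE m, b p‖ * Real.log m) / m * Nat.primeCounting m := by ring
      _ ≤ _ := by
        refine mul_le_mul_of_nonneg_right ?_ hpi'.le
        exact div_le_div_of_nonneg_right h1 hm0.le
  have hm : Tendsto (fun N : ℕ => Nat.nth Nat.Prime N - 1) atTop atTop := by
    refine tendsto_atTop_mono (fun N => ?_) tendsto_id
    have := Nat.add_two_le_nth_prime N
    simp only [id]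
    omega
  refine (hF.comp hm).congr fun N => ?_
  simp only [Function.comp_apply]
  rw [Nat.primeCounting_sub_one, Nat.primeCounting'_nth_eq, ← Nat.primesBelow_eq_primesLE_sub_one,
    sum_nth]

end Pool.MSP
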