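import Pool.Agent.MSP.Ful
import Pool.Agent.MSP.Prm

/-!
# MSP / Rea: prime times at almost every speed, for functions on the line

PROOF. Let `‖F‖ ≤ C` (`C ≥ 1`, `‖m‖ ≤ C` by the limit). `F₁ = (F - m)/(2C)` satisfies `‖F₁‖ ≤ 1`, is uniformly continuous and has mean `0`. For `q = 2^i`, `i ∈ ℤ`, let `F_q(t) = F₁(q t)`: uniformly continuous, mean `0` (`(1/T) ∫_0^T F₁(q t) dt = (1/(qT)) ∫_0^(qT) F₁`).
`ful` for `F_q` and `prm` with `b n = F_q(l n)`: for a.e. `l ∈ [1,2]` the averages of `F₁(q l p)` tend to `0`; the null set of bad `l ∈ [1,2]` is mapped by `l ↦ q l` to a null set of bad `l' ∈ [q, 2q]`. The countably many intervals `[2^i, 2^(i+1)]` cover `(0,∞)`.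
Finally `(1/N) ∑ F(l p_i) = m + 2C (1/N) ∑ F₁(l p_i)` for `N ≥ 1`.
-/

set_option autoImplicit false

open MeasureTheory Filter Topology Set

namespace Pool.MSP

private lemma rea_mul_ae {P : ℝ → Prop} (h : ∀ᵐ l : ℝ, P l) {q : ℝ} (hq : q ≠ 0) :
    ∀ᵐ l : ℝ, P (q * l) := by
  have hqm : Measure.QuasiMeasurePreserving (fun x : ℝ => q * x) volume volume := by
    refine ⟨measurable_const_mul q, ?_⟩
    rw [Real.map_volume_mul_left hq]
    exact Measure.smul_absolutelyContinuous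
  exact hqm.ae h

private lemma rea_bound {F : ℝ → ℂ} {C : ℝ} (hC : ∀ t, ‖F t‖ ≤ C) {m : ℂ}
    (hm : Tendsto (fun T : ℝ => ((1 / T : ℝ) : ℂ) * ∫ t in (0 : ℝ)..T, F t) atTop (𝓝 m)) :
    ‖m‖ ≤ C := by
  refine le_of_tendsto hm.norm ?_
  filter_upwards [eventually_gt_atTop (0 : ℝ)] with T hT
  have h1 : ‖∫ t in (0 : ℝ)..T, F t‖ ≤ C * |T - 0| :=
    intervalIntegral.norm_integral_le_of_norm_le_const fun t _ => hC t
  rw [sub_zero, abs_of_pos hT] at h1
  rw [norm_mul, Complex.norm_real, Real.norm_eq_abs, abs_of_pos (by positivity)]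
  calc 1 / T * ‖∫ t in (0 : ℝ)..T, F t‖ ≤ 1 / T * (C * T) :=
        mul_le_mul_of_nonneg_left h1 (by positivity)
    _ = C := by field_simp

/-- the case of a normalised function of mean zero -/
private lemma rea_zero {F : ℝ → ℂ} (hF : UniformContinuous F) (hb : ∀ t, ‖F t‖ ≤ 1)
    (hm : Tendsto (fun T : ℝ => ((1 / T : ℝ) : ℂ) * ∫ t in (0 : ℝ)..T, F t) atTop (𝓝 0)) :
    ∀ᵐ l : ℝ, 0 < l →
      Tendsto (fun N : ℕ => (∑ i ∈ Finset.range N, F (l * (Nat.nth Nat.Prime i : ℕ))) / (N : ℂ))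
        atTop (𝓝 0) := by
  have key : ∀ q : ℝ, 0 < q → ∀ᵐ l : ℝ, l ∈ Icc (1 : ℝ) 2 →
      Tendsto (fun N : ℕ => (∑ i ∈ Finset.range N,
        F (q * l * (Nat.nth Nat.Prime i : ℕ))) / (N : ℂ)) atTop (𝓝 0) := by
    intro q hq
    have hFq : UniformContinuous (fun t : ℝ => F (q * t)) :=
      hF.comp (uniformContinuous_id.const_mul' q)
    have hmq : Tendsto (fun T : ℝ => ((1 / T : ℝ) : ℂ) * ∫ t in (0 : ℝ)..T, F (q * t)) atTop
        (𝓝 0) := by
      have h1 : Tendsto (fun T : ℝ => q * T) atTop atTop := tendsto_id.const_mul_atTop hq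
      refine (hm.comp h1).congr fun T => ?_
      simp only [Function.comp]
      rw [intervalIntegral.integral_comp_mul_left (fun t => F t) hq.ne', mul_zero,
        Complex.real_smul, ← mul_assoc, ← Complex.ofReal_mul]
      congr 2
      rw [one_div, one_div, mul_inv, mul_comm]
    have h := ful hFq (fun t => hb _) hmq
    rw [ae_restrict_iff' measurableSet_Icc] at h
    filter_upwards [h] with l hl hl2
    have h2 := prm (b := fun n : ℕ => F (q * (l * n))) (fun n => hb _) (hl hl2)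
    refine h2.congr fun N => ?_
    congr 1
    refine Finset.sum_congr rfl fun i _ => ?_
    rw [mul_assoc]
  have key2 : ∀ j : ℤ, ∀ᵐ l : ℝ, ((2 : ℝ) ^ j)⁻¹ * l ∈ Icc (1 : ℝ) 2 →
      Tendsto (fun N : ℕ => (∑ i ∈ Finset.range N,
        F (l * (Nat.nth Nat.Prime i : ℕ))) / (N : ℂ)) atTop (𝓝 0) := by
    intro j
    have hq : (0 : ℝ) < (2 : ℝ) ^ j := by positivity
    have h := rea_mul_ae (key _ hq) (q := ((2 : ℝ) ^ j)⁻¹) (inv_ne_zero hq.ne')
    filter_upwards [h] with l hl hl2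
    have h2 := hl hl2
    have h3 : (2 : ℝ) ^ j * (((2 : ℝ) ^ j)⁻¹ * l) = l := by
      rw [← mul_assoc, mul_inv_cancel₀ hq.ne', one_mul]
    rwa [h3] at h2
  rw [← ae_all_iff] at key2
  filter_upwards [key2] with l hl hl0
  obtain ⟨j, hj⟩ := exists_mem_Ico_zpow hl0 (one_lt_two (α := ℝ))
  refine hl j ?_
  have hq : (0 : ℝ) < (2 : ℝ) ^ j := by positivity
  have h1 := hj.1
  have h2 := hj.2
  rw [zpow_add₀ two_ne_zero, zpow_one] at h2
  constructor
  · rw [le_inv_mul_iff₀ hq, mul_one]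
    exact h1
  · rw [inv_mul_le_iff₀ hq]
    exact h2.le

theorem ae_speed {F : ℝ → ℂ} (hF : UniformContinuous F) (hb : ∃ C, ∀ t, ‖F t‖ ≤ C) {m : ℂ}
    (hm : Tendsto (fun T : ℝ => ((1 / T : ℝ) : ℂ) * ∫ t in (0 : ℝ)..T, F t) atTop (𝓝 m)) :
    ∀ᵐ l : ℝ, 0 < l →
      Tendsto (fun N : ℕ => (∑ i ∈ Finset.range N, F (l * (Nat.nth Nat.Prime i : ℕ))) / (N : ℂ))
        atTop (𝓝 m) := by
  obtain ⟨C₀, hC₀⟩ := hb
  obtain ⟨C, hC1, hC⟩ : ∃ C : ℝ, 1 ≤ C ∧ ∀ t, ‖F t‖ ≤ C :=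
    ⟨max C₀ 1, le_max_right _ _, fun t => (hC₀ t).trans (le_max_left _ _)⟩
  have hC0 : 0 < C := by linarith
  have hmC := rea_bound hC hm
  obtain ⟨c, hc⟩ : ∃ c : ℂ, c = ((1 / (2 * C) : ℝ) : ℂ) := ⟨_, rfl⟩
  have hcn : ‖c‖ = 1 / (2 * C) := by
    rw [hc, Complex.norm_real, Real.norm_eq_abs, abs_of_pos (by positivity)]
  have hc2 : ((2 * C : ℝ) : ℂ) * c = 1 := by
    rw [hc, ← Complex.ofReal_mul, ← Complex.ofReal_one]
    congr 1
    field_simp
  have hu : UniformContinuous (fun t => c * (F t - m)) :=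
    (hF.sub uniformContinuous_const).const_mul' c
  have hb1 : ∀ t, ‖c * (F t - m)‖ ≤ 1 := by
    intro t
    rw [norm_mul, hcn]
    have h1 : ‖F t - m‖ ≤ 2 * C := (norm_sub_le _ _).trans (by linarith [hC t])
    calc 1 / (2 * C) * ‖F t - m‖ ≤ 1 / (2 * C) * (2 * C) :=
          mul_le_mul_of_nonneg_left h1 (by positivity)
      _ = 1 := by field_simp
  have hmean : Tendsto (fun T : ℝ => ((1 / T : ℝ) : ℂ) * ∫ t in (0 : ℝ)..T, c * (F t - m)) atTop
      (𝓝 0) := by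
    have h1 : Tendsto (fun T : ℝ => c * (((1 / T : ℝ) : ℂ) * (∫ t in (0 : ℝ)..T, F t) - m)) atTop
        (𝓝 (c * (m - m))) := (hm.sub_const m).const_mul c
    rw [sub_self, mul_zero] at h1
    refine h1.congr' ?_
    filter_upwards [eventually_gt_atTop (0 : ℝ)] with T hT
    have hi : IntervalIntegrable F volume 0 T := hF.continuous.intervalIntegrable _ _
    rw [intervalIntegral.integral_const_mul, intervalIntegral.integral_sub hi
      intervalIntegrable_const, intervalIntegral.integral_const, sub_zero, Complex.real_smul]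
    have h2 : ((1 / T : ℝ) : ℂ) * ((T : ℂ) * m) = m := by
      rw [← mul_assoc, ← Complex.ofReal_mul, one_div, inv_mul_cancel₀ hT.ne',
        Complex.ofReal_one, one_mul]
    calc c * (((1 / T : ℝ) : ℂ) * (∫ t in (0 : ℝ)..T, F t) - m)
        = c * (((1 / T : ℝ) : ℂ) * (∫ t in (0 : ℝ)..T, F t) -
            ((1 / T : ℝ) : ℂ) * ((T : ℂ) * m)) := by rw [h2]
      _ = _ := by ring
  filter_upwards [rea_zero hu hb1 hmean] with l hl hl0
  have h1 := (hl hl0).const_mul ((2 * C : ℝ) : ℂ)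
  have h2 := h1.const_add m
  rw [mul_zero, add_zero] at h2
  refine h2.congr' ?_
  filter_upwards [eventually_gt_atTop 0] with N hN
  have hN0 : (N : ℂ) ≠ 0 := by exact_mod_cast hN.ne'
  rw [← Finset.mul_sum, Finset.sum_sub_distrib, Finset.sum_const, Finset.card_range,
    nsmul_eq_mul]
  set S : ℂ := ∑ i ∈ Finset.range N, F (l * (Nat.nth Nat.Prime i : ℕ)) with hS
  calc m + ((2 * C : ℝ) : ℂ) * (c * (S - N * m) / N)
      = m + (((2 * C : ℝ) : ℂ) * c) * ((S - N * m) / N) := by ring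
    _ = m + (S - N * m) / N := by rw [hc2, one_mul]
    _ = S / N := by
        field_simp
        ring

theorem ae_speed_real {F : ℝ → ℝ} (hF : UniformContinuous F) (hb : ∃ C, ∀ t, |F t| ≤ C) {m : ℝ}
    (hm : Tendsto (fun T : ℝ => 1 / T * ∫ t in (0 : ℝ)..T, F t) atTop (𝓝 m)) :
    ∀ᵐ l : ℝ, 0 < l →
      Tendsto (fun N : ℕ => 1 / (N : ℝ) * ∑ i ∈ Finset.range N, F (l * (Nat.nth Nat.Prime i : ℕ)))
        atTop (𝓝 m) := by
  obtain ⟨C, hC⟩ := hb
  have h1 := ae_speed (F := fun t => ((F t : ℝ) : ℂ)) (m := (m : ℂ))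
    (Complex.isometry_ofReal.uniformContinuous.comp hF)
    ⟨C, fun t => by rw [Complex.norm_real]; exact hC t⟩ (by
      have h2 : Tendsto (fun T : ℝ => ((1 / T * ∫ t in (0 : ℝ)..T, F t : ℝ) : ℂ)) atTop
          (𝓝 (m : ℂ)) := (Complex.continuous_ofReal.tendsto m).comp hm
      refine h2.congr fun T => ?_
      rw [Complex.ofReal_mul, intervalIntegral.integral_ofReal])
  filter_upwards [h1] with l hl hl0
  have h2 := (Complex.continuous_re.tendsto _).comp (hl hl0)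
  rw [Complex.ofReal_re] at h2
  refine h2.congr fun N => ?_
  simp only [Function.comp]
  have h3 : (∑ i ∈ Finset.range N, ((F (l * (Nat.nth Nat.Prime i : ℕ)) : ℝ) : ℂ)) / (N : ℂ) =
      ((1 / (N : ℝ) * ∑ i ∈ Finset.range N, F (l * (Nat.nth Nat.Prime i : ℕ)) : ℝ) : ℂ) := by
    push_cast
    ring
  rw [h3, Complex.ofReal_re]

end Pool.MSP
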