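import Pool.Agent.MSP.Defs
import Pool.Agent.VMV.Vkey

/-!
# MSP / Tay: the Taylor expansion of `n ↦ n^(-it)`

PROOF of `tay`. `(n+v)^(-it) = exp(-i t log(n+v))` (`Complex.natCast_log`, `Complex.cpow_def_of_ne_zero`), `log(n+v) = log n + log(1+v/n)`; so it is `n^(-it) e(-(t/2π) log(1+v/n))`.
`Real.abs_log_sub_add_sum_range_le` with `x = -(v/n)`, `|x| ≤ 1/2`: `|∑_{i<k} x^(i+1)/(i+1) + log(1+v/n)| ≤ |x|^(k+1)/(1-|x|) ≤ 2 (v/n)^(k+1)`. And `|e a - e b| ≤ 2π|a-b|` (`Complex.norm_exp_I_mul_ofReal_sub_one_le` or similar),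
`‖n^(-it)‖ = 1`. The sum in the exponent: `∑_{l<k} al t n l v^(l+1) = -(t/2π) ∑_{l<k} (-1)^l (v/n)^(l+1)/(l+1) = (t/2π) ∑_{i<k} x^(i+1)/(i+1)` (`(-1)^(l+1) = -(-1)^l`).
`shift_sum`: for each `(x,y)`, `v = x y ≤ Y^2`: `‖∑_{Ioc M M'} g n - ∑_{Ioc M M'} g (n+v)‖ ≤ 2 v` (the second sum is the sum of `g` over `Ioc (M+v) (M'+v)`, the symmetric difference with `Ioc M M'` has at most `2 v` elements; or by induction on `v`
with the step `v → v+1`: `∑_{Ioc M M'} g(n+v) - ∑_{Ioc M M'} g(n+v+1) = g(M+1+v) - g(M'+1+v)`). Sum over the `Y^2` pairs.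
-/

set_option autoImplicit false

open MeasureTheory Filter Topology Set

open Pool.Agent

namespace Pool.MSP

/-- the Taylor coefficients of `-(t/2π) log(n + v)` in `v` -/
noncomputable def al (t : ℝ) (n l : ℕ) : ℝ :=
  -(t / (2 * Real.pi)) * ((-1) ^ l / ((l + 1 : ℝ) * (n : ℝ) ^ (l + 1)))

theorem norm_cpow_it (t : ℝ) (n : ℕ) : ‖(n : ℂ) ^ (-(t * Complex.I))‖ ≤ 1 := by
  rcases Nat.eq_zero_or_pos n with rfl | hn
  · by_cases ht : (-(t * Complex.I) : ℂ) = 0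
    · rw [ht, Complex.cpow_zero, norm_one]
    · rw [Nat.cast_zero, Complex.zero_cpow ht, norm_zero]
      exact zero_le_one
  · rw [Complex.norm_natCast_cpow_of_pos hn]
    simp

private theorem norm_e_sub (a b : ℝ) : ‖VMV.e a - VMV.e b‖ ≤ 2 * Real.pi * |a - b| := by
  have h1 : VMV.e a - VMV.e b = VMV.e b * (VMV.e (a - b) - 1) := by
    rw [mul_sub, mul_one, ← VMV.e_add, add_sub_cancel]
  have h2 : VMV.e (a - b) = Complex.exp (Complex.I * ((2 * Real.pi * (a - b) : ℝ) : ℂ)) := by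
    unfold VMV.e
    congr 1
    push_cast
    ring
  rw [h1, norm_mul, VMV.norm_e, one_mul, h2]
  refine Real.norm_exp_I_mul_ofReal_sub_one_le.trans ?_
  rw [Real.norm_eq_abs, abs_mul, abs_of_pos (by positivity : (0 : ℝ) < 2 * Real.pi)]

private theorem cpow_add_eq (t : ℝ) {n v : ℕ} (hn : 1 ≤ n) :
    ((n + v : ℕ) : ℂ) ^ (-(t * Complex.I)) = (n : ℂ) ^ (-(t * Complex.I)) *
      VMV.e (-(t / (2 * Real.pi)) * Real.log (1 + (v : ℝ) / n)) := by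
  have hn0 : (0 : ℝ) < n := by exact_mod_cast hn
  have hv0 : (0 : ℝ) ≤ v := Nat.cast_nonneg v
  have h1 : ((n + v : ℕ) : ℂ) ≠ 0 := by
    exact_mod_cast (by omega : n + v ≠ 0)
  have h2 : ((n : ℕ) : ℂ) ≠ 0 := by
    exact_mod_cast (by omega : n ≠ 0)
  rw [Complex.cpow_def_of_ne_zero h1, Complex.cpow_def_of_ne_zero h2, ← Complex.natCast_log,
    ← Complex.natCast_log]
  have h3 : Real.log ((n + v : ℕ) : ℝ) = Real.log n + Real.log (1 + (v : ℝ) / n) := by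
    rw [← Real.log_mul hn0.ne' (by positivity)]
    congr 1
    push_cast
    field_simp
  rw [h3]
  unfold VMV.e
  rw [← Complex.exp_add]
  congr 1
  have hpi : (Real.pi : ℂ) ≠ 0 := by exact_mod_cast Real.pi_ne_zero
  push_cast
  field_simp
  ring

theorem tay {k : ℕ} {t : ℝ} (ht : 0 ≤ t) {n v : ℕ} (hn : 1 ≤ n) (hv : 2 * v ≤ n) :
    ‖((n + v : ℕ) : ℂ) ^ (-(t * Complex.I)) - (n : ℂ) ^ (-(t * Complex.I)) *
      VMV.e (∑ l : Fin k, al t n l.1 * (v : ℝ) ^ (l.1 + 1))‖ ≤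
        2 * t * ((v : ℝ) / n) ^ (k + 1) := by
  have hn0 : (0 : ℝ) < n := by exact_mod_cast hn
  have hv0 : (0 : ℝ) ≤ v := Nat.cast_nonneg v
  have hv1 : 2 * (v : ℝ) ≤ n := by exact_mod_cast hv
  obtain ⟨x, hx⟩ : ∃ x : ℝ, x = -((v : ℝ) / n) := ⟨_, rfl⟩
  have hxa : |x| = (v : ℝ) / n := by
    rw [hx, abs_neg, abs_of_nonneg (by positivity)]
  have hx2 : |x| ≤ 1 / 2 := by
    rw [hxa, div_le_iff₀ hn0]
    linarith
  have hlog := Real.abs_log_sub_add_sum_range_le (x := x) (by linarith) k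
  have h1x : 1 - x = 1 + (v : ℝ) / n := by rw [hx]; ring
  rw [h1x] at hlog
  have hsum : ∑ l : Fin k, al t n l.1 * (v : ℝ) ^ (l.1 + 1) =
      t / (2 * Real.pi) * ∑ i ∈ Finset.range k, x ^ (i + 1) / ((i : ℝ) + 1) := by
    rw [Finset.mul_sum, ← Fin.sum_univ_eq_sum_range
      (fun i => t / (2 * Real.pi) * (x ^ (i + 1) / ((i : ℝ) + 1)))]
    refine Finset.sum_congr rfl fun l _ => ?_
    unfold al
    have h2 : x ^ (l.1 + 1) = -((-1) ^ l.1 * ((v : ℝ) / n) ^ (l.1 + 1)) := by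
      rw [hx, neg_pow, pow_succ (-1 : ℝ) l.1]
      ring
    rw [h2, div_pow]
    have hpi := Real.pi_pos
    field_simp
  rw [cpow_add_eq t hn, ← mul_sub, norm_mul]
  refine (mul_le_mul (norm_cpow_it t n) (norm_e_sub _ _) (norm_nonneg _) zero_le_one).trans ?_
  rw [one_mul, hsum]
  have h3 : -(t / (2 * Real.pi)) * Real.log (1 + (v : ℝ) / n) -
      t / (2 * Real.pi) * ∑ i ∈ Finset.range k, x ^ (i + 1) / ((i : ℝ) + 1) =
      -(t / (2 * Real.pi)) * ((∑ i ∈ Finset.range k, x ^ (i + 1) / ((i : ℝ) + 1)) +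
        Real.log (1 + (v : ℝ) / n)) := by ring
  rw [h3, abs_mul, abs_neg, abs_of_nonneg (by positivity : 0 ≤ t / (2 * Real.pi))]
  have h4 : |(∑ i ∈ Finset.range k, x ^ (i + 1) / ((i : ℝ) + 1)) +
      Real.log (1 + (v : ℝ) / n)| ≤ 2 * ((v : ℝ) / n) ^ (k + 1) := by
    refine hlog.trans ?_
    rw [← hxa, div_le_iff₀ (by linarith)]
    have h5 : 0 ≤ |x| ^ (k + 1) := by positivity
    nlinarith
  calc 2 * Real.pi * (t / (2 * Real.pi) * |(∑ i ∈ Finset.range k, x ^ (i + 1) / ((i : ℝ) + 1)) +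
        Real.log (1 + (v : ℝ) / n)|) =
      t * |(∑ i ∈ Finset.range k, x ^ (i + 1) / ((i : ℝ) + 1)) +
        Real.log (1 + (v : ℝ) / n)| := by
        have hpi := Real.pi_pos
        field_simp
    _ ≤ t * (2 * ((v : ℝ) / n) ^ (k + 1)) := mul_le_mul_of_nonneg_left h4 ht
    _ = 2 * t * ((v : ℝ) / n) ^ (k + 1) := by ring

private theorem tele (f : ℕ → ℂ) (M M' : ℕ) (h : M ≤ M') :
    ∑ n ∈ Finset.Ioc M M', (f n - f (n + 1)) = f (M + 1) - f (M' + 1) := by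
  induction M', h using Nat.le_induction with
  | base => simp
  | succ m hm ih =>
    rw [Finset.sum_Ioc_succ_top hm, ih]
    ring

private theorem shift_one (g : ℕ → ℂ) (hg : ∀ n, ‖g n‖ ≤ 1) (M M' v : ℕ) :
    ‖∑ n ∈ Finset.Ioc M M', g n - ∑ n ∈ Finset.Ioc M M', g (n + v)‖ ≤ 2 * v := by
  rcases le_total M M' with hM | hM
  · induction v with
    | zero => simp
    | succ v ih =>
      have h1 := tele (fun n => g (n + v)) M M' hM
      rw [Finset.sum_sub_distrib] at h1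
      have h2 : ∑ n ∈ Finset.Ioc M M', g n - ∑ n ∈ Finset.Ioc M M', g (n + (v + 1)) =
          (∑ n ∈ Finset.Ioc M M', g n - ∑ n ∈ Finset.Ioc M M', g (n + v)) +
            (g (M + 1 + v) - g (M' + 1 + v)) := by
        rw [← h1]
        have h3 : ∀ n, g (n + 1 + v) = g (n + (v + 1)) := fun n => by
          congr 1
          ring
        simp only [h3]
        ring
      rw [h2]
      refine (norm_add_le _ _).trans ?_
      have h3 := norm_sub_le (g (M + 1 + v)) (g (M' + 1 + v))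
      have h4 := hg (M + 1 + v)
      have h5 := hg (M' + 1 + v)
      push_cast
      linarith
  · rw [Finset.Ioc_eq_empty_of_le hM]
    simp

theorem shift_sum (g : ℕ → ℂ) (hg : ∀ n, ‖g n‖ ≤ 1) (M M' Y : ℕ) :
    (Y : ℝ) ^ 2 * ‖∑ n ∈ Finset.Ioc M M', g n‖ ≤
      ∑ n ∈ Finset.Ioc M M', ‖∑ x ∈ Finset.Icc 1 Y, ∑ y ∈ Finset.Icc 1 Y, g (n + x * y)‖ +
        2 * (Y : ℝ) ^ 4 := by
  obtain ⟨S, hS⟩ : ∃ S : ℂ, S = ∑ n ∈ Finset.Ioc M M', g n := ⟨_, rfl⟩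
  rw [← hS]
  have h1 : ∑ n ∈ Finset.Ioc M M', ∑ x ∈ Finset.Icc 1 Y, ∑ y ∈ Finset.Icc 1 Y, g (n + x * y) =
      ∑ x ∈ Finset.Icc 1 Y, ∑ y ∈ Finset.Icc 1 Y, ∑ n ∈ Finset.Ioc M M', g (n + x * y) := by
    rw [Finset.sum_comm]
    refine Finset.sum_congr rfl fun x _ => ?_
    rw [Finset.sum_comm]
  have h2 : ((Y : ℂ) ^ 2 * S) = ∑ x ∈ Finset.Icc 1 Y, ∑ y ∈ Finset.Icc 1 Y, S := by
    simp only [Finset.sum_const, Nat.card_Icc, Nat.add_sub_cancel, nsmul_eq_mul]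
    ring
  have h3 : ‖(Y : ℂ) ^ 2 * S - ∑ n ∈ Finset.Ioc M M', ∑ x ∈ Finset.Icc 1 Y,
      ∑ y ∈ Finset.Icc 1 Y, g (n + x * y)‖ ≤ 2 * (Y : ℝ) ^ 4 := by
    rw [h1, h2, ← Finset.sum_sub_distrib]
    have h4 : ∀ x ∈ Finset.Icc 1 Y, ‖(∑ y ∈ Finset.Icc 1 Y, S) -
        ∑ y ∈ Finset.Icc 1 Y, ∑ n ∈ Finset.Ioc M M', g (n + x * y)‖ ≤ 2 * (Y : ℝ) ^ 3 := by
      intro x hx
      rw [← Finset.sum_sub_distrib]
      have h5 : ∀ y ∈ Finset.Icc 1 Y, ‖S - ∑ n ∈ Finset.Ioc M M', g (n + x * y)‖ ≤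
          2 * (Y : ℝ) ^ 2 := by
        intro y hy
        rw [hS]
        refine (shift_one g hg M M' (x * y)).trans ?_
        have h6 : (x : ℝ) ≤ Y := by exact_mod_cast (Finset.mem_Icc.1 hx).2
        have h7 : (y : ℝ) ≤ Y := by exact_mod_cast (Finset.mem_Icc.1 hy).2
        have h8 : (0 : ℝ) ≤ y := Nat.cast_nonneg y
        have h9 : (0 : ℝ) ≤ Y := Nat.cast_nonneg Y
        push_cast
        have h10 : (x : ℝ) * y ≤ Y * Y := mul_le_mul h6 h7 h8 h9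
        nlinarith
      refine (norm_sum_le_of_le _ h5).trans (le_of_eq ?_)
      rw [Finset.sum_const, Nat.card_Icc, nsmul_eq_mul, Nat.add_sub_cancel]
      ring
    refine (norm_sum_le_of_le _ h4).trans (le_of_eq ?_)
    rw [Finset.sum_const, Nat.card_Icc, nsmul_eq_mul]
    simp only [Nat.add_sub_cancel]
    ring
  have h4 : (Y : ℝ) ^ 2 * ‖S‖ = ‖(Y : ℂ) ^ 2 * S‖ := by
    rw [norm_mul, norm_pow, Complex.norm_natCast]
  rw [h4]
  have h5 := norm_sub_norm_le ((Y : ℂ) ^ 2 * S) (∑ n ∈ Finset.Ioc M M', ∑ x ∈ Finset.Icc 1 Y,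
      ∑ y ∈ Finset.Icc 1 Y, g (n + x * y))
  have h6 := norm_sum_le (Finset.Ioc M M') (fun n => ∑ x ∈ Finset.Icc 1 Y,
      ∑ y ∈ Finset.Icc 1 Y, g (n + x * y))
  linarith

end Pool.MSP
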