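import Pool.Agent.MSP.Defs

/-!
# MSP / Tfo: the 3-4-1 inequality for `ζ'/ζ`

PROOF. `tfo`: for `Re s > 1`: `-ζ'/ζ(s) = ∑ Λ(n) n^(-s)` (`ArithmeticFunction.LSeries_vonMangoldt_eq_deriv_riemannZeta_div`, `LSeriesSummable_vonMangoldt`); real part of `n^(-(σ+iy))` is `n^(-σ) cos(y log n)`; `3 + 4 cos θ + cos 2θ = 2 (1 + cos θ)^2 ≥ 0`, `Λ ≥ 0`.
`zeta_pole`: `ζ'/ζ(s) + 1/(s-1) = ZZ'/ZZ(s)` for `s ≠ 1` near `Re s ≥ 1` (`ZZ s = (s-1) ζ(s)`, `ZZ ≠ 0` for `Re s ≥ 1`, see `ZET_ne` in `Pool/Agent/OMG/Zet.lean`), and `ZZ'/ZZ` is continuous on the compact segment `[1,2]`, hence bounded by `C`.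
`zeta_inv`: for `Re s = σ > 1`: `1/ζ(s) = ∑ μ(n) n^(-s)` (`LSeries_moebius_eq...`, `LSeries_zeta_mul_Lseries_moebius`), `|.| ≤ ∑ n^(-σ) = ζ(σ) ≤ 1 + ∫_1^∞ u^(-σ) du = 1 + 1/(σ-1)`.
`zeta_upper`: `‖ζ(s)‖ ≤ ζ(σ) ≤ 1 + 1/(σ-1)`.
-/

set_option autoImplicit false

open MeasureTheory Filter Topology Set

namespace Pool.MSP

theorem ZZ_differentiable : Differentiable ℂ ZZ :=
  DirichletCharacter.differentiable_LFunctionTrivChar₁ 1

theorem ZZ_eq {s : ℂ} (hs : s ≠ 1) : ZZ s = (s - 1) * riemannZeta s := by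
  rw [ZZ, DirichletCharacter.LFunctionTrivChar₁, Function.update_of_ne hs,
    DirichletCharacter.LFunctionTrivChar, DirichletCharacter.LFunction_modOne_eq]

theorem ZZ_ne_zero {s : ℂ} (hs : 1 ≤ s.re) : ZZ s ≠ 0 := by
  rcases eq_or_ne s 1 with rfl | hw'
  · exact DirichletCharacter.LFunctionTrivChar₁_apply_one_ne_zero 1
  · rw [ZZ_eq hw', mul_ne_zero_iff]
    exact ⟨sub_ne_zero_of_ne hw', riemannZeta_ne_zero_of_one_le_re hs⟩

private lemma ne_one_of {s : ℂ} (hs : 1 < s.re) : s ≠ 1 := by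
  rintro rfl
  simp at hs

/-- `ζ'/ζ = ZZ'/ZZ - 1/(s-1)`. -/
private lemma zz_log {s : ℂ} (hs : 1 < s.re) :
    deriv riemannZeta s / riemannZeta s = deriv ZZ s / ZZ s - 1 / (s - 1) := by
  have h1 := ne_one_of hs
  have h2 : deriv ZZ s = (s - 1) * deriv riemannZeta s + riemannZeta s := by
    rw [ZZ, DirichletCharacter.deriv_LFunctionTrivChar₁_apply_of_ne_one 1 h1]
    have : DirichletCharacter.LFunctionTrivChar 1 = riemannZeta := by
      rw [DirichletCharacter.LFunctionTrivChar, DirichletCharacter.LFunction_modOne_eq]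
    rw [this]
  have hz : riemannZeta s ≠ 0 := riemannZeta_ne_zero_of_one_le_re hs.le
  have h3 : s - 1 ≠ 0 := sub_ne_zero_of_ne h1
  rw [h2, ZZ_eq h1]
  field_simp
  ring

/-- The real part of a term of the series of `Λ`. -/
private lemma term_re (σ t : ℝ) (n : ℕ) :
    (LSeries.term (fun n => (ArithmeticFunction.vonMangoldt n : ℂ)) (σ + t * Complex.I) n).re =
      ArithmeticFunction.vonMangoldt n * Real.exp (-(σ * Real.log n)) *
        Real.cos (t * Real.log n) := by
  rcases eq_or_ne n 0 with rfl | hn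
  · simp
  · have hn' : (n : ℂ) ≠ 0 := by exact_mod_cast hn
    rw [LSeries.term_of_ne_zero hn, Complex.cpow_def_of_ne_zero hn', div_eq_mul_inv,
      ← Complex.exp_neg, ← Complex.natCast_log]
    have h1 : -(((Real.log n : ℝ) : ℂ) * (σ + t * Complex.I)) =
        ((-(σ * Real.log n) : ℝ) : ℂ) + ((-(t * Real.log n) : ℝ) : ℂ) * Complex.I := by
      push_cast
      ring
    have h2 : (((-(σ * Real.log n) : ℝ) : ℂ) + ((-(t * Real.log n) : ℝ) : ℂ) * Complex.I).re =
        -(σ * Real.log n) := by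
      rw [Complex.add_re, Complex.ofReal_re, Complex.re_ofReal_mul, Complex.I_re, mul_zero,
        add_zero]
    have h3 : (((-(σ * Real.log n) : ℝ) : ℂ) + ((-(t * Real.log n) : ℝ) : ℂ) * Complex.I).im =
        -(t * Real.log n) := by
      rw [Complex.add_im, Complex.ofReal_im, Complex.im_ofReal_mul, Complex.I_im, mul_one,
        zero_add]
    rw [h1, Complex.re_ofReal_mul, Complex.exp_re, h2, h3, Real.cos_neg, mul_assoc]

private lemma hasSum_re {σ : ℝ} (hσ : 1 < σ) (t : ℝ) :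
    HasSum (fun n : ℕ => ArithmeticFunction.vonMangoldt n * Real.exp (-(σ * Real.log n)) *
        Real.cos (t * Real.log n))
      (-(deriv riemannZeta (σ + t * Complex.I) / riemannZeta (σ + t * Complex.I)).re) := by
  have hs : 1 < ((σ : ℂ) + t * Complex.I).re := by simpa using hσ
  have h1 := (ArithmeticFunction.LSeriesSummable_vonMangoldt hs).LSeriesHasSum
  rw [ArithmeticFunction.LSeries_vonMangoldt_eq_deriv_riemannZeta_div hs] at h1
  have h2 := Complex.hasSum_re h1
  have h3 : (fun n : ℕ => ArithmeticFunction.vonMangoldt n * Real.exp (-(σ * Real.log n)) *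
        Real.cos (t * Real.log n)) = fun n => (LSeries.term
        (fun n => (ArithmeticFunction.vonMangoldt n : ℂ)) (σ + t * Complex.I) n).re :=
    funext fun n => (term_re σ t n).symm
  rw [h3]
  convert h2 using 1
  rw [neg_div, Complex.neg_re]

theorem tfo {σ : ℝ} (hσ : 1 < σ) (t : ℝ) :
    0 ≤ -(3 * (deriv riemannZeta σ / riemannZeta σ).re) -
      4 * (deriv riemannZeta (σ + t * Complex.I) / riemannZeta (σ + t * Complex.I)).re -
      (deriv riemannZeta (σ + (2 * t : ℝ) * Complex.I) /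
        riemannZeta (σ + (2 * t : ℝ) * Complex.I)).re := by
  have h0 := hasSum_re hσ 0
  have h1 := hasSum_re hσ t
  have h2 := hasSum_re hσ (2 * t)
  have h3 := ((h0.mul_left 3).add (h1.mul_left 4)).add h2
  have e0 : ((σ : ℂ) + (0 : ℝ) * Complex.I) = σ := by simp
  rw [e0] at h3
  have h4 := h3.nonneg (fun n => ?_)
  · linarith
  · have hL : (0 : ℝ) ≤ ArithmeticFunction.vonMangoldt n * Real.exp (-(σ * Real.log n)) :=
      mul_nonneg ArithmeticFunction.vonMangoldt_nonneg (Real.exp_pos _).le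
    have h5 : Real.cos (2 * t * Real.log n) = 2 * Real.cos (t * Real.log n) ^ 2 - 1 := by
      rw [← Real.cos_two_mul]
      ring_nf
    have h6 : 3 * (ArithmeticFunction.vonMangoldt n * Real.exp (-(σ * Real.log n)) *
          Real.cos (0 * Real.log n)) +
        4 * (ArithmeticFunction.vonMangoldt n * Real.exp (-(σ * Real.log n)) *
          Real.cos (t * Real.log n)) +
        ArithmeticFunction.vonMangoldt n * Real.exp (-(σ * Real.log n)) *
          Real.cos (2 * t * Real.log n) =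
        (ArithmeticFunction.vonMangoldt n * Real.exp (-(σ * Real.log n))) *
          (2 * (1 + Real.cos (t * Real.log n)) ^ 2) := by
      rw [h5, zero_mul, Real.cos_zero]
      ring
    rw [h6]
    positivity

theorem zeta_pole : ∃ C : ℝ, 0 ≤ C ∧ ∀ σ : ℝ, 1 < σ → σ ≤ 2 →
    -(deriv riemannZeta σ / riemannZeta σ).re ≤ 1 / (σ - 1) + C := by
  have hc : ContinuousOn (fun σ : ℝ => deriv ZZ σ / ZZ σ) (Icc 1 2) := by
    have hZd' : Differentiable ℂ (deriv ZZ) := fun z =>
      (ZZ_differentiable.analyticAt z).deriv.differentiableAt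
    refine ContinuousOn.div ?_ ?_ ?_
    · exact (hZd'.continuous.comp Complex.continuous_ofReal).continuousOn
    · exact (ZZ_differentiable.continuous.comp Complex.continuous_ofReal).continuousOn
    · intro σ hσ
      exact ZZ_ne_zero (by simpa using hσ.1)
  obtain ⟨C, hC⟩ := isCompact_Icc.exists_bound_of_continuousOn hc
  refine ⟨max C 0, le_max_right _ _, fun σ h1 h2 => ?_⟩
  have hs : 1 < (σ : ℂ).re := by simpa using h1
  rw [zz_log hs]
  have h3 := hC σ ⟨h1.le, h2⟩
  have h4 : (1 / ((σ : ℂ) - 1)).re = 1 / (σ - 1) := by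
    have : (1 / ((σ : ℂ) - 1)) = ((1 / (σ - 1) : ℝ) : ℂ) := by push_cast; ring
    rw [this, Complex.ofReal_re]
  rw [Complex.sub_re, h4]
  have h5 := (abs_le.1 ((Complex.abs_re_le_norm _).trans h3)).1
  have h6 := le_max_left C 0
  linarith

/-- `∑ n^(-σ) ≤ 1 + 1/(σ-1)`. -/
private lemma tsum_le {σ : ℝ} (hσ : 1 < σ) :
    ∑' n : ℕ, 1 / (n + 1 : ℝ) ^ σ ≤ 1 + 1 / (σ - 1) := by
  have h1 := ZetaAsymptotics.zeta_limit_aux1 hσ
  have h2 : 0 ≤ ZetaAsymptotics.termTSum σ :=
    tsum_nonneg fun n => ZetaAsymptotics.term_nonneg (n + 1) σ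
  have h3 : 0 ≤ σ * ZetaAsymptotics.termTSum σ := mul_nonneg (by linarith) h2
  linarith

theorem zeta_inv {s : ℂ} (hs : 1 < s.re) : ‖(riemannZeta s)⁻¹‖ ≤ 1 + 1 / (s.re - 1) := by
  have h1 : (riemannZeta s)⁻¹ = LSeries (fun n => (ArithmeticFunction.moebius n : ℂ)) s := by
    have h2 := ArithmeticFunction.LSeries_zeta_mul_Lseries_moebius hs
    rw [ArithmeticFunction.LSeries_zeta_eq_riemannZeta hs] at h2
    exact inv_eq_of_mul_eq_one_right h2
  rw [h1, LSeries]
  have hb : ∀ n : ℕ, ‖LSeries.term (fun n => (ArithmeticFunction.moebius n : ℂ)) s (n + 1)‖ ≤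
      1 / (n + 1 : ℝ) ^ s.re := by
    intro n
    rw [LSeries.norm_term_eq, if_neg (Nat.succ_ne_zero n)]
    push_cast
    gcongr
    rw [Complex.norm_intCast]
    exact_mod_cast ArithmeticFunction.abs_moebius_le_one
  have hsum : Summable fun n : ℕ => 1 / (n + 1 : ℝ) ^ s.re := by
    exact_mod_cast (summable_nat_add_iff 1).mpr (Real.summable_one_div_nat_rpow.mpr hs)
  have hS : LSeriesSummable (fun n => (ArithmeticFunction.moebius n : ℂ)) s :=
    ArithmeticFunction.LSeriesSummable_moebius_iff.2 hs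
  have h4 : ∑' n : ℕ, LSeries.term (fun n => (ArithmeticFunction.moebius n : ℂ)) s n =
      ∑' n : ℕ, LSeries.term (fun n => (ArithmeticFunction.moebius n : ℂ)) s (n + 1) := by
    rw [hS.tsum_eq_zero_add, LSeries.term_zero, zero_add]
  rw [h4]
  refine (tsum_of_norm_bounded hsum.hasSum hb).trans (tsum_le hs)

end Pool.MSP
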