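import Pool.Agent.MSP.Exs
import Pool.Agent.MSP.Abl
import Pool.Agent.MSP.Eul

/-!
# MSP / Zbd: a bound for `ζ` to the left of the line `Re s = 1`

PROOF. `t = Im s` large, `ℓ = log t`, `σ = Re s`, `1 - ℓ^(-3/4) ≤ σ ≤ 3`. `zeta_approx` with `N = ⌊t^2⌋` (so `t^2/2 ≤ N ≤ t^2`): `‖s‖ ≤ 2 t` (`t ≥ 3`), `σ ≥ 1/2`: the error is `≤ 4 t N^(-1/2) ≤ 8`; `‖N^(1-s)/(s-1)‖ ≤ N^(1/2)/t ≤ 1` (`|s-1| ≥ t`; `N^(1-σ) ≤ N^(1/2)`).
It remains to bound `∑_{n ≤ N} n^(-s)`. Let `m₀ = ⌈max(M₀, exp(ℓ^(3/4)))⌉`; for `n ≤ m₀`: `n^(-σ) ≤ n^(-1) n^(ℓ^(-3/4)) ≤ 8 n^(-1)` (`log m₀ ≤ ℓ^(3/4) + 1` for large `t`), and `∑_{n ≤ m₀} 1/n ≤ 1 + log m₀ ≤ 3 ℓ`.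
(if `σ ≥ 1` then `n^(-σ) ≤ n^(-1)`.)
Blocks `M = 2^i m₀`, `i ≥ 0`, as long as `M ≤ N`, `M' = min(2M, N)`: there are at most `3ℓ` of them (`2^i ≤ N ≤ t^2`). Here `log M ≤ log N ≤ 2 ℓ`, so `exs` holds for all `m ∈ [M, M']`: `‖∑_{Ioc M m} n^(-it)‖ ≤ B := C M (ℓ/log M)^2 exp(-c (log M)^3/ℓ^2)`;
`block_cpow`: the block is `≤ M^(-σ) B ≤ C (ℓ/log M)^2 exp(log M (ℓ^(-3/4) - c (log M)^2/ℓ^2))`. As `log M ≥ ℓ^(3/4)`: `(ℓ/log M)^2 ≤ ℓ^(1/2)` and `c (log M)^2/ℓ^2 ≥ c ℓ^(-1/2) ≥ ℓ^(-3/4)` for large `t`. So each block is `≤ C ℓ^(1/2)`, the sum of all blocks is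
`≤ 3 C ℓ^(3/2) ≤ 3 C ℓ^2`. Total `≤ C' ℓ^2`.
-/

set_option autoImplicit false

open MeasureTheory Filter Topology Set

namespace Pool.MSP

/-- the head of the sum -/
private theorem zbd_head {s : ℂ} {a : ℝ} (ha0 : 0 ≤ a) (hs : 1 - a ≤ s.re) {m : ℕ} (hm : 1 ≤ m)
    {b : ℝ} (hb : Real.log m * a ≤ b) :
    ‖∑ n ∈ Finset.Icc 1 m, (n : ℂ) ^ (-s)‖ ≤ Real.exp b * (1 + Real.log m) := by
  have h1 : ∀ n ∈ Finset.Icc 1 m, ‖(n : ℂ) ^ (-s)‖ ≤ Real.exp b * (n : ℝ)⁻¹ := by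
    intro n hn
    rw [Finset.mem_Icc] at hn
    have hn0 : (0 : ℝ) < n := by exact_mod_cast hn.1
    have hn1 : (1 : ℝ) ≤ n := by exact_mod_cast hn.1
    have hnm : (n : ℝ) ≤ m := by exact_mod_cast hn.2
    rw [Complex.norm_natCast_cpow_of_pos hn.1, Complex.neg_re]
    calc (n : ℝ) ^ (-s.re) ≤ (n : ℝ) ^ (a + -1) := by
          apply Real.rpow_le_rpow_of_exponent_le hn1
          linarith
      _ = (n : ℝ) ^ a * (n : ℝ)⁻¹ := by rw [Real.rpow_add hn0, Real.rpow_neg_one]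
      _ ≤ Real.exp b * (n : ℝ)⁻¹ := by
          gcongr
          rw [Real.rpow_def_of_pos hn0]
          apply Real.exp_le_exp.2
          refine le_trans ?_ hb
          gcongr
  refine (norm_sum_le _ _).trans ((Finset.sum_le_sum h1).trans ?_)
  rw [← Finset.mul_sum]
  apply mul_le_mul_of_nonneg_left _ (Real.exp_pos _).le
  have h2 := harmonic_le_one_add_log m
  rw [harmonic_eq_sum_Icc] at h2
  push_cast at h2
  exact h2

/-- the blocks -/
private theorem zbd_blocks {s : ℂ} {m₀ N : ℕ} (hmN : m₀ ≤ N) {B : ℝ}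
    (hB : ∀ M M' : ℕ, m₀ ≤ M → M ≤ N → M ≤ M' → M' ≤ 2 * M → M' ≤ N →
      ‖∑ n ∈ Finset.Ioc M M', (n : ℂ) ^ (-s)‖ ≤ B) (i : ℕ) :
    ‖∑ n ∈ Finset.Ioc m₀ (min (2 ^ i * m₀) N), (n : ℂ) ^ (-s)‖ ≤ i * B := by
  induction i with
  | zero =>
    have : min (2 ^ 0 * m₀) N = m₀ := by
      rw [pow_zero, one_mul]
      exact min_eq_left hmN
    rw [this]
    simp
  | succ i ih =>
    set a := min (2 ^ i * m₀) N with ha
    set b := min (2 ^ (i + 1) * m₀) N with hb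
    have hpow : m₀ ≤ 2 ^ i * m₀ := Nat.le_mul_of_pos_left _ (by positivity)
    have h1 : m₀ ≤ a := le_min hpow hmN
    have h2 : a ≤ b := by
      apply min_le_min_right
      exact Nat.mul_le_mul_right _ (Nat.pow_le_pow_right (by norm_num) (Nat.le_succ i))
    have h3 : b ≤ 2 * a := by
      rw [ha, hb, pow_succ]
      rcases le_total (2 ^ i * m₀) N with h | h
      · rw [min_eq_left h]
        refine (min_le_left _ _).trans (le_of_eq (by ring))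
      · rw [min_eq_right h]
        exact (min_le_right _ _).trans (by omega)
    have h4 : Finset.Ioc m₀ b = Finset.Ioc m₀ a ∪ Finset.Ioc a b :=
      (Finset.Ioc_union_Ioc_eq_Ioc h1 h2).symm
    have h5 : Disjoint (Finset.Ioc m₀ a) (Finset.Ioc a b) := by
      rw [Finset.disjoint_left]
      intro x hx hx'
      rw [Finset.mem_Ioc] at hx hx'
      omega
    rw [h4, Finset.sum_union h5]
    refine (norm_add_le _ _).trans ?_
    have h6 := hB a b h1 (min_le_right _ _) h2 h3 (min_le_right _ _)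
    push_cast
    linarith

/-- the choice of the block bound -/
private theorem zbd_one {C c M₀ : ℝ} (hC : 0 < C) (hc : 0 < c) (hM₀ : 2 ≤ M₀)
    (hexs : ∀ (M M' : ℕ) (t : ℝ), M₀ ≤ M → M ≤ M' → M' ≤ 2 * M → 1 ≤ t →
      Real.log M ≤ 2 * Real.log t → ‖∑ n ∈ Finset.Ioc M M', (n : ℂ) ^ (-(t * Complex.I))‖ ≤
      C * M * (Real.log t / Real.log M) ^ 2 *
        Real.exp (-(c * Real.log M ^ 3 / Real.log t ^ 2)))
    {s : ℂ} (ht : 1 ≤ s.im) {l : ℝ} (hl : l = Real.log s.im) (hl1 : 1 ≤ l)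
    (hlc : 1 / c ^ 4 ≤ l) (hs0 : 0 ≤ s.re) (hs : 1 - l ^ (-(3 / 4 : ℝ)) ≤ s.re)
    {M M' : ℕ} (h1 : M₀ ≤ M) (h2 : l ^ (3 / 4 : ℝ) ≤ Real.log M) (h3 : Real.log M ≤ 2 * l)
    (h5 : M' ≤ 2 * M) :
    ‖∑ n ∈ Finset.Ioc M M', (n : ℂ) ^ (-s)‖ ≤ C * l := by
  have hM0 : (0 : ℝ) < M := by linarith
  have hM1 : 1 ≤ M := by
    have : (0 : ℝ) < M := hM0
    exact_mod_cast this
  have hM1' : (1 : ℝ) ≤ M := by exact_mod_cast hM1
  have hl0 : 0 < l := by linarith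
  have hp : 0 < l ^ (3 / 4 : ℝ) := Real.rpow_pos_of_pos hl0 _
  set L := Real.log M with hL
  have hL0 : 0 < L := hp.trans_le h2
  have hblk := block_cpow (M := M) (M' := M') hs0 hM1
    (B := C * M * (l / L) ^ 2 * Real.exp (-(c * L ^ 3 / l ^ 2))) (fun m hm1 hm2 => by
      have := hexs M m s.im h1 hm1 (hm2.trans h5) ht (by rw [← hl]; exact h3)
      rw [← hl] at this
      exact this)
  refine (hblk (by positivity)).trans ?_
  -- M^(-σ) M ≤ exp(L l^(-3/4))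
  have e1 : (M : ℝ) ^ (-s.re) * M ≤ Real.exp (L * l ^ (-(3 / 4 : ℝ))) := by
    have : (M : ℝ) ^ (-s.re) * M = (M : ℝ) ^ (-s.re + 1) := by
      rw [Real.rpow_add hM0, Real.rpow_one]
    rw [this, ← Real.rpow_def_of_pos hM0]
    apply Real.rpow_le_rpow_of_exponent_le hM1'
    linarith
  have e2 : (l / L) ^ 2 ≤ l := by
    have h6 : l / L ≤ l ^ (1 / 4 : ℝ) := by
      rw [div_le_iff₀ hL0]
      calc l = l ^ (1 / 4 : ℝ) * l ^ (3 / 4 : ℝ) := by
            rw [← Real.rpow_add hl0]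
            norm_num
        _ ≤ l ^ (1 / 4 : ℝ) * L := by gcongr
    calc (l / L) ^ 2 ≤ (l ^ (1 / 4 : ℝ)) ^ 2 := by
          have : 0 ≤ l / L := by positivity
          gcongr
      _ = l ^ (1 / 2 : ℝ) := by
          rw [← Real.rpow_natCast, ← Real.rpow_mul hl0.le]
          norm_num
      _ ≤ l ^ (1 : ℝ) := Real.rpow_le_rpow_of_exponent_le hl1 (by norm_num)
      _ = l := Real.rpow_one l
  have e3 : L * l ^ (-(3 / 4 : ℝ)) ≤ c * L ^ 3 / l ^ 2 := by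
    rw [le_div_iff₀ (by positivity)]
    have h7 : 1 ≤ c * l ^ (1 / 4 : ℝ) := by
      have h8 : (1 / c ^ 4) ^ (1 / 4 : ℝ) ≤ l ^ (1 / 4 : ℝ) := by
        apply Real.rpow_le_rpow (by positivity) hlc (by norm_num)
      have h9 : (1 / c ^ 4) ^ (1 / 4 : ℝ) = 1 / c := by
        rw [Real.div_rpow (by norm_num) (by positivity), Real.one_rpow]
        congr 1
        rw [← Real.rpow_natCast, ← Real.rpow_mul hc.le]
        norm_num
      rw [h9, div_le_iff₀ hc] at h8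
      linarith
    have h10 : l ^ (-(3 / 4 : ℝ)) * l ^ 2 = l ^ (5 / 4 : ℝ) := by
      rw [← Real.rpow_natCast l 2, ← Real.rpow_add hl0]
      norm_num
    have h11 : l ^ (5 / 4 : ℝ) ≤ c * (l ^ (3 / 4 : ℝ)) ^ 2 := by
      have h12 : (l ^ (3 / 4 : ℝ)) ^ 2 = l ^ (1 / 4 : ℝ) * l ^ (5 / 4 : ℝ) := by
        rw [← Real.rpow_natCast, ← Real.rpow_mul hl0.le, ← Real.rpow_add hl0]
        norm_num
      rw [h12, ← mul_assoc]
      have h13 : 0 ≤ l ^ (5 / 4 : ℝ) := by positivity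
      nlinarith
    have h14 : (l ^ (3 / 4 : ℝ)) ^ 2 ≤ L ^ 2 := by gcongr
    calc L * l ^ (-(3 / 4 : ℝ)) * l ^ 2 = L * l ^ (5 / 4 : ℝ) := by rw [mul_assoc, h10]
      _ ≤ L * (c * L ^ 2) := by
          have := mul_le_mul_of_nonneg_left h14 hc.le
          gcongr
          linarith
      _ = c * L ^ 3 := by ring
  have e4 : Real.exp (L * l ^ (-(3 / 4 : ℝ))) * Real.exp (-(c * L ^ 3 / l ^ 2)) ≤ 1 := by
    rw [← Real.exp_add, Real.exp_le_one_iff]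
    linarith
  have hE := Real.exp_pos (-(c * L ^ 3 / l ^ 2))
  calc (M : ℝ) ^ (-s.re) * (C * M * (l / L) ^ 2 * Real.exp (-(c * L ^ 3 / l ^ 2)))
      = C * (l / L) ^ 2 * (((M : ℝ) ^ (-s.re) * M) * Real.exp (-(c * L ^ 3 / l ^ 2))) := by ring
    _ ≤ C * l * 1 := by
        apply mul_le_mul
        · exact mul_le_mul_of_nonneg_left e2 hC.le
        · refine le_trans ?_ e4
          exact mul_le_mul_of_nonneg_right e1 hE.le
        · positivity
        · positivity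
    _ = C * l := mul_one _

theorem zeta_bound : ∃ C t₀ : ℝ, 1 ≤ C ∧ 3 ≤ t₀ ∧ ∀ s : ℂ, t₀ ≤ s.im →
    1 - Real.log s.im ^ (-(3 / 4 : ℝ)) ≤ s.re → s.re ≤ 3 →
    ‖riemannZeta s‖ ≤ C * Real.log s.im ^ 2 := by
  obtain ⟨C, c, M₀, hC, hc, hM₀, hexs⟩ := exs
  set l₀ : ℝ := max 4 (max (1 / c ^ 4) (Real.log M₀ ^ 2)) with hl₀
  have hl4 : 4 ≤ l₀ := le_max_left _ _
  refine ⟨33 + 4 * C, Real.exp l₀, by linarith, ?_, ?_⟩
  · have h1 := Real.add_one_le_exp l₀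
    linarith
  intro s hs1 hs2 hs3
  have ht0 : 0 < s.im := (Real.exp_pos _).trans_le hs1
  set t := s.im with ht
  set l := Real.log t with hl
  have hll : l₀ ≤ l := (Real.le_log_iff_exp_le ht0).2 hs1
  have hl4' : 4 ≤ l := hl4.trans hll
  have hl1 : 1 ≤ l := by linarith
  have hl0 : 0 < l := by linarith
  have htexp : t = Real.exp l := (Real.exp_log ht0).symm
  have hlc : 1 / c ^ 4 ≤ l := ((le_max_left _ _).trans (le_max_right _ _)).trans hll
  have hlM : Real.log M₀ ^ 2 ≤ l := ((le_max_right _ _).trans (le_max_right _ _)).trans hll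
  have hlogM₀ : 0 ≤ Real.log M₀ := Real.log_nonneg (by linarith)
  set q : ℝ := l ^ (3 / 4 : ℝ) with hq
  have hq_le : q ≤ l := by
    calc q ≤ l ^ (1 : ℝ) := Real.rpow_le_rpow_of_exponent_le hl1 (by norm_num)
      _ = l := Real.rpow_one l
  have hq_ge : l ^ (1 / 2 : ℝ) ≤ q := Real.rpow_le_rpow_of_exponent_le hl1 (by norm_num)
  have hsq : Real.sqrt l = l ^ (1 / 2 : ℝ) := Real.sqrt_eq_rpow l
  have hq2 : 2 ≤ q := by
    refine le_trans ?_ hq_ge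
    rw [← hsq]
    exact Real.le_sqrt_of_sq_le (by linarith)
  have hqM : Real.log M₀ ≤ q := by
    refine le_trans ?_ hq_ge
    rw [← hsq]
    exact Real.le_sqrt_of_sq_le hlM
  have hqinv : l ^ (-(3 / 4 : ℝ)) = q⁻¹ := by rw [Real.rpow_neg hl0.le]
  have hqinv2 : q⁻¹ ≤ 1 / 2 := by
    rw [← one_div]
    exact one_div_le_one_div_of_le (by norm_num) hq2
  have hσ : 1 / 2 ≤ s.re := by
    rw [hqinv] at hs2
    linarith
  have ht1 : 1 ≤ t := by
    rw [htexp]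
    exact Real.one_le_exp hl0.le
  have ht3 : 3 ≤ t := by
    have := Real.add_one_le_exp l
    rw [htexp]
    linarith
  -- the cut m₀
  set m₀ : ℕ := ⌈Real.exp q⌉₊ with hm₀
  have hm₀1 : Real.exp q ≤ m₀ := Nat.le_ceil _
  have hm₀2 : (m₀ : ℝ) < Real.exp q + 1 := Nat.ceil_lt_add_one (Real.exp_pos _).le
  have hexpq1 : 1 ≤ Real.exp q := Real.one_le_exp (by linarith)
  have hm₀pos : (1 : ℝ) ≤ m₀ := hexpq1.trans hm₀1
  have hm₀0 : 1 ≤ m₀ := by exact_mod_cast hm₀pos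
  have hlm₀ : Real.log m₀ ≤ 2 * q := by
    have h1 : (m₀ : ℝ) ≤ Real.exp q * Real.exp 1 := by
      have := Real.exp_one_gt_d9
      nlinarith
    rw [← Real.exp_add] at h1
    have h2 := Real.log_le_log (by linarith) h1
    rw [Real.log_exp] at h2
    linarith
  -- N
  set N : ℕ := ⌊t ^ 2⌋₊ with hN
  have hN1 : (N : ℝ) ≤ t ^ 2 := Nat.floor_le (by positivity)
  have hN2 : t ^ 2 < N + 1 := Nat.lt_floor_add_one _
  have hNpos : 1 ≤ N := by
    apply Nat.le_floor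
    push_cast
    nlinarith
  have hNpos' : (1 : ℝ) ≤ N := by exact_mod_cast hNpos
  have hN4 : (t / 2) ^ 2 ≤ N := by nlinarith
  have hmN : m₀ ≤ N := by
    apply Nat.le_floor
    have h1 : Real.exp q ≤ t := by
      rw [htexp]
      exact Real.exp_le_exp.2 hq_le
    nlinarith
  -- the sum over Icc 1 N
  have hsplit : ∑ n ∈ Finset.Icc 1 N, (n : ℂ) ^ (-s) =
      (∑ n ∈ Finset.Icc 1 m₀, (n : ℂ) ^ (-s)) + ∑ n ∈ Finset.Ioc m₀ N, (n : ℂ) ^ (-s) := by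
    have e1 : Finset.Icc 1 N = Finset.Icc 1 m₀ ∪ Finset.Ioc m₀ N := by
      ext x
      simp only [Finset.mem_Icc, Finset.mem_union, Finset.mem_Ioc]
      omega
    rw [e1, Finset.sum_union]
    rw [Finset.disjoint_left]
    intro x hx hx'
    rw [Finset.mem_Icc] at hx
    rw [Finset.mem_Ioc] at hx'
    omega
  have hhead := zbd_head (s := s) (a := q⁻¹) (by positivity) (by rw [← hqinv]; exact hs2) hm₀0
    (b := 2) (by
      have : Real.log m₀ * q⁻¹ ≤ 2 * q * q⁻¹ := by gcongr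
      rwa [mul_assoc, mul_inv_cancel₀ (by linarith), mul_one] at this)
  have hhead2 : ‖∑ n ∈ Finset.Icc 1 m₀, (n : ℂ) ^ (-s)‖ ≤ 24 * l ^ 2 := by
    refine hhead.trans ?_
    have h1 : Real.exp 2 ≤ 8 := by
      have h2 : Real.exp 2 = Real.exp 1 ^ 2 := by
        rw [← Real.exp_nat_mul]
        norm_num
      rw [h2]
      have h3 := Real.exp_one_lt_d9
      have h4 := Real.exp_pos 1
      nlinarith
    have h2 : 1 + Real.log m₀ ≤ 3 * l := by linarith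
    have h3 : 0 ≤ 1 + Real.log m₀ := by
      have := Real.log_nonneg hm₀pos
      linarith
    calc Real.exp 2 * (1 + Real.log m₀) ≤ 8 * (3 * l) := by gcongr
      _ ≤ 24 * l ^ 2 := by nlinarith
  -- blocks
  set i : ℕ := ⌈3 * l⌉₊ with hi
  have hi1 : 3 * l ≤ i := Nat.le_ceil _
  have hi2 : (i : ℝ) < 3 * l + 1 := Nat.ceil_lt_add_one (by linarith)
  have hpowN : N ≤ 2 ^ i * m₀ := by
    have h1 : t ^ 2 ≤ (2 : ℝ) ^ i := by
      rw [htexp, ← Real.exp_nat_mul]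
      calc Real.exp ((2 : ℕ) * l) ≤ Real.exp (Real.log 2 * i) := by
            apply Real.exp_le_exp.2
            have h2 := Real.log_two_gt_d9
            push_cast
            nlinarith
        _ = (2 : ℝ) ^ i := by
            rw [← Real.rpow_def_of_pos (by norm_num), Real.rpow_natCast]
    have h2 : (N : ℝ) ≤ (2 ^ i * m₀ : ℕ) := by
      push_cast
      calc (N : ℝ) ≤ (2 : ℝ) ^ i := hN1.trans h1
        _ ≤ (2 : ℝ) ^ i * m₀ := by
          have : (0 : ℝ) < (2 : ℝ) ^ i := by positivity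
          nlinarith
    exact_mod_cast h2
  have hblocks := zbd_blocks (s := s) hmN (B := C * l) (fun M M' h1 h2 h3 h4 h5 => by
    have hM1 : (m₀ : ℝ) ≤ M := by exact_mod_cast h1
    have hM2 : (M : ℝ) ≤ N := by exact_mod_cast h2
    have hMexp : Real.exp q ≤ M := hm₀1.trans hM1
    have hMpos : (0 : ℝ) < M := (Real.exp_pos _).trans_le hMexp
    refine zbd_one hC hc hM₀ hexs ht1 hl hl1 hlc (by linarith) hs2 ?_ ?_ ?_ h4
    · refine le_trans ?_ hMexp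
      rw [← Real.exp_log (by linarith : 0 < M₀)]
      exact Real.exp_le_exp.2 hqM
    · exact (Real.le_log_iff_exp_le hMpos).2 hMexp
    · have h6 : (M : ℝ) ≤ t ^ 2 := hM2.trans hN1
      have h7 := Real.log_le_log hMpos h6
      rwa [Real.log_pow] at h7) i
  rw [min_eq_right hpowN] at hblocks
  have hblocks2 : ‖∑ n ∈ Finset.Ioc m₀ N, (n : ℂ) ^ (-s)‖ ≤ 4 * C * l ^ 2 := by
    refine hblocks.trans ?_
    have h1 : (i : ℝ) ≤ 4 * l := by linarith
    calc (i : ℝ) * (C * l) ≤ 4 * l * (C * l) := by gcongr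
      _ = 4 * C * l ^ 2 := by ring
  have hs1' : s ≠ 1 := by
    intro h
    rw [h] at ht
    simp at ht
    linarith
  have happ := zeta_approx (s := s) (by linarith) hs1' hNpos
  -- error term
  have herr : ‖s‖ / s.re * (N : ℝ) ^ (-s.re) ≤ 8 := by
    have h1 : ‖s‖ ≤ 2 * t := by
      have h2 := Complex.norm_le_abs_re_add_abs_im s
      rw [abs_of_pos (by linarith : 0 < s.re), abs_of_pos ht0] at h2
      linarith
    have h2 : ‖s‖ / s.re ≤ 4 * t := by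
      rw [div_le_iff₀ (by linarith)]
      nlinarith
    have h3 : (N : ℝ) ^ (-s.re) ≤ 2 / t := by
      calc (N : ℝ) ^ (-s.re) ≤ (N : ℝ) ^ (-(1 / 2) : ℝ) :=
            Real.rpow_le_rpow_of_exponent_le hNpos' (by linarith)
        _ = 1 / Real.sqrt N := by
            rw [Real.rpow_neg (by linarith), ← Real.sqrt_eq_rpow, one_div]
        _ ≤ 1 / (t / 2) := by
            apply one_div_le_one_div_of_le (by linarith)
            exact Real.le_sqrt_of_sq_le hN4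
        _ = 2 / t := by field_simp
    calc ‖s‖ / s.re * (N : ℝ) ^ (-s.re) ≤ 4 * t * (2 / t) := by gcongr
      _ = 8 := by field_simp; norm_num
  have hpol : ‖(N : ℂ) ^ (1 - s) / (s - 1)‖ ≤ 1 := by
    rw [norm_div, Complex.norm_natCast_cpow_of_pos (by omega)]
    have h1 : t ≤ ‖s - 1‖ := by
      have h2 := Complex.abs_im_le_norm (s - 1)
      simp only [Complex.sub_im, Complex.one_im, sub_zero] at h2
      rw [← ht, abs_of_pos ht0] at h2
      exact h2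
    have h2 : (N : ℝ) ^ (1 - s).re ≤ t := by
      calc (N : ℝ) ^ (1 - s).re ≤ (N : ℝ) ^ (1 / 2 : ℝ) := by
            apply Real.rpow_le_rpow_of_exponent_le hNpos'
            simp only [Complex.sub_re, Complex.one_re]
            linarith
        _ = Real.sqrt N := (Real.sqrt_eq_rpow _).symm
        _ ≤ Real.sqrt (t ^ 2) := Real.sqrt_le_sqrt hN1
        _ = t := Real.sqrt_sq ht0.le
    rw [div_le_one (by linarith)]
    linarith
  rw [hsplit] at happ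
  have hfinal : ‖riemannZeta s‖ ≤ ‖riemannZeta s - ((∑ n ∈ Finset.Icc 1 m₀, (n : ℂ) ^ (-s)) +
      ∑ n ∈ Finset.Ioc m₀ N, (n : ℂ) ^ (-s)) - (N : ℂ) ^ (1 - s) / (s - 1)‖ +
      ‖∑ n ∈ Finset.Icc 1 m₀, (n : ℂ) ^ (-s)‖ + ‖∑ n ∈ Finset.Ioc m₀ N, (n : ℂ) ^ (-s)‖ +
      ‖(N : ℂ) ^ (1 - s) / (s - 1)‖ := by
    calc ‖riemannZeta s‖ = ‖(riemannZeta s - ((∑ n ∈ Finset.Icc 1 m₀, (n : ℂ) ^ (-s)) +
      ∑ n ∈ Finset.Ioc m₀ N, (n : ℂ) ^ (-s)) - (N : ℂ) ^ (1 - s) / (s - 1)) +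
      (∑ n ∈ Finset.Icc 1 m₀, (n : ℂ) ^ (-s)) + (∑ n ∈ Finset.Ioc m₀ N, (n : ℂ) ^ (-s)) +
      (N : ℂ) ^ (1 - s) / (s - 1)‖ := by congr 1; ring
      _ ≤ _ := (norm_add_le _ _).trans (by
          gcongr
          exact (norm_add_le _ _).trans (by
            gcongr
            exact norm_add_le _ _))
  have hl2 : 1 ≤ l ^ 2 := by nlinarith
  nlinarith

end Pool.MSP
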