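import Pool.Agent.MSP.Zbd
import Pool.Agent.MSP.Lan
import Pool.Agent.MSP.Tfo

/-!
# MSP / Zfr: a zero free region of width `(log t)^(-4/5)`

PROOF. Let `ζ(β + iγ) = 0`, `γ ≥ t₀` large, `ℓ = log(3γ)`; `β < 1` (`riemannZeta_ne_zero_of_one_le_re`). Let `r = ℓ^(-3/4)`, `M = A log ℓ` with a large constant `A`, `L = (M+1)/r = ℓ^(3/4) (A log ℓ + 1)`, `δ = 1/(200 L)`, `s₁ = 1 + δ + iγ`, `s₂ = 1 + δ + 2iγ`.
(1) On `closedBall s_j r`: `Re s ≥ 1 - r ≥ 1 - (log Im s)^(-3/4)` (`Im s ≤ 2γ + 1 ≤ 3γ`), `Re s ≤ 3`, `Im s ≥ γ - 1`; `zeta_bound`: `‖ζ(s)‖ ≤ C ℓ^2`; `‖ζ(s_j)‖⁻¹ ≤ 1 + 1/δ ≤ 400 L ≤ ℓ` for large `γ` (`zeta_inv`); so `‖ζ(s)‖ ≤ C ℓ^3 ‖ζ(s_j)‖ ≤ e^M ‖ζ(s_j)‖` if `A ≥ 4`, `γ` large.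
`ζ` is analytic near these balls (`1` is far away), its zeros have real part `< 1 < Re s_j`.
(2) `landau` (first part) at `s₂`: `-Re ζ'/ζ(s₂) ≤ 4 L`. (second part) at `s₁` with `ρ = β + iγ` provided `|s₁ - ρ| = 1 + δ - β =: x ≤ r/2`: `-Re ζ'/ζ(s₁) ≤ 4L - (1/x^2 - 1/r^2) x = 4L - 1/x + x/r^2 ≤ 4L - 1/x + 1/r ≤ 5L - 1/x`.
(3) `tfo`, `zeta_pole`: `0 ≤ 3/δ + 3C' + 20 L - 4/x + 4L`: `4/x ≤ 600 L + 25 L = 625 L` for large `γ` (`3C' ≤ L`): `x ≥ 4/(625 L) = 0.0064/L`, while `δ = 0.005/L`: `1 - β = x - δ ≥ 0.0014/L ≥ 1/(1000 L)`.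
If `x > r/2` then `1 - β ≥ r/2 - δ ≥ 1/(1000 L)` as well. (4) `1/(1000 L) > (log γ)^(-4/5)` for large `γ`: `1000 ℓ^(3/4) (A log ℓ + 1) < (log γ)^(4/5)`, `ℓ = log γ + log 3`. So a zero with `β ≥ 1 - (log γ)^(-4/5)` is impossible.
Suggestion: write `L` etc. as functions of `γ` and collect the inequalities for large `γ` with `Filter.Eventually` (`isLittleO_log_rpow_atTop`), one private lemma.
-/

set_option autoImplicit false

open MeasureTheory Filter Topology Set Metric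

namespace Pool.MSP

private lemma zfr_log : ∀ᶠ l : ℝ in atTop, 2000 * (4 * Real.log l + 1) < l ^ (1 / 20 : ℝ) := by
  have h1 : ∀ᶠ l : ℝ in atTop, ‖Real.log l‖ ≤ (1 / 20000 : ℝ) * ‖l ^ (1 / 20 : ℝ)‖ :=
    (isLittleO_log_rpow_atTop (by norm_num : (0 : ℝ) < 1 / 20)).bound (by norm_num)
  have h2 : ∀ᶠ l : ℝ in atTop, (20000 : ℝ) ≤ l ^ (1 / 20 : ℝ) :=
    (tendsto_rpow_atTop (by norm_num : (0 : ℝ) < 1 / 20)).eventually_ge_atTop _
  filter_upwards [h1, h2] with l h1 h2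
  rw [Real.norm_eq_abs, Real.norm_eq_abs, abs_of_nonneg (by linarith : 0 ≤ l ^ (1 / 20 : ℝ))] at h1
  have h3 := (le_abs_self _).trans h1
  linarith

private lemma zfr_large (C C' t1 : ℝ) : ∃ t₀ : ℝ, 3 ≤ t₀ ∧ ∀ γ : ℝ, t₀ ≤ γ →
    t1 + 1 ≤ γ ∧ 16 ≤ Real.log (3 * γ) ∧ C ≤ Real.log (3 * γ) ∧
    3 * C' ≤ Real.log (3 * γ) ^ (3 / 4 : ℝ) ∧
    2000 * (4 * Real.log (Real.log (3 * γ)) + 1) < Real.log (3 * γ) ^ (1 / 20 : ℝ) := by
  have hT : Tendsto (fun γ : ℝ => Real.log (3 * γ)) atTop atTop :=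
    Real.tendsto_log_atTop.comp (tendsto_id.const_mul_atTop (by norm_num : (0 : ℝ) < 3))
  have h1 : ∀ᶠ γ : ℝ in atTop, t1 + 1 ≤ γ := eventually_ge_atTop _
  have h2 := hT.eventually (eventually_ge_atTop (16 : ℝ))
  have h3 := hT.eventually (eventually_ge_atTop C)
  have h4 := hT.eventually
    ((tendsto_rpow_atTop (by norm_num : (0 : ℝ) < 3 / 4)).eventually_ge_atTop (3 * C'))
  have h5 := hT.eventually zfr_log
  obtain ⟨a, ha⟩ := eventually_atTop.1 (h1.and (h2.and (h3.and (h4.and h5))))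
  exact ⟨max a 3, le_max_right _ _, fun γ hγ => ha γ ((le_max_left _ _).trans hγ)⟩

private lemma zfr_landau {C t1 : ℝ}
    (hzb : ∀ s : ℂ, t1 ≤ s.im → 1 - Real.log s.im ^ (-(3 / 4 : ℝ)) ≤ s.re → s.re ≤ 3 →
      ‖riemannZeta s‖ ≤ C * Real.log s.im ^ 2) {γ l δ r y : ℝ} (hl : l = Real.log (3 * γ))
    (hr : r = l ^ (-(3 / 4 : ℝ))) (hr1 : r ≤ 1) (hl1 : 1 ≤ l) (hCl : C ≤ l) (ht1 : 3 ≤ t1)
    (htγ : t1 + 1 ≤ γ) (hδ : 0 < δ) (hδ1 : δ ≤ 1) (hδl : 1 + 1 / δ ≤ l) (hy : γ ≤ y)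
    (hy' : y ≤ 2 * γ) {s₀ : ℂ} (hs₀ : s₀ = ((1 + δ : ℝ) : ℂ) + (y : ℂ) * Complex.I) :
    -(deriv riemannZeta s₀ / riemannZeta s₀).re ≤ 4 * (4 * Real.log l + 1) / r ∧
    ∀ ρ ∈ closedBall s₀ (r / 2), riemannZeta ρ = 0 →
      -(deriv riemannZeta s₀ / riemannZeta s₀).re ≤ 4 * (4 * Real.log l + 1) / r -
        (1 / ‖s₀ - ρ‖ ^ 2 - 1 / r ^ 2) * (s₀ - ρ).re := by
  have hre : s₀.re = 1 + δ := by rw [hs₀]; simp
  have him : s₀.im = y := by rw [hs₀]; simp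
  have hl0 : 0 < l := by linarith
  have hr0 : 0 < r := by rw [hr]; exact Real.rpow_pos_of_pos hl0 _
  have hlog : 0 ≤ Real.log l := Real.log_nonneg hl1
  have hball : ∀ s ∈ closedBall s₀ r, |s.re - (1 + δ)| ≤ r ∧ |s.im - y| ≤ r := by
    intro s hs
    rw [mem_closedBall, dist_eq_norm] at hs
    constructor
    · have h1 := (Complex.abs_re_le_norm (s - s₀)).trans hs
      rwa [Complex.sub_re, hre] at h1
    · have h1 := (Complex.abs_im_le_norm (s - s₀)).trans hs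
      rwa [Complex.sub_im, him] at h1
  have hinv : 1 ≤ l * ‖riemannZeta s₀‖ := by
    have h1 := zeta_inv (s := s₀) (by rw [hre]; linarith)
    rw [hre, add_sub_cancel_left, norm_inv] at h1
    have h2 : (‖riemannZeta s₀‖)⁻¹ ≤ l := h1.trans hδl
    have h3 : riemannZeta s₀ ≠ 0 := riemannZeta_ne_zero_of_one_le_re (by rw [hre]; linarith)
    have h4 : 0 < ‖riemannZeta s₀‖ := norm_pos_iff.2 h3
    calc (1 : ℝ) = (‖riemannZeta s₀‖)⁻¹ * ‖riemannZeta s₀‖ := by field_simp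
      _ ≤ l * ‖riemannZeta s₀‖ := mul_le_mul_of_nonneg_right h2 h4.le
  refine landau hr0 (by positivity) ?_ ?_ ?_ ?_
  · intro s hs
    have h1 := (hball s hs).2
    have h2 : s ≠ 1 := by
      intro h
      rw [h, Complex.one_im, abs_le] at h1
      linarith [h1.1, h1.2]
    have h3 : DifferentiableOn ℂ riemannZeta {1}ᶜ := fun z hz =>
      (differentiableAt_riemannZeta hz).differentiableWithinAt
    exact h3.analyticAt (isOpen_compl_singleton.mem_nhds h2)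
  · exact riemannZeta_ne_zero_of_one_le_re (by rw [hre]; linarith)
  · intro s hs
    obtain ⟨h1, h2⟩ := hball s hs
    rw [abs_le] at h1 h2
    have h3 : t1 ≤ s.im := by linarith [h2.1]
    have h4 : s.im ≤ 3 * γ := by linarith [h2.2]
    have h5 : 0 < Real.log s.im := Real.log_pos (by linarith)
    have h6 : Real.log s.im ≤ l := by
      rw [hl]
      exact Real.log_le_log (by linarith) h4
    have h7 : r ≤ Real.log s.im ^ (-(3 / 4 : ℝ)) := by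
      rw [hr]
      exact Real.rpow_le_rpow_of_nonpos h5 h6 (by norm_num)
    have h8 := hzb s h3 (by linarith [h1.1]) (by linarith [h1.2])
    have h9 : Real.exp (4 * Real.log l) = l ^ 4 := by
      rw [show (4 : ℝ) * Real.log l = ((4 : ℕ) : ℝ) * Real.log l by norm_num, Real.exp_nat_mul,
        Real.exp_log hl0]
    rw [h9]
    have h10 : C * Real.log s.im ^ 2 ≤ l * l ^ 2 :=
      mul_le_mul hCl (pow_le_pow_left₀ h5.le h6 2) (by positivity) hl0.le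
    calc ‖riemannZeta s‖ ≤ l * l ^ 2 := h8.trans h10
      _ = l ^ 3 * 1 := by ring
      _ ≤ l ^ 3 * (l * ‖riemannZeta s₀‖) := mul_le_mul_of_nonneg_left hinv (by positivity)
      _ = l ^ 4 * ‖riemannZeta s₀‖ := by ring
  · intro s hs hz
    by_contra hcon
    push Not at hcon
    rw [hre] at hcon
    exact riemannZeta_ne_zero_of_one_le_re (by linarith) hz

private lemma zfr_num {L δ x r C' a b c : ℝ} (hL : 0 < L) (hδ : δ = 1 / (200 * L)) (hr : 0 < r)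
    (hrL : 1 ≤ r * L) (hC' : 3 * C' ≤ L) (hx : 0 < x) (hxr : x ≤ r / 2)
    (ha : a ≤ 1 / δ + C') (hb : b ≤ 4 * L - (1 / x ^ 2 - 1 / r ^ 2) * x) (hc : c ≤ 4 * L)
    (h : 0 ≤ 3 * a + 4 * b + c) : 4 / (623 * L) ≤ x := by
  have h1 : 1 / δ = 200 * L := by rw [hδ]; field_simp
  have h2 : (1 / x ^ 2 - 1 / r ^ 2) * x = 1 / x - x / r ^ 2 := by
    field_simp
  have h3 : x / r ^ 2 ≤ L / 2 := by
    rw [div_le_iff₀ (by positivity)]
    nlinarith [mul_le_mul_of_nonneg_left hrL hr.le]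
  rw [h2] at hb
  rw [h1] at ha
  have h4 : 4 / x ≤ 623 * L := by
    have h5 : 4 / x = 4 * (1 / x) := by ring
    rw [h5]
    linarith
  rw [div_le_iff₀ hx] at h4
  rw [div_le_iff₀ (by positivity)]
  linarith

theorem zero_free : ∃ t₀ : ℝ, 3 ≤ t₀ ∧ ∀ s : ℂ, t₀ ≤ s.im →
    1 - Real.log s.im ^ (-(4 / 5 : ℝ)) ≤ s.re → riemannZeta s ≠ 0 := by
  obtain ⟨C, t1, hC1, ht1, hzb⟩ := zeta_bound
  obtain ⟨C', hC'0, hpole⟩ := zeta_pole
  obtain ⟨t₀, ht₀, hlarge⟩ := zfr_large C C' t1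
  refine ⟨t₀, ht₀, fun ρ hγ hre hρ => ?_⟩
  obtain ⟨h1, h2, h3, h4, h5⟩ := hlarge ρ.im hγ
  obtain ⟨γ, hγd⟩ : ∃ γ, γ = ρ.im := ⟨_, rfl⟩
  obtain ⟨β, hβd⟩ : ∃ β, β = ρ.re := ⟨_, rfl⟩
  rw [← hγd] at h1 h2 h3 h4 h5 hγ hre
  rw [← hβd] at hre
  obtain ⟨l, hl⟩ : ∃ l, l = Real.log (3 * γ) := ⟨_, rfl⟩
  rw [← hl] at h2 h3 h4 h5
  obtain ⟨r, hr⟩ : ∃ r, r = l ^ (-(3 / 4 : ℝ)) := ⟨_, rfl⟩
  obtain ⟨L, hL⟩ : ∃ L, L = (4 * Real.log l + 1) / r := ⟨_, rfl⟩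
  obtain ⟨δ, hδ⟩ : ∃ δ, δ = 1 / (200 * L) := ⟨_, rfl⟩
  have hl0 : 0 < l := by linarith
  have hlog : 0 ≤ Real.log l := Real.log_nonneg (by linarith)
  have hr0 : 0 < r := by rw [hr]; exact Real.rpow_pos_of_pos hl0 _
  have hr1 : r ≤ 1 := by
    rw [hr]
    exact Real.rpow_le_one_of_one_le_of_nonpos (by linarith) (by norm_num)
  have hri : 1 / r = l ^ (3 / 4 : ℝ) := by
    rw [hr, Real.rpow_neg hl0.le, one_div, inv_inv]
  have hL1 : L = (4 * Real.log l + 1) * l ^ (3 / 4 : ℝ) := by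
    rw [hL, ← hri]
    ring
  have hl34 : 1 ≤ l ^ (3 / 4 : ℝ) := Real.one_le_rpow (by linarith) (by norm_num)
  have hL34 : l ^ (3 / 4 : ℝ) ≤ L := by
    rw [hL1]
    nlinarith
  have hL0 : 0 < L := by linarith
  have hrL : 1 ≤ r * L := by
    rw [hL]
    field_simp
    linarith
  have hδ0 : 0 < δ := by rw [hδ]; positivity
  have hδ1 : δ ≤ 1 := by
    rw [hδ, div_le_one (by positivity)]
    linarith
  have hL2 : 2000 * L < l ^ (4 / 5 : ℝ) := by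
    have h6 : l ^ (4 / 5 : ℝ) = l ^ (1 / 20 : ℝ) * l ^ (3 / 4 : ℝ) := by
      rw [← Real.rpow_add hl0]
      norm_num
    rw [h6, hL1]
    calc 2000 * ((4 * Real.log l + 1) * l ^ (3 / 4 : ℝ))
        = 2000 * (4 * Real.log l + 1) * l ^ (3 / 4 : ℝ) := by ring
      _ < l ^ (1 / 20 : ℝ) * l ^ (3 / 4 : ℝ) := mul_lt_mul_of_pos_right h5 (by linarith)
  have hLl : 2000 * L < l := by
    refine hL2.trans_le ?_
    calc l ^ (4 / 5 : ℝ) ≤ l ^ (1 : ℝ) :=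
          Real.rpow_le_rpow_of_exponent_le (by linarith) (by norm_num)
      _ = l := Real.rpow_one l
  have hδi : 1 / δ = 200 * L := by rw [hδ]; field_simp
  have hδl : 1 + 1 / δ ≤ l := by
    rw [hδi]
    linarith
  obtain ⟨x, hx⟩ : ∃ x, x = 1 + δ - β := ⟨_, rfl⟩
  have hβ1 : β < 1 := by
    by_contra hcon
    push Not at hcon
    rw [hβd] at hcon
    exact riemannZeta_ne_zero_of_one_le_re hcon hρ
  have hx0 : 0 < x := by linarith
  have key : 1 / (1000 * L) ≤ 1 - β := by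
    have hx1 : 1 - β = x - δ := by rw [hx]; ring
    rw [hx1]
    rcases le_or_gt x (r / 2) with hxr | hxr
    · obtain ⟨-, hb⟩ := zfr_landau hzb hl hr hr1 (by linarith) h3 ht1 h1 hδ0 hδ1 hδl le_rfl
        (by linarith : γ ≤ 2 * γ) (s₀ := ((1 + δ : ℝ) : ℂ) + (γ : ℂ) * Complex.I) rfl
      obtain ⟨hc, -⟩ := zfr_landau hzb hl hr hr1 (by linarith) h3 ht1 h1 hδ0 hδ1 hδl
        (by linarith : γ ≤ 2 * γ) le_rfl
        (s₀ := ((1 + δ : ℝ) : ℂ) + ((2 * γ : ℝ) : ℂ) * Complex.I) rfl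
      have hs : ((1 + δ : ℝ) : ℂ) + (γ : ℂ) * Complex.I - ρ = (x : ℂ) := by
        apply Complex.ext
        · simp [hx, hβd]
        · simp [hγd]
      have hn : ‖((1 + δ : ℝ) : ℂ) + (γ : ℂ) * Complex.I - ρ‖ = x := by
        rw [hs, Complex.norm_real, Real.norm_eq_abs, abs_of_pos hx0]
      have hb' := hb ρ (by
        rw [mem_closedBall, dist_comm, dist_eq_norm, hn]
        exact hxr) hρ
      rw [hn, hs, Complex.ofReal_re] at hb'
      have ht := tfo (σ := 1 + δ) (by linarith) γ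
      have hp := hpole (1 + δ) (by linarith) (by linarith)
      have h7 : 4 * (4 * Real.log l + 1) / r = 4 * L := by
        rw [hL]
        ring
      rw [h7] at hb' hc
      rw [add_sub_cancel_left] at hp
      have h6 := zfr_num hL0 hδ hr0 hrL (h4.trans hL34) hx0 hxr hp hb' hc (by linarith)
      have h8 : 4 / (623 * L) - δ = (4 / 623 - 1 / 200) * (1 / L) := by
        rw [hδ]
        field_simp
      have h9 : 1 / (1000 * L) = 1 / 1000 * (1 / L) := by field_simp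
      have h10 : 0 < 1 / L := by positivity
      have h11 : 1 / (1000 * L) ≤ 4 / (623 * L) - δ := by
        rw [h8, h9]
        exact mul_le_mul_of_nonneg_right (by norm_num) h10.le
      linarith
    · have h7 : 1 / L ≤ r := by
        rw [div_le_iff₀ hL0]
        exact hrL
      have h8 : δ = 1 / 200 * (1 / L) := by rw [hδ]; field_simp
      have h9 : 1 / (1000 * L) = 1 / 1000 * (1 / L) := by field_simp
      have h10 : 0 < 1 / L := by positivity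
      rw [h9, h8]
      linarith
  have hlγ : l / 2 ≤ Real.log γ := by
    have hγ0 : 0 < γ := by linarith
    have h6 : l = Real.log 3 + Real.log γ := by
      rw [hl, Real.log_mul (by norm_num) hγ0.ne']
    have h7 : Real.log 3 ≤ 2 := by
      have := Real.log_le_sub_one_of_pos (by norm_num : (0 : ℝ) < 3)
      linarith
    linarith
  have hfin : 1000 * L < Real.log γ ^ (4 / 5 : ℝ) := by
    have h6 : l ^ (4 / 5 : ℝ) / 2 ≤ (l / 2) ^ (4 / 5 : ℝ) := by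
      rw [Real.div_rpow hl0.le (by norm_num)]
      have h7 : (2 : ℝ) ^ (4 / 5 : ℝ) ≤ 2 := by
        calc (2 : ℝ) ^ (4 / 5 : ℝ) ≤ (2 : ℝ) ^ (1 : ℝ) :=
              Real.rpow_le_rpow_of_exponent_le (by norm_num) (by norm_num)
          _ = 2 := Real.rpow_one 2
      have h8 : (0 : ℝ) < 2 ^ (4 / 5 : ℝ) := Real.rpow_pos_of_pos (by norm_num) _
      exact div_le_div_of_nonneg_left (Real.rpow_nonneg hl0.le _) h8 h7
    have h7 : (l / 2) ^ (4 / 5 : ℝ) ≤ Real.log γ ^ (4 / 5 : ℝ) :=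
      Real.rpow_le_rpow (by linarith) hlγ (by norm_num)
    linarith
  have hlg : 0 < Real.log γ := by linarith
  have h6 : Real.log γ ^ (-(4 / 5 : ℝ)) < 1 / (1000 * L) := by
    rw [Real.rpow_neg hlg.le, ← one_div]
    exact one_div_lt_one_div_of_lt (by positivity) hfin
  linarith

end Pool.MSP
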